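import Pool.Agent.MP_13199e_lc.QL.Model
import Pool.Agent.MP_13199e_lc.PP.Top

/-! PROJECT QL, row AMPN: a tower with a round and a net. -/

set_option autoImplicit false

namespace Pool.Agent.PP.QL

open Pool.Agent.MP_13199e_lc

theorem ampNS : AmpNS := by
  intro hG
  obtain ⟨P, j, h1, h2, h3⟩ := parS smpS ldS
  have hy := P.hyp.hy
  have hr := P.hr
  obtain ⟨Mv, fM, T, G, a, b, c⟩ := hG P.r j P.Lab P.r10 h1 h2
  have fL : Finite P.Lab := Nat.finite_of_card_ne_zero (by rw [h2]; positivity)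
  refine ⟨Mv, P.Lab, P.Sl, fM, fL, inferInstance, T, 1 / (P.y : ℝ) ^ 1090, 3 * P.r,
    one_div_pos.2 (pow_pos (Nat.cast_pos.2 (by omega)) _), ?_,
    Par.rnd P Mv _ T G _ ⟨.refl _⟩ h3 a b, c⟩
  rw [P.cS]
  calc 10 ^ 12 * (3 * P.r) ^ 2 ≤ (2 ^ 20) ^ 2 * P.y ^ 2 :=
        Nat.mul_le_mul (by norm_num) (Nat.pow_le_pow_left (by omega) 2)
    _ ≤ P.y ^ 2 * P.y ^ 2 := Nat.mul_le_mul_right _ (Nat.pow_le_pow_left hy 2)
    _ = P.y ^ 4 := by ring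
    _ ≤ _ := Nat.pow_le_pow_right (by omega) (by norm_num)

end Pool.Agent.PP.QL
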