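import Pool.Agent.MP_13199e_lc.QL.Model
import Pool.Agent.MP_13199e_lc.PP.G.ToG
import Pool.Agent.MP_13199e_lc.Amp.Top

/-! PROJECT QL, FIN: the assembly of the front end and the back end. -/

set_option autoImplicit false

namespace Pool.Agent.PP.QL

open Pool.Agent.MP_13199e_lc Pool.Agent.PolyT Pool.Agent.H82

namespace Fin1

open TG

theorem poly_enc : Poly enc := by unfold enc blk mx th; fun_prop

theorem poly_dec : Poly dec := by
  have := poly_toV
  unfold dec; fun_prop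

theorem viol {C : List PGate} (h : PWf C) {δ : ℚ} {x : List ℚ} (hx : GSol (1 / 20) δ (enc C) x) :
    pviol C (dec (C, x)) ≤ 12 * δ := by
  have p : (0 : ℝ) < C.length := Nat.cast_pos.2 (List.length_pos_iff.2 h.1)
  have l := (enc_flat C).1
  have k : ∀ i : {i : Fin C.length // ¬POk C (val (dec (C, x))) i},
      ∃ c : {c | c < (enc C).length ∧ ¬GSat (1 / 20) (enc C) x c}, c.1 / 12 = i.1.1 := fun i => by
    obtain ⟨k, hk, u⟩ : ∃ k < 12, ¬GSat (1 / 20) (enc C) x (12 * i.1.1 + k) := by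
      by_contra! v
      exact i.2 (ok h x i.1.2 v)
    have := i.1.2
    exact ⟨⟨_, by omega, u⟩, by dsimp only; omega⟩
  choose φ hφ using k
  have : Finite {c | c < (enc C).length ∧ ¬GSat (1 / 20) (enc C) x c} :=
    ((Set.finite_lt_nat _).subset fun _ u => u.1).to_subtype
  have n := Nat.card_le_card_of_injective φ fun i j u =>
    Subtype.ext (Fin.ext (by rw [← hφ, ← hφ, u]))
  have m : (Set.ncard {c | c < (enc C).length ∧ ¬GSat (1 / 20) (enc C) x c} : ℝ) ≤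
      δ * (enc C).length := by exact_mod_cast hx.2
  rw [pviol, pr_eq_cn, Nat.card_eq_fintype_card, Fintype.card_fin, div_le_iff₀ p]
  refine ((Nat.cast_le.2 n).trans m).trans_eq ?_
  rw [l]; push_cast; ring

theorem cst (K m : ℕ) : K ≤ (m + 2) ^ K :=
  Nat.lt_two_pow_self.le.trans (Nat.pow_le_pow_left (by omega) _)

theorem scale {a N m c : ℕ} (K : ℕ) (h : a ≤ N * (m + 2) ^ c) :
    K * a ≤ N * (m + 2) ^ (c + K) := by
  rw [pow_add, ← mul_assoc, mul_comm K]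
  exact Nat.mul_le_mul h (cst K m)

theorem lg_le (n : ℕ) : lg n ≤ (Nat.log 2 n + 2) ^ 2 := by
  have := Nat.size_le.2 (Nat.lt_pow_succ_log_self one_lt_two n)
  unfold lg
  nlinarith

theorem lg_mul {M N c : ℕ} (h : M ≤ N * lg N ^ c) : lg M ≤ (c + 1) * lg N := by
  have : M < 2 ^ (N.size + lg N * c) := by
    rw [pow_add, pow_mul]
    exact h.trans_lt (Nat.mul_lt_mul_of_lt_of_le (Nat.lt_size_self N)
      (Nat.pow_le_pow_left Nat.lt_two_pow_self.le _) (by positivity))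
  have := Nat.size_le.2 this
  rw [add_mul, one_mul, mul_comm c, lg, lg] at *
  omega

theorem total {M N u c e T : ℕ} (h : M ≤ N * lg N ^ c) (hu : u ≤ lg N ^ c)
    (hT : T ≤ M * (u + lg M) ^ e) :
    T ≤ N * (Nat.log 2 N + 2) ^ (2 * c + (2 * c + 3 + 2) * e) := by
  have a := lg_le N
  have b : lg N ^ c ≤ (Nat.log 2 N + 2) ^ (2 * c) := by
    rw [pow_mul]
    exact Nat.pow_le_pow_left a _
  have d := (lg_mul h).trans (scale (N := 1) (c + 1) (a.trans_eq (one_mul _).symm))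
  have f : ∀ {i}, i ≤ 2 * c + 3 → (Nat.log 2 N + 2) ^ i ≤ (Nat.log 2 N + 2) ^ (2 * c + 3) :=
    fun hi => Nat.pow_le_pow_right (by omega) hi
  have g := scale (N := 1) 2 (one_mul ((Nat.log 2 N + 2) ^ (2 * c + 3))).ge
  have f1 := f (i := 2 * c) (by omega)
  have f2 := f (i := 2 + (c + 1)) (by omega)
  rw [pow_add, ← mul_assoc, pow_mul _ (2 * c + 3 + 2)]
  exact hT.trans (Nat.mul_le_mul (h.trans (Nat.mul_le_mul_left _ b))
    (Nat.pow_le_pow_left (by omega) _))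

theorem pcp (hB : QBase) (hG : QGap) : QuasiPCP := by
  obtain ⟨c, f, u, g, pf, pu, pg, h₁⟩ := hB
  obtain ⟨δ, e, f₂, g₂, hδ, p₂, q₂, h₂⟩ := hG
  obtain ⟨d, d0, d1⟩ := exists_rat_btwn (div_pos hδ (show (0 : ℝ) < 12 by norm_num))
  have p₃ := poly_enc
  have q₃ := poly_dec
  refine ⟨1 / 20, d, 2 * c + (2 * c + 3 + 2) * e + 12, by norm_num, by exact_mod_cast d0,
    fun I => enc (f₂ (f I, u I)),
    fun a => g (a.1, g₂ ((f a.1, u a.1), dec (f₂ (f a.1, u a.1), a.2))),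
    (poly_iff _).1 (by fun_prop), (poly_iff _).1 (by fun_prop), fun I hI => ?_⟩
  obtain ⟨a1, a2, a3, a4, a5⟩ := h₁ I hI
  obtain ⟨b1, b2, b3⟩ := h₂ _ (u I) a1
  exact ⟨enc_wf b1, trivial, (enc_flat _).1.trans_le (scale 12 (total a2 a3 b2)),
    fun x hx => a5 _ (b3 a4 _ ((viol b1 hx).trans (by linarith)))⟩

theorem opt (h : QuasiPCP) : QuasiOpt := by
  obtain ⟨ε₀, δ₀, c, h0, hδ, f₀, g₀, p₀, q₀, h⟩ := h
  intro η hη
  obtain ⟨s, K, ε, f, g, hs, hε, p, q, h'⟩ := Amp.amp h0 hδ hη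
  rw [← poly_iff] at p₀ q₀
  refine ⟨s, ε, c + K, hs, hε, fun I => f (f₀ I), fun z => g₀ (z.1, g (f₀ z.1, z.2)),
    (poly_iff _).1 (by fun_prop), (poly_iff _).1 (by fun_prop), fun I hI => ?_⟩
  obtain ⟨a1, -, a2, a3⟩ := h I hI
  obtain ⟨b1, b2, b3, b4⟩ := h' _ a1
  exact ⟨b1, b2, b3.trans (scale K a2), fun x hx => a3 _ (b4 x hx)⟩

end Fin1

theorem finS : FinS := fun hB hG => ⟨Fin1.pcp hB hG, Fin1.opt (Fin1.pcp hB hG)⟩

end Pool.Agent.PP.QL
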