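import Pool.Agent.MP_13199e_lc.QL.Model
import Pool.Agent.MP_13199e_lc.PP.G.Comp

/-! PROJECT QL, block GRID: stations in the grid of two trees. -/

set_option autoImplicit false

namespace Pool.Agent.PP.QL

open Pool.Agent.MP_13199e_lc Pool.Agent.PolyT Pool.Agent.H82 Function

namespace Grid

/-- Transport with a change of the frame at the root: up in the frame `q`, down in `q'`. -/
theorem pass2 {P : Type} (q q' : ℕ → P) (A B : Bool → P → P) (S M U R N D : P → V4) (n₀ a : ℕ)
    (c : V4) (hq : ∀ n, n ≠ 0 → q n = A n.bodd (q (n / 2)))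
    (hq' : ∀ n, n ≠ 0 → q' n = A n.bodd (q' (n / 2))) (hB : ∀ b z, B b (A b z) = z)
    (hM : ∀ n < n₀, U (A (dir n a) (q n)) = c → M (q n) = c)
    (hU : ∀ n < n₀, (bif eqB n a then S else M) (q n) = c → U (q n) = c)
    (hR : U (q 0) = c → R (q' 0) = c)
    (hN : ∀ n < n₀, D (B n.bodd (q' n)) = c → N (q' n) = c)
    (hD : ∀ n < n₀, (bif eqB n 0 then R else N) (q' n) = c → D (q' n) = c)
    (ha : a < n₀) (hS : S (q a) = c) : ∀ n < n₀, D (q' n) = c := by
  have u0 : U (q 0) = c := tree_pass q A B S M U (fun _ => U (q 0)) (fun _ => U (q 0)) n₀ a c hq hB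
    hM hU (fun _ _ h => h) (fun n _ h => by
      rcases eq_or_ne n 0 with rfl | h0
      · exact h
      · rwa [eqB_false_iff.2 h0] at h) ha hS a ha
  refine tree_pass q' A B (fun _ => c) (fun _ => c) (fun _ => c) N D n₀ a c hq' hB
    (fun _ _ _ => rfl) (fun _ _ _ => rfl) hN (fun n hn h => hD n hn ?_) ha rfl
  rcases eq_or_ne n 0 with rfl | h0
  · exact hR u0
  · rwa [eqB_false_iff.2 h0] at h ⊢

/-- The read `i` of the station `v`. -/
def rdS (S : SC) (v : ℕ) (i : Bool) : Rd :=
  bif i then (S.getD v default).2.1 else (S.getD v default).1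

section
variable {n : ℕ}

/-- A number as a letter. -/
def fn (h : 0 < n) (k : ℕ) : Fin n := (List.finRange n).getD k ⟨0, h⟩

theorem fn_val (h : 0 < n) {k : ℕ} (hk : k < n) : (fn h k : ℕ) = k := by
  simp [fn, hk]

/-- The context of the position `(u, v)`. -/
def rol (h : 0 < n) (S : SC) (u v : ℕ) (τ : T4) : BCtx × Fin n × Fin n × Bool :=
  ((τ, tab fun _ i => (rdS S v i).2.1,
    tab fun t i => bif t then dir v u else dir u (rdS S v i).1,
    tab fun t i => bif t then eqB v u else eqB u (rdS S v i).1,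
    tab fun t _ => bif t then v.bodd else u.bodd,
    tab fun t _ => bif t then eqB v 0 else eqB u 0),
    fn h (rdS S v false).2.2, fn h (rdS S v true).2.2, (S.getD u default).2.2)

theorem p_rol (h : 0 < n) : Poly fun p : SC × ℕ × ℕ × T4 => rol h p.1 p.2.1 p.2.2.1 p.2.2.2 := by
  have hd : ∀ {f g : SC × ℕ × ℕ × T4 → ℕ}, Poly f → Poly g → Poly fun x => dir (f x) (g x) :=
    fun hf hg => hg.bits.reverse.getD hf.bits.length (p_const _)
  have hu : Poly fun p : SC × ℕ × ℕ × T4 => p.2.1 := by fun_prop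
  have hv : Poly fun p : SC × ℕ × ℕ × T4 => p.2.2.1 := by fun_prop
  have hr : ∀ i, Poly fun p : SC × ℕ × ℕ × T4 => rdS p.1 p.2.2.1 i := fun i => by
    unfold rdS; fun_prop
  have h1 := hd hv hu
  have h2 := fun i => hd hu (hr i).fst
  have h3 := fun i : Bool => show Poly fun p : SC × ℕ × ℕ × T4 => fn h (rdS p.1 p.2.2.1 i).2.2 from
    p_getD (p_const _) (hr i).snd.snd (p_const _)
  simp only [rol, tab, cond_true, cond_false]
  fun_prop

/-- The selection bits. -/
def sb (c : BCtx × Fin n × Fin n × Bool) (t i : Bool) : Kd ⊕ Fin n → Bool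
  | .inl k => tt (k.bit c.1) t i
  | .inr k => eqB (k : ℕ) (bif t then c.2.2.2.toNat else bif i then c.2.2.1 else c.2.1)

/-- The fragment of the grid. -/
def gridF (h : 0 < n) : Frag (BCtx × Fin n × Fin n × Bool) ((Bool × Bool × Bool) ⊕ ℕ) Empty where
  Lay := Option (Bool × Bool × (Kd ⊕ Fin n))
  fin := inferInstance
  src a s := .inr <| match a with
    | none => some (false, s, .inl .D)
    | some (t, _, .inl .S) => bif t then none else some (true, s, .inl .D)
    | some (t, i, .inl .M) => some (t, i, .inl .U)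
    | some (t, i, .inl .U) => some (t, i, .inl (bif s then .S else .M))
    | some (t, i, .inl .N) => some (t, i, .inl .D)
    | some (t, i, .inl .D) => some (t, i, bif s then .inr (fn h 0) else .inl .N)
    | some (t, i, .inr k) => some (t, i, bif s then .inl .U else .inr (fn h (k + 1)))
  wire a s := match a with
    | some (t, _, .inl .M) => .inl (true, t, s)
    | some (t, _, .inl .N) => .inl (false, t, s)
    | some (_, _, .inr k) => .inr (bif s then k else 0)
    | _ => .inr 0
  flag a _ := match a with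
    | some (_, i, .inl .S) => i
    | _ => false
  f a c := match a with
    | none => tt c.1.1
    | some (t, i, k) => fun x y => bif sb c t i k then y else x

theorem grid_sat {P Mv : Type} (hn : 2 ≤ n) (h : 0 < n) (mv : Mv → P → P) (wd : ℕ → List Mv)
    (rn : (Bool × Bool × Bool) ⊕ ℕ → P → P) (ctx : P → BCtx × Fin n × Fin n × Bool)
    (y : Option (Bool × Bool × (Kd ⊕ Fin n)) → P → V4) (q : P → ℕ → ℕ → P) (S : SC)
    (tb : ℕ → P → T4) (G : Set P) (hS : SWf n S) (hw : ∀ x z, rn (.inr x) z = run mv (wd x) z)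
    (h0 : ∀ p, rn (.inr 0) p = p)
    (hB : ∀ t b z, rn (.inl (false, t, b)) (rn (.inl (true, t, b)) z) = z)
    (h1 : ∀ z u w, u ≠ 0 → q z u w = rn (.inl (true, false, u.bodd)) (q z (u / 2) w))
    (h2 : ∀ z u w, w ≠ 0 → q z u w = rn (.inl (true, true, w.bodd)) (q z u (w / 2)))
    (h3 : ∀ (β : Bool) z u, rn (.inr β.toNat) (q z u 0) = q (rn (.inr β.toNat) z) u 0)
    (h4 : ∀ x, x ≠ 1 → ∀ z w, rn (.inr x) (q z 0 w) = q (rn (.inr x) z) 0 w)
    (hc : ∀ z ∈ G, ∀ u < S.length, ∀ w < S.length, ctx (q z u w) = rol h S u w (tb w z) ∧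
      (gridF h).Sat rn ctx Empty.elim y (q z u w)) (v : ℕ) (z : P) (hz : z ∈ G) :
    SOk mv wd S tb G (fun u z => y none (q z u u)) v z := by
  have sel : ∀ t i k z u w c, z ∈ G → u < S.length → w < S.length → ∀ s,
      sb (rol h S u w (tb w z)) t i k = s →
      rd ((gridF h).flag (some (t, i, k)) s) (Sum.elim Empty.elim y
        ((gridF h).src (some (t, i, k)) s) (rn ((gridF h).wire (some (t, i, k)) s) (q z u w))) =
        some c → y (some (t, i, k)) (q z u w) = ofB c := by
    rintro t i k z u w c hz hu hw s rfl e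
    have := (hc z hz u hu w hw).2 (some (t, i, k))
    rw [(hc z hz u hu w hw).1] at this
    exact Forc.sel (a := fun s => rd ((gridF h).flag (some (t, i, k)) s)
      (Sum.elim Empty.elim y ((gridF h).src (some (t, i, k)) s)
        (rn ((gridF h).wire (some (t, i, k)) s) (q z u w)))) this e
  have pu : ∀ {fl c : Bool} {x : V4}, x = ofB c → rd fl x = some c := fun h => h ▸ rd_ofB _ _
  have ch : ∀ t i z u w c x, z ∈ G → u < S.length → w < S.length → x < n →
      (∀ k, sb (rol h S u w (tb w z)) t i (.inr k) = eqB (k : ℕ) x) →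
      y (some (t, i, .inl .U)) (rn (.inr x) (q z u w)) = ofB c →
      y (some (t, i, .inr (fn h 0))) (q z u w) = ofB c := by
    intro t i z u w c x hz hu hw hx e1 e2
    have : ∀ d k, k + d = x → y (some (t, i, .inr (fn h k))) (q z u w) = ofB c := fun d => by
      induction d with
      | zero =>
        intro k hk
        obtain rfl : k = x := hk
        exact sel _ _ _ _ _ _ _ hz hu hw true (by simp [e1, fn_val h hx])
          (pu (by simpa [gridF, fn_val h hx] using e2))
      | succ d ih =>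
        intro k hk
        have hk' := fn_val h (show k < n by omega)
        exact sel _ _ _ _ _ _ _ hz hu hw false (by simp only [e1, hk', eqB_false_iff]; omega)
          (pu (by simpa [gridF, hk', h0] using ih (k + 1) (by omega)))
    exact this x 0 (Nat.zero_add x)
  have second : ∀ u < S.length, ∀ z ∈ G, ∀ z' ∈ G, z' = rn (.inr (S.getD u default).2.2.toNat) z →
      ∀ fl c, rd fl (y none (q z' u u)) = some c → ∀ w < S.length,
      y (some (true, fl, .inl .D)) (q z u w) = ofB c := fun u hu z hz z' hz' ez fl c k =>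
    pass2 (q z' u) (q z u) (fun b => rn (.inl (true, true, b))) (fun b => rn (.inl (false, true, b)))
      (y (some (true, fl, .inl .S))) (y (some (true, fl, .inl .M))) (y (some (true, fl, .inl .U)))
      (y (some (true, fl, .inr (fn h 0)))) (y (some (true, fl, .inl .N)))
      (y (some (true, fl, .inl .D))) S.length u (ofB c) (h2 z' u) (h2 z u) (hB true)
      (fun m hm e => sel _ _ _ _ _ _ _ hz' hu hm (dir m u) (by simp [sb, Kd.bit, rol]) (pu e))
      (fun m hm e => sel _ _ _ _ _ _ _ hz' hu hm (eqB m u) (by simp [sb, Kd.bit, rol])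
        (pu (by cases hb : eqB m u <;> simpa [gridF, h0, hb] using e)))
      (fun e => ch _ _ _ _ _ _ (S.getD u default).2.2.toNat hz hu (by omega)
        (lt_of_le_of_lt (Bool.toNat_le _) hn) (fun _ => rfl) (by rwa [h3, ← ez]))
      (fun m hm e => sel _ _ _ _ _ _ _ hz hu hm m.bodd (by simp [sb, Kd.bit, rol]) (pu e))
      (fun m hm e => sel _ _ _ _ _ _ _ hz hu hm (eqB m 0) (by simp [sb, Kd.bit, rol])
        (pu (by cases hb : eqB m 0 <;> simpa [gridF, h0, hb] using e)))
      hu (sel _ _ _ _ _ _ _ hz' hu hu _ rfl (by simpa [gridF, h0] using k))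
  have first : ∀ w < S.length, ∀ i c r, r = rdS S w i → r.1 < S.length → r.2.2 < n → r.2.2 ≠ 1 →
      run mv (wd r.2.2) z ∈ G → rt mv wd S r z ∈ G →
      rd r.2.1 (y none (q (rt mv wd S r z) r.1 r.1)) = some c →
      y (some (false, i, .inl .D)) (q z w w) = ofB c := fun w hw' i c r er hu hx hx1 g1 g2 k =>
    pass2 (q (run mv (wd r.2.2) z) · w) (q z · w) (fun b => rn (.inl (true, false, b)))
      (fun b => rn (.inl (false, false, b))) (y (some (false, i, .inl .S)))
      (y (some (false, i, .inl .M))) (y (some (false, i, .inl .U)))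
      (y (some (false, i, .inr (fn h 0)))) (y (some (false, i, .inl .N)))
      (y (some (false, i, .inl .D))) S.length r.1 (ofB c) (h1 _ · w) (h1 _ · w) (hB false)
      (fun m hm e => sel _ _ _ _ _ _ _ g1 hm hw' (dir m r.1) (by simp [sb, Kd.bit, rol, er]) (pu e))
      (fun m hm e => sel _ _ _ _ _ _ _ g1 hm hw' (eqB m r.1) (by simp [sb, Kd.bit, rol, er])
        (pu (by cases hb : eqB m r.1 <;> simpa [gridF, h0, hb] using e)))
      (fun e => ch _ _ _ _ _ _ r.2.2 hz (by omega) hw' hx
        (fun _ => by subst er; cases i <;> simp [sb, rol, fn_val h hx]) (by rwa [h4 _ hx1, hw]))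
      (fun m hm e => sel _ _ _ _ _ _ _ hz hm hw' m.bodd (by simp [sb, Kd.bit, rol]) (pu e))
      (fun m hm e => sel _ _ _ _ _ _ _ hz hm hw' (eqB m 0) (by simp [sb, Kd.bit, rol])
        (pu (by cases hb : eqB m 0 <;> simpa [gridF, h0, hb] using e)))
      hu (sel _ _ _ _ _ _ _ g1 hu hw' r.2.1 (by simp [sb, Kd.bit, rol, er])
        (pu (by simpa [gridF, h0] using second _ hu _ g1 _ g2 (hw _ _).symm _ c k w hw'))) w hw'
  intro g hg g1 g2 g3 g4
  obtain ⟨hi, rfl⟩ := List.getElem?_eq_some_iff.1 hg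
  have wf := hS _ (List.getElem_mem hi)
  have := (hc z hz v hi v hi).2 none
  rw [(hc z hz v hi v hi).1] at this
  intro c hf
  refine this c fun a' b' ha hb => hf a' b' (fun d hd => ha d (pu ?_)) fun d hd => hb d (pu ?_)
  · simpa [gridF, h0] using first v hi false d _ (by simp [rdS, hi]) wf.1 wf.2.2.1
      wf.2.2.2.2.1 g1 g2 hd
  · simpa [gridF, h0] using first v hi true d _ (by simp [rdS, hi]) wf.2.1 wf.2.2.2.1
      wf.2.2.2.2.2 g3 g4 hd

end

end Grid

open Grid in
/-- GRID. -/
theorem gridS : GridS := by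
  intro Mv Sl _ n m0 a b wd hn hS hl hw
  have h : 0 < n := by omega
  let wr : (Bool × Bool × Bool) ⊕ ℕ → List Mv :=
    Sum.elim (fun W => bif W.1 then a W.2.1 W.2.2 else b W.2.1 W.2.2) wd
  obtain ⟨ω, Ψ, o, H⟩ := Comp.compS (BCtx × Fin n × Fin n × Bool) _ Mv Sl (gridF h) m0 999
    (fun W => (wr W).map fun m => (m, fun _ => true))
    (by
      rintro (⟨_ | _, t, c⟩ | x)
      · simpa [wr] using (hl t c).2
      · simpa [wr] using (hl t c).1
      · simpa [wr] using hw x)
    (by
      have : Nat.card (gridF h).Lay = 2 * (2 * (5 + n)) + 1 := by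
        change Nat.card (Option (Bool × Bool × (Kd ⊕ Fin n))) = _
        rw [Nat.card_eq_fintype_card, Fintype.card_option, Fintype.card_prod, Fintype.card_prod,
          Fintype.card_sum, Fintype.card_fin]
        rfl
      rw [this]
      nlinarith)
  refine ⟨ω, Ψ, o none, _, p_rol h, fun Z _ mv h0 hi T w0 ctx x => ?_⟩
  obtain ⟨F, hF, hs⟩ := H Z mv ctx h0
    (fun W m hm => by
      obtain ⟨m, -, rfl⟩ := List.mem_map.1 hm
      exact hi m) x
  rw [funext fun W => funext (run_lay_true mv ctx (wr W))] at hs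
  refine ⟨F, hF, fun S tb G wf hc v z hz => grid_sat hn h mv wd (fun W => run mv (wr W)) ctx
    (fun a p => x p (o a)) (pos mv a) S tb G wf (fun _ _ => rfl) (fun _ => by simp [wr, w0]) T.inv
    (fun z u v hu => vtx_ne _ _ hu _) (fun z u v hv => ?_) (fun β z u => ?_) (fun x hx z w => ?_)
    (fun z hz u hu w hw => ⟨(hc z hz u hu w hw).2, hs _ (hc z hz u hu w hw).1⟩) v z hz⟩
  · rw [pos, vtx_ne _ _ hv]
    exact vtx_comm _ _ _ (fun c z => T.com c _ z) _ _
  · cases β
    · simp [wr, w0]
    · exact (vtx_comm mv (a false) (run mv (wd 1)) (fun c z => (T.one c z).symm) u z).symm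
  · exact (vtx_comm mv (a true) (run mv (wd x)) (fun c z => (T.oth x hx c z).symm) w z).symm

end Pool.Agent.PP.QL
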