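import Pool.Agent.MP_13199e_lc.QL.NetA
import Pool.Agent.MP_13199e_lc.PP.D.Geo

/-! PROJECT QL: the net in the tower. -/

set_option autoImplicit false
set_option linter.unusedSectionVars false

namespace Pool.Agent.PP.QL

namespace Nt

open Pool.Agent.PP.D Pool.Agent.PP.D.Tree Pool.Agent.PolyT Pool.Agent.H82 Polynomial Function

/-- The word on the last pair. -/
def mid (g n l : ℕ) : List ℕ :=
  List.replicate (2 * g + n) 4 ++ (l + 5) :: (List.replicate (2 * g) 3 ++
    (l + 5) :: List.replicate n 3)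

/-- The word of a bit. -/
def tw (r : ℕ) (p : List Bool × List Bool) : List ℕ :=
  p.2.length % (3 * r) / r :: (mid p.1.length (p.2.length / (3 * r)) (p.2.length % r) ++
    [p.2.length % (3 * r) / r])

theorem p_tw (r : ℕ) : Poly (tw r) := by
  refine Poly.congr (f := fun p : List Bool × List Bool => p.2.length % (3 * r) / r ::
    ((List.replicate (p.1 ++ p.1 ++ p.2.take (p.2.length / (3 * r))).length 4 ++
      (p.2.length % r + 5) :: (List.replicate (p.1 ++ p.1).length 3 ++ (p.2.length % r + 5) ::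
        List.replicate (p.2.take (p.2.length / (3 * r))).length 3)) ++
      [p.2.length % (3 * r) / r])) (by fun_prop) fun p => ?_
  simp only [tw, mid, List.length_append, List.length_take, two_mul,
    min_eq_left (Nat.div_le_self _ _)]

theorem mid_mem {g n l x : ℕ} (h : x ∈ mid g n l) : x = 3 ∨ x = 4 ∨ x = l + 5 := by
  simp only [mid, List.mem_append, List.mem_cons, List.mem_replicate] at h
  omega

theorem pr_lt {r : ℕ} (h : 0 < r) (J : ℕ) : J % (3 * r) / r < 3 :=
  (Nat.div_lt_iff_lt_mul h).2 (Nat.mod_lt _ (by omega))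

theorem tw_lt {r : ℕ} (h : 3 ≤ r) (p : List Bool × List Bool) : ∀ x ∈ tw r p, x < 3 * r := by
  intro x hx
  have := pr_lt (r := r) (by omega) p.2.length
  have := Nat.mod_lt p.2.length (show 0 < r by omega)
  simp only [tw, List.mem_append, List.mem_cons, List.not_mem_nil, or_false] at hx
  rcases hx with e | e | e
  · omega
  · have := mid_mem e
    omega
  · omega

variable {F : Type} [Field F] [CharP F 2] {A : Type} [AddCommGroup A] [Module F A]
  (t : A →ₗ[F] A) (o : A) (β : ℕ → F)

theorem lrun_up (l : List ℕ) (hl : ∀ x ∈ l, 3 ≤ x) (z : Fin 6 → A) (v : A × A) :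
    ∃ v', lrun (mv t o) (wd β) l (up z v) = up z v' := by
  induction l generalizing v with
  | nil => exact ⟨v, rfl⟩
  | cons x l ih =>
    obtain ⟨φ, h⟩ := run_up t o β (hl x (by simp))
    rw [lrun, run_cons, h]
    exact ih (fun y hy => hl y (by simp [hy])) _

theorem rep3 (n : ℕ) (z : Fin 6 → A) (v : A × A) : run (fun a => run (mv t o) (wd β a))
    (List.replicate n 3) (up z v) = up z (((nn t + 1) ^ n : Module.End F _) v) := by
  induction n generalizing v with
  | zero => rfl
  | succ n ih => rw [List.replicate_succ, run_cons, run3, ih, pow_succ, Module.End.mul_apply]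

theorem rep4 (n : ℕ) (z : Fin 6 → A) (v : A × A) : run (fun a => run (mv t o) (wd β a))
    (List.replicate n 4) (up z (((nn t + 1) ^ n : Module.End F _) v)) = up z v := by
  induction n with
  | zero => rfl
  | succ n ih => rw [List.replicate_succ, run_cons, pow_succ', Module.End.mul_apply, run4, ih]

/-- The vector of a bit on its pair. -/
def dv (g n : ℕ) : A × A := ((nn t + 1) ^ n : Module.End F _) ((nn t ^ (2 * g)) (o, 0))

theorem dv_hi (g n : ℕ) : (dv t o g n).1 ∈ hi t g ∧ (dv t o g n).2 ∈ hi t g := by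
  have c : Commute (nn t + 1) (nn t) := (Commute.refl _).add_left (Commute.one_left _)
  rw [dv, ← Module.End.mul_apply, (c.pow_pow _ _).eq, Module.End.mul_apply, nn_pow]
  exact ⟨⟨_, rfl⟩, ⟨_, rfl⟩⟩

theorem run_mid (γ n l : ℕ) (z : Fin 6 → A) (v : A × A) : run (fun a => run (mv t o) (wd β a))
    (mid (2 ^ γ) n l) (up z v) = up z (v + β l • dv t o (2 ^ γ) n) := by
  obtain ⟨v, rfl⟩ := mm_surj t (2 * 2 ^ γ + n) v
  rw [mid, run_append, rep4, run_cons, run5, run_append, rep3, run_cons, run5, rep3, dv,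
    ← mm_frob, add_comm _ n, pow_add]
  simp only [map_add, map_smul, smul_add, add_assoc, Module.End.mul_apply]

/-- A vector on the pair `π`. -/
def pl (π : ℕ) (v : A × A) : Fin 6 → A :=
  if π = 0 then ![0, 0, 0, 0, v.1, v.2] else if π = 1 then ![0, 0, v.1, v.2, 0, 0]
  else ![v.1, v.2, 0, 0, 0, 0]

/-- The component on the pair `π`. -/
def pj (π : ℕ) : (Fin 6 → A) →+ A × A :=
  if π = 0 then (Pi.evalAddMonoidHom _ 4).prod (Pi.evalAddMonoidHom _ 5)
  else if π = 1 then (Pi.evalAddMonoidHom _ 2).prod (Pi.evalAddMonoidHom _ 3)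
  else (Pi.evalAddMonoidHom _ 0).prod (Pi.evalAddMonoidHom _ 1)

theorem pj_pl {π π' : ℕ} (h : π < 3) (h' : π' < 3) (v : A × A) :
    pj π (pl π' v) = if π' = π then v else 0 := by
  interval_cases π <;> interval_cases π' <;> rfl

theorem sig_sig {π : ℕ} (h : π < 3) (z : Fin 6 → A) (v : A × A) : run (mv t o) (wd β π)
    (up (run (mv t o) (wd β π) z) ((run (mv t o) (wd β π) z 4, run (mv t o) (wd β π) z 5) + v)) =
      z + pl π v := by
  have := add_self F (A := A)
  interval_cases π
  all_goals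
    simp only [run1, run2, show wd β 0 = [] from rfl, run_nil]
    funext s
    fin_cases s <;> simp [-Matrix.add_cons, up, pl, add_assoc, this, add_left_comm o]

/-- The root. -/
def rho : Fin 6 → A := ![o, 0, o, 0, 0, 0]

/-- The roots. -/
def BB (g : ℕ) : Set (Fin 6 → A) :=
  {z | z 0 - o ∈ hi t g ∧ z 1 ∈ hi t g ∧ z 2 - o ∈ hi t g ∧ z 3 ∈ hi t g}

theorem sig_mem {π g : ℕ} (h : π < 3) {x : Fin 6 → A} (hx : ∀ i, x i ∈ hi t g) :
    rho o + x ∈ BB t o g ∧ run (mv t o) (wd β π) (rho o + x) ∈ BB t o g := by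
  interval_cases π
  all_goals
    simp only [run1, run2, show wd β 0 = [] from rfl, run_nil]
    simp [-Matrix.cons_add, -LinearMap.mem_range, BB, rho, hx]

/-- The vector of the bit `J`. -/
def del (r g J : ℕ) : Fin 6 → A := pl (J % (3 * r) / r) (β (J % r) • dv t o g (J / (3 * r)))

theorem del_hi (r g J : ℕ) (i : Fin 6) : del t o β r g J i ∈ hi t g := by
  have h := dv_hi t o g (J / (3 * r))
  have h1 := Submodule.smul_mem _ (β (J % r)) h.1
  have h2 := Submodule.smul_mem _ (β (J % r)) h.2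
  unfold del pl
  split_ifs <;> fin_cases i <;> first | exact zero_mem _ | exact h1 | exact h2

theorem del_ind {r g d m : ℕ} (e : F ≃+ Bv r) (hβ : ∀ l : Fin r, e (β l) = Pi.single l 1)
    (hr : 0 < r) (h0 : t ^ (g + d) = 0) (h1 : Ind t o (g + d)) (hm : m ≤ 3 * r * (2 * d))
    (c : ℕ → Bool) (h : ∑ J ∈ Finset.range m, (if c J then del t o β r g J else 0) = 0) {K : ℕ}
    (hK : K < m) : c K = false := by
  have lt : ∀ J < m, J / (3 * r) < 2 * d := fun J hJ =>
    (Nat.div_lt_iff_lt_mul (by omega)).2 (by rw [mul_comm]; omega)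
  have h2 := mm_ind t o h0 h1 (∑ J ∈ Finset.range m,
    if c J ∧ J % (3 * r) / r = K % (3 * r) / r then monomial (J / (3 * r)) (β (J % r)) else 0)
    (Nat.lt_of_le_pred (Nat.zero_lt_of_lt (lt K hK)) (natDegree_sum_le_of_forall_le _ _ fun J hJ => by
      have := lt J (Finset.mem_range.1 hJ)
      split_ifs
      · exact (natDegree_monomial_le _).trans (Nat.le_pred_of_lt this)
      · simp)) (by
      have := congrArg (pj (K % (3 * r) / r)) h
      rw [map_sum, map_zero] at this
      rw [map_sum, LinearMap.sum_apply, ← this]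
      refine Finset.sum_congr rfl fun J _ => ?_
      by_cases a : c J
      · simp only [a, if_true, true_and, del, pj_pl (pr_lt hr _) (pr_lt hr _)]
        split_ifs
        · simp [aeval_monomial, dv, Module.algebraMap_end_apply]
        · simp
      · simp [a])
  have h3 := congrArg (fun p => e (coeff p (K / (3 * r))) ⟨K % r, Nat.mod_lt _ hr⟩) h2
  simp only [finsetSum_coeff, map_sum, Finset.sum_apply, coeff_zero, map_zero, Pi.zero_apply] at h3
  rw [Finset.sum_eq_single_of_mem K (Finset.mem_range.2 hK) fun J _ hJ => ?_] at h3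
  · by_contra a
    rw [if_pos ⟨by simpa using a, rfl⟩, coeff_monomial_same, hβ ⟨K % r, Nat.mod_lt _ hr⟩] at h3
    simp at h3
  · split_ifs with a
    · rw [coeff_monomial]
      split_ifs with b
      · rw [hβ ⟨J % r, Nat.mod_lt _ hr⟩]
        refine Pi.single_eq_of_ne (fun u => hJ ?_) _
        have u' : K % r = J % r := congrArg Fin.val u
        have k : ∀ n, n = 3 * r * (n / (3 * r)) + (r * (n % (3 * r) / r) + n % r) := fun n => by
          rw [← Nat.mod_mod_of_dvd n (dvd_mul_left r 3), Nat.div_add_mod, Nat.div_add_mod]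
        rw [k J, k K, a.2, b, u']
      · simp
    · simp

/-- The points of the cube. -/
def dat (r g m y : ℕ) : Fin 6 → A :=
  rho o + ∑ J ∈ Finset.range m, if y.testBit J then del t o β r g J else 0

theorem dat_xor (r g m y y' : ℕ) : dat t o β r g m (y ^^^ y') =
    dat t o β r g m y + ∑ J ∈ Finset.range m, if y'.testBit J then del t o β r g J else 0 := by
  rw [dat, dat, add_assoc, ← Finset.sum_add_distrib]
  refine congrArg _ (Finset.sum_congr rfl fun J _ => ?_)
  rw [Nat.testBit_xor]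
  cases y.testBit J <;> cases y'.testBit J <;> simp [add_self F]

theorem dat_zero (r g m : ℕ) : dat t o β r g m 0 = run (mv t o) (tl 0 1 ++ tl 2 1) 0 := by
  rw [run_append, run_tl, run_tl]
  funext s
  fin_cases s <;> simp [dat, rho]

theorem cub {r γ d m : ℕ} (e : F ≃+ Bv r) (hβ : ∀ l : Fin r, e (β l) = Pi.single l 1)
    (hr : 0 < r) (h0 : t ^ (2 ^ γ + d) = 0) (h1 : Ind t o (2 ^ γ + d)) (hm : m ≤ 3 * r * (2 * d))
    {b : F} (hb : b ≠ 0) (hb' : b ≠ 1) : Cub (mv t o) (aa b) (wd β) (tw r) (2 ^ γ) m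
      (BB t o (2 ^ γ)) (dat t o β r (2 ^ γ) m) := by
  have hs : ∀ {π}, π < 3 → ∀ y, dat t o β r (2 ^ γ) m y ∈ BB t o (2 ^ γ) ∧
      run (mv t o) (wd β π) (dat t o β r (2 ^ γ) m y) ∈ BB t o (2 ^ γ) := fun h y =>
    sig_mem t o β h fun i => by
      rw [Finset.sum_apply]
      refine sum_mem fun J _ => ?_
      split_ifs
      exacts [del_hi t o β _ _ _ _, zero_mem _]
  refine ⟨fun y hy y' hy' h => ?_, fun u hu v hv u' hu' v' hv' z hz z' hz' h => ?_,
    fun y _ => (hs (π := 0) (by omega) y).1, fun y hy G J hG hJ => ?_⟩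
  · have := dat_xor t o β r (2 ^ γ) m y (y ^^^ y')
    rw [Nat.xor_xor_cancel_left, ← h, left_eq_add] at this
    refine Nat.eq_of_testBit_eq fun K => ?_
    rcases lt_or_ge K m with a | a
    · simpa using del_ind t o β e hβ hr h0 h1 hm _ this a
    · have := Nat.pow_le_pow_right (n := 2) (by omega) a
      rw [Nat.testBit_lt_two_pow (by omega), Nat.testBit_lt_two_pow (by omega)]
  · obtain ⟨g, hg⟩ : ∃ g, 2 ^ γ = g + 1 := ⟨_, (Nat.succ_pred_eq_of_pos (by positivity)).symm⟩
    rw [hg] at h0 h1 hu hv hu' hv' hz hz'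
    exact sep_q t o h0 h1 hb hb' hu hv hu' hv' hz hz' h
  · have h3 := pr_lt hr J.length
    have a : lrun (mv t o) (wd β) (tw r (G, J)) (dat t o β r (2 ^ γ) m y) =
        dat t o β r (2 ^ γ) m (y ^^^ 2 ^ J.length) := by
      rw [lrun, tw, run_cons, run_append, ← up_self (run _ (wd β _) _), hG, run_mid, run_cons,
        run_nil, sig_sig t o β h3, dat_xor, Finset.sum_eq_single_of_mem J.length
          (Finset.mem_range.2 hJ) fun K _ hK => by simp [hK.symm],
        Nat.testBit_two_pow_self]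
      rfl
    refine ⟨a, fun i => ?_⟩
    rcases i with _ | i
    · exact (hs h3 y).1
    rcases le_or_gt i (mid G.length (J.length / (3 * r)) (J.length % r)).length with k | k
    · rw [lrun, tw, List.take_succ_cons, List.take_append_of_le_length k, run_cons,
        ← up_self (run _ (wd β _) _)]
      obtain ⟨v, hv⟩ := lrun_up t o β
        ((mid G.length (J.length / (3 * r)) (J.length % r)).take i) (fun x hx => by
          have := mid_mem (List.mem_of_mem_take hx); omega) _ _
      exact Set.mem_of_eq_of_mem hv (hs h3 y).2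
    · rw [List.take_of_length_le (by simp [tw]; omega), a]
      exact (hs h3 _).1

theorem net [Finite F] {r : ℕ} (j : ℕ) (e : F ≃+ Bv r) (hr : 3 ≤ r) {b : F} (hb : b ≠ 0)
    (hb' : b ≠ 1) {Λ : Type} (eL : Lab F j ≃ Λ) (hΛ : Nat.card Λ = 2 ^ (6 * r * (j + 1))) :
    Net (Tr.tow (tow F j) eL) (3 * r) := by
  obtain ⟨β, hβ⟩ : ∃ β : ℕ → F, ∀ l : Fin r, e (β l) = Pi.single l 1 :=
    ⟨fun l => if h : l < r then e.symm (Pi.single ⟨l, h⟩ 1) else 0, fun l => by simp⟩
  refine ⟨_, 6 * r, aa b, fun i c => (aa b i c).reverse, wd β, tl 0 1 ++ tl 2 1, eL 0, tw r, hΛ,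
    by positivity, by omega, p_tw r, tw_lt hr, fun i c => ?_, wd_len β, rfl, fun k =>
      ⟨trs _ _ β b, fun γ m h => ?_⟩⟩
  · rw [List.length_reverse, and_self]
    cases i <;> exact (aw_len _ _ _).trans (by norm_num)
  · obtain ⟨d, hd⟩ : ∃ d, k * (j + 1) = 2 ^ γ + d :=
      Nat.exists_eq_add_of_le (Nat.le_of_mul_le_mul_left (c := 6 * r) (by nlinarith) (by omega))
    have := lev_ind (F := F) j k
    rw [hd] at this
    refine ⟨_, _, ?_, cub _ _ β e hβ (by omega) this.1 this.2 (by nlinarith) hb hb'⟩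
    rw [Tr.org_eq, org_zero]
    exact dat_zero _ _ β _ _ _

end Nt

open D in
theorem geoN : GeoN := by
  rintro r (_ | j) Λ hr hj hΛ
  · omega
  have : Fact (Nat.Prime 2) := ⟨Nat.prime_two⟩
  obtain ⟨F, _, _, _, hq⟩ : ∃ (F : Type) (_ : Field F) (_ : Finite F) (_ : CharP F 2),
    Nat.card F = 2 ^ r := ⟨GaloisField 2 r, _, inferInstance, inferInstance,
      GaloisField.card 2 r (by omega)⟩
  obtain ⟨e⟩ := bv_equiv F r (add_self F) hq
  have ψ := chi_of e ⟨0, by omega⟩
  obtain ⟨wa, w1, w2⟩ := wordS F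
  have cB : Nat.card (BB F) = 2 ^ (16 * r) := by
    simp only [Nat.card_fun, Nat.card_fin, hq, ← pow_mul]; congr 1; ring
  obtain ⟨eV⟩ := bv_equiv (VV F) (6 * r) (add_self F) (by
    simp only [Nat.card_fun, Nat.card_fin, hq, ← pow_mul]; congr 1; ring)
  obtain ⟨eC⟩ := bv_equiv (CC F) (3 * r) (add_self F) (by
    simp only [Nat.card_fun, Nat.card_fin, hq, ← pow_mul]; congr 1; ring)
  obtain ⟨eN⟩ := bv_equiv (NN F) (2 * r) (add_self F) (by
    simp only [Nat.card_fun, Nat.card_fin, hq, ← pow_mul]; congr 1; ring)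
  obtain ⟨eB⟩ := bv_equiv (BB F) (16 * r) (add_self F) cB
  obtain ⟨eR⟩ := bv_equiv (al F).ker (14 * r) (fun x => Subtype.ext (add_self F x.1)) (by
    have := (al F).ker.card_mul_index
    rw [AddSubgroup.index_ker, AddMonoidHom.range_eq_top.2 fun a => ⟨_, al_emb 0 a⟩,
      AddSubgroup.card_top, Nat.card_prod, hq, cB] at this
    refine Nat.eq_of_mul_eq_mul_right (by positivity) (this.trans ?_)
    rw [← pow_add, ← pow_add]; congr 1; ring)
  obtain ⟨G, hG⟩ := trgS r _ _ _ _ _ _ (pgeo r wa w1 fun m f hf => by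
    simpa [hq] using linkS cayS F _ ψ m f hf) eV.toEquiv eC.toEquiv eN.toEquiv eB eR
  have : Finite Λ := Nat.finite_of_card_ne_zero (by rw [hΛ]; positivity)
  obtain ⟨eL⟩ : Nonempty (Lab F j ≃ Λ) := Finite.card_eq.1 (by
    simp only [Nat.card_fun, Nat.card_fin, hq, hΛ, ← pow_mul]; congr 1; ring)
  refine ⟨Mv F, inferInstance, Tr.tow (tow F j) eL, G, fun k => hG _ _
    (pgeo_ok (g3S fouS) uniS gainS g1aS g1bS hq ψ _ _ _ _ (cycS F j k).1 (w2 _ _ _)),
    Tr.route _ _ _ ?_, ?_⟩
  · have lp := lpS ctS F r j e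
    have := r5S _ _ _ _ _ (letS parS F r j _ e (by omega)
      (cemS r4S parS ctS F r j _ e (by omega) (by nlinarith) lp)) lp
    intro w b φ h
    refine (this w b φ h).imp fun ls h => ⟨h.1.trans ?_, h.2⟩
    have : r ≤ r ^ 3 := Nat.le_self_pow (by norm_num) r
    nlinarith [Nat.mul_le_mul_right ((j + 1) ^ 2) this]
  · classical
    have := Fintype.ofFinite F
    obtain ⟨b, -, hb⟩ := Finset.exists_mem_notMem_of_card_lt_card
      (s := ({0, 1} : Finset F)) (t := Finset.univ) (by
        rw [Finset.card_univ, ← Nat.card_eq_fintype_card, hq]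
        exact Finset.card_le_two.trans_lt (Nat.pow_lt_pow_right (a := 2) (m := 1) (by norm_num)
          (by omega)))
    simp only [Finset.mem_insert, Finset.mem_singleton, not_or] at hb
    exact Nt.net j e (by omega) hb.1 hb.2 eL hΛ

end Pool.Agent.PP.QL
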