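import Pool.Agent.MP_13199e_lc.QL.Kit

/-! PROJECT QL, row PTC: from plain circuits to circuits on the cube. -/

set_option autoImplicit false

namespace Pool.Agent.PP.QL

open Pool.Agent.MP_13199e_lc Pool.Agent.PolyT Pool.Agent.H82 N487b59b3 Function

namespace Ptc

/-- The table of a projection. -/
def prj (b : Bool) : T4 := (false, b, !b, true)

theorem tt_prj (b : Bool) : tt (prj b) = fun x y => bif b then y else x := by
  funext x y; cases b <;> cases x <;> cases y <;> rfl

/-- The layer that carries port `i` with flag `fl` at time `τ`. -/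
def ix (τ : ℕ) (i fl : Bool) : ℕ := 3 + 4 * τ + 2 * i.toNat + fl.toNat

/-- The reads of a layer. -/
def rds (T M : ℕ) (dr : ℕ → ℕ) (l : ℕ) : Rd × Rd :=
  bif ltB l 3 then ((2 * l + 1, false, M), (2 * l + 2, false, M))
  else bif ltB l (3 + 4 * T) then ((l + 4, false, M), (l + 4, false, dr ((l - 3) / 4)))
  else ((0, eqB ((l - 3) % 2) 1, M), (0, eqB ((l - 3) % 2) 1, M))

/-- The table of a layer at a point. -/
def tbl (C : List PGate) (ctl : Bool → ℕ → ℕ → Bool) (l y : ℕ) : T4 :=
  bif eqB l 0 then (C.getD y default).1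
  else bif ltB l 3 then prj (rdOf C y (eqB l 2)).2
  else prj (ctl (eqB ((l - 3) / 2 % 2) 1) ((l - 3) / 4) y)

theorem walk_lt {M : ℕ} {dr : ℕ → ℕ} (hd : ∀ τ, dr τ < M) (ctl : ℕ → ℕ → Bool) {x : ℕ}
    (hx : x < 2 ^ M) (τ : ℕ) : walk dr ctl x τ < 2 ^ M := by
  induction τ with
  | zero => exact hx
  | succ τ ih =>
    refine Nat.xor_lt_two_pow ih ?_
    cases ctl τ (walk dr ctl x τ)
    · exact Nat.two_pow_pos M
    · exact Nat.pow_lt_pow_right (by norm_num) (hd τ)

theorem walk_merge (dr : ℕ → ℕ) (ctl : ℕ → ℕ → Bool) {x x' τ : ℕ}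
    (h : walk dr ctl x τ = walk dr ctl x' τ) (k : ℕ) :
    walk dr ctl x (τ + k) = walk dr ctl x' (τ + k) := by
  induction k with
  | zero => exact h
  | succ k ih => rw [← Nat.add_assoc, walk, walk, ih]

/-- A gate holds if all points of its two walks are good. -/
theorem gate_ok (C : List PGate) (T M : ℕ) (dr : ℕ → ℕ) (ctl : Bool → ℕ → ℕ → Bool)
    (hd : ∀ τ, dr τ < M) (x : ℕ → ℕ → V4) (G : ℕ → Prop)
    (hG : ∀ y, G y → ∀ l < 3 + 4 * (T + 1), Forc (tt (tbl C ctl l y))
      (rd (rds T M dr l).1.2.1 (x (rds T M dr l).1.1 (y ^^^ uv M (rds T M dr l).1.2.2)))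
      (rd (rds T M dr l).2.2.1 (x (rds T M dr l).2.1 (y ^^^ uv M (rds T M dr l).2.2.2))) (x l y))
    (v : ℕ) (hw : ∀ i, ∀ τ ≤ T, G (walk dr (ctl i) v τ))
    (he : ∀ i, walk dr (ctl i) v T = (rdOf C v i).1) : POk C (x 0) v := by
  have u0 : uv M M = 0 := if_neg (lt_irrefl M)
  have pu : ∀ {fl c : Bool} {z : V4}, z = ofB c → rd fl z = some c := fun h => h ▸ rd_ofB _ _
  have e3 : ∀ τ i fl, ltB (ix τ i fl) 3 = false := fun τ i fl =>
    ltB_false_iff.2 (by unfold ix; omega)
  have e4 : ∀ τ i fl, (ix τ i fl - 3) / 4 = τ := fun τ i fl => by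
    cases i <;> cases fl <;> simp only [ix, Bool.toNat_true, Bool.toNat_false] <;> omega
  have tb : ∀ τ i fl y, tbl C ctl (ix τ i fl) y = prj (ctl i τ y) := fun τ i fl y => by
    have e0 : eqB (ix τ i fl) 0 = false := eqB_false_iff.2 (by unfold ix; omega)
    have e2 : eqB ((ix τ i fl - 3) / 2 % 2) 1 = i := by
      cases i <;> cases fl <;> simp only [ix, Bool.toNat_true, Bool.toNat_false, eqB_iff,
        eqB_false_iff] <;> omega
    simp only [tbl, e0, e2, e3, e4, cond_false]
  have lt : ∀ τ ≤ T, ∀ i fl, ix τ i fl < 3 + 4 * (T + 1) := fun τ h i fl => by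
    have := i.toNat_le
    have := fl.toNat_le
    unfold ix; omega
  have key : ∀ i c, rd (rdOf C v i).2 (x 0 (rdOf C v i).1) = some c →
      rd false (x (1 + i.toNat) v) = some c := fun i c h => by
    have dn : ∀ k τ, τ + k = T → x (ix τ i (rdOf C v i).2) (walk dr (ctl i) v τ) = ofB c := by
      generalize (rdOf C v i).2 = fl at h
      intro k
      induction k with
      | zero =>
        rintro τ rfl
        have := hG _ (hw i τ le_rfl) _ (lt τ le_rfl i fl)
        have e5 : ltB (ix τ i fl) (3 + 4 * τ) = false := ltB_false_iff.2 (by unfold ix; omega)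
        have e6 : eqB ((ix τ i fl - 3) % 2) 1 = fl := by
          cases i <;> cases fl <;> simp only [ix, Bool.toNat_true, Bool.toNat_false, eqB_iff,
            eqB_false_iff] <;> omega
        simp only [tb, tt_prj, rds, e3, Nat.add_zero, e5, e6, cond_false, u0, Nat.xor_zero] at this
        rw [← he i] at h
        exact Forc.sel (a := fun _ => _) this h
      | succ k ih =>
        intro τ hτ
        have := hG _ (hw i τ (by omega)) _ (lt τ (by omega) i fl)
        have e5 : ltB (ix τ i fl) (3 + 4 * T) = true := ltB_iff.2 (by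
          have := i.toNat_le
          have := fl.toNat_le
          unfold ix; omega)
        have e6 : ix τ i fl + 4 = ix (τ + 1) i fl := by unfold ix; omega
        have e7 : uv M (dr τ) = 2 ^ dr τ := if_pos (hd τ)
        simp only [tb, tt_prj, rds, e3, e4, e5, e6, e7, cond_false, cond_true, u0] at this
        exact Forc.sel (a := fun s => rd false (x (ix (τ + 1) i fl)
          (walk dr (ctl i) v τ ^^^ bif s then 2 ^ dr τ else 0))) this
          (pu (ih (τ + 1) (by omega)))
    have := hG _ (hw i 0 T.zero_le) (1 + i.toNat) (by have := i.toNat_le; omega)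
    refine pu (Forc.sel (s := (rdOf C v i).2) (a := fun s => rd false (x (ix 0 i s) v)) ?_
      (pu (dn T 0 (zero_add T))))
    cases i <;> simpa [tbl, rds, ltB, eqB, tt_prj, u0, walk, ix] using this
  intro g hg c hf
  obtain ⟨hi, rfl⟩ := List.getElem?_eq_some_iff.1 hg
  have e : C.getD v default = C[v] := List.getD_eq_getElem _ _ hi
  have := hG _ (hw false 0 T.zero_le) 0 (by omega)
  simp only [tbl, rds, ltB, eqB, u0, walk, e, Nat.xor_zero, decide_true, cond_true,
    Nat.ofNat_pos] at this
  exact this c fun a b ha hb => hf a b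
    (fun d hd => ha d (key false d (by simpa only [rdOf, e, cond_false] using hd)))
    fun d hd => hb d (key true d (by simpa only [rdOf, e, cond_true] using hd))

theorem pr_fib {n N L : ℕ} (hn : 0 < n) (hN : N ≤ 8 * n) (w : Fin n → Fin N) (B : Fin N → Prop)
    (h : ∀ b, cn (fun x => w x = b) ≤ L) : pr (fun x => B (w x)) ≤ 8 * L * pr B := by
  classical
  have h1 : cn (fun x => B (w x)) ≤ L * cn B := by
    rw [cn_eq, cn_eq]
    refine Finset.card_le_mul_card_image_of_maps_to (f := w) (by simp) L fun b _ =>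
      le_trans (Finset.card_le_card fun a => by simp) ((cn_eq (p := fun x => w x = b)).ge.trans (h b))
  have hN0 : 0 < N := (w ⟨0, hn⟩).pos
  rw [pr_eq_cn, pr_eq_cn, Nat.card_fin, Nat.card_fin, ← mul_div_assoc,
    div_le_div_iff₀ (by exact_mod_cast hn) (by exact_mod_cast hN0)]
  have := Nat.mul_le_mul h1 hN
  exact_mod_cast this.trans_eq (by ring)

theorem cn_src {C : List PGate} {L : ℕ} (h : FanLe C L) (i : Bool) (s : ℕ) :
    cn (fun x : Fin C.length => (rdOf C x i).1 = s) ≤ L := by
  have key : ∀ p : PGate → ℕ, cn (fun x : Fin C.length => p (C.getD x default) = s) =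
      C.countP fun g => p g == s := fun p => by
    conv_rhs => rw [← List.map_get_finRange C, List.countP_map, List.countP_eq_length_filter]
    rw [cn_eq, Fin.univ_def]
    refine congrArg List.length (List.filter_congr fun x _ => ?_)
    simp [Bool.beq_eq_decide_eq]
  cases i
  · exact (key fun g => g.2.1.1).trans_le (h s).1
  · exact (key fun g => g.2.2.1).trans_le (h s).2

/-- The points of a cube. -/
def pts (C : List PGate) (D : List Bool) : List ℕ :=
  (idx (C.flatMap fun _ => List.replicate 8 true)).take (2 ^ D.length)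

theorem pts_eq {C : List PGate} {D : List Bool} (h : 2 ^ D.length ≤ 8 * C.length) :
    pts C D = List.range (2 ^ D.length) := by
  rw [pts, idx, List.take_range, min_eq_left (by simpa [mul_comm] using h)]

section
variable (tm : List Bool → List Bool) (dr : List Bool × ℕ → ℕ)
  (ctl : (List Bool × List ℕ) × ℕ × ℕ → Bool) (C : List PGate)

/-- The steering for port `i`. -/
def ctC (i : Bool) (τ y : ℕ) : Bool :=
  ltB τ (tm C.length.bits).length &&
    ctl ((C.length.bits, (pts C C.length.bits).map fun v => (rdOf C v i).1), τ, y)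

/-- The gate of a layer. -/
def lyC (l : ℕ) : Rd × Rd × List T4 :=
  ((rds (tm C.length.bits).length (C.length.bits.length + 2) (fun τ => dr (C.length.bits, τ)) l).1,
    (rds (tm C.length.bits).length (C.length.bits.length + 2) (fun τ => dr (C.length.bits, τ)) l).2,
    (pts C (true :: true :: C.length.bits)).map fun y => tbl C (ctC tm ctl C) l y)

/-- The circuit on the cube. -/
def tcC : TC :=
  (true :: true :: C.length.bits, (idx (List.replicate 7 true ++
    (tm C.length.bits).flatMap fun _ => List.replicate 4 true)).map (lyC tm dr ctl C))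

/-- The gap parameter. -/
def unC (u : List Bool) : List Bool :=
  u.flatMap fun _ => u.flatMap fun _ => (true :: tm C.length.bits).flatMap fun _ =>
    List.replicate 16 true

end

end Ptc

open Ptc in
theorem ptcS : PtcS := by
  rintro ⟨tm, dr, ctl, htm, hdr, hctl, hR⟩ ⟨δ, c, f, g, hδ, hf, hg, hT⟩
  obtain ⟨a, ha⟩ := poly_length htm
  have hX : Poly fun p : List PGate × List Bool => (tcC tm dr ctl p.1, unC tm p.1 p.2) := by
    unfold tcC unC lyC rds tbl ctC pts rdOf prj
    fun_prop
  refine ⟨δ, 2 + (2 * a + 6) * c, fun p => f (tcC tm dr ctl p.1, unC tm p.1 p.2),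
    fun q => (g ((tcC tm dr ctl q.1.1, unC tm q.1.1 q.1.2), q.2)).getD 0 [], hδ, hf.comp hX,
    p_getD (hg.comp ((hX.comp Poly.id.fst).pair Poly.id.snd)) (p_const _) (p_const _),
    fun C u hC => ?_⟩
  have n0 : 0 < C.length := List.length_pos_iff.2 hC.1
  have hm := lt_two_pow_bits C.length
  have hl : lg C.length = C.length.bits.length + 2 := by rw [lg, Nat.size_eq_bits_len]
  have m0 : 0 < C.length.bits.length := by rw [Nat.size_eq_bits_len]; exact Nat.size_pos.2 n0
  have hN : 2 ^ (C.length.bits.length + 2) ≤ 8 * C.length := by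
    have := Nat.lt_size.1 (show C.length.bits.length - 1 < C.length.size by
      rw [← Nat.size_eq_bits_len]; omega)
    rw [show C.length.bits.length + 2 = C.length.bits.length - 1 + 3 by omega, pow_add]
    omega
  have hp : 2 ^ C.length.bits.length ≤ 2 ^ (C.length.bits.length + 2) :=
    Nat.pow_le_pow_right (by norm_num) (by omega)
  have p1 := pts_eq (C := C) (D := C.length.bits) (hp.trans hN)
  have p2 := pts_eq (C := C) (D := true :: true :: C.length.bits) hN
  obtain ⟨hd, hw⟩ := hR C.length.bits
  have hb := ha C.length.bits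
  rw [Poly.enc_bools_length] at hb
  have x2 : (tcC tm dr ctl C).2 =
      (List.range (3 + 4 * ((tm C.length.bits).length + 1))).map (lyC tm dr ctl C) := by
    simp only [tcC, idx]
    congr 2
    simp; ring
  have xl : (tcC tm dr ctl C).2.length = 3 + 4 * ((tm C.length.bits).length + 1) := by simp [x2]
  have ul : (unC tm C u).length = 16 * ((tm C.length.bits).length + 1) * u.length ^ 2 := by
    simp [unC]; ring
  obtain ⟨h1, h2, h3⟩ := hT (tcC tm dr ctl C) (unC tm C u) ⟨List.length_pos_iff.1 (by omega), by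
    intro G hG
    rw [xl]
    rw [x2] at hG
    obtain ⟨l, hl, rfl⟩ := List.mem_map.1 hG
    have := List.mem_range.1 hl
    refine ⟨?_, ?_, by simp [lyC, p2, tcC]⟩ <;> simp only [lyC, rds, ltB, Bool.cond_decide] <;>
      split_ifs <;> simp only [] <;> omega⟩
  refine ⟨h1, h2.trans ?_, fun hF y hy => le_trans ?_ (h3 y hy)⟩
  · rw [ul, xl]
    change 2 ^ (C.length.bits.length + 2) * (_ + (C.length.bits.length + 2) + _ + 2) ^ c ≤ _
    generalize (tm C.length.bits).length = T at *
    obtain ⟨K, hK⟩ : ∃ K, K = u.length + lg C.length := ⟨_, rfl⟩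
    have k3 : 3 ≤ K := by omega
    have k9 : 3 * K ≤ K ^ 2 := by nlinarith
    have ht : T ≤ K ^ (2 * a) := by
      rw [pow_mul]
      exact hb.trans (Nat.pow_le_pow_left (by omega) a)
    have t1 : 1 ≤ K ^ (2 * a) := Nat.one_le_pow _ _ (by omega)
    have u2 : u.length ^ 2 ≤ K ^ 2 := Nat.pow_le_pow_left (by omega) 2
    have k4 : 81 ≤ K ^ 4 := Nat.pow_le_pow_left k3 4
    rw [← hK, pow_add K, pow_mul K (2 * a + 6), ← mul_assoc]
    refine Nat.mul_le_mul (by nlinarith) (Nat.pow_le_pow_left ?_ c)
    rw [show K ^ (2 * a + 6) = K ^ 4 * (K ^ (2 * a) * K ^ 2) by ring]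
    have s1 : (T + 1) * u.length ^ 2 ≤ 2 * K ^ (2 * a) * K ^ 2 := Nat.mul_le_mul (by omega) u2
    have s2 : K ^ (2 * a) * 1 ≤ K ^ (2 * a) * K ^ 2 := Nat.mul_le_mul_left _ (by omega)
    have s3 : 1 * K ^ 2 ≤ K ^ (2 * a) * K ^ 2 := Nat.mul_le_mul_right _ t1
    have s4 := Nat.mul_le_mul_right (K ^ (2 * a) * K ^ 2) k4
    rw [mul_assoc 2] at s1
    rw [mul_assoc 16]
    omega
  · obtain ⟨z, hz⟩ : ∃ z, z = g ((tcC tm dr ctl C, unC tm C u), y) := ⟨_, rfl⟩
    obtain ⟨T, hT⟩ : ∃ T, T = (tm C.length.bits).length := ⟨_, rfl⟩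
    simp only [← hz]
    let wk := fun i => walk (fun τ => dr (C.length.bits, τ)) (ctC tm ctl C i)
    have he : ∀ i, ∀ v < C.length, wk i v T = (rdOf C v i).1 := fun i v hv => by
      have := hw ((pts C C.length.bits).map fun v => (rdOf C v i).1) (by simp [p1]) (by
        intro s hs
        obtain ⟨w, -, rfl⟩ := List.mem_map.1 hs
        rcases lt_or_ge w C.length with h | h
        · have := hC.2 _ (List.getElem_mem h)
          cases i <;> simp only [rdOf, List.getD_eq_getElem _ _ h, cond_true, cond_false] <;> omega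
        · cases i <;> simp only [rdOf, List.getD_eq_default _ _ h, cond_true, cond_false] <;>
            exact Nat.two_pow_pos _) v (hv.trans hm)
      rw [List.getD_eq_getElem _ _ (by simpa [p1] using hv.trans hm)] at this
      have e : ∀ τ ≤ T, wk i v τ = walk (fun τ => dr (C.length.bits, τ)) (fun τ y =>
          ctl ((C.length.bits, (pts C C.length.bits).map fun v => (rdOf C v i).1), τ, y)) v τ := by
        intro τ
        induction τ with
        | zero => exact fun _ => rfl
        | succ τ ih =>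
          intro h
          have e1 : ltB τ (tm C.length.bits).length = true := ltB_iff.2 (by omega)
          have := ih (by omega)
          simp only [wk] at this
          simp only [wk, walk, this, ctC, e1, Bool.true_and]
      rw [e T le_rfl, hT, this]
      simp [p1]
    let w : Bool × Fin (T + 1) → Fin C.length → Fin (2 ^ (tcC tm dr ctl C).1.length) :=
      fun j v => ⟨wk j.1 v j.2, walk_lt hd _ (v.2.trans (hm.trans_le hp)) _⟩
    refine (mul_le_mul_of_nonneg_left ((pr_mono (q := fun v => ∃ j, ∃ l,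
        ¬TOk (tcC tm dr ctl C) (val2 z) (w j v) l) fun v h => by_contra fun k => h ?gOk).trans
      (pr_exists_le' fun j => pr_fib (N := 2 ^ (tcC tm dr ctl C).1.length) (L := u.length) n0 hN
        (w j) (fun b => ∃ l, ¬TOk (tcC tm dr ctl C) (val2 z) b l) fun b => ?gFib))
      (Nat.cast_nonneg _)).trans_eq ?gEq
    case gOk =>
      refine gate_ok C T _ _ (ctC tm ctl C) hd (val2 z) (fun b => b < 2 ^ (C.length.bits.length + 2)
        ∧ ∀ l, TOk (tcC tm dr ctl C) (val2 z) b l) (fun b hb l hl => ?_) v
        (fun i τ hτ => ⟨(w (i, ⟨τ, by omega⟩) v).2, fun l => by_contra fun e =>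
          k ⟨(i, ⟨τ, by omega⟩), l, e⟩⟩) fun i => he i v v.2
      have := hb.2 l (lyC tm dr ctl C l) (by simp [x2, ← hT, hl])
      have e : (lyC tm dr ctl C l).2.2.getD b default = tbl C (ctC tm ctl C) l b := by
        have := hb.1
        simp [lyC, p2, List.getD_eq_getElem?_getD, List.getElem?_range this]
      rw [e] at this
      exact hT ▸ this
    case gFib =>
      by_cases e : ∃ v, w j v = b
      · obtain ⟨v, rfl⟩ := e
        refine (cn_mono fun v' h => ?_).trans (cn_src hF j.1 (rdOf C v j.1).1)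
        have := walk_merge _ _ (congrArg Fin.val h) (T - j.2)
        rw [Nat.add_sub_cancel' (Nat.le_of_lt_succ j.2.2)] at this
        exact (he _ _ v'.2).symm.trans (this.trans (he _ _ v.2))
      · classical
        rw [cn_eq, Finset.filter_false_of_mem fun v _ h => e ⟨v, h⟩]
        exact Nat.zero_le _
    case gEq =>
      rw [ul, ← hT, Nat.card_prod, Nat.card_fin, Nat.card_eq_fintype_card, Fintype.card_bool, tviol]
      push_cast
      ring

end Pool.Agent.PP.QL
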