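import Pool.Agent.MP_13199e_lc.QL.Model

/-! PROJECT QL: the stations of a circuit on the cube. -/

set_option autoImplicit false

namespace Pool.Agent.PP.QL

open Pool.Agent.PolyT Pool.Agent.H82 N487b59b3 Function

namespace Sta

theorem eval_le (q : Polynomial ℕ) : ∃ c, ∀ N, 2 ≤ N → q.eval N ≤ N ^ c := by
  induction q using Polynomial.induction_on' with
  | add p q hp hq =>
    obtain ⟨a, ha⟩ := hp
    obtain ⟨b, hb⟩ := hq
    refine ⟨a + b + 1, fun N h => ?_⟩
    have h1 := (ha N h).trans (Nat.pow_le_pow_right (by omega) (Nat.le_add_right a b))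
    have h2 := (hb N h).trans (Nat.pow_le_pow_right (by omega) (Nat.le_add_left b a))
    have h3 := Nat.mul_le_mul_left (N ^ (a + b)) h
    rw [Polynomial.eval_add, pow_succ]
    omega
  | monomial k c =>
    refine ⟨c + k, fun N h => ?_⟩
    rw [Polynomial.eval_monomial, pow_add]
    exact Nat.mul_le_mul_right _ (Nat.lt_pow_self (by omega)).le

theorem len_grid {β : Type} (F : ℕ → ℕ → β) (M K : ℕ) :
    ((List.range K).flatMap fun s => (List.range M).map (F s)).length = K * M := by
  simp [List.length_flatMap]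

theorem get_grid {β : Type} (F : ℕ → ℕ → β) {M K s ρ : ℕ} (hs : s < K) (hρ : ρ < M) :
    ((List.range K).flatMap fun s => (List.range M).map (F s))[s * M + ρ]? = some (F s ρ) := by
  induction K with
  | zero => omega
  | succ K ih =>
    rw [List.range_succ, List.flatMap_append]
    rcases Nat.lt_succ_iff_lt_or_eq.1 hs with h | rfl
    · have := Nat.mul_le_mul_right M (Nat.succ_le_of_lt h)
      rw [List.getElem?_append_left (by rw [len_grid]; rw [Nat.succ_mul] at this; omega), ih h]
    · rw [List.getElem?_append_right (by rw [len_grid]; omega), len_grid]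
      simp [hρ]

theorem lrun_succ {Mv Z : Type} (mv : Mv → Z → Z) {wd : ℕ → List Mv} (h : wd 0 = [])
    (w : List ℕ) (s : ℕ) (z : Z) :
    lrun mv wd (w.take (s + 1)) z = run mv (wd (w.getD s 0)) (lrun mv wd (w.take s) z) := by
  rw [List.take_add_one, lrun, run_append, List.getD_eq_getElem?_getD]
  cases w[s]? with
  | none => simp [h, lrun]
  | some a => simp [lrun]

/-- All reads. -/
def rds (X : TC) : List Rd := X.2.map (·.1) ++ X.2.map (·.2.1)

variable (tw : List Bool × List Bool → List ℕ) (p : TC × List Bool) (E : List ℕ)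

/-- The word of a read. -/
def wrd (ρ : ℕ) : List ℕ :=
  bif ltB ((rds p.1).getD ρ default).2.2 p.1.1.length then
    tw (p.2, p.1.1.take ((rds p.1).getD ρ default).2.2) else []

/-- The read of a link of a chain. -/
def lnk (s ρ : ℕ) : Rd :=
  bif ltB (s + 1) E.length then (p.1.2.length + ((s + 1) * (rds p.1).length + ρ), false,
    bif eqB ((wrd tw p ρ).getD s 0) 1 then 0 else (wrd tw p ρ).getD s 0)
  else (((rds p.1).getD ρ default).1, ((rds p.1).getD ρ default).2.1, 0)

/-- The stations. -/
def st : SC :=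
  (idx p.1.2).map (fun l => ((p.1.2.length + l, false, 0),
    (p.1.2.length + (p.1.2.length + l), false, 0), false)) ++
  (idx E).flatMap fun s => (idx (rds p.1)).map fun ρ =>
    (lnk tw p E s ρ, lnk tw p E s ρ, eqB ((0 :: wrd tw p ρ).getD s 0) 1)

/-- The initial segments of the words. -/
def ws : List (List ℕ) :=
  [] :: (idx E).flatMap fun s => (idx (rds p.1)).map fun ρ => (wrd tw p ρ).take s

section
variable {tw} {α : Type} [N487b59b3 α] {f : α → TC × List Bool} {e : α → List ℕ} {g g' : α → ℕ}

@[fun_prop] theorem p_rds {f : α → TC} (hf : Poly f) : Poly fun a => rds (f a) := by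
  unfold rds; fun_prop

theorem p_wrd (h : Poly tw) (hf : Poly f) (hg : Poly g) : Poly fun a => wrd tw (f a) (g a) := by
  unfold wrd; fun_prop

theorem p_lnk (h : Poly tw) (hf : Poly f) (he : Poly e) (hg : Poly g) (hg' : Poly g') :
    Poly fun a => lnk tw (f a) (e a) (g a) (g' a) := by
  have := p_wrd h hf hg'
  unfold lnk; fun_prop

theorem p_st (h : Poly tw) (hf : Poly f) (he : Poly e) : Poly fun a => st tw (f a) (e a) := by
  refine p_append (by fun_prop) (p_flatMap (p_map ?_ (by fun_prop)) (by fun_prop))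
  have h1 : Poly fun u : (α × ℕ) × ℕ => f u.1.1 := by fun_prop
  have h2 := p_lnk h h1 (e := fun u => e u.1.1) (by fun_prop) Poly.id.fst.snd Poly.id.snd
  exact h2.pair (h2.pair (p_eqB (p_getD ((p_const 0).cons (p_wrd h h1 Poly.id.snd))
    Poly.id.fst.snd (p_const 0)) (p_const 1)))

theorem p_ws (h : Poly tw) (hf : Poly f) (he : Poly e) : Poly fun a => ws tw (f a) (e a) :=
  p_cons (p_const []) (p_flatMap (p_map (p_take (by fun_prop)
    (p_wrd h (by fun_prop) (by fun_prop))) (by fun_prop)) (by fun_prop))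

end

theorem len_rds (X : TC) : (rds X).length = X.2.length + X.2.length := by simp [rds]

theorem len_st : (st tw p E).length = p.1.2.length + E.length * (rds p.1).length := by
  rw [st, List.length_append, List.length_map, length_idx, idx, idx, len_grid]

theorem len_ws : (ws tw p E).length = E.length * (rds p.1).length + 1 := by
  rw [ws, List.length_cons, idx, idx, len_grid]

theorem st_lay {l : ℕ} (h : l < p.1.2.length) : (st tw p E)[l]? = some ((p.1.2.length + l, false, 0),
    (p.1.2.length + (p.1.2.length + l), false, 0), false) := by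
  rw [st, List.getElem?_append_left (by simpa using h)]
  simp [idx, h]

theorem st_ch {s ρ : ℕ} (hs : s < E.length) (hρ : ρ < (rds p.1).length) :
    (st tw p E)[p.1.2.length + (s * (rds p.1).length + ρ)]? =
      some (lnk tw p E s ρ, lnk tw p E s ρ, eqB ((0 :: wrd tw p ρ).getD s 0) 1) := by
  rw [st, List.getElem?_append_right (by simp), List.length_map, length_idx, Nat.add_sub_cancel_left]
  exact get_grid _ hs hρ

theorem rds_lt {X : TC} (h : TWf X) {ρ : ℕ} (hρ : ρ < (rds X).length) :
    ((rds X).getD ρ default).1 < X.2.length := by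
  have m : (rds X).getD ρ default ∈ rds X := by
    rw [List.getD_eq_getElem _ _ hρ]
    exact List.getElem_mem _
  rcases List.mem_append.1 m with m | m <;> obtain ⟨g, hg, e⟩ := List.mem_map.1 m
  exacts [e ▸ (h.2 g hg).1, e ▸ (h.2 g hg).2.1]

theorem swf {n : ℕ} (h : TWf p.1) (hn : 2 ≤ n) (ht : ∀ p, ∀ x ∈ tw p, x < n) (hE : 0 < E.length) :
    SWf n (st tw p E) := by
  intro g hg
  rw [len_st]
  rcases List.mem_append.1 hg with m | m
  · obtain ⟨l, hl, rfl⟩ := List.mem_map.1 m
    have h1 := Nat.mul_le_mul_right (rds p.1).length hE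
    have h2 := len_rds p.1
    rw [mem_idx] at hl
    simp only
    omega
  · obtain ⟨s, -, m⟩ := List.mem_flatMap.1 m
    obtain ⟨ρ, hρ, rfl⟩ := List.mem_map.1 m
    rw [mem_idx] at hρ
    have k : (lnk tw p E s ρ).1 < p.1.2.length + E.length * (rds p.1).length ∧
        (lnk tw p E s ρ).2.2 < n ∧ (lnk tw p E s ρ).2.2 ≠ 1 := by
      have w : (wrd tw p ρ).getD s 0 < n := by
        rw [List.getD_eq_getElem?_getD]
        cases e : (wrd tw p ρ)[s]? with
        | none => exact Nat.zero_lt_of_lt hn
        | some a =>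
          have m := List.mem_of_getElem? e
          unfold wrd at m
          cases c : ltB ((rds p.1).getD ρ default).2.2 p.1.1.length <;> rw [c] at m
          · cases m
          · exact ht _ _ m
      unfold lnk
      cases c : ltB (s + 1) E.length
      · have := rds_lt h hρ
        simp only [cond_false]
        omega
      · have := Nat.mul_le_mul_right (rds p.1).length (Nat.succ_le_of_lt (ltB_iff.1 c))
        rw [Nat.succ_mul] at this
        cases d : eqB ((wrd tw p ρ).getD s 0) 1
        · have := eqB_false_iff.1 d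
          simp only [cond_false, cond_true]
          omega
        · simp only [cond_true]
          omega
    exact ⟨k.1, k.1, k.2.1, k.2.1, k.2.2, k.2.2⟩

variable {tw p E} {Mv Z : Type} {mv : Mv → Z → Z} {wd : ℕ → List Mv}

/-- A pure value travels along a chain. -/
theorem chain (h : TWf p.1) (h0 : wd 0 = []) {tb : ℕ → Z → T4} {H : Set Z} {x : ℕ → Z → V4}
    (ht : ∀ v z, p.1.2.length ≤ v → tb v z = tab fun s _ => s)
    (hs : ∀ v, ∀ z ∈ H, SOk mv wd (st tw p E) tb H x v z) {z : Z}
    (hw : ∀ w ∈ ws tw p E, lrun mv wd w z ∈ H) {ρ : ℕ} (hρ : ρ < (rds p.1).length)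
    (hl : (wrd tw p ρ).length < E.length) {c : Bool}
    (hc : rd ((rds p.1).getD ρ default).2.1
      (x ((rds p.1).getD ρ default).1 (lrun mv wd (wrd tw p ρ) z)) = some c) (t : ℕ) :
    ∀ s, s + t + 1 = E.length → x (p.1.2.length + (s * (rds p.1).length + ρ))
      (lrun mv wd ((wrd tw p ρ).take s) z) = ofB c := by
  have m : ∀ s < E.length, lrun mv wd ((wrd tw p ρ).take s) z ∈ H := fun s h =>
    hw _ (List.mem_cons_of_mem _ (List.mem_flatMap.2 ⟨s, mem_idx.2 h,
      List.mem_map.2 ⟨ρ, mem_idx.2 hρ, rfl⟩⟩))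
  have k : ∀ s < E.length, ∀ r, lnk tw p E s ρ = r →
      run mv (wd r.2.2) (lrun mv wd ((wrd tw p ρ).take s) z) ∈ H →
      rt mv wd (st tw p E) r (lrun mv wd ((wrd tw p ρ).take s) z) ∈ H →
      rd r.2.1 (x r.1 (rt mv wd (st tw p E) r (lrun mv wd ((wrd tw p ρ).take s) z))) = some c →
      x (p.1.2.length + (s * (rds p.1).length + ρ)) (lrun mv wd ((wrd tw p ρ).take s) z) =
        ofB c := by
    rintro s h _ rfl h1 h2 h3
    have f := hs _ _ (m s h) _ (st_ch tw p E h hρ) h1 h2 h1 h2
    rw [ht _ _ (Nat.le_add_right _ _), tt_tab, h3] at f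
    exact f.left fun _ => rfl
  induction t with
  | zero =>
    intro s e
    have r : ∀ y, rt mv wd (st tw p E)
        (((rds p.1).getD ρ default).1, ((rds p.1).getD ρ default).2.1, 0) y = y := fun y => by
      rw [rt, List.getD_eq_getElem?_getD (l := st tw p E), st_lay tw p E (rds_lt h hρ)]
      simp [h0]
    refine k s (by omega) _ (by rw [lnk, ltB_false_iff.2 (by omega), cond_false]) ?_ ?_ ?_
    · rw [h0]
      exact m s (by omega)
    · rw [r]
      exact m s (by omega)
    · rwa [r, List.take_of_length_le (by omega)]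
  | succ t ih =>
    intro s e
    have r : rt mv wd (st tw p E) (p.1.2.length + ((s + 1) * (rds p.1).length + ρ), false,
        bif eqB ((wrd tw p ρ).getD s 0) 1 then 0 else (wrd tw p ρ).getD s 0)
        (lrun mv wd ((wrd tw p ρ).take s) z) = lrun mv wd ((wrd tw p ρ).take (s + 1)) z := by
      rw [rt, List.getD_eq_getElem?_getD (l := st tw p E), st_ch tw p E (by omega) hρ,
        lrun_succ mv h0, Option.getD_some, List.getD_cons_succ]
      cases d : eqB ((wrd tw p ρ).getD s 0) 1
      · simp only [cond_false, Bool.toNat_false, h0, run_nil]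
      · simp only [cond_true, Bool.toNat_true, h0, run_nil, eqB_iff.1 d]
    refine k s (by omega) _ (by rw [lnk, ltB_iff.2 (by omega), cond_true]) ?_ ?_ ?_
    · cases d : eqB ((wrd tw p ρ).getD s 0) 1
      · rw [cond_false, ← lrun_succ mv h0]
        exact m _ (by omega)
      · rw [cond_true, h0]
        exact m s (by omega)
    · rw [r]
      exact m _ (by omega)
    · rw [r, ih _ (by omega), rd_ofB]

theorem cube {a : Bool → Bool → List Mv} {B : Set Z} {dat : ℕ → Z}
    (h : Cub mv a wd tw p.2.length p.1.1.length B dat) {y : ℕ} (hy : y < 2 ^ p.1.1.length)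
    (ρ : ℕ) : lrun mv wd (wrd tw p ρ) (dat y) =
      dat (y ^^^ uv p.1.1.length ((rds p.1).getD ρ default).2.2) ∧
      ∀ i, lrun mv wd ((wrd tw p ρ).take i) (dat y) ∈ B := by
  unfold wrd uv
  by_cases c : ((rds p.1).getD ρ default).2.2 < p.1.1.length
  · have e := List.length_take_of_le c.le
    have k := h.flip y hy p.2 (p.1.1.take ((rds p.1).getD ρ default).2.2) rfl (e.trans_lt c)
    rw [e] at k
    rwa [ltB_iff.2 c, cond_true, if_pos c]
  · rw [ltB_false_iff.2 (Nat.le_of_not_lt c), cond_false, if_neg c, Nat.xor_zero]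
    exact ⟨rfl, fun i => by rw [List.take_nil]; exact h.mem y hy⟩

end Sta

open Sta in
theorem staS : StaS := by
  intro tw htw
  obtain ⟨q, hq⟩ := htw.bd
  obtain ⟨E, hE, lE⟩ := exists_list_eval (α := TC × List Bool)
    (l := fun p => p.2 ++ p.1.1 ++ p.1.2.map (fun _ => false) ++ [false, false]) (by fun_prop)
    (q.comp (7 * .X) + 1)
  obtain ⟨c, hc⟩ := eval_le (.X + 4 * .X * (q.comp (7 * .X) + 1) + 1)
  refine ⟨fun p => st tw p (E p), fun p => ws tw p (E p), c, p_st htw Poly.id hE,
    p_ws htw Poly.id hE, fun X G n hX hn ht => ?_⟩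
  have e : (E (X, G)).length = q.eval (7 * (G.length + X.1.length + X.2.length + 2)) + 1 := by
    simp [lE, Polynomial.eval_comp, add_assoc]
  have hl : ∀ ρ, (wrd tw (X, G) ρ).length < (E (X, G)).length := fun ρ => by
    rw [e, wrd, Nat.lt_succ_iff]
    cases ltB _ _
    · exact Nat.zero_le _
    · refine ((length_le_enc _).trans (hq _)).trans (eval_mono q ?_)
      have := List.length_take_le' ((rds X).getD ρ default).2.2 X.1
      simp only [length_enc_pair, Poly.enc_bools_length]
      omega
  refine ⟨swf tw _ _ hX hn ht (by omega), by rw [len_st]; exact Nat.le_add_right _ _,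
    List.mem_cons_self, ?_, fun Mv Z mv a wd B dat h0 hB y hy => ⟨fun w hw => ?_,
      fun tb H x h1 h2 h3 h4 l g hg => ?_⟩⟩
  · refine le_trans ?_ (hc _ (Nat.le_add_left _ _))
    simp only [len_st, len_ws, len_rds, e, Polynomial.eval_add, Polynomial.eval_mul,
      Polynomial.eval_comp, Polynomial.eval_X, Polynomial.eval_one, Polynomial.eval_ofNat]
    nlinarith [Nat.zero_le (q.eval (7 * (G.length + X.1.length + X.2.length + 2)) + 1)]
  · rcases List.mem_cons.1 hw with rfl | m
    · exact hB.mem y hy
    · obtain ⟨s, -, m⟩ := List.mem_flatMap.1 m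
      obtain ⟨ρ, -, rfl⟩ := List.mem_map.1 m
      exact (cube (p := (X, G)) hB hy ρ).2 s
  · obtain ⟨l0, g0⟩ := List.getElem?_eq_some_iff.1 hg
    have m : dat y ∈ H := h4 [] List.mem_cons_self
    have k : ∀ ρ r, (rds X)[ρ]? = some r → rt mv wd (st tw (X, G) (E (X, G)))
        (X.2.length + ρ, false, 0) (dat y) = dat y ∧
        ∀ b, Fits (rd false (x (X.2.length + ρ) (dat y))) b →
          Fits (rd r.2.1 (x r.1 (dat (y ^^^ uv X.1.length r.2.2)))) b := fun ρ r hr => by
      have h5 := (List.getElem?_eq_some_iff.1 hr).1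
      have h6 : (rds X).getD ρ default = r := by rw [List.getD_eq_getElem?_getD, hr]; rfl
      have h7 := st_ch tw (X, G) (E (X, G)) (s := 0) (by omega) h5
      rw [Nat.zero_mul, Nat.zero_add] at h7
      refine ⟨by rw [rt, List.getD_eq_getElem?_getD, h7]; simp [h0, eqB], fun b hb c hc => ?_⟩
      have h8 := chain (p := (X, G)) hX h0 h2 h3 h4 h5 (hl ρ) (c := c)
        (by rw [(cube (p := (X, G)) hB hy ρ).1, h6, hc]) ((E (X, G)).length - 1) 0 (by omega)
      rw [Nat.zero_mul, Nat.zero_add, List.take_zero] at h8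
      exact hb c (by rw [show x _ (dat y) = ofB c from h8, rd_ofB])
    have k1 := k l g.1 (by rw [rds, List.getElem?_append_left (by simpa using l0)]; simp [hg])
    have k2 := k (X.2.length + l) g.2.1
      (by rw [rds, List.getElem?_append_right (by simp)]; simp [hg])
    have f := h3 l _ m _ (st_lay tw (X, G) _ l0) (by rwa [h0]) (by rwa [k1.1]) (by rwa [h0])
      (by rwa [k2.1])
    rw [k1.1, k2.1, h1 l g hg] at f
    exact fun c hc => f c fun a b ha hb => hc a b (k1.2 a ha) (k2.2 b hb)

end Pool.Agent.PP.QL
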