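import Pool.Agent.MP_13199e_lc.QL.Kit
import Pool.Agent.MP_13199e_lc.PP.G.Tow

/-! PROJECT QL, row TG: the gap theorem for circuits on the cube. -/

set_option autoImplicit false
set_option linter.unusedSectionVars false

namespace Pool.Agent.PP.QL

open Pool.Agent.MP_13199e_lc Pool.Agent.PolyT Pool.Agent.H82 N487b59b3 Function Tow

namespace Tg

attribute [local instance] Tow.funCode

/-- The rounds on top of a base circuit. -/
theorem rounds {Mv Λ Sl Ctx α : Type} [Finite Mv] [Finite Λ] [Finite Sl] [Finite Ctx]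
    [N487b59b3 Mv] [N487b59b3 Λ] [N487b59b3 Ctx] [N487b59b3 α] {T : Tow Mv Λ} {δ : ℝ}
    (hΛ : 2 ≤ Nat.card Λ) (hA : T.Amp Sl δ) (l : Λ) (ω : Wir Mv Sl) (Ψ₀ : Ctx → Sl → Gate) (o : Sl)
    {u0 u1 : α → List Bool} (p0 : Poly u0) (p1 : Poly u1)
    (b0 : Bd bitEncode fun a => Nat.card Λ ^ ((u0 a).length + (u1 a).length))
    {ctx : α → T.Pt → Ctx} (pc : Poly fun u : α × T.Pt => ctx u.1 u.2) :
    ∃ (f : α → List PGate) (g : (α × List V4) × T.Pt → V4), Poly f ∧ Poly g ∧ ∀ a, PWf (f a) ∧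
      (f a).length = Nat.card Λ ^ ((u0 a).length + (u1 a).length) * Nat.card Sl ∧
      ∀ y, pviol (f a) y ≤ δ → ∃ x : T.Z (u0 a).length → Sl → V4,
        (∀ z, x z o = g ((a, y), ⟨_, z⟩)) ∧
        viol ω (T.mv _) (fun z => Ψ₀ (ctx a ⟨_, z⟩)) x ≤ 1 / 2 ^ (u1 a).length := by
  obtain ⟨J, _, ws, Φ, Ψ, Δ, hA⟩ := hA
  classical
  let _ := finCode Sl
  let _ : Inhabited Λ := ⟨l⟩
  let _ : Inhabited Mv := ⟨T.m0⟩
  have : Nonempty Sl := ⟨o⟩
  let k0 : α → T.Lev := fun a => ⟨(u0 a).length⟩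
  let s0 : α → List (Wir Mv Sl) × T.Tb (Sl → Gate) := fun a =>
    ([ω], mkT (k0 a) fun p => Ψ₀ (ctx a p))
  let sK := fun a => (round ws Φ Ψ)^[(u1 a).length] (s0 a)
  let x0 := fun u : α × List V4 =>
    (dec ws Δ)^[(u1 u.1).length] ((sK u.1).1, unf (Sl := Sl) (sK u.1).2.1 u.2)
  have pk : Poly k0 := p_mkLev hΛ p0 (b0.of_le fun a =>
    Nat.pow_le_pow_right (by omega) (Nat.le_add_right _ _))
  have pK := p_mkLev (T := T) hΛ (p0.append p1) (b0.of_le fun a => by rw [List.length_append])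
  have ps0 : Poly s0 := (p_const [ω]).pair (p_mkT pk (poly_fin1 Ψ₀ pc))
  have pS : Poly sK := p_iter (by omega) p_round p1 ps0 pK fun C i h =>
    ⟨(len_round _ _).le, by rw [lv_round, List.length_append]; exact Nat.add_le_add_left h _, by
      cases i with
      | zero => exact ⟨_, rfl⟩
      | succ i => rw [iterate_succ_apply']; exact ⟨_, rfl⟩⟩
  have pL : Poly fun u : α × List V4 => (sK u.1).2.1 := (pS.comp p_id.fst).snd.fst
  have pX : Poly x0 := p_iter (by omega) p_dec (p1.comp p_id.fst)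
    ((pS.comp p_id.fst).fst.pair (p_unf pL p_id.snd)) pL fun u i _ =>
    ⟨len_dec _ _, by rw [lv_dec]; exact Nat.sub_le _ _, by
      cases i with
      | zero => exact ⟨_, rfl⟩
      | succ i => rw [iterate_succ_apply']; exact ⟨_, rfl⟩⟩
  refine ⟨fun a => flat (sK a), fun u => look (x0 u.1).2 u.2 o, p_flat.comp pS,
    poly_fin1 (fun g : Sl → V4 => g o) (p_look (pX.comp p_id.fst).snd p_id.snd), fun a =>
    ⟨(flat_spec _).1, ?_, fun y hy => ⟨fun z => look (x0 (a, y)).2 ⟨_, z⟩, fun _ => rfl, ?_⟩⟩⟩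
  · have := lv_round (ws := ws) (Φ := Φ) (Ψ := Ψ) (s0 a) (u1 a).length
    simp only [flat, flatL, nodes, List.length_map, List.length_flatMap, length_enum,
      List.map_const', List.sum_replicate, length_all, smul_eq_mul]
    rw [this]
    rfl
  · rw [(flat_spec _).2] at hy
    have h1 := (iter_le hA _ (s0 a) ((sK a).1, unf (sK a).2.1 y) (lv_round _ _) rfl hy).2
    have e2 : (fun z : T.Z (k0 a).k => Ψ₀ (ctx a ⟨_, z⟩)) = fun z => look (s0 a).2 ⟨_, z⟩ :=
      funext fun z => (look_mkT (fun p => Ψ₀ (ctx a p)) rfl).symm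
    rw [e2]
    exact le_trans h1 (div_le_div_of_nonneg_right (pr_le_one _) (by positivity))

theorem ex_A (c : ℕ) : ∃ A, ∀ s g x, 1 ≤ s → g ≤ 2 * (s * A) + 1 → x ≤ 2 ^ s →
    (g + x) ^ c ≤ 2 ^ (s * A) := by
  refine ⟨2 ^ (2 * c + 4), fun s g x hs hg hx => ?_⟩
  have h1 : s < 2 ^ s := Nat.lt_two_pow_self
  have h2 : c + 1 < 2 ^ (c + 1) := Nat.lt_two_pow_self
  have h3 : 1 ≤ 2 ^ (2 * c + 4) := Nat.one_le_two_pow
  have h4 : g + x ≤ 2 ^ (s + (2 * c + 6)) := by
    rw [pow_add, show 2 * c + 6 = 2 * c + 4 + 2 from rfl, pow_add _ _ 2]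
    nlinarith
  refine (Nat.pow_le_pow_left h4 _).trans ?_
  rw [← pow_mul]
  refine Nat.pow_le_pow_right two_pos ?_
  have h5 : 2 ^ (2 * c + 4) = 4 * (2 ^ (c + 1)) ^ 2 := by ring
  have h6 : (c + 1) ^ 2 ≤ (2 ^ (c + 1)) ^ 2 := Nat.pow_le_pow_left h2.le _
  have h7 : (2 * c + 7) * c ≤ 2 ^ (2 * c + 4) := by nlinarith
  calc (s + (2 * c + 6)) * c ≤ s * ((2 * c + 7) * c) := by
        rw [← mul_assoc]; exact Nat.mul_le_mul_right _ (by nlinarith)
    _ ≤ _ := Nat.mul_le_mul_left _ h7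

theorem ex_c (c₀ c₁ A N : ℕ) : ∃ c, ∀ m g s t W k, 2 ≤ W → 2 ^ s ≤ W ^ 3 → 2 ^ t ≤ W ^ 3 →
    g ≤ 2 * (s * A) + 1 → c₀ * k ≤ m + c₁ * g + c₀ →
    (2 ^ c₀) ^ (k + (t + g * (3 + c₁) + (c₀ + 2 * N))) * N ≤ 2 ^ m * W ^ c := by
  refine ⟨3 * ((c₁ + c₀ * (3 + c₁)) * 2 * A) + 3 * c₀ +
    (c₁ + c₀ * (3 + c₁) + c₀ + c₀ * (c₀ + 2 * N) + N), fun m g s t W k hW hs ht hg hk => ?_⟩
  have h1 := Nat.mul_le_mul_left (c₁ + c₀ * (3 + c₁)) hg
  have h2 : ∀ x e, 2 ^ x ≤ W ^ 3 → 2 ^ (x * e) ≤ W ^ (3 * e) := fun x e h => by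
    rw [pow_mul, pow_mul]; exact Nat.pow_le_pow_left h _
  calc _ ≤ 2 ^ (c₀ * (k + (t + g * (3 + c₁) + (c₀ + 2 * N))) + N) := by
        rw [← pow_mul, pow_add _ _ N]
        exact Nat.mul_le_mul_left _ Nat.lt_two_pow_self.le
    _ ≤ 2 ^ (m + (s * ((c₁ + c₀ * (3 + c₁)) * 2 * A) + t * c₀ +
        (c₁ + c₀ * (3 + c₁) + c₀ + c₀ * (c₀ + 2 * N) + N))) :=
        Nat.pow_le_pow_right two_pos (by nlinarith)
    _ ≤ _ := by
        rw [pow_add, pow_add, pow_add, pow_add W, pow_add W]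
        exact Nat.mul_le_mul_left _ (Nat.mul_le_mul (Nat.mul_le_mul (h2 _ _ hs) (h2 _ _ ht))
          (Nat.pow_le_pow_left hW _))

theorem pr_inj {α β : Type} [Finite α] [Finite β] [Nonempty β] {e : α → β} (he : Injective e)
    (p : β → Prop) : pr (fun a => p (e a)) ≤ pr p * Nat.card β / Nat.card α := by
  have : (Nat.card β : ℝ) ≠ 0 := Nat.cast_ne_zero.2 Nat.card_pos.ne'
  rw [pr_eq_cn, pr_eq_cn, div_mul_cancel₀ _ this]
  exact div_le_div_of_nonneg_right (Nat.cast_le.2 (Nat.card_le_card_of_injective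
    (Subtype.map e fun _ h => h) (Subtype.map_injective _ he))) (Nat.cast_nonneg _)

variable {Mv Z : Type} {mv : Mv → Z → Z} {a b : Bool → Bool → List Mv} {wd : ℕ → List Mv}

theorem lrun_eq (l : List ℕ) (z : Z) : lrun mv wd l z = run mv (l.flatMap wd) z := by
  induction l generalizing z with
  | nil => rfl
  | cons x l ih => rw [List.flatMap_cons, run_append, ← ih]; rfl

theorem pos_inj (h : ∀ m, Injective (mv m)) (u v : ℕ) : Injective fun z => pos mv a z u v := by
  have : ∀ c n, Injective (vtx mv c n) := fun c n => by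
    unfold vtx
    induction n.bits with
    | nil => exact injective_id
    | cons x l ih => exact (run_inj h _).comp ih
  exact (this _ u).comp (this _ v)

/-- The letters below `n`. -/
def cut (wd : ℕ → List Mv) (n x : ℕ) : List Mv := ((List.range n).map wd).getD x []

theorem cut_lt {n x : ℕ} (h : x < n) : cut wd n x = wd x := by simp [cut, h]

theorem cut_or (n x : ℕ) : cut wd n x = wd x ∨ cut wd n x = [] := by
  by_cases h : x < n
  · exact .inl (cut_lt h)
  · exact .inr (by simp [cut, h])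

theorem Trs.cut {n : ℕ} (hn : 2 ≤ n) (h : Trs mv a b wd) : Trs mv a b (cut wd n) :=
  ⟨h.inv, h.com, by rw [cut_lt hn]; exact h.one, fun x hx => by
    rcases cut_or (wd := wd) n x with e | e <;> rw [e]
    exacts [h.oth x hx, fun _ _ => rfl]⟩

theorem Cub.cut {n g m : ℕ} {tw : List Bool × List Bool → List ℕ} {B : Set Z} {dat : ℕ → Z}
    (hn : ∀ p, ∀ x ∈ tw p, x < n) (h : Cub mv a wd tw g m B dat) :
    Cub mv a (cut wd n) tw g m B dat := by
  have e : ∀ l : List ℕ, (∀ x ∈ l, x < n) → lrun mv (Tg.cut wd n) l = lrun mv wd l := fun l hl =>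
    funext fun z => by rw [lrun_eq, lrun_eq, List.flatMap_congr fun x hx => cut_lt (hl x hx)]
  refine ⟨h.inj, h.sep, h.mem, fun y hy G J hG hJ => ?_⟩
  rw [e _ (hn _)]
  exact ⟨(h.flip y hy G J hG hJ).1, fun i => by
    rw [e _ fun x hx => hn _ x (List.mem_of_mem_take hx)]; exact (h.flip y hy G J hG hJ).2 i⟩

theorem Cub.dat_eq {tw : List Bool × List Bool → List ℕ} {B : Set Z} {dat : ℕ → Z}
    {G M : List Bool} (h : Cub mv a wd tw G.length M.length B dat) {y : ℕ}
    (hy : y < 2 ^ M.length) : lrun mv wd ((idx M).flatMap fun j =>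
      bif y.testBit j then tw (G, M.take j) else []) (dat 0) = dat y := by
  have key : ∀ i ≤ M.length, lrun mv wd ((List.range i).flatMap fun j =>
      bif y.testBit j then tw (G, M.take j) else []) (dat 0) = dat (y % 2 ^ i) := fun i => by
    induction i with
    | zero => intro _; rw [pow_zero, Nat.mod_one]; rfl
    | succ i ih =>
      intro hi
      have l : (M.take i).length = i := List.length_take_of_le (by omega)
      rw [List.range_succ, List.flatMap_append, lrun, run_append, ← lrun, ← lrun, ih (by omega),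
        List.flatMap_singleton]
      cases e : y.testBit i
      · refine congrArg dat (Nat.eq_of_testBit_eq fun j => ?_)
        rcases lt_trichotomy j i with u | rfl | u
        · simp [Nat.testBit_mod_two_pow, u, Nat.lt_succ_of_lt u]
        · simp [Nat.testBit_mod_two_pow, e]
        · simp [Nat.testBit_mod_two_pow, u.not_gt, Nat.not_lt.2 (Nat.succ_le_of_lt u)]
      · rw [cond_true, (h.flip _ ((Nat.mod_le _ _).trans_lt hy) G _ rfl (by omega)).1, l]
        refine congrArg dat (Nat.eq_of_testBit_eq fun j => ?_)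
        rcases lt_trichotomy j i with u | rfl | u
        · simp [Nat.testBit_mod_two_pow, u, Nat.lt_succ_of_lt u, u.ne']
        · simp [Nat.testBit_mod_two_pow, e]
        · simp [Nat.testBit_mod_two_pow, u.not_gt, Nat.not_lt.2 (Nat.succ_le_of_lt u), u.ne]
  exact (key _ le_rfl).trans (by rw [Nat.mod_eq_of_lt hy])

theorem tok_congr {X : TC} (hX : TWf X) {x x' : ℕ → ℕ → V4}
    (h : ∀ l < X.2.length, ∀ y < 2 ^ X.1.length, x l y = x' l y) {y l : ℕ}
    (hy : y < 2 ^ X.1.length) (ok : TOk X x y l) : TOk X x' y l := fun g hg => by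
  have h1 := hX.2 g (List.mem_of_getElem? hg)
  have h2 : ∀ j, y ^^^ uv X.1.length j < 2 ^ X.1.length := fun j => Nat.xor_lt_two_pow hy (by
    unfold uv; split_ifs with e
    exacts [Nat.pow_lt_pow_right one_lt_two e, Nat.two_pow_pos _])
  rw [← h _ h1.1 _ (h2 _), ← h _ h1.2.1 _ (h2 _), ← h l (List.getElem?_eq_some_iff.1 hg).1 y hy]
  exact ok g hg

theorem size_le {n W : ℕ} (h : n ≤ W) (hW : 2 ≤ W) : 2 ^ n.bits.length ≤ W ^ 3 := by
  have := (two_pow_bits n).2
  have h2 : 2 * 2 ≤ W * W := Nat.mul_le_mul hW hW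
  nlinarith

theorem fin_num {u w N R L M : ℕ} {p : ℝ} (hp : p ≤ (N : ℝ) ^ 2 * (1 / 2 ^ R))
    (h : u * w * N ^ 2 * L ≤ 2 ^ R * 2 ^ M) : (u : ℝ) * (w * (p * L / (2 ^ M : ℕ))) ≤ 1 := by
  have f3 := (Nat.cast_le (α := ℝ)).2 h
  push_cast at f3 ⊢
  calc _ ≤ (u : ℝ) * (w * ((N : ℝ) ^ 2 * (1 / 2 ^ R) * L / 2 ^ M)) := by gcongr
    _ ≤ 1 := by
      field_simp
      linarith

end Tg

open Tg in
theorem tgS : TgS := by
  rintro ⟨Mv, Λ, Sl, _, _, _, T, δ, n, hδ, hS, hA, c₀, c₁, a, b, wd0, w, l, tw, hΛ, hc, hn, ptw,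
    htw, hab, hwd, h0, hN⟩ hG hSt
  classical
  let _ := finCode Mv
  let _ := finCode Λ
  let _ : Inhabited Λ := ⟨l⟩
  let _ : Inhabited Mv := ⟨T.m0⟩
  let wd := cut wd0 n
  have w0 : wd 0 = [] := (cut_lt (by omega)).trans h0
  have pwd : Poly wd := by unfold wd cut; fun_prop
  obtain ⟨ω, Ψ₀, o, role, prole, hG⟩ := hG Mv Sl n T.m0 a b wd hn hS hab fun x => by
    rcases cut_or (wd := wd0) n x with e | e <;> simp [wd, e, hwd x]
  obtain ⟨st, ws, c, pst, pws, hSt⟩ := hSt tw ptw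
  obtain ⟨A, hA1⟩ := ex_A c
  obtain ⟨c', hc'⟩ := ex_c c₀ c₁ A (Nat.card Sl)
  let t0 : TC × List Bool → List T4 := fun x => (x.1.2.headD default).2.2
  let um : TC × List Bool → List Bool := fun x => x.1.1.take (t0 x).length.bits.length
  let bs : TC × List Bool → List Bool := fun x => (x.1.1.length + x.1.2.length + 2).bits
  let LA : TC × List Bool → List Bool := fun x => (bs x).flatMap fun _ => List.replicate A false
  let G : TC × List Bool → List Bool := fun x =>
    (false :: (LA x ++ LA x)).take (2 ^ (LA x).length.bits.length)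
  let u0 : TC × List Bool → List Bool := fun x => false ::
    (um x ++ (G x).flatMap fun _ => List.replicate c₁ false).take
      (((um x).length + c₁ * (G x).length) / c₀)
  let u1 : TC × List Bool → List Bool := fun x => x.2.length.bits ++
    ((G x).flatMap fun _ => List.replicate (3 + c₁) false) ++
    List.replicate (c₀ + 2 * Nat.card Sl) false
  have lA : ∀ x, (LA x).length = (bs x).length * A := fun x => by simp [LA, List.length_flatMap]
  have lG : ∀ x, (G x).length = 2 ^ (LA x).length.bits.length := fun x =>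
    List.length_take_of_le (by have := (two_pow_bits (LA x).length).2; simp; omega)
  have l0 : ∀ x, (u0 x).length = ((um x).length + c₁ * (G x).length) / c₀ + 1 := fun x =>
    congrArg (· + 1) (List.length_take_of_le ((Nat.div_le_self _ _).trans_eq (by
      simp [List.length_flatMap, mul_comm])))
  have l1 : ∀ x, (u1 x).length =
      x.2.length.bits.length + (G x).length * (3 + c₁) + (c₀ + 2 * Nat.card Sl) := fun x => by
    simp [u1, List.length_flatMap, add_assoc]
  have lk0 : ∀ x, (um x).length + c₁ * (G x).length ≤ c₀ * (u0 x).length ∧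
      c₀ * (u0 x).length ≤ (um x).length + c₁ * (G x).length + c₀ := fun x => by
    rw [l0, mul_add, mul_one]
    have := Nat.div_add_mod ((um x).length + c₁ * (G x).length) c₀
    have := Nat.mod_lt ((um x).length + c₁ * (G x).length) hc
    omega
  have gb : ∀ x, (bs x).length * A < (G x).length ∧ (G x).length ≤ 2 * ((bs x).length * A) + 1 :=
    fun x => by rw [lG, ← lA]; exact two_pow_bits _
  have sz1 : ∀ x, Nat.card Λ ^ ((u0 x).length + (u1 x).length) * Nat.card Sl ≤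
      2 ^ (um x).length * (x.2.length + x.1.1.length + x.1.2.length + 2) ^ c' := fun x => by
    rw [hΛ, l1]
    exact hc' _ _ _ _ _ _ (by omega) (size_le (by omega) (by omega))
      (size_le (by omega) (by omega)) (gb x).2 (lk0 x).2
  have pt0 : Poly t0 := by fun_prop
  have pum : Poly um := by fun_prop
  have pLA : Poly LA := by fun_prop
  have pG : Poly G := by fun_prop
  have p0 : Poly u0 := (p_const false).cons (p_take (p_div (by fun_prop) (p_const _)) (by fun_prop))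
  have p1 : Poly u1 := by fun_prop
  have hΛ2 : 2 ≤ Nat.card Λ := hΛ ▸ Nat.succ_le_of_lt (Nat.one_lt_two_pow hc.ne')
  have hSl : 0 < Nat.card Sl := lt_of_lt_of_le (by positivity) hS
  have bl : ∀ {β : Type} [N487b59b3 β] {f : TC × List Bool → List β}, Poly f →
      Bd bitEncode fun x => (f x).length := fun h => h.bd.of_le fun _ => length_le_enc _
  have b0 : Bd bitEncode fun x => Nat.card Λ ^ ((u0 x).length + (u1 x).length) := by
    refine ((((Bd.const 2).mul (bl pt0)).add (Bd.const 1)).mul (((((bl p_id.snd).add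
      (bl p_id.fst.fst)).add (bl p_id.fst.snd)).add (Bd.const 2)).pow c')).of_le fun x => ?_
    refine (Nat.le_mul_of_pos_right _ hSl).trans ((sz1 x).trans (Nat.mul_le_mul_right _ ?_))
    exact (Nat.pow_le_pow_right two_pos (List.length_take_le _ _)).trans (two_pow_bits _).2
  let k0 : TC × List Bool → T.Lev := fun x => ⟨(u0 x).length⟩
  have pk : Poly k0 := p_mkLev hΛ2 p0 (b0.of_le fun a =>
    Nat.pow_le_pow_right (by omega) (Nat.le_add_right _ _))
  let dP : (TC × List Bool) × ℕ → T.Pt := fun x => run T.mvP (((idx (um x.1)).flatMap fun j =>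
    bif x.2.testBit j then tw (G x.1, (um x.1).take j) else []).flatMap wd)
      (run T.mvP w (orgP l (k0 x.1)))
  have pd : Poly dP := by fun_prop
  let tbP : (TC × List Bool) × ℕ × T.Pt → T4 := fun x => bif ltB x.2.1 x.1.1.2.length then
    lk ((idx (t0 x.1)).map fun y => (dP (x.1, y), (x.1.1.2.getD x.2.1 default).2.2.getD y default))
      x.2.2 default else tab fun s _ => s
  have ptb : Poly tbP := by fun_prop
  let roots : TC × List Bool → List T.Pt := fun x => (idx (t0 x)).flatMap fun y =>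
    (ws (x.1, G x)).map fun v => run T.mvP (v.flatMap wd) (dP (x, y))
  have pro : Poly roots := by fun_prop
  have pp : Poly fun x : T.Pt × ℕ × ℕ => pos T.mvP a x.1 x.2.1 x.2.2 :=
    p_vtx _ (by fun_prop) (p_vtx _ (by fun_prop) (by fun_prop))
  let en : (TC × List Bool) × T.Pt × ℕ × ℕ → T.Pt × BCtx × Fin n × Fin n × Bool := fun x =>
    (pos T.mvP a x.2.1 x.2.2.1 x.2.2.2,
      role (st (x.1.1, G x.1), x.2.2.1, x.2.2.2, tbP (x.1, x.2.2.2, x.2.1)))
  have pen : Poly en := (pp.comp p_id.snd).pair (by fun_prop)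
  let ctx : TC × List Bool → T.Pt → BCtx × Fin n × Fin n × Bool := fun x p =>
    lk ((roots x).flatMap fun z => (idx (st (x.1, G x))).flatMap fun u =>
      (idx (st (x.1, G x))).map fun v => en (x, z, u, v)) p (role default)
  obtain ⟨f, g, pf, pg, h⟩ := rounds hΛ2 hA l ω Ψ₀ o p0 p1 b0 (ctx := ctx) (by fun_prop)
  refine ⟨δ, c', f, fun x => (idx x.1.1.2).map fun v => (idx (t0 x.1)).map fun y =>
    g (x, pos T.mvP a (dP (x.1, y)) v v), hδ, pf, p_map (p_map (pg.comp (p_id.fst.fst.pair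
      (pp.comp (f := fun x : (((TC × List Bool) × List V4) × ℕ) × ℕ =>
        (dP (x.1.1.1, x.2), x.1.2, x.1.2)) (by fun_prop)))) (by fun_prop)) (by fun_prop),
    fun X u hX => ?_⟩
  have lt : (t0 (X, u)).length = 2 ^ X.1.length := by
    obtain ⟨M, _ | ⟨q, L⟩⟩ := X
    exacts [absurd rfl hX.1, (hX.2 q List.mem_cons_self).2.2]
  have eu : um (X, u) = X.1 := List.take_of_length_le (by
    rw [lt, Nat.size_eq_bits_len, Nat.size_pow]; exact Nat.le_succ _)
  obtain ⟨wf, len, h⟩ := h (X, u)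
  refine ⟨wf, len ▸ eu ▸ sz1 (X, u), fun y hy => ?_⟩
  obtain ⟨x, hx, hv⟩ := h y hy
  obtain ⟨B, dat, d0, hC⟩ := (hN (u0 (X, u)).length).2 _ X.1.length
    (by rw [← lG (X, u), ← eu]; exact (lk0 (X, u)).1)
  rw [← lG (X, u)] at hC
  replace hC := Cub.cut htw hC
  obtain ⟨F, hF, hG⟩ := hG _ (T.mv (u0 (X, u)).length) (T.id0 _) (T.inj _)
    (Trs.cut hn (hN _).1) w0 (fun z => ctx (X, u) ⟨_, z⟩) x
  obtain ⟨swf, sl, -, sb, hSt⟩ := hSt X (G (X, u)) n hX hn htw
  set S := st (X, G (X, u)) with eS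
  set W := ws (X, G (X, u)) with eW
  replace sb : S.length + W.length ≤ 2 ^ ((G (X, u)).length - 1) := by
    refine sb.trans (le_trans ?_ (Nat.pow_le_pow_right two_pos
      (Nat.le_sub_one_of_lt (gb (X, u)).1)))
    rw [add_assoc, add_assoc, ← add_assoc X.1.length]
    refine hA1 _ _ _ ?_ (gb (X, u)).2 (two_pow_bits _).1.le
    rw [Nat.size_eq_bits_len]
    exact Nat.size_pos.2 (Nat.succ_pos _)
  have ed : ∀ y < 2 ^ X.1.length, dP ((X, u), y) = ⟨_, dat y⟩ := fun y hy => by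
    simp only [dP, eu, orgP, run_mvP, k0]
    rw [← lrun_eq, ← d0, Cub.dat_eq hC hy]
  have ep : ∀ (z : T.Z (u0 (X, u)).length) u v,
      pos T.mvP a ⟨_, z⟩ u v = ⟨_, pos (T.mv _) a z u v⟩ := fun z u v => by
    simp only [pos, vtx_mvP]
  have er : ∀ p, p ∈ roots (X, u) ↔ ∃ y < 2 ^ X.1.length, ∃ v ∈ W,
      p = ⟨_, lrun (T.mv _) wd v (dat y)⟩ := fun p => by
    simp only [roots, List.mem_flatMap, List.mem_map, mem_idx, lt]
    refine exists_congr fun y => and_congr_right fun hy => exists_congr fun v =>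
      and_congr_right fun _ => ?_
    rw [ed y hy, run_mvP, lrun_eq, eq_comm]
  let H : Set (T.Z (u0 (X, u)).length) := {z | (⟨_, z⟩ : T.Pt) ∈ roots (X, u) ∧
    ∀ u' < S.length, ∀ v < S.length, pos (T.mv _) a z u' v ∉ F}
  have rB : ∀ z, (⟨_, z⟩ : T.Pt) ∈ roots (X, u) → z ∈ B := fun z hz => by
    obtain ⟨y, hy, v, hv, e⟩ := (er _).1 hz
    rw [eq_of_heq (Pt.mk.inj e).2]
    exact (hSt _ _ _ a wd B dat w0 hC y hy).1 v hv
  have sok := hG S (fun v z => tbP ((X, u), v, ⟨_, z⟩)) H swf fun z hz u' hu v hv =>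
    ⟨hz.2 u' hu v hv, lk_eq _ (by
      simp only [List.mem_flatMap, List.mem_map, mem_idx]
      exact ⟨_, hz.1, u', hu, v, hv, by simp only [en, ep]; rfl⟩) fun r hr => by
      simp only [List.mem_flatMap, List.mem_map, mem_idx] at hr
      obtain ⟨p, hp, u2, hu2, v2, hv2, e⟩ := hr
      obtain ⟨y, hy, v3, hv3, rfl⟩ := (er _).1 hp
      rw [← eS] at hu2 hv2
      simp only [en, ep, Prod.mk.injEq, Pt.mk.injEq, heq_eq_eq, true_and] at e
      obtain ⟨rfl, rfl⟩ := hC.sep u2 (by omega) v2 (by omega) u' (by omega) v (by omega) _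
        (rB _ hp) _ (rB _ hz.1) e.1
      rw [← e.2, pos_inj (T.inj _) _ _ e.1]⟩
  have bad : tviol X ((idx X.2).map fun v => (idx (t0 (X, u))).map fun y' =>
      g (((X, u), y), pos T.mvP a (dP ((X, u), y')) v v)) ≤
      pr fun y : Fin (2 ^ X.1.length) => ∃ i : Fin W.length × Fin S.length × Fin S.length,
        pos (T.mv _) a (lrun (T.mv _) wd W[i.1] (dat y)) i.2.1 i.2.2 ∈ F := by
    refine pr_mono fun y' ⟨l', hl'⟩ => by_contra fun nb => hl' (tok_congr hX
      (x := fun l y => x (pos (T.mv _) a (dat y) l l) o) (fun l hl y hy => ?_) y'.2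
      ((hSt _ _ _ a wd B dat w0 hC y' y'.2).2 _ H _ (fun l q hq => ?_) (fun v z hv => ?_) sok
        (fun v hv => ⟨(er _).2 ⟨_, y'.2, v, hv, rfl⟩, fun u2 hu2 v2 hv2 e => ?_⟩) l'))
    · simp [val2, idx, hl, hy, lt, ed y hy, ep, hx]
    · have hl := (List.getElem?_eq_some_iff.1 hq).1
      simp only [tbP, ltB_iff.2 hl, cond_true, List.getD_eq_getElem?_getD (l := X.2), hq,
        Option.getD_some]
      rw [← ed y' y'.2]
      refine lk_map (key := fun y => dP ((X, u), y)) _ (mem_idx.2 (y'.2.trans_eq lt.symm)) fun y2 h2 e => ?_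
      rw [mem_idx, lt] at h2
      rw [ed _ h2, ed _ y'.2] at e
      rw [hC.inj _ h2 _ y'.2 (eq_of_heq (Pt.mk.inj e).2)]
    · simp only [tbP, ltB_false_iff.2 hv, cond_false]
    · obtain ⟨i, hi, rfl⟩ := List.getElem_of_mem hv
      exact nb ⟨(⟨i, hi⟩, ⟨u2, hu2⟩, ⟨v2, hv2⟩), e⟩
  have : Nonempty (T.Z (u0 (X, u)).length) := ⟨dat 0⟩
  have inj : ∀ (v : List ℕ) u' v', Injective fun y : Fin (2 ^ X.1.length) =>
      pos (T.mv _) a (lrun (T.mv _) wd v (dat y)) u' v' := fun v u' v' y1 y2 e =>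
    Fin.ext (hC.inj _ y1.2 _ y2.2 (run_inj (mv := fun x => run (T.mv _) (wd x))
      (fun x => run_inj (T.inj _) _) v (pos_inj (T.inj _) u' v' e)))
  replace bad := bad.trans (pr_exists_le' fun i => pr_inj (inj W[i.1] i.2.1 i.2.2) (· ∈ F))
  refine (mul_le_mul_of_nonneg_left bad (Nat.cast_nonneg _)).trans ?_
  have f1 : pr (· ∈ F) ≤ (Nat.card Sl : ℝ) ^ 2 * (1 / 2 ^ (u1 (X, u)).length) :=
    hF.trans (mul_le_mul_of_nonneg_left hv (sq_nonneg _))
  have f2 : u.length * (W.length * (S.length * S.length)) * Nat.card Sl ^ 2 *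
      Nat.card Λ ^ (u0 (X, u)).length ≤ 2 ^ (u1 (X, u)).length * 2 ^ X.1.length := by
    have e3 : 2 ^ ((G (X, u)).length - 1) ≤ 2 ^ (G (X, u)).length :=
      Nat.pow_le_pow_right two_pos (Nat.sub_le _ _)
    have e4 := (lk0 (X, u)).2
    rw [eu] at e4
    calc _ ≤ 2 ^ u.length.bits.length * (2 ^ (G (X, u)).length * (2 ^ (G (X, u)).length *
          2 ^ (G (X, u)).length)) * (2 ^ Nat.card Sl) ^ 2 *
          2 ^ (X.1.length + c₁ * (G (X, u)).length + c₀) := by
          rw [hΛ, ← pow_mul]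
          exact Nat.mul_le_mul (Nat.mul_le_mul (Nat.mul_le_mul (two_pow_bits _).1.le
            (Nat.mul_le_mul (by omega) (Nat.mul_le_mul (by omega) (by omega))))
            (Nat.pow_le_pow_left Nat.lt_two_pow_self.le _)) (Nat.pow_le_pow_right two_pos e4)
      _ = _ := by rw [l1]; ring
  simp only [Nat.card_prod, Nat.card_eq_fintype_card (α := Fin _), Fintype.card_fin, card_Z]
  exact fin_num f1 f2

end Pool.Agent.PP.QL
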