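import Pool.Agent.MP_13199e_lc.QL.Route
import Pool.Agent.MP_13199e_lc.QL.Ptc
import Pool.Agent.MP_13199e_lc.QL.Net
import Pool.Agent.MP_13199e_lc.QL.AmpN
import Pool.Agent.MP_13199e_lc.QL.Grid
import Pool.Agent.MP_13199e_lc.QL.Sta
import Pool.Agent.MP_13199e_lc.QL.Tg
import Pool.Agent.MP_13199e_lc.QL.Fin

/-! PROJECT QL: the assembly of the back end. -/

set_option autoImplicit false

namespace Pool.Agent.PP.QL

theorem qGap : QGap := qgap_of routeS ptcS geoN ampNS gridS staS tgS

theorem quasi_of (h : QBase) : QuasiPCP ∧ QuasiOpt := finS h qGap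

end Pool.Agent.PP.QL
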