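import Pool.Agent.MP_13199e_lc.QL.Spec

/-! PROJECT QL: the views are actions; rows and columns. -/

set_option autoImplicit false

namespace Pool.Agent.PP.QL

open Pool.Agent.MP_13199e_lc Function Finset Env

namespace Bs

variable {E : Env}

theorem lo_sq (l : ℕ) (u : E.A × E.A) :
    ∃ z : E.K, lo l u ^ 2 + z = lo l u + z ^ 2 ^ E.e := by
  refine ⟨∑ k, u.1 k * u.2 k ^ (2 ^ E.e * (l + 1)), ?_⟩
  rw [lo, sum_pow_char 2]
  generalize (∑ k, u.1 k * u.2 k ^ (2 ^ E.e * (l + 1))) = z
  rw [← sum_range_succ (fun j => z ^ 2 ^ j), sum_range_succ']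
  simp only [pow_zero, pow_one, pow_succ, pow_mul]

theorem idem (l : ℕ) (u : E.A × E.A) : (lo l u + hi l u) ^ 2 = lo l u + hi l u := by
  obtain ⟨z, h⟩ := lo_sq l u
  have h' := congrArg (· ^ 2 ^ E.e) h
  have c : (z ^ 2 ^ E.e) ^ 2 ^ E.e = z := by
    rw [← pow_mul, ← pow_add, ← two_mul, ← E.card_K, FiniteField.pow_card]
  simp only [add_pow_char_pow, c] at h'
  rw [← pow_mul, mul_comm, pow_mul] at h'
  rw [add_pow_char, hi]
  linear_combination h + h'

theorem tr (i : Fin E.D) (u : E.A × E.A) : io (g u i) = lo i u + hi i u := by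
  have h := idem i u
  unfold g
  generalize lo i u + hi i u = s at h
  by_cases e : s = 0
  · simp [io, e]
  · rw [if_neg e, io, if_neg one_ne_zero]
    exact (mul_left_cancel₀ e (by rw [mul_one, ← sq, h])).symm

theorem zm (x : ZMod 2) : x = 0 ∨ x = 1 := by
  revert x
  decide

theorem io_add (x y : ZMod 2) : (io (x + y) : E.K) = io x + io y := by
  have e : (1 : ZMod 2) + 1 = 0 := by decide
  rcases zm x with rfl | rfl <;> rcases zm y with rfl | rfl <;> simp [io, e, E.add_self]

theorem io_inj {x y : ZMod 2} (h : (io x : E.K) = io y) : x = y := by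
  rcases zm x with rfl | rfl <;> rcases zm y with rfl | rfl <;> simp [io] at h ⊢

theorem lo_add (l : ℕ) (α β b : E.A) : lo l (α + β, b) = lo l (α, b) + lo l (β, b) := by
  simp only [lo, Pi.add_apply, add_mul, sum_add_distrib, add_pow_char_pow]

theorem g_add (α β b : E.A) : g (α + β, b) = g (α, b) + g (β, b) :=
  funext fun i => io_inj (E := E) (by
    rw [Pi.add_apply, io_add, tr, tr, tr, hi, hi, hi, lo_add, add_pow_char_pow]
    ring)

theorem g_zero (b : E.A) : g (0, b) = 0 := by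
  have h := g_add (0 : E.A) 0 b
  rw [add_zero] at h
  exact left_eq_add.1 h

theorem aa (α : E.A) : α + α = 0 := funext fun _ => E.add_self _

theorem bb {n : ℕ} (x : Bv n) : x + x = 0 := funext fun _ => CharTwo.add_self_eq_zero _

theorem zero (v : Bool) (z : E.Z) : vz v 0 z = z := by cases v <;> simp [vz, g_zero]

theorem act (v : Bool) (α β : E.A) (z : E.Z) : vz v α (vz v β z) = vz v (α + β) z := by
  cases v <;> simp only [vz, cond_true, cond_false, g_add, add_assoc, add_comm β α,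
    add_comm (g (β, _))]

theorem bij (v : Bool) (α : E.A) : Bijective (vz v α) :=
  Involutive.bijective fun z => by rw [act, aa, zero]

theorem bijw (σ : Bool) (l : ℕ) (v : Bool) (α : E.A) : Bijective (vw σ l v α) :=
  Involutive.bijective fun p => by
    cases σ <;> cases v <;> simp only [vw, add_assoc, aa, bb, add_zero]

theorem bijf (l : ℕ) : Bijective (flp (E := E) l) :=
  Involutive.bijective fun p => by simp only [flp, add_assoc, bb, add_zero]

theorem msk_add (σ : Bool) (l : ℕ) (x y : Bv E.D) : msk σ l (x + y) = msk σ l x + msk σ l y := by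
  funext i
  simp only [msk, Pi.add_apply]
  split_ifs <;> simp

theorem lift (l : ℕ) (B : E.P → Prop) : pr (fun x : E.Z × E.Z => B (mg l x.1 x.2)) = pr B := by
  have h : Bijective fun x : E.Z × E.Z => (mg l x.1 x.2, msk false l x.2.1 + msk true l x.1.1) :=
    bijective_iff_has_inverse.2 ⟨fun y => ((msk false l y.1.1 + msk true l y.2, y.1.2.1),
      (msk false l y.2 + msk true l y.1.1, y.1.2.2)), fun x => by
        refine Prod.ext (Prod.ext (funext fun i => ?_) rfl) (Prod.ext (funext fun i => ?_) rfl) <;>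
          by_cases e : (i : ℕ) < l <;> simp [mg, msk, e], fun y => by
        refine Prod.ext (Prod.ext (funext fun i => ?_) rfl) (funext fun i => ?_) <;>
          by_cases e : (i : ℕ) < l <;> simp [mg, msk, e]⟩
  exact (pr_bij h fun y => B y.1).trans (pr_fst B)

theorem cK : (Nat.card E.K : ℝ) = E.q := by
  rw [Nat.card_eq_fintype_card, E.card_K, q]
  push_cast
  rfl

theorem cA : (Nat.card E.A : ℝ) = E.q ^ 4 := by
  rw [Nat.card_fun, Nat.cast_pow, cK, Nat.card_fin]

theorem cAA : (Nat.card (E.A × E.A) : ℝ) = E.q ^ 8 := by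
  rw [Nat.card_prod, Nat.cast_mul, cA]
  ring

theorem qpos : 0 < E.q := by unfold q; positivity

theorem line (v : Bool) (B : E.Z → Prop) (z : E.Z) (h : ¬Dn v B z) :
    pr (fun ρ : E.A => ∃ t : E.K, t ≠ 0 ∧ B (vz v (t • ρ) z)) < 1 / 2 := by
  have q0 := qpos (E := E)
  refine (pr_exists_le fun (t : E.K) (ρ : E.A) => t ≠ 0 ∧ B (vz v (t • ρ) z)).trans_lt
    ((sum_lt_sum (g := fun _ => 1 / (2 * E.q)) (fun t _ => ?_) ⟨0, mem_univ _, ?_⟩).trans_eq ?_)
  · by_cases e : t = 0
    · rw [pr_of_not fun _ k => k.1 e]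
      positivity
    · refine (pr_mono fun _ k => k.2).trans ((pr_bij (e := fun ρ : E.A => t • ρ) ?_
        fun ρ => B (vz v ρ z)).trans_le (not_lt.1 h))
      exact Finite.injective_iff_bijective.1 (smul_right_injective _ e)
  · rw [pr_of_not fun _ k => k.1 rfl]
    positivity
  · rw [sum_const, card_univ, ← Nat.card_eq_fintype_card, nsmul_eq_mul, cK]
    field_simp

theorem slice {α β γ : Type} [Finite α] [Finite β] {e : α × β → γ} (he : Bijective e) (b : β)
    (B : γ → Prop) : pr (fun a => B (e (a, b))) ≤ Nat.card β * pr B := by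
  have : Nonempty β := ⟨b⟩
  have c : (0 : ℝ) < Nat.card β := Nat.cast_pos.2 Nat.card_pos
  rw [← pr_bij he B, pr_prod, ← av_mul]
  refine av_mono fun a => ind_le (mul_nonneg c.le (pr_nonneg _)) fun k => ?_
  have := le_pr (p := fun b => B (e (a, b))) k
  rwa [div_le_iff₀' c] at this

theorem qge : (1024 : ℝ) * E.D ^ 4 ≤ E.q ∧ (1000 : ℝ) ≤ E.D ∧ E.q ^ 100 ≤ 2 ^ E.D := by
  have b := E.big
  have d := E.dim
  have e1 : 1 ≤ E.e := Nat.pos_of_ne_zero fun h => by
    have := Fintype.one_lt_card (α := E.K)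
    rw [E.card_K, h] at this
    omega
  have e2 : 5 ≤ E.e := by
    by_contra k
    have h1 := Nat.pow_le_pow_right two_pos (show E.e ≤ 4 by omega)
    have h2 := Nat.pow_le_pow_left (show 200 ≤ E.D by omega) 2
    omega
  refine ⟨?_, by exact_mod_cast (by omega : 1000 ≤ E.D), ?_⟩
  · have h := Nat.pow_le_pow_left b 2
    rw [← pow_mul 2, mul_comm E.e, mul_pow, ← pow_mul] at h
    unfold q
    exact_mod_cast h
  · rw [q, ← pow_mul]
    exact pow_le_pow_right₀ one_le_two (by omega)

theorem near (B : ℕ → E.P → Prop) (c : ℝ) (h : ∀ l ≤ E.D, pr (B l) ≤ c) :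
    pr (fun p => ∃ l ≤ E.D, ∃ r, Nr l p r ∧ B l r) ≤ E.q ^ 9 * c := by
  have c0 : 0 ≤ c := (pr_nonneg _).trans (h 0 (Nat.zero_le _))
  have hl : ∀ l : Fin (E.D + 1), pr (B l) ≤ c := fun l => h l (Nat.le_of_lt_succ l.2)
  have a1 := pr_exists_le' (p := fun (l : Fin (E.D + 1)) p => B l p) hl
  have a2 := pr_exists_le' (p := fun (l : Fin (E.D + 1)) p => B l (flp l p))
    fun l => (pr_bij (bijf l) _).trans_le (hl l)
  have a3 := pr_exists_le' (p := fun (x : Fin (E.D + 1) × Bool × Bool × E.A) p =>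
    B x.1 (vw x.2.1 x.1 x.2.2.1 x.2.2.2 p)) fun x => (pr_bij (bijw _ _ _ _) _).trans_le (hl x.1)
  have a4 := pr_exists_le' (p := fun (γ : E.A × E.A) (p : E.P) => B 0 (p.1, p.2.1, p.2.2 + γ))
    fun γ => ((pr_congr fun p => by simp [Prod.add_def]).trans
      (pr_shift (B 0) ((0, 0, γ) : E.P))).trans_le (hl 0)
  rw [cAA] at a4
  simp only [Nat.card_prod, Nat.card_fin, Nat.cast_mul, cA, Nat.card_eq_fintype_card (α := Bool),
    Fintype.card_bool, Nat.cast_add, Nat.cast_one, Nat.cast_ofNat] at a1 a2 a3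
  refine ((pr_le_add ?_).trans (add_le_add ((pr_or _ _).trans (add_le_add a1 a2))
    ((pr_or _ _).trans (add_le_add a3 a4)))).trans ?_
  · rintro p ⟨l, k, r, rfl | rfl | ⟨σ, v, α, rfl⟩ | ⟨rfl, γ, rfl⟩, u⟩
    · exact Or.inl (Or.inl ⟨⟨l, by omega⟩, u⟩)
    · exact Or.inl (Or.inr ⟨⟨l, by omega⟩, u⟩)
    · exact Or.inr (Or.inl ⟨(⟨l, by omega⟩, σ, v, α), u⟩)
    · exact Or.inr (Or.inr ⟨γ, u⟩)
  · obtain ⟨k1, k2, -⟩ := qge (E := E)
    have d1 : (E.D : ℝ) ≤ E.D ^ 4 := le_self_pow₀ (by linarith) (by norm_num)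
    have d2 : (E.D : ℝ) + 1 ≤ E.q := by linarith
    have d3 : (2 : ℝ) ≤ E.q := by linarith
    have d4 : 1 ≤ E.q ^ 4 := one_le_pow₀ (by linarith)
    have d5 : 2 ^ 3 ≤ E.q ^ 3 := pow_le_pow_left₀ zero_le_two d3 3
    have d6 : (E.D + 1) * (6 * E.q ^ 4) ≤ E.q * (E.q ^ 3 * E.q ^ 4) := by gcongr; linarith
    have d7 : 2 * E.q ^ 8 ≤ E.q * E.q ^ 8 := by gcongr
    have d8 : ((E.D : ℝ) + 1) * 1 ≤ (E.D + 1) * E.q ^ 4 := by gcongr
    rw [← add_mul, ← add_mul, ← add_mul]
    exact mul_le_mul_of_nonneg_right (by linarith) c0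

end Bs

open Bs in
theorem basS : BasS := fun E =>
  { tr := tr
    add := g_add
    zero := zero
    act := act
    bij := bij
    bijw := bijw
    bijf := bijf
    row := fun l v α z y => by
      cases v <;> simp only [mg, vz, vw, cond_true, cond_false, msk_add, add_right_comm]
    col := fun l v α z y => by
      cases v <;> simp only [mg, vz, vw, cond_true, cond_false, msk_add, add_assoc]
    lift := lift
    line := line
    sl1 := fun B => cAA (E := E) ▸ slice (Equiv.prodAssoc _ _ _).bijective 0 B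
    sl2 := fun B => cAA (E := E) ▸ slice ((Equiv.prodAssoc _ _ _).trans
      ((Equiv.refl _).prodCongr (Equiv.prodComm _ _))).bijective 0 B
    up := fun B => (pr_equiv (Equiv.prodAssoc _ _ _) fun p : E.P => B (p.1, p.2.1)).symm.trans
      (pr_fst B)
    near := near
    qge := qge
    inj := fun x c d h1 h2 => E.cd.injective (Fin.ext (Nat.eq_of_testBit_eq fun j => by
      by_cases k : j < 2 * E.e
      · exact ofB_inj ((h1 j k).symm.trans (h2 j k))
      · have pw := Nat.pow_le_pow_right two_pos (not_lt.1 k)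
        rw [Nat.testBit_lt_two_pow ((E.cd c).2.trans_le pw),
          Nat.testBit_lt_two_pow ((E.cd d).2.trans_le pw)])) }

end Pool.Agent.PP.QL
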