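import Pool.Agent.MP_13199e_lc.QL.Model
import Pool.Agent.MP_13199e_lc.Amp.Dec

/-! PROJECT QL: more polynomial time operations on numbers and lists. -/

set_option autoImplicit false

namespace Pool.Agent.PP.QL

open Pool.Agent.PolyT Pool.Agent.H82 N487b59b3

variable {α β γ : Type} [N487b59b3 α] [N487b59b3 β] [N487b59b3 γ]

theorem p_div {f g : α → ℕ} (hf : Poly f) (hg : Poly g) : Poly fun a => f a / g a :=
  Amp.p_div hf hg

theorem p_min {f g : α → ℕ} (hf : Poly f) (hg : Poly g) : Poly fun a => min (f a) (g a) :=
  Amp.p_min hf hg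

@[fun_prop] theorem p_max {f g : α → ℕ} (hf : Poly f) (hg : Poly g) :
    Poly fun a => max (f a) (g a) :=
  Poly.congr (f := fun a => g a + (f a - g a)) (by fun_prop) fun a => by omega

@[fun_prop] theorem p_mod {f g : α → ℕ} (hf : Poly f) (hg : Poly g) : Poly fun a => f a % g a :=
  Poly.congr (f := fun a => f a - g a * (f a / g a)) (by fun_prop) fun a =>
    (Nat.mod_def _ _).symm

@[fun_prop] theorem p_toNat {c : α → Bool} (hc : Poly c) : Poly fun a => (c a).toNat :=
  Poly.congr (f := fun a => bif c a then 1 else 0) (by fun_prop) fun a => by cases c a <;> rfl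

@[fun_prop] theorem p_bxor {c d : α → Bool} (hc : Poly c) (hd : Poly d) :
    Poly fun a => xor (c a) (d a) := hc.xor hd

@[fun_prop] theorem p_beq [BEq β] [LawfulBEq β] {f g : α → β} (hf : Poly f) (hg : Poly g) :
    Poly fun a => f a == g a := by
  classical
  exact (hf.eq hg).congr fun a => by by_cases e : f a = g a <;> simp [e]

@[fun_prop] theorem p_ofBits {l : α → List Bool} (hl : Poly l) : Poly fun a => ofBits (l a) :=
  hl.ofBits

@[fun_prop] theorem p_testBit {f g : α → ℕ} (hf : Poly f) (hg : Poly g) :
    Poly fun a => (f a).testBit (g a) :=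
  Poly.congr (f := fun a => (f a).bits.getD (g a) false) (by fun_prop) fun a => by
    rw [Nat.testBit_eq_inth, List.getI_eq_getElem?_getD, List.getD_eq_getElem?_getD]
    rfl

@[fun_prop] theorem p_size {f : α → ℕ} (hf : Poly f) : Poly fun a => (f a).size :=
  Poly.congr (f := fun a => (f a).bits.length) (by fun_prop) fun _ => Nat.size_eq_bits_len _

@[fun_prop] theorem p_lg {f : α → ℕ} (hf : Poly f) : Poly fun a => lg (f a) := by
  unfold lg
  fun_prop

@[fun_prop] theorem p_replicate {l : α → List β} {b : α → γ} (hl : Poly l) (hb : Poly b) :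
    Poly fun a => List.replicate (l a).length (b a) :=
  Poly.congr (f := fun a => (l a).map fun _ => b a) (by fun_prop) fun _ => List.map_const'

theorem testBit_ofBits (l : List Bool) (i : ℕ) : (ofBits l).testBit i = l.getD i false := by
  induction l generalizing i with
  | nil => simp
  | cons b l ih =>
    rw [ofBits_cons]
    cases i with
    | zero => cases b <;> simp [Nat.testBit_zero, Nat.add_mod]
    | succ i =>
      rw [Nat.testBit_succ, List.getD_cons_succ, ← ih]
      congr 1
      cases b <;> simp [Nat.add_div]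

/-- A number that is given by its bits below the length of a list. -/
theorem ofBits_map_idx {δ : Type} (l : List δ) {n : ℕ} (h : n < 2 ^ l.length) :
    ofBits ((idx l).map n.testBit) = n := by
  refine Nat.eq_of_testBit_eq fun i => ?_
  rw [testBit_ofBits, idx, List.getD_eq_getElem?_getD, List.getElem?_map]
  by_cases e : i < l.length
  · simp [e]
  · rw [List.getElem?_eq_none (by simpa using e), Nat.testBit_lt_two_pow
      (h.trans_le (Nat.pow_le_pow_right two_pos (not_lt.1 e)))]
    rfl

theorem lt_two_pow_bits (n : ℕ) : n < 2 ^ n.bits.length := by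
  rw [Nat.size_eq_bits_len]
  exact Nat.lt_size_self n

@[fun_prop] theorem p_nxor {f g : α → ℕ} (hf : Poly f) (hg : Poly g) :
    Poly fun a => f a ^^^ g a :=
  Poly.congr (f := fun a => ofBits ((idx ((f a).bits ++ (g a).bits)).map fun i =>
    xor ((f a).testBit i) ((g a).testBit i))) (by fun_prop) fun a => by
    simp only [← Nat.testBit_xor]
    refine ofBits_map_idx _ (Nat.xor_lt_two_pow ((lt_two_pow_bits _).trans_le ?_)
      ((lt_two_pow_bits _).trans_le ?_)) <;> exact Nat.pow_le_pow_right two_pos (by simp)

@[fun_prop] theorem p_pow2 {l : α → List β} (hl : Poly l) : Poly fun a => 2 ^ (l a).length :=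
  Poly.congr (f := fun a => ofBits (List.replicate (l a).length false ++ [true])) (by fun_prop)
    fun a => by
      generalize (l a).length = n
      induction n with
      | zero => rfl
      | succ n ih => rw [List.replicate_succ, List.cons_append, ofBits_cons, ih, pow_succ']; rfl

/-- A power of two with an exponent that is bounded by a length. -/
theorem p_pow2_le {l : α → List β} {n : α → ℕ} (hl : Poly l) (hn : Poly n)
    (h : ∀ a, n a ≤ (l a).length) : Poly fun a => 2 ^ n a :=
  (p_pow2 (p_take hn hl)).congr fun a => by rw [List.length_take, min_eq_left (h a)]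

@[fun_prop] theorem p_uv {l : α → List β} {n : α → ℕ} (hl : Poly l) (hn : Poly n) :
    Poly fun a => uv (l a).length (n a) :=
  Poly.congr (f := fun a => bif ltB (n a) (l a).length then 2 ^ ((l a).take (n a)).length else 0)
    (by fun_prop) fun a => by
      by_cases e : n a < (l a).length
      · simp [uv, ltB, e, e.le]
      · simp [uv, ltB, e]

@[fun_prop] theorem p_sum {l : α → List ℕ} (hl : Poly l) : Poly fun a => (l a).sum := hl.sum

@[fun_prop] theorem p_countP {c : α → β → Bool} {l : α → List β}
    (hc : Poly fun p : α × β => c p.1 p.2) (hl : Poly l) : Poly fun a => (l a).countP (c a) :=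
  (p_length (p_filter hc hl)).congr fun _ => List.countP_eq_length_filter.symm

@[fun_prop] theorem p_find {c : α → β → Bool} {l : α → List β} {d : α → β}
    (hc : Poly fun p : α × β => c p.1 p.2) (hl : Poly l) (hd : Poly d) :
    Poly fun a => ((l a).find? (c a)).getD (d a) :=
  (p_headD (p_filter hc hl) hd).congr fun a => by
    rw [List.headD_eq_head?_getD, List.head?_filter]

@[fun_prop] theorem p_finVal {n : ℕ} {f : α → Fin n} (hf : Poly f) : Poly fun a => (f a).val :=
  poly_raw hf fun _ => rfl

@[fun_prop] theorem p_finOf {n : ℕ} [NeZero n] {f : α → ℕ} (hf : Poly f) :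
    Poly fun a => (if h : f a < n then ⟨f a, h⟩ else 0 : Fin n) :=
  poly_raw (g := fun a => bif ltB (f a) n then f a else 0) (by fun_prop) fun a => by
    by_cases e : f a < n
    · rw [dif_pos e, ltB_iff.2 e]; rfl
    · rw [dif_neg e, ltB_false_iff.2 (not_lt.1 e)]; rfl

@[fun_prop] theorem p_ofNat {n : ℕ} [NeZero n] {f : α → ℕ} (hf : Poly f) :
    Poly fun a => Fin.ofNat n (f a) :=
  poly_raw (g := fun a => f a % n) (by fun_prop) fun _ => rfl

theorem zip_eq {β γ : Type} (l : List β) (l' : List γ) :
    l.zip l' = (idx l).flatMap fun i => ((l.drop i).take 1).flatMap fun x =>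
      ((l'.drop i).take 1).map fun y => (x, y) := by
  unfold idx
  induction l generalizing l' with
  | nil => rfl
  | cons x l ih =>
    cases l' with
    | nil => simp
    | cons y l' =>
      rw [List.length_cons, List.range_succ_eq_map, List.flatMap_cons, List.flatMap_map,
        List.zip_cons_cons, ih]
      rfl

@[fun_prop] theorem p_zip {l : α → List β} {l' : α → List γ} (hl : Poly l) (hl' : Poly l') :
    Poly fun a => (l a).zip (l' a) :=
  Poly.congr (by fun_prop) fun a => (zip_eq (l a) (l' a)).symm

@[fun_prop] theorem p_flatten {l : α → List (List β)} (hl : Poly l) :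
    Poly fun a => (l a).flatten :=
  Poly.congr (f := fun a => (l a).flatMap fun x => x) (by fun_prop) fun _ => List.flatMap_id'

/-- A left fold whose accumulators are no longer than the encoding of a polynomial time value. -/
theorem p_foldl {δ : Type} [N487b59b3 δ] {f : α → γ → β → γ}
    (hf : Poly fun p : α × γ × β => f p.1 p.2.1 p.2.2) {l : α → List β} (hl : Poly l) {i : α → γ}
    (hi : Poly i) {B : α → δ} (hB : Poly B) (c : ℕ)
    (hb : ∀ a n, (bitEncode (((l a).take n).foldl (f a) (i a))).length ≤
      ((bitEncode (B a)).length + 2) ^ c) : Poly fun a => (l a).foldl (f a) (i a) :=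
  Poly.foldl hf hl hi ((hB.bd.add (Bd.const 2)).pow c) hb

/-- A left fold that keeps an invariant which bounds the length. -/
theorem p_foldl_inv {f : α → γ → β → γ} (hf : Poly fun p : α × γ × β => f p.1 p.2.1 p.2.2)
    {l : α → List β} (hl : Poly l) {i : α → γ} (hi : Poly i) {t : α → ℕ} (ht : Bd bitEncode t)
    (I : α → γ → Prop) (h0 : ∀ a, I a (i a)) (hs : ∀ a c, ∀ x ∈ l a, I a c → I a (f a c x))
    (hb : ∀ a c, I a c → (bitEncode c).length ≤ t a) :
    Poly fun a => (l a).foldl (f a) (i a) :=
  Poly.foldl hf hl hi ht fun a _ => hb a _ (List.foldlRecOn _ _ (h0 a) fun c hc x hx =>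
    hs a c x (List.mem_of_mem_take hx) hc)

theorem eval_le_pow (p : Polynomial ℕ) : ∃ c, ∀ n, p.eval n ≤ (n + 2) ^ c := by
  induction p using Polynomial.induction_on' with
  | add p q hp hq =>
    obtain ⟨c, hc⟩ := hp
    obtain ⟨d, hd⟩ := hq
    refine ⟨c + d + 1, fun n => ?_⟩
    have h1 : (n + 2) ^ c ≤ (n + 2) ^ (c + d) := Nat.pow_le_pow_right (by omega) (by omega)
    have h2 : (n + 2) ^ d ≤ (n + 2) ^ (c + d) := Nat.pow_le_pow_right (by omega) (by omega)
    have := hc n
    have := hd n
    rw [Polynomial.eval_add, pow_succ]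
    nlinarith [Nat.zero_le ((n + 2) ^ (c + d) * n)]
  | monomial k c =>
    refine ⟨c + k, fun n => ?_⟩
    rw [Polynomial.eval_monomial, pow_add]
    exact Nat.mul_le_mul (Nat.lt_pow_self (by omega)).le (Nat.pow_le_pow_left (by omega) _)

theorem bd_pow {t : α → ℕ} (h : Bd bitEncode t) :
    ∃ c, ∀ a, t a ≤ ((bitEncode a).length + 2) ^ c := by
  obtain ⟨p, hp⟩ := h
  obtain ⟨c, hc⟩ := eval_le_pow p
  exact ⟨c, fun a => (hp a).trans (hc _)⟩

theorem poly_len {f : α → β} (hf : Poly f) :
    ∃ c, ∀ a, (bitEncode (f a)).length ≤ ((bitEncode a).length + 2) ^ c := bd_pow hf.bd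

theorem poly_length {f : α → List β} (hf : Poly f) :
    ∃ c, ∀ a, (f a).length ≤ ((bitEncode a).length + 2) ^ c := by
  obtain ⟨c, h⟩ := poly_len hf
  exact ⟨c, fun a => (length_le_enc _).trans (h a)⟩

end Pool.Agent.PP.QL
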