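import Pool.Agent.MP_13199e_lc.QL.Spec
import Pool.Agent.MP_13199e_lc.QL.Kit
import Pool.Agent.MP_13199e_lc.PP.F.Cube

/-! PROJECT QL, row BASE: the parameters, the sizes and the decoder of the front end. -/

set_option autoImplicit false

namespace Pool.Agent.PP.QL

open Pool.Agent.MP_13199e_lc Pool.Agent.PolyT Pool.Agent.H82 N487b59b3 Function Env

namespace Base

/-- Polylogarithmic functions of the instance. -/
def PL (t : BCirc × BCirc → ℕ) : Prop := ∃ c, ∀ I, EolInst I → t I ≤ lg (sz I) ^ c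

theorem two_le_lg (n : ℕ) : 2 ≤ lg n := Nat.le_add_left _ _

section
variable {s t : BCirc × BCirc → ℕ}

theorem PL.of_le (h : PL t) (k : ∀ I, EolInst I → s I ≤ t I) : PL s :=
  h.imp fun _ h I hI => (k I hI).trans (h I hI)

theorem PL.const (k : ℕ) : PL fun _ => k :=
  ⟨k, fun _ _ => Nat.lt_two_pow_self.le.trans (Nat.pow_le_pow_left (two_le_lg _) k)⟩

theorem PL.lg : PL fun I => lg (sz I) := ⟨1, fun _ _ => (pow_one _).ge⟩

theorem PL.mul (h : PL s) (k : PL t) : PL fun I => s I * t I := by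
  obtain ⟨c, h⟩ := h
  obtain ⟨d, k⟩ := k
  exact ⟨c + d, fun I hI => pow_add (QL.lg (sz I)) c d ▸ Nat.mul_le_mul (h I hI) (k I hI)⟩

theorem PL.pow (h : PL s) (k : ℕ) : PL fun I => s I ^ k := by
  obtain ⟨c, h⟩ := h
  exact ⟨c * k, fun I hI => pow_mul (QL.lg (sz I)) c k ▸ Nat.pow_le_pow_left (h I hI) k⟩

theorem PL.add (h : PL s) (k : PL t) : PL fun I => s I + t I := by
  obtain ⟨c, h⟩ := h
  obtain ⟨d, k⟩ := k
  refine ⟨c + d + 1, fun I hI => ?_⟩
  have h2 := two_le_lg (sz I)
  have h3 := (h I hI).trans (Nat.pow_le_pow_right (by omega) (Nat.le_add_right c d))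
  have h4 := (k I hI).trans (Nat.pow_le_pow_right (by omega) (Nat.le_add_left d c))
  have h5 := Nat.mul_le_mul_left (QL.lg (sz I) ^ (c + d)) h2
  rw [pow_succ]
  dsimp only
  omega

end

/-- The product in unary. -/
def mulU {β : Type} (a : List β) (b : List Bool) : List Bool := a.flatMap fun _ => b

theorem len_mulU {β : Type} (a : List β) (b : List Bool) :
    (mulU a b).length = a.length * b.length := by simp [mulU]

@[fun_prop] theorem p_mulU {α β : Type} [N487b59b3 α] [N487b59b3 β] {a : α → List β}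
    {b : α → List Bool} (ha : Poly a) (hb : Poly b) : Poly fun x => mulU (a x) (b x) := by
  unfold mulU
  fun_prop

/-- The power in unary. -/
def powU {β : Type} (a : List β) : ℕ → List Bool
  | 0 => [true]
  | k + 1 => mulU a (powU a k)

theorem len_powU {β : Type} (a : List β) (k : ℕ) : (powU a k).length = a.length ^ k := by
  induction k with
  | zero => rfl
  | succ k ih => rw [powU, len_mulU, ih, pow_succ']

@[fun_prop] theorem p_powU {α β : Type} [N487b59b3 α] [N487b59b3 β] {a : α → List β}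
    (ha : Poly a) (k : ℕ) : Poly fun x => powU (a x) k := by
  induction k with
  | zero => exact p_const _
  | succ k ih => exact p_mulU ha ih

/-- The small parameter of the dimension `d`. -/
def sgm (d : List Bool) : Sg :=
  (d, mulU (powU [true, true] 10) (powU ((idx (d ++ d)).take (2 ^ d.length.bits.length)) 4))

theorem two_pow_size_le {n : ℕ} (h : 0 < n) : 2 ^ n.size ≤ 2 * n := by
  have h1 := Nat.size_pos.2 h
  have := Nat.lt_size.1 (show n.size - 1 < n.size by omega)
  rw [show n.size = n.size - 1 + 1 by omega, pow_succ]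
  omega

theorem len_sgm {d : List Bool} (h : 0 < d.length) :
    (sgm d).2.length = 2 ^ (2 * (2 * d.length.size + 5)) := by
  have := two_pow_size_le h
  rw [sgm, len_mulU, len_powU, len_powU, List.length_take, length_idx, List.length_append,
    Nat.size_eq_bits_len, min_eq_left (by omega), ← pow_mul, List.length_cons,
    List.length_singleton, ← pow_add]
  congr 1; ring

theorem dim_le {D : ℕ} (h : 8192 ≤ D) : 200 * (2 * D.size + 5) ≤ D := by
  have key : ∀ k, 400 * k + 6600 ≤ 2 ^ (13 + k) := fun k => by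
    induction k with
    | zero => norm_num
    | succ k ih => rw [← add_assoc, pow_succ]; omega
  obtain ⟨k, hk⟩ := Nat.exists_eq_add_of_lt (Nat.lt_size.2 (show 2 ^ 13 ≤ D from h))
  have := Nat.lt_size.1 (show 13 + k < D.size by omega)
  have := key k
  omega

theorem big_le (D : ℕ) : 32 * D ^ 2 ≤ 2 ^ (2 * D.size + 5) := by
  have := Nat.pow_le_pow_left (Nat.lt_size_self D).le 2
  rw [pow_add, mul_comm 2, pow_mul]
  omega

theorem pick {I : BCirc × BCirc} {t : List Bool → Bool} (ht : ∀ x, t x = true ↔ EolSol I x)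
    {l : List (List Bool)} {z : List Bool} (z1 : z ∈ l) (z2 : EolSol I z) :
    EolSol I ((l.filter t).headD []) := by
  have h : z ∈ l.filter t := List.mem_filter.2 ⟨z1, (ht z).2 z2⟩
  obtain ⟨a, l', e⟩ := List.exists_cons_of_ne_nil (List.ne_nil_of_mem h)
  have : a ∈ l.filter t := by rw [e]; exact List.mem_cons_self
  rw [e]
  exact (ht a).1 (List.mem_filter.1 this).2

end Base

open Base in
theorem baseS : BaseS := by
  rintro hE hF hN ⟨tm, dr, ctl, htm, hdr, hctl, hR⟩ hL hS hD hI hY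
  obtain ⟨N, pN, hN⟩ := hN hF
  obtain ⟨L, c, ⟨p1, p2, p3, p4, p5⟩, hL⟩ := hL 8192
  obtain ⟨Γ, pΓ, hΓ⟩ := hS N pN
  obtain ⟨t, pt, ht⟩ := F.solS
  obtain ⟨sg, esg⟩ : ∃ sg : BCirc × BCirc → Sg, sg = fun I => sgm (true :: true :: L.dm I) :=
    ⟨_, rfl⟩
  obtain ⟨big, ebig⟩ : ∃ big : BCirc × BCirc → List Bool,
    big = fun I => mulU (L.src (I, 0)) [true, true, true, true] := ⟨_, rfl⟩
  have psg : Poly sg := by rw [esg]; unfold sgm; fun_prop
  have pbig : Poly big := by rw [ebig]; fun_prop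
  obtain ⟨f, Lc, r, pf, pL, pr', hI⟩ := hI _ N sg big Γ (fun σ => tm (σ.1.drop 2))
    (fun x => dr (x.1.1.drop 2, x.2)) (fun x => ctl ((L.dm x.1, L.src (x.1, x.2.1)), x.2.2))
    L.tb L.y0 pN psg pbig pΓ (by fun_prop) (by fun_prop) (by fun_prop) p3 p4
  obtain ⟨dc, pdc, hD⟩ := hD (((BCirc × BCirc) × List V4) × ℕ) N (fun a => sg a.1.1)
    (fun a => big a.1.1) (fun x => ofBits ((idx (sg x.1.1.1).2.length.bits.tail).map fun j =>
      eqB (r (x.1.1, x.1.2, (x.2.1, x.2.2, ([0, 0, 0, 0], [0, 0, 0, 0])), j)) 3))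
    pN (by fun_prop) (by fun_prop) (by fun_prop)
  obtain ⟨a, ha⟩ := poly_length pL
  have e1 : ∀ I, (sg I).1.length = (L.dm I).length + 2 := fun I => by rw [esg]; rfl
  have e2 : ∀ I, (sg I).2.length = 2 ^ (2 * (2 * ((L.dm I).length + 2).size + 5)) := fun I => by
    rw [esg]; exact len_sgm (Nat.succ_pos _)
  have lD : PL fun I => (L.dm I).length + 2 :=
    ((PL.const c.size).add PL.lg).of_le fun I h => by
      have := ((hL I h).2.2.trans_lt
        (Nat.mul_lt_mul'' (Nat.lt_size_self c) (Nat.lt_size_self (sz I)))).trans_eq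
          (pow_add _ _ _).symm
      rw [Nat.pow_lt_pow_iff_right (by norm_num)] at this
      unfold lg
      omega
  have lq : PL fun I => (sg I).2.length :=
    ((PL.const 1024).mul (((PL.const 2).mul lD).pow 4)).of_le fun I _ => by
      have := Nat.pow_le_pow_left (two_pow_size_le (Nat.succ_pos ((L.dm I).length + 1))) 4
      rw [e2, show 2 * (2 * ((L.dm I).length + 2).size + 5) =
        10 + ((L.dm I).length + 2).size * 4 by ring, pow_add, pow_mul]
      exact Nat.mul_le_mul_left _ this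
  have lL : PL fun I => (Lc (sg I)).length :=
    (((((PL.const 6).mul lD).add ((PL.const 3).mul lq)).add (PL.const 3)).pow a).of_le
      fun I _ => (ha _).trans (Nat.pow_le_pow_left (by
        rw [length_enc_pair, Poly.enc_bools_length, Poly.enc_bools_length, e1]; omega) a)
  obtain ⟨c1, h1⟩ := ((PL.const (4 * c)).mul (lq.pow 16)).mul lL
  obtain ⟨c2, h2⟩ := lL.mul (lq.pow 200)
  refine ⟨c1 + c2, f, fun I => mulU (Lc (sg I)) (powU (sg I).2 200), fun x =>
    (((List.range 4).map fun i => L.dec (x.1, (idx (L.src (x.1, 0))).map fun h =>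
      dc ((x, i), h))).filter fun z => t (x.1, z)).headD [], pf, by fun_prop, by fun_prop,
    fun I hi => ?_⟩
  obtain ⟨ok, m0, hm⟩ := hL I hi
  obtain ⟨E, -, hO⟩ := hN (sg I) _ (e2 I) (by rw [e1]; exact big_le _)
    (by rw [e1]; exact dim_le (by omega)) (by omega)
  obtain ⟨bas, con, tan, hb⟩ := hE E
  have eD : E.D = (L.dm I).length + 2 := hO.dim.symm.trans (e1 I)
  have s0 := (ok.len 0 (by norm_num)).1
  have eb : (big I).length = 2 ^ E.D := by rw [ebig, len_mulU, s0, eD, pow_add]; rfl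
  obtain ⟨Γ', g1, g2, g3⟩ := hΓ _ E hO bas hb
  obtain ⟨w1, w2, w3, w4⟩ := hI I E hO bas hb eb Γ' g1 g2
  have l2 := two_le_lg (sz I)
  have q1 : 1 ≤ (sg I).2.length ^ 200 := Nat.one_le_pow _ _ (by rw [e2]; positivity)
  have w5 := Nat.mul_le_mul_left (Lc (sg I)).length q1
  rw [mul_one] at w5
  simp only [len_mulU, len_powU]
  refine ⟨w1, ?_, (h2 I hi).trans (Nat.pow_le_pow_right (by omega) (Nat.le_add_left _ _)),
    fun s => ⟨(w3 s).1.trans w5, (w3 s).2.trans w5⟩, fun y hy => ?_⟩
  · refine le_trans ?_ (Nat.mul_le_mul_left _ ((h1 I hi).trans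
      (Nat.pow_le_pow_right (by omega) (Nat.le_add_right _ _))))
    rw [w2, ← hO.fld, eD, pow_add]
    exact (Nat.mul_le_mul_right _ (Nat.mul_le_mul_right _ (Nat.mul_le_mul_right _ hm))).trans_eq
      (by ring)
  obtain ⟨Fa, R, Y, f1, f2, f3, f4⟩ := w4 y
  have q0 : (1024 : ℝ) ≤ E.q := by
    have := one_le_pow₀ (n := 4) (le_trans (by norm_num) bas.qge.2.1 : (1 : ℝ) ≤ E.D)
    linarith [bas.qge.1]
  have q2 : (0 : ℝ) < E.q := by linarith
  have eq : (((sg I).2.length : ℕ) : ℝ) = E.q := by rw [hO.fld, Env.q]; push_cast; rfl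
  obtain ⟨i, i4, X, cl, sol⟩ := hY E L I _ ok eD ⟨by rw [esg]; exact (hR _).1, fun j hj x hx => by
      rw [esg]; exact (hR _).2 _ (ok.len j hj).1 (ok.len j hj).2 x hx, fun _ _ _ => rfl⟩
    Γ' R Y Fa g2 g3 (f1.trans (by
      rw [Env.sm, le_div_iff₀ (by positivity), ← eq]
      push_cast at hy
      exact hy.trans_eq' (by ring))) f2 f3
  have dec := hD ((I, y), i) E hO bas con tan hb eb X (by
    refine ((pr_mono fun z h k => h ?gA).trans (bas.sl1 fun p =>
      ¬Is ((R i).s2.out p) (enP (fun h => bt (X h)) p))).trans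
      ((mul_le_mul_of_nonneg_left cl (by positivity)).trans ?gB)
    case gA =>
      have el : (sg I).2.length.bits.tail.length = 2 * E.e := by
        rw [List.length_tail, Nat.size_eq_bits_len, hO.fld, Nat.size_pow, Nat.add_sub_cancel]
      refine Eq.trans (congrArg ofBits (List.map_congr_left fun j hj => ?_))
        (ofBits_map_idx _ (by rw [el]; exact (E.cd _).2))
      have := k j (el ▸ mem_idx.1 hj)
      rw [f4 i i4] at this
      simp only [cp, cu, Prod.fst_zero, Prod.snd_zero, hb.czero] at this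
      simp only [cu, this]
      exact (by decide : ∀ b, eqB (ofB b) 3 = b) _
    case gB =>
      have : (16 : ℝ) ≤ E.q ^ 60 :=
        le_trans (by linarith) (le_self_pow₀ (by linarith) (by norm_num))
      rw [Env.sm, Env.sm, div_div, mul_one_div, div_le_div_iff₀ (by positivity) (by positivity)]
      calc E.q ^ 8 * (E.q ^ 2 * 16) ≤ E.q ^ 8 * (E.q ^ 2 * E.q ^ 60) := by gcongr
        _ = _ := by ring)
  refine pick (ht I) (List.mem_map.2 ⟨i, List.mem_range.2 i4, ?_⟩) sol
  rw [idx, s0]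
  refine congrArg (fun l => L.dec (I, l)) (List.map_congr_left fun h hh => ?_)
  obtain ⟨x, rfl⟩ := hb.surj h ((List.mem_range.1 hh).trans_le
    (Nat.pow_le_pow_right (by norm_num) (by omega)))
  rw [hb.ext, dec]

end Pool.Agent.PP.QL
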