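import Pool.Agent.MP_13199e_lc.QL.Model

/-! PROJECT QL: one reduction for both kinds of solutions; the size in terms of the input bits. -/

set_option autoImplicit false

namespace Pool.Agent.PP.QL

open Pool.Agent.MP_13199e_lc

/-- An assignment that violates at most a `(1 - η) / s` fraction of the gates meets all
constraints in at least an `η` fraction of the blocks. -/
theorem bsol_of_gsol {ε η : ℚ} {s : ℕ} {C : GCirc} {x : List ℚ} (hs : 0 < s) (hd : s ∣ C.length)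
    (h : GSol ε ((1 - η) / s) C x) : BSol ε η s C x := by
  obtain ⟨n, hn⟩ := hd
  refine ⟨h.1, ?_⟩
  have h2 := h.2
  have hs' : (s : ℚ) ≠ 0 := by positivity
  rw [hn, Nat.mul_div_cancel_left _ hs]
  rw [hn, Nat.cast_mul, ← mul_assoc, div_mul_cancel₀ _ hs'] at h2
  have h3 : Set.Iio n ⊆ {k | k < n ∧ ∀ i < s, GSat ε C x (k * s + i)} ∪
      (· / s) '' {c | c < s * n ∧ ¬GSat ε C x c} := fun k hk => by
    by_cases e : ∀ i < s, GSat ε C x (k * s + i)
    · exact .inl ⟨hk, e⟩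
    · obtain ⟨i, hi, e⟩ : ∃ i < s, ¬GSat ε C x (k * s + i) := by simpa using e
      refine .inr ⟨_, ⟨?_, e⟩, ?_⟩
      · have : k + 1 ≤ n := hk
        nlinarith
      · simp [Nat.add_comm, Nat.add_mul_div_right _ _ hs, Nat.div_eq_of_lt hi]
  have f1 : {k | k < n ∧ ∀ i < s, GSat ε C x (k * s + i)}.Finite :=
    (Set.finite_Iio n).subset fun _ h => h.1
  have f2 : {c | c < s * n ∧ ¬GSat ε C x c}.Finite :=
    (Set.finite_Iio _).subset fun _ h => h.1
  have h4 := (Set.ncard_le_ncard h3 (f1.union (f2.image _))).trans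
    ((Set.ncard_union_le _ _).trans (Nat.add_le_add_left (Set.ncard_image_le f2) _))
  rw [Set.ncard_Iio_nat] at h4
  have h5 := (Nat.cast_le (α := ℚ)).2 h4
  push_cast at h5
  linarith

theorem both_of (h : QuasiOpt) (η : ℚ) (hη : 0 < η) : ∃ (s c : ℕ) (ε δ : ℚ), 0 < s ∧ 0 < ε ∧
    0 < δ ∧ QReduces c (fun C => s ∣ C.length) fun C x => GSol ε δ C x ∨ BSol ε η s C x := by
  obtain ⟨s, ε, c, hs, hε, f, g, pf, pg, h⟩ := h (min η (1 / 2)) (lt_min hη (by norm_num))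
  have := min_le_right η (1 / 2)
  refine ⟨s, c, ε, (1 - min η (1 / 2)) / s, hs, hε, div_pos (by linarith) (Nat.cast_pos.2 hs), f,
    g, pf, pg, fun I hI => ⟨(h I hI).1, (h I hI).2.1, (h I hI).2.2.1, fun x hx =>
      (h I hI).2.2.2 x (hx.elim (bsol_of_gsol hs (h I hI).2.1) fun hx => ⟨hx.1, le_trans
        (mul_le_mul_of_nonneg_right (min_le_left _ _) (Nat.cast_nonneg _)) hx.2⟩)⟩⟩

theorem size_bits (k c : ℕ) : ∃ d : ℕ, ∀ I : BCirc × BCirc, ∀ n, I.1.2.length = n → 0 < n →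
    I.1.1.length ≤ n * (Nat.log 2 n + 2) ^ k → I.2.1.length ≤ n * (Nat.log 2 n + 2) ^ k →
    sz I * (Nat.log 2 (sz I) + 2) ^ c ≤ n * (Nat.log 2 n + 2) ^ d := by
  refine ⟨k + 2 + (k + 5) * c, fun I n hn h0 h1 h2 => ?_⟩
  have a0 := Nat.lt_pow_succ_log_self one_lt_two n
  generalize Nat.log 2 n = l at *
  have a1 : 1 ≤ (l + 2) ^ k := Nat.one_le_pow _ _ (by omega)
  have a2 : sz I ≤ n * (l + 2) ^ (k + 2) := by
    have := Nat.mul_le_mul_left n a1
    have : 4 ≤ (l + 2) ^ 2 := Nat.pow_le_pow_left (by omega : 2 ≤ l + 2) 2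
    have := Nat.mul_le_mul_left (n * (l + 2) ^ k) this
    rw [sz, hn, pow_add, ← mul_assoc]
    omega
  have a3 : sz I < 2 ^ ((l + 2) * (k + 3)) := by
    have b1 : (l + 2) ^ (k + 2) ≤ (2 ^ (l + 2)) ^ (k + 2) :=
      Nat.pow_le_pow_left Nat.lt_two_pow_self.le _
    calc sz I ≤ n * (2 ^ (l + 2)) ^ (k + 2) := a2.trans (Nat.mul_le_mul_left _ b1)
      _ < 2 ^ (l + 2) * (2 ^ (l + 2)) ^ (k + 2) := Nat.mul_lt_mul_of_pos_right
          (a0.trans_le (Nat.pow_le_pow_right two_pos (by omega))) (by positivity)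
      _ = _ := by rw [pow_mul, ← pow_succ']
  have a4 : Nat.log 2 (sz I) + 2 ≤ (l + 2) ^ (k + 5) := by
    have b1 := Nat.log_lt_of_lt_pow' (by positivity) a3
    have b2 : k + 4 < (l + 2) ^ (k + 4) := Nat.lt_pow_self (by omega)
    rw [pow_succ]
    nlinarith
  calc _ ≤ n * (l + 2) ^ (k + 2) * ((l + 2) ^ (k + 5)) ^ c :=
        Nat.mul_le_mul a2 (Nat.pow_le_pow_left a4 _)
    _ = _ := by rw [← pow_mul, mul_assoc, ← pow_add]

end Pool.Agent.PP.QL
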