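import Pool.Agent.MP_13199e_lc.QL.Model
import Pool.Agent.MP_13199e_lc.QL.T.Spec

/-! PROJECT QL: the code, the gates of one step and of one register in forced form. -/

set_option autoImplicit false

namespace Pool.Agent.PP.QL

open Pool.Agent.MP_13199e_lc Pool.Agent.PolyT Function Finset

/-- The parameters: a cube of dimension `D` and a field with `2 ^ (2 e)` elements. -/
structure Env where
  D : ℕ
  e : ℕ
  K : Type
  [fld : Field K]
  cd : K ≃ Fin (2 ^ (2 * e))
  one : (cd 1 : ℕ) = 1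
  add : ∀ a b, (cd (a + b) : ℕ) = (cd a : ℕ) ^^^ (cd b : ℕ)
  big : 32 * D ^ 2 ≤ 2 ^ e
  dim : 200 * e ≤ D

attribute [instance] Env.fld

namespace Env

variable (E : Env)

noncomputable instance : Fintype E.K := Fintype.ofEquiv _ E.cd.symm

instance : DecidableEq E.K := E.cd.decidableEq

theorem cd_zero : (E.cd 0 : ℕ) = 0 := by simpa using E.add 0 0

theorem add_self (a : E.K) : a + a = 0 :=
  E.cd.injective (Fin.ext (by rw [E.add, E.cd_zero, Nat.xor_self]))

instance : CharP E.K 2 := CharTwo.of_one_ne_zero_of_two_eq_zero one_ne_zero (by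
  rw [← one_add_one_eq_two]; exact E.add_self 1)

theorem card_K : Fintype.card E.K = 2 ^ (2 * E.e) := by
  rw [Fintype.card_congr E.cd, Fintype.card_fin]

/-- The size of the field. -/
noncomputable def q : ℝ := 2 ^ (2 * E.e)

/-- The small numbers `q ^ (-n)`. -/
noncomputable def sm (n : ℕ) : ℝ := 1 / E.q ^ n

abbrev A : Type := Fin 4 → E.K

/-- The points of a row or of a column. -/
abbrev Z : Type := Bv E.D × E.A × E.A

/-- The positions: a point of the cube, the pair of the rows, the pair of the columns. -/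
abbrev P : Type := Bv E.D × (E.A × E.A) × (E.A × E.A)

/-- Words of symbols. -/
abbrev Wd : Type := E.P → ℕ → V4

variable {E}

/-! ### The code -/

def bt (b : Bool) : E.K := bif b then 1 else 0

def io (x : ZMod 2) : E.K := if x = 0 then 0 else 1

/-- The bit `l` of `x` in the field. -/
def bx (x : Bv E.D) (l : ℕ) : E.K := if h : l < E.D then io (x ⟨l, h⟩) else 0

def lo (l : ℕ) (u : E.A × E.A) : E.K :=
  ∑ j ∈ range E.e, (∑ k, u.1 k * u.2 k ^ (2 ^ E.e * (l + 1))) ^ 2 ^ j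

def hi (l : ℕ) (u : E.A × E.A) : E.K := lo l u ^ 2 ^ E.e

/-- The shift of the cube; `lo + hi` is a trace. -/
def g (u : E.A × E.A) : Bv E.D := fun i => if lo i u + hi i u = 0 then 0 else 1

/-- The two views. -/
def vz (v : Bool) (α : E.A) (z : E.Z) : E.Z :=
  bif v then (z.1, z.2.1, z.2.2 + α) else (z.1 + g (α, z.2.2), z.2.1 + α, z.2.2)

def f (l : ℕ) (z : E.Z) : E.K := bx z.1 l + hi l z.2

/-- The code word of `X`. -/
def enc (X : Bv E.D → E.K) (z : E.Z) : E.K := ∑ h, X h * ∏ i : Fin E.D, (f i z + io (h i) + 1)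

/-- Low degree along the views. -/
def Tan (d : ℕ) (W : E.Z → E.K) : Prop := ∀ v ρ z, ∃ p : Polynomial E.K, p.natDegree ≤ d ∧
  ∀ t : E.K, W (vz v (t • ρ) z) = p.eval t

/-- Each value is the sum over the other points of each line. -/
def Fx (W : E.Z → E.K) : Prop := ∀ v ρ z, W z = ∑ t ∈ univ.erase (0 : E.K), W (vz v (t • ρ) z)

/-- The code of the columns. -/
def Col : ℕ → (E.Z → E.K) → Prop
  | 0, c => ∃ k, c = fun _ => k
  | l + 1, c => ∃ a b, Col l a ∧ Col l b ∧ c = fun y => a y + b y * f l y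

/-- The set `B` is dense in the view `v` of `z`. -/
def Dn (v : Bool) (B : E.Z → Prop) (z : E.Z) : Prop :=
  1 / (2 * E.q) < pr fun ρ : E.A => B (vz v ρ z)

/-! ### Positions -/

/-- The unit vector, or zero. -/
def ue (l : ℕ) : Bv E.D := fun i => if (i : ℕ) = l then 1 else 0

/-- The bits `< l` (`σ` true) or the bits `≥ l` (`σ` false). -/
def msk (σ : Bool) (l : ℕ) (x : Bv E.D) : Bv E.D :=
  fun i => if decide ((i : ℕ) < l) = σ then x i else 0

/-- The position in the row `y` and the column `z` of the cut `l`. -/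
def mg (l : ℕ) (z y : E.Z) : E.P := (msk false l z.1 + msk true l y.1, z.2, y.2)

/-- The views of the cut `l`: inside a row (`σ` false) or inside a column (`σ` true). -/
def vw (σ : Bool) (l : ℕ) (v : Bool) (α : E.A) (p : E.P) : E.P :=
  match σ, v with
  | false, false => (p.1 + msk false l (g (α, p.2.1.2)), (p.2.1.1 + α, p.2.1.2), p.2.2)
  | false, true => (p.1, (p.2.1.1, p.2.1.2 + α), p.2.2)
  | true, false => (p.1 + msk true l (g (α, p.2.2.2)), p.2.1, (p.2.2.1 + α, p.2.2.2))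
  | true, true => (p.1, p.2.1, (p.2.2.1, p.2.2.2 + α))

def flp (l : ℕ) (p : E.P) : E.P := (p.1 + ue l, p.2)

/-- The code word on the positions. -/
def enP (X : Bv E.D → E.K) (p : E.P) : E.K := enc X (p.1, p.2.1)

/-- The symbol `x` is pure with the value `c`. -/
def Is (x : ℕ → V4) (c : E.K) : Prop := ∀ j < 2 * E.e, x j = ofB ((E.cd c : ℕ).testBit j)

/-- The word `U` is close to the code word of `X`. -/
def Cl (t : ℝ) (U : E.Wd) (X : Bv E.D → E.K) : Prop := pr (fun p => ¬Is (U p) (enP X p)) ≤ t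

/-! ### One step -/

/-- The polynomial of a table with nine inputs. -/
def pw (t v : ℕ → E.K) : E.K :=
  ∑ a ∈ range 512, t a * ∏ j ∈ range 9, (v j + bt (a.testBit j) + 1)

/-- The result of a step. -/
def sem (T : ℕ → Bv E.D → Bool) (δ : ℕ → Bv E.D) (X : ℕ → Bv E.D → E.K) (h : Bv E.D) : E.K :=
  pw (fun a => bt (T a h)) fun j => X j (h + δ j)

/-- The substitution in the bit `l`. -/
def sub (l : ℕ) (p : E.P) (c c' : E.K) : E.K := c + (hi l p.2.1 + hi l p.2.2) * (c + c')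

/-- The sum over the other points of a line. -/
noncomputable def itp (σ : Bool) (l : ℕ) (v : Bool) (ρ : E.A) (G : E.P → E.K) (p : E.P) : E.K :=
  ∑ t ∈ univ.erase (0 : E.K), G (vw σ l v (t • ρ) p)

/-- The tests at `p`. -/
structure Chk (G : ℕ → E.P → E.K) (p : E.P) : Prop where
  fst : ∀ γ, G 0 (p.1, p.2.1, p.2.2 + γ) = G 0 p
  sub : ∀ l < E.D, G (l + 1) p = sub l p (G l p) (G l (flp l p))
  itp : ∀ l ≤ E.D, ∀ σ v ρ, itp σ l v ρ (G l) p = G l p

/-- The tests at `p` read the level `l` at `r`. -/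
def Nr (l : ℕ) (p r : E.P) : Prop :=
  r = p ∨ r = flp l p ∨ (∃ σ v α, r = vw σ l v α p) ∨ (l = 0 ∧ ∃ γ, r = (p.1, p.2.1, p.2.2 + γ))

/-- The first gate. -/
def V0 (T : ℕ → Bv E.D → Bool) (δ : ℕ → Bv E.D) (U : ℕ → E.Wd) (p : E.P) (o : ℕ → V4) : Prop :=
  ∀ v : ℕ → E.K, (∀ j < 9, Is (U j (p.1 + δ j, p.2.1, 0)) (v j)) →
    Is o (pw (fun a => enP (fun h => bt (T a h)) p) v)

/-- Purification: `m` copies `x`, and `k` is false if `m` is not pure. -/
def Pur (x m : ℕ → V4) (k : V4) : Prop :=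
  (∀ c : E.K, Is x c → Is m c ∧ k = 3) ∧ ((∃ c : E.K, Is m c) ∨ k = 0)

def Sub (l : ℕ) (U : E.Wd) (p : E.P) (o : ℕ → V4) : Prop :=
  ∀ c c', Is (U p) c → Is (U (flp l p)) c' → Is o (sub l p c c')

/-- Correction in a row: the majority of the sums over the lines. -/
def Ec (l : ℕ) (v : Bool) (U : E.Wd) (p : E.P) (o : ℕ → V4) : Prop :=
  ∀ (G : E.P → E.K) (c : E.K), (∀ ρ, itp false l v ρ G p = c) →
    pr (fun ρ : E.A => ∃ t : E.K, t ≠ 0 ∧
      ¬Is (U (vw false l v (t • ρ) p)) (G (vw false l v (t • ρ) p))) < 1 / 2 → Is o c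

/-- The conjunction of the tests. -/
structure Tot (M : ℕ → E.Wd) (ok : ℕ → V4) (p : E.P) (o : V4) : Prop where
  tr : ∀ G, (∀ l ≤ E.D, ok l = 3) → (∀ l ≤ E.D, ∀ r, Nr l p r → Is (M l r) (G l r)) →
    Chk G p → o = 3
  f1 : ∀ l ≤ E.D, ok l = 0 → o = 0
  f2 : ∀ G, (∀ l ≤ E.D, ∀ r, Nr l p r → Is (M l r) (G l r)) → ¬Chk G p → o = 0

def Out (U : E.Wd) (p : E.P) (o : ℕ → V4) : Prop :=
  ∀ c : E.K, Is (U (p.1, 0, p.2.1)) c → Is o c

/-- The layers of a step. -/
structure StepW (E : Env) where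
  V : ℕ → E.Wd
  M : ℕ → E.Wd
  ok : ℕ → E.P → V4
  S : ℕ → E.Wd
  C : ℕ → E.Wd
  tot : E.P → V4
  out : E.Wd

/-- The gates of a step at `p`. -/
structure StepG (T : ℕ → Bv E.D → Bool) (δ : ℕ → Bv E.D) (U : ℕ → E.Wd) (W : StepW E) (p : E.P) :
    Prop where
  v0 : V0 T δ U p (W.V 0 p)
  pur : ∀ l ≤ E.D, Pur (E := E) (W.V l p) (W.M l p) (W.ok l p)
  sub : ∀ l < E.D, Sub l (W.M l) p (W.S l p)
  ec1 : ∀ l < E.D, Ec (l + 1) false (W.S l) p (W.C l p)
  ec2 : ∀ l < E.D, Ec (l + 1) true (W.C l) p (W.V (l + 1) p)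
  tot : Tot W.M (fun l => W.ok l p) p (W.tot p)
  out : Out (W.M E.D) p (W.out p)

/-! ### One register -/

/-- The number of a point of the cube. -/
def nb (x : Bv E.D) : ℕ := Nat.ofBits fun i => decide (x i ≠ 0)

/-- A program: the number of routing steps, their directions and controls, and the tables with
the numbers `0` (successor), `1` (predecessor), `2 + i` (violation). -/
structure Prog where
  tm : ℕ
  dr : ℕ → ℕ
  ctl : ℕ → ℕ → ℕ → Bool
  tb : ℕ → ℕ → List Bool → Bool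

/-- The layers of a register. -/
structure RegW (E : Env) where
  s1 : StepW E
  s2 : StepW E
  bo : StepW E
  rt : ℕ → ℕ → StepW E
  ap : ℕ → StepW E
  tv : E.P → V4

/-- The route `j` at the time `τ`. -/
def RegW.R (W : RegW E) (tm j τ : ℕ) : E.Wd := if τ < tm then (W.rt j τ).out else W.s2.out

/-- The test bit of a register. -/
structure Tv (t : V4) (x y : ℕ → V4) (o : V4) : Prop where
  tr : t = 3 → Is x (0 : E.K) → Is y (0 : E.K) → o = 3
  fa : t = 0 ∨ (∃ c : E.K, c ≠ 0 ∧ Is x c) ∨ (∃ c : E.K, c ≠ 0 ∧ Is y c) → o = 0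

/-- The gates of the register `i` with the input `U` at `p`. -/
structure RegG (N : Prog) (i : ℕ) (U : E.Wd) (W : RegW E) (p : E.P) : Prop where
  s1 : StepG (fun a _ => a.testBit 0) (fun _ => 0) (fun _ => U) W.s1 p
  s2 : StepG (fun a _ => a.testBit 0) (fun _ => 0) (fun _ => W.s1.out) W.s2 p
  bo : StepG (fun a _ => a.testBit 0 && !a.testBit 1) (fun _ => 0) (fun _ => W.s2.out) W.bo p
  rt : ∀ j < 8, ∀ τ < N.tm, StepG (fun a h => a.testBit (N.ctl j τ (nb h)).toNat)
    (fun k => if k = 1 then ue (N.dr τ) else 0) (fun _ => W.R N.tm j (τ + 1)) (W.rt j τ) p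
  ap : ∀ o < 3, StepG (fun a h => N.tb (if o = 2 then 2 + i else o) (nb h)
    ((List.range 9).map a.testBit)) (fun _ => 0)
    (fun k => if k = 0 then W.s2.out else W.R N.tm (k - 1) 0) (W.ap o) p
  tv : Tv (E := E) (W.s1.tot p) (W.bo.out p) ((W.ap 2).out p) (W.tv p)

/-- The states and their code words. -/
def enB (X : Bv E.D → Bool) : E.P → E.K := enP fun h => bt (X h)

/-- All gates at `p`: four registers and the top; `y0` is the first state, `Γ` the sampler. -/
structure SysG (N : Prog) (y0 : ℕ → Bool) (Γ : List E.P) (R : ℕ → RegW E)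
    (L : T.Lay E.P (ℕ → V4)) (p : E.P) : Prop where
  reg : ∀ i < 4, RegG N i (L.W i) (R i) p
  top : L.Ok Is enB (fun h => y0 (nb h)) (fun (σ : Fin Γ.length) p => p + Γ[σ]) (E.sm 32) p

/-- The top reads the registers. -/
def Lnk (R : ℕ → RegW E) (L : T.Lay E.P (ℕ → V4)) : Prop :=
  ∀ i < 4, L.Y i = (R i).s2.out ∧ L.FY i = ((R i).ap 0).out ∧ L.GY i = ((R i).ap 1).out ∧
    L.tv i = (R i).tv

end Env

end Pool.Agent.PP.QL
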