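import Pool.Agent.MP_13199e_lc.QL.Spec

/-! PROJECT QL, row CON: self correction, distance and contraction from the mixing bound. -/

set_option autoImplicit false

namespace Pool.Agent.PP.QL

open Pool.Agent.MP_13199e_lc Function Finset Env

variable {E : Env}

/-- The set `B` has density above `c` in the view `v` of `z`. -/
def Dc (c : ℝ) (v : Bool) (B : E.Z → Prop) (z : E.Z) : Prop :=
  c < pr fun ρ : E.A => B (vz v ρ z)

theorem dc_inv (hb : Bas E) (c : ℝ) (v : Bool) (B : E.Z → Prop) (α : E.A) (z : E.Z) :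
    Dc c v B (vz v α z) ↔ Dc c v B z := by
  have h : pr (fun ρ : E.A => B (vz v ρ (vz v α z))) = pr fun ρ : E.A => B (vz v ρ z) := by
    simp only [hb.act]
    exact pr_shift (fun ρ : E.A => B (vz v ρ z)) α
  unfold Dc
  rw [h]

theorem av_view (hb : Bas E) (v : Bool) (B : E.Z → Prop) :
    av (fun z => pr fun ρ : E.A => B (vz v ρ z)) = pr B := by
  rw [pr_comm fun z (ρ : E.A) => B (vz v ρ z)]
  exact (av_congr fun ρ => pr_bij (hb.bij v ρ) B).trans (av_const _)

theorem dc_low (hb : Bas E) (c : ℝ) (v : Bool) (B : E.Z → Prop) :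
    c * pr (Dc c v B) ≤ pr fun z => B z ∧ Dc c v B z := by
  rw [← av_view hb v fun z => B z ∧ Dc c v B z, pr, ← av_mul]
  refine av_mono fun z => ?_
  by_cases h : Dc c v B z
  · rw [ind_pos h, mul_one]
    exact (le_of_lt h).trans (pr_mono fun ρ u => ⟨u, (dc_inv hb c v B ρ z).2 h⟩)
  · rw [ind_neg h, mul_zero]
    exact pr_nonneg _

theorem dc_le (hb : Bas E) (c : ℝ) (v : Bool) (B : E.Z → Prop) : c * pr (Dc c v B) ≤ pr B :=
  (dc_low hb c v B).trans (pr_mono fun _ h => h.1)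

theorem q_big (hb : Bas E) : 1 ≤ E.q ∧ 8 * (E.D : ℝ) ^ 2 ≤ E.q ∧ 1024 * (E.D : ℝ) ^ 4 ≤ E.q := by
  obtain ⟨h1, h2, -⟩ := hb.qge
  have h3 : (1 : ℝ) ≤ (E.D : ℝ) ^ 2 := one_le_pow₀ (by linarith)
  have h4 : (E.D : ℝ) ^ 4 = (E.D : ℝ) ^ 2 * (E.D : ℝ) ^ 2 := by ring
  refine ⟨?_, ?_, h1⟩ <;> nlinarith

theorem dn_le (hb : Bas E) (v : Bool) (B : E.Z → Prop) : pr (Dn v B) ≤ 2 * E.q * pr B := by
  have hq : 0 < E.q := by linarith [(q_big hb).1]
  have h : 1 / (2 * E.q) * pr (Dn v B) ≤ pr B := dc_le hb (1 / (2 * E.q)) v B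
  rw [one_div, inv_mul_le_iff₀ (by positivity)] at h
  exact h

theorem con_self (hb : Bas E) (hm : Mix E) (B F : E.Z → Prop)
    (h : ∀ z, B z → F z ∨ ∀ v, Dn v B z) (hB : pr B ≤ E.sm 2 / 16) : pr B ≤ 2 * pr F := by
  obtain ⟨q1, q2, -⟩ := q_big hb
  have hq : 0 < E.q := by linarith
  have h1 : pr B ≤ pr F + pr fun z => Dn false B z ∧ Dn true B z :=
    pr_le_add fun z u => (h z u).imp_right fun k => ⟨k _, k _⟩
  have h2 := hm (Dn false B) (Dn true B) (dc_inv hb _ false B) (dc_inv hb _ true B)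
  have hx := dn_le hb false B
  have hy := dn_le hb true B
  have b0 := pr_nonneg B
  have x0 := pr_nonneg (Dn false B)
  have y0 := pr_nonneg (Dn true B)
  have hxy : pr (Dn false B) * pr (Dn true B) ≤ (2 * E.q * pr B) ^ 2 := by
    rw [sq]; exact mul_le_mul hx hy y0 (by positivity)
  have hs : √(pr (Dn false B) * pr (Dn true B)) ≤ 2 * E.q * pr B :=
    Real.sqrt_le_iff.2 ⟨by positivity, hxy⟩
  have hb2 : 16 * E.q ^ 2 * pr B ≤ 1 := by
    rw [Env.sm, div_div, le_div_iff₀ (by positivity)] at hB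
    linarith
  have h3 : (2 * E.q * pr B) ^ 2 ≤ pr B / 4 := by nlinarith [mul_le_mul_of_nonneg_right hb2 b0]
  have h4 : (E.D / E.q) ^ 2 * (2 * E.q * pr B) ≤ pr B / 4 := by
    have : (E.D / E.q) ^ 2 * (2 * E.q * pr B) = 8 * (E.D : ℝ) ^ 2 / E.q * (pr B / 4) := by
      field_simp
      ring
    rw [this]
    exact mul_le_of_le_one_left (by positivity) ((div_le_one hq).2 q2)
  have h5 := mul_le_mul_of_nonneg_left hs (sq_nonneg ((E.D : ℝ) / E.q))
  linarith

theorem con_dist (hb : Bas E) (hm : Mix E) (W W' : E.Z → E.K) (hW : Fx W) (hW' : Fx W')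
    (hB : pr (fun z => W z ≠ W' z) ≤ E.sm 2 / 16) : W = W' := by
  have h := con_self hb hm (fun z => W z ≠ W' z) (fun _ => False) (fun z u => Or.inr fun v => by
    by_contra k
    obtain ⟨ρ, hρ⟩ := exists_not_of_pr_lt ((hb.line v _ z k).trans (by norm_num : (1 / 2 : ℝ) < 1))
    refine u ?_
    rw [hW v ρ z, hW' v ρ z]
    exact sum_congr rfl fun t ht => by_contra fun n => hρ ⟨t, ne_of_mem_erase ht, n⟩) hB
  rw [pr_of_not (p := fun _ : E.Z => False) fun _ => id, mul_zero] at h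
  funext z
  by_contra k
  have h1 := (le_pr (p := fun z => W z ≠ W' z) k).trans h
  have h2 : (0 : ℝ) < Nat.card E.Z := Nat.cast_pos.2 Nat.card_pos
  exact absurd h1 (not_le.2 (by positivity))

theorem con_con (hb : Bas E) (hm : Mix E) (B B₁ B₂ F₁ F₂ : E.Z → Prop) (φ : ℝ)
    (h₁ : ∀ z, B₁ z → F₁ z ∨ Dn false B z) (h₂ : ∀ z, B₂ z → F₂ z ∨ Dn true B₁ z)
    (hB : pr B ≤ E.sm 2 / 16) (f₁ : pr F₁ ≤ φ) (f₂ : pr F₂ ≤ φ) :
    pr B₂ ≤ pr B / 4 + 5 * E.q * φ := by
  obtain ⟨q1, -, q3⟩ := q_big hb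
  have hq : 0 < E.q := by linarith
  have φ0 : 0 ≤ φ := (pr_nonneg _).trans f₁
  have e1 : 1 / (2 * E.q) = 1 / (4 * E.q) + 1 / (4 * E.q) := by
    field_simp
    ring
  have h3 : pr (Dn true B₁) ≤
      pr (Dc (1 / (4 * E.q)) true F₁) + pr (Dc (1 / (4 * E.q)) true (Dn false B)) := by
    refine pr_le_add fun z u => ?_
    have k : pr (fun ρ : E.A => B₁ (vz true ρ z)) ≤
        pr (fun ρ : E.A => F₁ (vz true ρ z)) + pr fun ρ : E.A => Dn false B (vz true ρ z) :=
      pr_le_add fun ρ => h₁ _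
    by_contra n
    rw [not_or] at n
    have n1 := not_lt.1 n.1
    have n2 := not_lt.1 n.2
    have n3 : 1 / (2 * E.q) < pr fun ρ : E.A => B₁ (vz true ρ z) := u
    linarith
  have h4 : pr (Dc (1 / (4 * E.q)) true F₁) ≤ 4 * E.q * φ := by
    have h := (dc_le hb (1 / (4 * E.q)) true F₁).trans f₁
    rwa [one_div (4 * E.q), inv_mul_le_iff₀ (by positivity), ← one_div] at h
  have h5 := (dc_low hb (1 / (4 * E.q)) true (Dn false B)).trans
    (hm (Dn false B) _ (dc_inv hb _ false B) (dc_inv hb _ true _))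
  have hx := dn_le hb false B
  have b0 := pr_nonneg B
  have x0 := pr_nonneg (Dn false B)
  have y0 := pr_nonneg (Dc (1 / (4 * E.q)) true (Dn false B))
  have h6 : pr B₂ ≤ φ + pr (Dn true B₁) := (pr_le_add h₂).trans (by linarith)
  generalize pr (Dc (1 / (4 * E.q)) true (Dn false B)) = y at *
  generalize pr (Dn false B) = x at *
  have hb2 : 16 * E.q ^ 2 * pr B ≤ 1 := by
    rw [Env.sm, div_div, le_div_iff₀ (by positivity)] at hB
    linarith
  have hx2 : x ≤ 1 / (8 * E.q) := by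
    rw [le_div_iff₀ (by positivity)]
    nlinarith [mul_le_mul_of_nonneg_right hx hq.le]
  have e2 : 1 / (4 * E.q) = 1 / (8 * E.q) + 1 / (8 * E.q) := by
    field_simp
    ring
  have h7 : 1 / (8 * E.q) * y ≤ (E.D / E.q) ^ 2 * √(x * y) := by
    have := mul_le_mul_of_nonneg_right hx2 y0
    rw [e2] at h5
    linarith
  have h8 : (1 / (8 * E.q) * y) ^ 2 ≤ (E.D / E.q) ^ 4 * (x * y) := by
    have := pow_le_pow_left₀ (by positivity) h7 2
    rwa [mul_pow ((E.D / E.q) ^ 2), Real.sq_sqrt (by positivity), ← pow_mul] at this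
  have h9 : y ≤ pr B / 4 := by
    rcases y0.eq_or_lt with u | u
    · rw [← u]; positivity
    · have k1 : y * y ≤ 64 * E.q ^ 2 * (E.D / E.q) ^ 4 * x * y := by
        have := mul_le_mul_of_nonneg_left h8 (by positivity : 0 ≤ 64 * E.q ^ 2)
        have e3 : 64 * E.q ^ 2 * (1 / (8 * E.q) * y) ^ 2 = y * y := by
          field_simp
          ring
        rw [e3] at this
        linarith
      have k2 := le_of_mul_le_mul_right k1 u
      have k3 := mul_le_mul_of_nonneg_left hx (by positivity : 0 ≤ 64 * E.q ^ 2 * (E.D / E.q) ^ 4)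
      have e4 : 64 * E.q ^ 2 * (E.D / E.q) ^ 4 * (2 * E.q * pr B) =
          1024 * (E.D : ℝ) ^ 4 / E.q * (pr B / 8) := by
        field_simp
        ring
      have k4 : 1024 * (E.D : ℝ) ^ 4 / E.q * (pr B / 8) ≤ pr B / 8 :=
        mul_le_of_le_one_left (by positivity) ((div_le_one hq).2 q3)
      linarith
  have h10 : φ ≤ E.q * φ := le_mul_of_one_le_left φ0 q1
  linarith

theorem conS : ConS := fun _ hb hm => ⟨con_self hb hm, con_dist hb hm, con_con hb hm⟩

end Pool.Agent.PP.QL
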