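import Pool.Agent.MP_13199e_lc.QL.Spec
import Pool.Agent.MP_13199e_lc.QL.Kit

/-! PROJECT QL, row DEC: the decoder. -/

set_option autoImplicit false

namespace Pool.Agent.PP.QL

open Pool.Agent.MP_13199e_lc Pool.Agent.PolyT Pool.Agent.H82 N487b59b3 Function Finset Env

namespace Dec

/-- The code of a point. -/
abbrev NZ : Type := ℕ × NA

/-- Tables. -/
abbrev Tb : Type := List (NZ × ℕ)

/-- The sum of a list of codes. -/
def xs (l : List ℕ) : ℕ := l.foldl (fun c x => c ^^^ x) 0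

/-- The sum of two vectors. -/
def xr (a b : List ℕ) : List ℕ := (a.zip b).map fun p => p.1 ^^^ p.2

variable (N : Num)

def keys (σ : Sg) (u : List Bool) : List NZ :=
  (idx u).flatMap fun x => (N.al σ).flatMap fun a => (N.al σ).map fun b => (x, a, b)

def nvz (σ : Sg) (v : Bool) (α : List ℕ) (z : NZ) : NZ :=
  bif v then (z.1, z.2.1, xr z.2.2 α) else (z.1 ^^^ N.g (σ, α, z.2.2), xr z.2.1 α, z.2.2)

/-- The sum over the other points of a line. -/
def ln (σ : Sg) (v : Bool) (T : Tb) (ρ : List ℕ) (z : NZ) : ℕ :=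
  xs ((idx σ.2).map fun t =>
    bif eqB t 0 then 0 else lk T (nvz N σ v (ρ.map fun n => N.mul (σ, t, n)) z) 0)

/-- More than half of the lines give `c`. -/
def mj (σ : Sg) (v : Bool) (T : Tb) (z : NZ) (c : ℕ) : Bool :=
  ltB (N.al σ).length (2 * (N.al σ).countP fun ρ => eqB (ln N σ v T ρ z) c)

def nv (σ : Sg) (v : Bool) (T : Tb) (z : NZ) : ℕ := ((idx σ.2).find? (mj N σ v T z)).getD 0

/-- One round. -/
def rnd (σ : Sg) (u : List Bool) (v : Bool) (T : Tb) : Tb :=
  (keys N σ u).map fun z => (z, nv N σ v T z)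

/-- All rounds. -/
def fin (σ : Sg) (u : List Bool) (T : Tb) : Tb :=
  (keys N σ u).foldl (fun T _ => rnd N σ u true (rnd N σ u false T)) T

variable {N}

section
variable {α : Type} [N487b59b3 α]

theorem poly_xs : Poly xs :=
  p_foldl_inv (f := fun (_ : List ℕ) (c x : ℕ) => c ^^^ x) (l := fun l => l) (i := fun _ => 0)
    (by fun_prop) p_id (p_const 0) Bd.len (fun l c => c < 2 ^ (bitEncode l).length)
    (fun _ => Nat.two_pow_pos _) (fun _ _ x hx hc => Nat.xor_lt_two_pow hc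
      ((lt_two_pow_enc x).trans_le (Nat.pow_le_pow_right two_pos (enc_mem_le hx))))
    fun _ _ hc => length_enc_nat_le hc

@[fun_prop] theorem p_xs {l : α → List ℕ} (hl : Poly l) : Poly fun a => xs (l a) :=
  poly_xs.comp hl

@[fun_prop] theorem p_xr {l l' : α → List ℕ} (hl : Poly l) (hl' : Poly l') :
    Poly fun a => xr (l a) (l' a) := by
  unfold xr
  fun_prop

theorem p_keys (h : N.Pol) {σ : α → Sg} {u : α → List Bool} (h1 : Poly σ) (h2 : Poly u) :
    Poly fun a => keys N (σ a) (u a) := by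
  have := h.2.2.2.1
  unfold keys
  fun_prop

theorem p_ln (h : N.Pol) (v : Bool) :
    Poly fun a : Sg × Tb × List ℕ × NZ => ln N a.1 v a.2.1 a.2.2.1 a.2.2.2 := by
  have := h.1
  have := h.2.2.1
  unfold ln nvz
  fun_prop

theorem p_nv (h : N.Pol) (v : Bool) : Poly fun a : Sg × Tb × NZ => nv N a.1 v a.2.1 a.2.2 := by
  have h1 := h.2.2.2.1
  have h2 : Poly fun a : ((Sg × Tb × NZ) × ℕ) × List ℕ =>
      ln N a.1.1.1 v a.1.1.2.1 a.2 a.1.1.2.2 :=
    (p_ln h v).comp (f := fun a : ((Sg × Tb × NZ) × ℕ) × List ℕ =>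
      (a.1.1.1, a.1.1.2.1, a.2, a.1.1.2.2)) (by fun_prop)
  have h3 : Poly fun a : (Sg × Tb × NZ) × ℕ => mj N a.1.1 v a.1.2.1 a.1.2.2 a.2 :=
    p_ltB (by fun_prop) (p_mul (p_const 2) (p_countP (p_eqB h2 (by fun_prop)) (by fun_prop)))
  exact p_find h3 (by fun_prop) (p_const 0)

theorem p_rnd (h : N.Pol) (v : Bool) {σ : α → Sg} {u : α → List Bool} {T : α → Tb} (h1 : Poly σ)
    (h2 : Poly u) (h3 : Poly T) : Poly fun a => rnd N (σ a) (u a) v (T a) :=
  p_map (p_pair (by fun_prop) ((p_nv h v).comp (f := fun p : α × NZ => (σ p.1, T p.1, p.2))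
    (by fun_prop))) (p_keys h h1 h2)

theorem nv_le (σ : Sg) (v : Bool) (T : Tb) (z : NZ) : nv N σ v T z ≤ σ.2.length := by
  unfold nv
  cases e : (idx σ.2).find? (mj N σ v T z) with
  | none => exact Nat.zero_le _
  | some c => exact (mem_idx.1 (List.mem_of_find?_eq_some e)).le

theorem enc_tb (l : List NZ) {F : NZ → ℕ} {n : ℕ} (h : ∀ z, F z ≤ n) :
    (bitEncode (l.map fun z => (z, F z))).length ≤ (bitEncode (l.map fun z => (z, n))).length := by
  induction l with
  | nil => exact le_rfl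
  | cons z l ih =>
    have := length_enc_nat_mono (h z)
    simp only [List.map_cons, length_enc_cons, length_enc_pair]
    omega

theorem p_fin (h : N.Pol) {σ : α → Sg} {u : α → List Bool} {T : α → Tb} (h1 : Poly σ)
    (h2 : Poly u) (h3 : Poly T) : Poly fun a => fin N (σ a) (u a) (T a) := by
  have h4 := p_keys h h1 h2
  have h5 : Poly fun a => (keys N (σ a) (u a)).map fun z => (z, (σ a).2.length) := by fun_prop
  exact p_foldl_inv (f := fun a (T : Tb) (_ : NZ) =>
      rnd N (σ a) (u a) true (rnd N (σ a) (u a) false T))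
    (p_rnd h true (by fun_prop) (by fun_prop) (p_rnd h false (by fun_prop) (by fun_prop)
      (by fun_prop))) h4 h3 (h3.bd.add h5.bd) (fun a c => (bitEncode c).length ≤ _)
    (fun _ => Nat.le_add_right _ _)
    (fun a _ _ _ _ => (enc_tb _ (nv_le _ _ _)).trans (Nat.le_add_left _ _)) fun _ _ hc => hc

end

variable {E : Env} {σ : Sg} {u : List Bool}

/-- The code of a point. -/
def cz (z : E.Z) : NZ := (nb z.1, cu z.2)

theorem cz_inj (hn : Nb E) : Injective (cz (E := E)) := fun z y e => by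
  simp only [cz, cu, Prod.mk.injEq] at e
  exact Prod.ext (hn.inj e.1) (Prod.ext (hn.cinj e.2.1) (hn.cinj e.2.2))

theorem cz_mem (ho : N.Ok σ E) (hn : Nb E) (hu : u.length = 2 ^ E.D) (z : E.Z) :
    cz z ∈ keys N σ u := by
  obtain ⟨la, e, -, hl⟩ := ho.al
  simp only [keys, List.mem_flatMap, List.mem_map, mem_idx, e, hu]
  exact ⟨_, hn.lt z.1, _, ⟨_, hl z.2.1, rfl⟩, _, ⟨_, hl z.2.2, rfl⟩, rfl⟩

theorem xr_ca (hn : Nb E) (a b : E.A) : xr (ca a) (ca b) = ca (a + b) := by
  rw [hn.cadd, xr, List.zip, List.map_zipWith]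

theorem nvz_cz (ho : N.Ok σ E) (hn : Nb E) (v : Bool) (a : E.A) (z : E.Z) :
    nvz N σ v (ca a) (cz z) = cz (vz v a z) := by
  have := ho.g (a, z.2.2)
  cases v
  · simp only [nvz, cz, cu, vz, cond_false, xr_ca hn, hn.add] at this ⊢
    rw [this]
  · simp only [nvz, cz, cu, vz, cond_true, xr_ca hn]

theorem foldl_cd {ι : Type} (l : List ι) (H : ι → E.K) (c : E.K) :
    (l.map fun t => (E.cd (H t) : ℕ)).foldl (fun c x : ℕ => c ^^^ x) (E.cd c : ℕ)
      = (E.cd (c + (l.map H).sum) : ℕ) := by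
  induction l generalizing c with
  | nil => simp
  | cons t l ih => rw [List.map_cons, List.foldl_cons, ← E.add, ih, List.map_cons, List.sum_cons,
      add_assoc]

theorem ln_eq (ho : N.Ok σ E) (hn : Nb E) {W : E.Z → E.K} (hW : Fx W) (v : Bool) (T : Tb)
    (ρ : E.A) (z : E.Z)
    (h : ∀ t : E.K, t ≠ 0 → lk T (cz (vz v (t • ρ) z)) 0 = E.cd (W (vz v (t • ρ) z))) :
    ln N σ v T (ca ρ) (cz z) = E.cd (W z) := by
  have e1 : idx σ.2 = (List.finRange (2 ^ (2 * E.e))).map Fin.val := by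
    rw [idx, ho.fld, List.map_coe_finRange_eq_range]
  have e2 : ∀ i : Fin (2 ^ (2 * E.e)), (bif eqB (i : ℕ) 0 then 0 else
      lk T (nvz N σ v ((ca ρ).map fun n => N.mul (σ, (i : ℕ), n)) (cz z)) 0) =
      (E.cd (if E.cd.symm i = 0 then 0 else W (vz v (E.cd.symm i • ρ) z)) : ℕ) := fun i => by
    obtain ⟨t, rfl⟩ := E.cd.surjective i
    rw [Equiv.symm_apply_apply]
    by_cases ht : t = 0
    · rw [if_pos ht, ht, E.cd_zero]; rfl
    · have : (E.cd t : ℕ) ≠ 0 := fun k => ht (E.cd.injective (Fin.ext (k.trans E.cd_zero.symm)))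
      rw [if_neg ht, eqB_false_iff.2 this, cond_false, ← hn.cmul N σ ho, nvz_cz ho hn, h t ht]
  rw [ln, e1, List.map_map, xs]
  simp only [comp_def, e2]
  conv_lhs => rw [← E.cd_zero]
  rw [foldl_cd, zero_add, ← Fin.sum_univ_def,
    Equiv.sum_comp E.cd.symm fun t => if t = 0 then 0 else W (vz v (t • ρ) z), hW v ρ z,
    ← sum_erase (f := fun t : E.K => if t = 0 then 0 else W (vz v (t • ρ) z)) (a := 0) _
      (if_pos rfl)]
  exact congrArg (fun k => (E.cd k : ℕ)) (sum_congr rfl fun t ht => if_neg (ne_of_mem_erase ht))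

theorem count_eq {β : Type} [Fintype β] [Nonempty β] {l : List β} (h1 : l.Nodup) (h2 : ∀ a, a ∈ l)
    (f : β → Bool) : (l.countP f : ℝ) = pr (fun a => f a = true) * l.length := by
  classical
  have e : l.toFinset = univ := eq_univ_of_forall fun a => List.mem_toFinset.2 (h2 a)
  have e1 : l.length = Nat.card β := by
    rw [Nat.card_eq_fintype_card, ← card_univ, ← e, List.toFinset_card_of_nodup h1]
  have : (Nat.card β : ℝ) ≠ 0 := Nat.cast_ne_zero.2 Nat.card_pos.ne'
  rw [pr_eq_cn, e1, div_mul_cancel₀ _ this, cn_eq, List.countP_eq_length_filter,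
    ← List.toFinset_card_of_nodup (h1.filter _), List.toFinset_filter, e]

theorem mj_iff (ho : N.Ok σ E) (v : Bool) (T : Tb) (z : NZ) (c : ℕ) :
    mj N σ v T z c = true ↔ 1 / 2 < pr fun ρ : E.A => ln N σ v T (ca ρ) z = c := by
  obtain ⟨la, e, h1, h2⟩ := ho.al
  have h3 : (0 : ℝ) < la.length := Nat.cast_pos.2 (List.length_pos_of_mem (h2 0))
  have h4 := count_eq h1 h2 fun ρ => eqB (ln N σ v T (ca ρ) z) c
  simp only [eqB_iff] at h4
  rw [mj, ltB_iff, e, List.length_map, List.countP_map, comp_def, ← Nat.cast_lt (α := ℝ),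
    Nat.cast_mul, h4, Nat.cast_ofNat]
  constructor <;> intro h <;> nlinarith

/-- The errors of a table. -/
def Bad (W : E.Z → E.K) (T : Tb) (z : E.Z) : Prop := lk T (cz z) 0 ≠ E.cd (W z)

theorem bad_rnd (ho : N.Ok σ E) (hb : Bas E) (hn : Nb E) (hu : u.length = 2 ^ E.D)
    {W : E.Z → E.K} (hW : Fx W) (v : Bool) (T : Tb) (z : E.Z) (h : Bad W (rnd N σ u v T) z) :
    Dn v (Bad W T) z := by
  by_contra k
  have h1 := hb.line v _ z k
  have h2 : pr (fun ρ : E.A => ¬ln N σ v T (ca ρ) (cz z) = E.cd (W z)) < 1 / 2 :=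
    (pr_mono fun ρ n => by_contra fun m => n (ln_eq ho hn hW v T ρ z fun t ht =>
      by_contra fun y => m ⟨t, ht, y⟩)).trans_lt h1
  have h3 : mj N σ v T (cz z) (E.cd (W z)) = true := by
    rw [pr_not] at h2
    exact (mj_iff ho _ _ _ _).2 (by linarith)
  refine h ?_
  rw [rnd, lk_map (key := fun z => z) 0 (cz_mem ho hn hu z) fun y _ e => by rw [e], nv]
  cases e : (idx σ.2).find? (mj N σ v T (cz z)) with
  | none =>
    exact absurd h3 (List.find?_eq_none.1 e _ (mem_idx.2 ((E.cd (W z)).2.trans_eq ho.fld.symm)))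
  | some c =>
    by_contra n
    have h4 := (mj_iff ho _ _ _ _).1 (List.find?_some e)
    exact absurd (h4.trans_le (pr_mono fun ρ y y' => n (y.symm.trans y'))) (not_lt.2 h2.le)

theorem bad_fold (ho : N.Ok σ E) (hb : Bas E) (hc : Con E) (hn : Nb E) (hu : u.length = 2 ^ E.D)
    {W : E.Z → E.K} (hW : Fx W) (l : List NZ) (T : Tb) (h : pr (Bad W T) ≤ E.sm 2 / 16) :
    pr (Bad W (l.foldl (fun T _ => rnd N σ u true (rnd N σ u false T)) T)) * 4 ^ l.length
      ≤ pr (Bad W T) := by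
  induction l generalizing T with
  | nil => simp
  | cons x l ih =>
    have h0 : pr (fun _ : E.Z => False) ≤ 0 := (pr_of_not fun _ => id).le
    have h1 := hc.con _ _ _ _ _ 0 (fun z k => Or.inr (bad_rnd ho hb hn hu hW false T z k))
      (fun z k => Or.inr (bad_rnd ho hb hn hu hW true _ z k)) h h0 h0
    have h2 := pr_nonneg (Bad W T)
    have h3 := ih (rnd N σ u true (rnd N σ u false T)) (by linarith)
    rw [List.foldl_cons, List.length_cons, pow_succ, ← mul_assoc]
    linarith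

theorem good_fin (ho : N.Ok σ E) (hb : Bas E) (hc : Con E) (hn : Nb E) (hu : u.length = 2 ^ E.D)
    {W : E.Z → E.K} (hW : Fx W) (T : Tb) (h : pr (Bad W T) ≤ E.sm 2 / 16) (z : E.Z) :
    lk (fin N σ u T) (cz z) 0 = E.cd (W z) := by
  by_contra k
  have h1 := (bad_fold ho hb hc hn hu hW (keys N σ u) T h).trans (pr_le_one _)
  have h2 := le_pr (p := Bad W (fin N σ u T)) k
  have h3 : Nat.card E.Z ≤ (keys N σ u).length := by
    rw [Nat.card_eq_fintype_card, ← card_univ]
    exact (card_le_card_of_injOn cz (fun y _ => List.mem_toFinset.2 (cz_mem ho hn hu y))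
      (cz_inj hn).injOn).trans (List.toFinset_card_le _)
  have h4 : (Nat.card E.Z : ℝ) < 4 ^ (keys N σ u).length := by
    exact_mod_cast h3.trans_lt (Nat.lt_pow_self (by norm_num))
  have h5 : (0 : ℝ) < Nat.card E.Z := Nat.cast_pos.2 Nat.card_pos
  have h6 := (mul_le_mul_of_nonneg_right h2 (by positivity)).trans h1
  rw [one_div, inv_mul_le_iff₀ h5, mul_one] at h6
  exact absurd h4 (not_lt.2 h6)

end Dec

open Dec in
theorem decS : DecS := by
  intro α _ N sg big w hN h1 h2 h3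
  have h4 := p_keys hN h1 h2
  have h5 : Poly fun a => fin N (sg a) (big a)
      ((keys N (sg a) (big a)).map fun z => (z, w (a, z))) := p_fin hN h1 h2 (by fun_prop)
  refine ⟨fun p => eqB (lk (fin N (sg p.1) (big p.1) ((keys N (sg p.1) (big p.1)).map fun z =>
    (z, w (p.1, z)))) (p.2, [0, 0, 0, 0], [0, 0, 0, 0]) 0) 1,
    p_eqB (p_lk (h5.comp (p_fst p_id)) (by fun_prop) (p_const 0)) (p_const 1),
    fun a E ho hb hc ht hn hu X hX h => ?_⟩
  have hW := ht.fx _ (ht.mono _ _ _ (Nat.le_mul_of_pos_left _ (by norm_num))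
    (ht.enc fun h => bt (X h)))
  have h6 := good_fin ho hb hc hn hu hW ((keys N (sg a) (big a)).map fun z => (z, w (a, z)))
    ((pr_congr fun z => by
      rw [Bad, lk_map (key := fun z => z) 0 (cz_mem ho hn hu z) fun y _ e => by rw [e]]
      rfl).trans_le hX) (h, 0, 0)
  simp only [cz, cu, hn.czero, ht.enc0, hn.bt] at h6
  simp only [h6]
  cases X h <;> rfl

end Pool.Agent.PP.QL
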