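import Pool.Agent.MP_13199e_lc.QL.Model
import Mathlib.FieldTheory.Finite.GaloisField
import Mathlib.FieldTheory.IsAlgClosed.AlgebraicClosure

/-! PROJECT QL: uniform fields of characteristic two. -/

set_option autoImplicit false

namespace Pool.Agent.PP.QL

open Pool.Agent.PolyT Pool.Agent.H82 N487b59b3 Function

namespace Fld

/-- The value at `θ` of the polynomial given by the binary digits. -/
def ev {R : Type} [CommRing R] (θ : R) : ℕ → R :=
  Nat.binaryRec 0 fun c _ r => (bif c then 1 else 0) + θ * r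

section
variable {R : Type} [CommRing R] {θ : R}

theorem ev_zero : ev θ 0 = 0 := Nat.binaryRec_zero ..

theorem ev_bit (c : Bool) (m : ℕ) : ev θ (Nat.bit c m) = (bif c then 1 else 0) + θ * ev θ m :=
  Nat.binaryRec_eq c m (Or.inl (by simp))

theorem ev_one : ev θ 1 = 1 := by simpa [ev_zero] using ev_bit (θ := θ) true 0

theorem ev_two (m : ℕ) : ev θ (2 * m) = θ * ev θ m := by
  simpa [Nat.bit_val] using ev_bit (θ := θ) false m

theorem ev_xor [CharP R 2] (a b : ℕ) : ev θ (a ^^^ b) = ev θ a + ev θ b := by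
  induction a using Nat.binaryRec generalizing b with
  | zero => simp [ev_zero]
  | bit c a ih =>
    induction b using Nat.bitCasesOn with
    | bit d b =>
      rw [Nat.xor_bit, ev_bit, ev_bit, ev_bit, ih]
      have := CharTwo.add_self_eq_zero (1 : R)
      cases c <;> cases d <;> simp only [bne_self_eq_false, Bool.bne_true, Bool.bne_false,
        Bool.not_false, cond_true, cond_false]
      · ring
      · ring
      · ring
      · linear_combination -this

theorem ev_top (n w : ℕ) (h : w < 2 ^ n) : ev θ (2 ^ n + w) = θ ^ n + ev θ w := by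
  induction n generalizing w with
  | zero =>
    obtain rfl : w = 0 := by omega
    simp [ev_one, ev_zero]
  | succ n ih =>
    induction w using Nat.bitCasesOn with
    | bit c w =>
      have e : 2 ^ (n + 1) + Nat.bit c w = Nat.bit c (2 ^ n + w) := by
        simp only [Nat.bit_val]
        omega
      rw [e, ev_bit, ev_bit, ih w (by rw [Nat.bit_val] at h; omega)]
      ring

theorem map_ev {S : Type} [CommRing S] (φ : R →+* S) (m : ℕ) : φ (ev θ m) = ev (φ θ) m := by
  induction m using Nat.binaryRec with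
  | zero => simp [ev_zero]
  | bit c m ih =>
    rw [ev_bit, ev_bit, map_add, map_mul, ih]
    cases c <;> simp

theorem evX [Nontrivial R] (m : ℕ) (h : ev (Polynomial.X : Polynomial R) m = 0) : m = 0 := by
  induction m using Nat.binaryRec with
  | zero => rfl
  | bit c m ih =>
    rw [ev_bit] at h
    cases c with
    | true => simpa using congrArg (Polynomial.coeff · 0) h
    | false => simp [ih (by simpa using h)]

end

/-- Cut off at `N`. -/
def clip (N w : ℕ) : ℕ := bif ltB w N then w else 0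

/-- Multiplication by the variable. -/
def xt (N q z : ℕ) : ℕ := bif ltB (z + z) N then z + z else (z + z - N) ^^^ q

/-- One step of the multiplication. -/
def stp (N q b : ℕ) (c : Bool) (z : ℕ) : ℕ := clip N ((bif c then b else 0) ^^^ xt N q z)

/-- Multiplication modulo the polynomial `N + q`. -/
def mm (N q a b : ℕ) : ℕ := a.bits.foldr (stp N q b) 0

/-- Every nonzero element has an inverse. -/
def good (L : List ℕ) (N q : ℕ) : Bool :=
  L.all fun a => eqB a 0 || L.any fun b => eqB (mm N q a b) 1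

/-- The first good modulus. -/
def fst (u : List Bool) : ℕ := ((idx u).filter (good (idx u) u.length)).headD 0

theorem fold_le (N q b : ℕ) (l : List Bool) : l.foldr (stp N q b) 0 ≤ N := by
  cases l with
  | nil => exact Nat.zero_le _
  | cons c l =>
    rw [List.foldr_cons, stp, clip]
    cases h : ltB _ N
    · exact Nat.zero_le _
    · exact (ltB_iff.1 h).le

section
variable {R : Type} [CommRing R] [CharP R 2] {θ : R} {n q : ℕ}

theorem xt_spec (hq : q < 2 ^ n) (h : θ ^ n = ev θ q) {z : ℕ} (hz : z < 2 ^ n) :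
    xt (2 ^ n) q z < 2 ^ n ∧ ev θ (xt (2 ^ n) q z) = θ * ev θ z := by
  rw [xt, ← ev_two, two_mul]
  cases e : ltB (z + z) (2 ^ n)
  · have e := ltB_false_iff.1 e
    have k : z + z - 2 ^ n < 2 ^ n := by omega
    refine ⟨Nat.xor_lt_two_pow k hq, ?_⟩
    rw [cond_false, ev_xor, ← h, add_comm, ← ev_top n _ k, Nat.add_sub_cancel' e]
  · exact ⟨ltB_iff.1 e, rfl⟩

theorem mm_spec (hq : q < 2 ^ n) (h : θ ^ n = ev θ q) (a : ℕ) {b : ℕ} (hb : b < 2 ^ n) :
    mm (2 ^ n) q a b < 2 ^ n ∧ ev θ (mm (2 ^ n) q a b) = ev θ a * ev θ b := by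
  have key : ∀ l : List Bool, l.foldr (stp (2 ^ n) q b) 0 < 2 ^ n ∧
      ev θ (l.foldr (stp (2 ^ n) q b) 0) = ev θ (ofBits l) * ev θ b := by
    intro l
    induction l with
    | nil => exact ⟨Nat.two_pow_pos n, by simp [ev_zero]⟩
    | cons c l ih =>
      obtain ⟨x1, x2⟩ := xt_spec hq h ih.1
      have k : (bif c then b else 0) ^^^ xt (2 ^ n) q (l.foldr (stp (2 ^ n) q b) 0) < 2 ^ n :=
        Nat.xor_lt_two_pow (by cases c; exacts [Nat.two_pow_pos n, hb]) x1
      rw [List.foldr_cons, stp, clip, ltB_iff.2 k, cond_true, ev_xor, x2, ih.2, ofBits_cons,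
        ← Nat.bit_val, ev_bit]
      refine ⟨k, ?_⟩
      cases c <;> simp only [cond_true, cond_false, ev_zero] <;> ring
  simpa only [mm, ofBits_bits] using key a.bits

theorem inj (h : ∀ a < 2 ^ n, ev θ a = 0 → a = 0) {a b : ℕ} (ha : a < 2 ^ n) (hb : b < 2 ^ n)
    (e : ev θ a = ev θ b) : a = b :=
  Nat.xor_eq_zero_iff.1 (h _ (Nat.xor_lt_two_pow ha hb)
    (by rw [ev_xor, e, CharTwo.add_self_eq_zero]))

end

theorem good_iff {u : List Bool} {q : ℕ} : good (idx u) u.length q = true ↔
    ∀ a < u.length, a ≠ 0 → ∃ b < u.length, mm u.length q a b = 1 := by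
  simp [good, or_iff_not_imp_left]

theorem exists_good {n : ℕ} (hn : 1 ≤ n) :
    ∃ q < 2 ^ n, ∀ a < 2 ^ n, a ≠ 0 → ∃ b < 2 ^ n, mm (2 ^ n) q a b = 1 := by
  have hc := GaloisField.card 2 n (by omega)
  obtain ⟨g, hg⟩ := IsCyclic.exists_monoid_generator (α := (GaloisField 2 n)ˣ)
  have i : ∀ a < 2 ^ n, ev (g : GaloisField 2 n) a = 0 → a = 0 := by
    intro a ha e
    by_contra h0
    have l1 := Nat.pow_log_le_self 2 h0
    have l2 := Nat.lt_pow_succ_log_self one_lt_two a
    generalize Nat.log 2 a = d at l1 l2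
    have hd : d < n := (Nat.pow_lt_pow_iff_right one_lt_two).1 (l1.trans_lt ha)
    have hq : a - 2 ^ d < 2 ^ d := by omega
    rw [← Nat.add_sub_cancel' l1, ev_top d _ hq, CharTwo.add_eq_zero] at e
    rcases Nat.eq_zero_or_pos d with rfl | d0
    · obtain h : a - 2 ^ 0 = 0 := by omega
      rw [h, ev_zero, pow_zero] at e
      exact one_ne_zero e
    have p : ∀ k : ℕ, ∃ z < 2 ^ d, ev (g : GaloisField 2 n) z = (g : GaloisField 2 n) ^ k := by
      intro k
      induction k with
      | zero => exact ⟨1, Nat.one_lt_two_pow (by omega), by rw [ev_one, pow_zero]⟩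
      | succ k ih =>
        obtain ⟨z, z1, z2⟩ := ih
        exact ⟨_, (xt_spec hq e z1).1, by rw [(xt_spec hq e z1).2, z2, pow_succ']⟩
    have s : Surjective fun z : Fin (2 ^ d) => ev (g : GaloisField 2 n) z := by
      intro x
      by_cases hx : x = 0
      · exact ⟨⟨0, Nat.two_pow_pos d⟩, by simp [ev_zero, hx]⟩
      obtain ⟨k, hk⟩ := hg (Units.mk0 x hx)
      obtain ⟨z, z1, z2⟩ := p k
      exact ⟨⟨z, z1⟩, by simpa [z2] using congrArg Units.val hk⟩
    have := Nat.card_le_card_of_surjective _ s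
    rw [hc, Nat.card_fin, Nat.pow_le_pow_iff_right one_lt_two] at this
    omega
  have s : Surjective fun z : Fin (2 ^ n) => ev (g : GaloisField 2 n) z :=
    ((Nat.bijective_iff_injective_and_card _).2
      ⟨fun a b e => Fin.ext (inj i a.2 b.2 e), by rw [hc, Nat.card_fin]⟩).2
  obtain ⟨q, hq⟩ := s ((g : GaloisField 2 n) ^ n)
  refine ⟨q, q.2, fun a ha h0 => ?_⟩
  obtain ⟨b, hb⟩ := s (ev (g : GaloisField 2 n) a)⁻¹
  obtain ⟨m1, m2⟩ := mm_spec q.2 hq.symm a b.2
  refine ⟨b, b.2, inj i m1 (Nat.one_lt_two_pow (by omega)) ?_⟩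
  rw [m2, ev_one, show ev (g : GaloisField 2 n) b = _ from hb, mul_inv_cancel₀ fun e => h0 (i a ha e)]

theorem exists_root {n q : ℕ} (hn : 1 ≤ n) (hq : q < 2 ^ n) :
    ∃ θ : AlgebraicClosure (ZMod 2), θ ^ n = ev θ q := by
  obtain ⟨θ, h⟩ := IsAlgClosed.exists_root
    (ev (Polynomial.X : Polynomial (AlgebraicClosure (ZMod 2))) (2 ^ n + q)) (fun e => by
      have two : 2 ≤ 2 ^ n + q := (Nat.one_lt_two_pow (by omega)).trans_le (Nat.le_add_right _ _)
      generalize 2 ^ n + q = m at e two
      induction m using Nat.bitCasesOn with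
      | bit c m =>
        have : ev (Polynomial.X : Polynomial (AlgebraicClosure (ZMod 2))) m = 0 := by
          ext k
          have := Polynomial.coeff_eq_zero_of_degree_lt (n := k + 1)
            (e.trans_lt (by exact_mod_cast Nat.succ_pos k))
          rw [ev_bit] at this
          cases c <;> simpa [Polynomial.coeff_one] using this
        rw [evX m this, Nat.bit_val] at two
        cases c <;> simp at two)
  have e := map_ev (θ := Polynomial.X) (Polynomial.evalRingHom θ) (2 ^ n + q)
  rw [Polynomial.coe_evalRingHom, h.eq_zero, Polynomial.eval_X, ev_top n q hq] at e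
  exact ⟨θ, CharTwo.add_eq_zero.1 e.symm⟩

theorem testBit_ofBits (l : List Bool) (i : ℕ) : (ofBits l).testBit i = l.getD i false := by
  induction l generalizing i with
  | nil => simp
  | cons c l ih =>
    rw [ofBits_cons, ← Nat.bit_val]
    cases i with
    | zero => simp
    | succ i => rw [Nat.testBit_bit_succ, ih, List.getD_cons_succ]

variable {α : Type} [N487b59b3 α]

theorem poly_xor {f g : α → ℕ} (hf : Poly f) (hg : Poly g) : Poly fun a => f a ^^^ g a := by
  have h : Poly fun a => (idx ((f a).bits ++ (g a).bits)).map fun i =>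
      !eqB ((f a).bits.getD i false) ((g a).bits.getD i false) := by fun_prop
  refine h.ofBits.congr fun a => Nat.eq_of_testBit_eq fun i => ?_
  rw [testBit_ofBits, Nat.testBit_xor, ← ofBits_bits (f a), ← ofBits_bits (g a), testBit_ofBits,
    testBit_ofBits, ofBits_bits, ofBits_bits]
  generalize (f a).bits = l
  generalize (g a).bits = l'
  by_cases k : i < l.length + l'.length
  · rw [List.getD_eq_getElem _ _ (by simpa using k)]
    simp only [idx, List.getElem_map, List.getElem_range]
    cases l.getD i false <;> cases l'.getD i false <;> rfl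
  · rw [List.getD_eq_default _ _ (by simpa using k), List.getD_eq_default _ _ (by omega),
      List.getD_eq_default _ _ (by omega)]
    rfl

attribute [local fun_prop] poly_xor

theorem poly_mm {u : α → List Bool} {q a b : α → ℕ} (hu : Poly u) (hq : Poly q) (ha : Poly a)
    (hb : Poly b) : Poly fun x => mm (u x).length (q x) (a x) (b x) :=
  Poly.foldr (f := fun x => stp (u x).length (q x) (b x)) (by unfold stp clip xt; fun_prop)
    ha.bits (p_const 0) hu.bd fun x _ =>
      (length_enc_nat_le_self _).trans ((fold_le _ _ _ _).trans (length_le_enc _))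

attribute [local fun_prop] poly_mm

theorem poly_fst {u : α → List Bool} (hu : Poly u) : Poly fun x => fst (u x) := by
  unfold fst good
  fun_prop

end Fld

open Fld in
theorem fldS : FldS := by
  refine ⟨fun x => mm x.1.length (fst x.1) x.2.1 x.2.2,
    poly_mm (by fun_prop) (poly_fst (by fun_prop)) (by fun_prop) (by fun_prop), fun n hn => ?_⟩
  obtain ⟨q, hq, hg, hu⟩ : ∃ q < 2 ^ n, (∀ a < 2 ^ n, a ≠ 0 → ∃ b < 2 ^ n, mm (2 ^ n) q a b = 1) ∧
      ∀ u : List Bool, u.length = 2 ^ n → fst u = q := by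
    obtain ⟨q, h1, h2⟩ := exists_good hn
    have l : (List.replicate (2 ^ n) true).length = 2 ^ n := List.length_replicate
    generalize List.replicate (2 ^ n) true = v at l
    have m : fst v ∈ (idx v).filter (good (idx v) v.length) := by
      have : q ∈ (idx v).filter (good (idx v) v.length) :=
        List.mem_filter.2 ⟨mem_idx.2 (l ▸ h1), good_iff.2 (l ▸ h2)⟩
      rw [fst]
      generalize (idx v).filter (good (idx v) v.length) = L at this
      cases L with
      | nil => cases this
      | cons x L => simp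
    rw [List.mem_filter, mem_idx, good_iff, l] at m
    exact ⟨_, m.1, m.2, fun u hu => by simp only [fst, idx, hu, l]⟩
  obtain ⟨θ, hθ⟩ := exists_root hn hq
  have one : 1 < 2 ^ n := Nat.one_lt_two_pow (by omega)
  have iv : ∀ a < 2 ^ n, a ≠ 0 → ∃ b < 2 ^ n, ev θ a * ev θ b = 1 := fun a ha h0 => by
    obtain ⟨b, b1, b2⟩ := hg a ha h0
    exact ⟨b, b1, by rw [← (mm_spec hq hθ a b1).2, b2, ev_one]⟩
  have i : ∀ a < 2 ^ n, ev θ a = 0 → a = 0 := fun a ha e => by
    by_contra h0
    obtain ⟨b, -, b2⟩ := iv a ha h0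
    rw [e, zero_mul] at b2
    exact zero_ne_one b2
  let S : Subfield (AlgebraicClosure (ZMod 2)) :=
    { carrier := {x | ∃ a < 2 ^ n, ev θ a = x}
      mul_mem' := by
        rintro _ _ ⟨a, -, rfl⟩ ⟨b, hb, rfl⟩
        exact ⟨_, mm_spec hq hθ a hb⟩
      one_mem' := ⟨1, one, ev_one⟩
      add_mem' := by
        rintro _ _ ⟨a, ha, rfl⟩ ⟨b, hb, rfl⟩
        exact ⟨_, Nat.xor_lt_two_pow ha hb, ev_xor a b⟩
      zero_mem' := ⟨0, by omega, ev_zero⟩
      neg_mem' := fun h => by rwa [CharTwo.neg_eq]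
      inv_mem' := by
        rintro _ ⟨a, ha, rfl⟩
        by_cases h0 : a = 0
        · exact ⟨0, by omega, by rw [h0, ev_zero, inv_zero]⟩
        obtain ⟨b, b1, b2⟩ := iv a ha h0
        exact ⟨b, b1, eq_inv_of_mul_eq_one_right b2⟩ }
  obtain ⟨cd, hc⟩ : ∃ cd : S ≃ Fin (2 ^ n), ∀ x, ev θ (cd x) = x := by
    let e : Fin (2 ^ n) ≃ S := Equiv.ofBijective (fun a => ⟨ev θ a, a, a.2, rfl⟩)
      ⟨fun a b e => Fin.ext (inj i a.2 b.2 (congrArg Subtype.val e)),
        fun ⟨_, a, ha, e⟩ => ⟨⟨a, ha⟩, Subtype.ext e⟩⟩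
    exact ⟨e.symm, fun x => congrArg Subtype.val (e.apply_symm_apply x)⟩
  refine ⟨S, inferInstance, cd, inj i (cd 1).2 one (by rw [hc, ev_one]; rfl), fun a b => ?_,
    fun u h a b => ?_⟩
  · exact inj i (cd _).2 (Nat.xor_lt_two_pow (cd a).2 (cd b).2) (by rw [ev_xor, hc, hc, hc]; rfl)
  · obtain ⟨m1, m2⟩ := mm_spec hq hθ (cd a) (cd b).2
    simp only [hu u h, h]
    exact inj i m1 (cd _).2 (by rw [m2, hc, hc, hc]; rfl)

end Pool.Agent.PP.QL
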