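import Pool.Agent.MP_13199e_lc.QL.Spec

/-! PROJECT QL, row IDEAL: the ideal words of a step. -/

set_option autoImplicit false

namespace Pool.Agent.PP.QL

open Pool.Agent.MP_13199e_lc Pool.Agent.PolyT Function Finset Env

variable {E : Env}

theorem mg_self (l : ℕ) (p : E.P) : mg l (p.1, p.2.1) (p.1, p.2.2) = p := by
  refine Prod.ext ?_ rfl
  funext i
  by_cases h : (i : ℕ) < l <;> simp [mg, msk, h]

theorem mg_zero (z y : E.Z) : mg 0 z y = (z.1, z.2, y.2) := by
  refine Prod.ext ?_ rfl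
  funext i
  simp [mg, msk]

theorem mg_top (y : E.Z) : mg E.D (0 : E.Z) y = (y.1, 0, y.2) := by
  refine Prod.ext ?_ rfl
  funext i
  simp [mg, msk]

theorem flp_mg (l : ℕ) (z y : E.Z) : flp l (mg l z y) = mg l (z.1 + ue l, z.2) y := by
  refine Prod.ext ?_ rfl
  funext i
  rcases lt_trichotomy (i : ℕ) l with h | h | h
  · simp [mg, msk, flp, ue, h, h.ne]
  · simp [mg, msk, flp, ue, h]
  · simp [mg, msk, flp, ue, h.ne', h.not_gt]

theorem flp_flp (l : ℕ) (p : E.P) : flp l (flp l p) = p := by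
  refine Prod.ext ?_ rfl
  funext i
  have : ∀ a b : ZMod 2, a + b + b = a := by decide
  exact this _ _

theorem mg_succ_eq {l : ℕ} (hl : l < E.D) {z y : E.Z} (h : z.1 ⟨l, hl⟩ = y.1 ⟨l, hl⟩) :
    mg (l + 1) z y = mg l z y := by
  refine Prod.ext ?_ rfl
  funext i
  rcases lt_trichotomy (i : ℕ) l with h' | h' | h'
  · simp [mg, msk, h', h'.trans (Nat.lt_succ_self l)]
  · obtain rfl : i = ⟨l, hl⟩ := Fin.ext h'
    simp [mg, msk, h]
  · simp [mg, msk, h'.not_gt, Nat.not_lt.2 (Nat.succ_le_of_lt h')]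

theorem mg_succ_ne {l : ℕ} (hl : l < E.D) {z y : E.Z} (h : z.1 ⟨l, hl⟩ ≠ y.1 ⟨l, hl⟩) :
    mg (l + 1) z y = flp l (mg l z y) := by
  refine Prod.ext ?_ rfl
  funext i
  rcases lt_trichotomy (i : ℕ) l with h' | h' | h'
  · simp [mg, msk, flp, ue, h', h'.trans (Nat.lt_succ_self l), h'.ne]
  · obtain rfl : i = ⟨l, hl⟩ := Fin.ext h'
    have : ∀ a b : ZMod 2, a ≠ b → b = a + 1 := by decide
    simpa [mg, msk, flp, ue] using this _ _ h
  · simp [mg, msk, flp, ue, h'.not_gt, Nat.not_lt.2 (Nat.succ_le_of_lt h'), h'.ne']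

theorem io_add_of_ne {a b : ZMod 2} (h : a ≠ b) : (io a : E.K) + io b = 1 := by
  have : ∀ a b : ZMod 2, a ≠ b → (a = 0 ∧ b ≠ 0) ∨ (a ≠ 0 ∧ b = 0) := by decide
  rcases this a b h with ⟨h1, h2⟩ | ⟨h1, h2⟩ <;> simp [io, h1, h2]

/-- The key identity: the substitution seen from the rows and the columns. -/
theorem mg_sub {l : ℕ} (hl : l < E.D) (G : E.P → E.K) (z y : E.Z) :
    sub l (mg (l + 1) z y) (G (mg (l + 1) z y)) (G (flp l (mg (l + 1) z y))) =
      G (mg l z y) + (f l z + f l y) * (G (mg l z y) + G (mg l (z.1 + ue l, z.2) y)) := by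
  have h2 : (2 : E.K) = 0 := by rw [← one_add_one_eq_two]; exact E.add_self 1
  rw [← flp_mg]
  by_cases h : z.1 ⟨l, hl⟩ = y.1 ⟨l, hl⟩
  · rw [mg_succ_eq hl h]
    simp only [Env.sub, f, bx, dif_pos hl, h]
    change _ + (hi l z.2 + hi l y.2) * _ = _
    linear_combination (-(io (y.1 ⟨l, hl⟩)) * (G (mg l z y) + G (flp l (mg l z y)))) * h2
  · rw [mg_succ_ne hl h, flp_flp]
    have h1 : (io (z.1 ⟨l, hl⟩) : E.K) + io (y.1 ⟨l, hl⟩) = 1 := io_add_of_ne h
    simp only [Env.sub, f, bx, dif_pos hl]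
    change _ + (hi l z.2 + hi l y.2) * _ = _
    linear_combination (-(G (mg l z y) + G (flp l (mg l z y)))) * h1 - G (mg l z y) * h2

namespace Idl

/-- The ideal words. -/
noncomputable def W (G0 : E.P → E.K) : ℕ → E.P → E.K
  | 0 => G0
  | l + 1 => fun p => sub l p (W G0 l p) (W G0 l (flp l p))

theorem tan_sum (hT : TanP E) {d : ℕ} (s : Finset ℕ) (c : ℕ → E.Z → E.K)
    (h : ∀ a ∈ s, Tan d (c a)) : Tan d fun z => ∑ a ∈ s, c a z := by
  induction s using Finset.induction_on with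
  | empty => simpa using hT.const d 0
  | insert a s ha ih =>
    simp only [Finset.sum_insert ha]
    exact hT.add _ _ _ (h a (mem_insert_self _ _)) (ih fun b hb => h b (mem_insert_of_mem hb))

theorem tan_prod (hT : TanP E) {d : ℕ} (n : ℕ) (c : ℕ → E.Z → E.K) (h : ∀ a, Tan d (c a)) :
    Tan (n * d) fun z => ∏ a ∈ range n, c a z := by
  induction n with
  | zero => simpa using hT.const 0 1
  | succ n ih =>
    simp only [Finset.prod_range_succ, Nat.succ_mul]
    exact hT.mul _ _ _ _ ih (h n)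

theorem tan_pw (hT : TanP E) {d : ℕ} (t v : ℕ → E.Z → E.K) (ht : ∀ a, Tan d (t a))
    (hv : ∀ a, Tan d (v a)) : Tan (10 * d) fun z => pw (fun a => t a z) fun j => v j z := by
  refine tan_sum hT _ (fun a z => t a z * ∏ j ∈ range 9, (v j z + bt (a.testBit j) + 1))
    fun a _ => ?_
  rw [show 10 * d = d + 9 * d by ring]
  exact hT.mul _ _ _ _ (ht a) (tan_prod hT 9 (fun j z => v j z + bt (a.testBit j) + 1) fun j =>
    hT.add _ _ _ (hT.add _ _ _ (hv j) (hT.const _ _)) (hT.const _ _))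

theorem row (hT : TanP E) {G0 : E.P → E.K} {d : ℕ} (h0 : ∀ u, Tan d fun z => G0 (z.1, z.2, u))
    (l : ℕ) (hl : l ≤ E.D) (y : E.Z) :
    Tan (d + l * (E.D * 2 ^ E.e)) fun z => W G0 l (mg l z y) := by
  induction l with
  | zero => simpa [W, mg_zero] using h0 y.2
  | succ l ih =>
    have ih := ih (Nat.le_of_succ_le hl)
    simp only [W, mg_sub hl]
    refine hT.add _ _ _ (hT.mono _ _ _ (by rw [Nat.succ_mul]; omega) ih) ?_
    rw [show d + (l + 1) * (E.D * 2 ^ E.e) = E.D * 2 ^ E.e + (d + l * (E.D * 2 ^ E.e)) by ring]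
    exact hT.mul _ _ _ _ (hT.add _ _ _ (hT.tf l hl) (hT.const _ _))
      (hT.add _ _ _ ih (hT.shift _ _ (ue l) ih))

theorem col (hT : TanP E) {G0 : E.P → E.K} (h0 : ∀ x u u' u'', G0 (x, u, u') = G0 (x, u, u''))
    (l : ℕ) (hl : l ≤ E.D) (z : E.Z) : Col l fun y => W G0 l (mg l z y) := by
  induction l generalizing z with
  | zero => exact ⟨G0 (z.1, z.2, 0), funext fun y => by rw [mg_zero]; exact h0 _ _ _ _⟩
  | succ l ih =>
    have ih := ih (Nat.le_of_succ_le hl)
    have hb := hT.cadd _ _ _ (ih z) (ih (z.1 + ue l, z.2))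
    refine ⟨_, _, hT.cadd _ _ _ (ih z) (hT.cmul _ (f l z) _ hb), hb, funext fun y => ?_⟩
    simp only [W, mg_sub hl]
    ring

theorem base (G0 : E.P → E.K) (l : ℕ) (h : Bv E.D) : W G0 l (h, 0, 0) = G0 (h, 0, 0) := by
  induction l with
  | zero => rfl
  | succ l ih => simp only [W, Env.sub, E.add_self, zero_mul, add_zero, ih]

end Idl

open Idl in
theorem idealS : IdealS := by
  intro E hB hT T δ X
  set G0 : E.P → E.K := fun p => pw (fun a => enP (fun h => bt (T a h)) p)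
    fun j => enc (X j) (p.1 + δ j, p.2.1) with hG0
  have h0 : ∀ u, Tan (10 * (E.D ^ 2 * 2 ^ E.e)) fun z : E.Z => G0 (z.1, z.2, u) := fun u =>
    tan_pw hT (fun a z => enc (fun h => bt (T a h)) z) (fun j z => enc (X j) (z.1 + δ j, z.2))
      (fun a => hT.enc _) fun j => hT.shift _ _ _ (hT.enc _)
  have hc := col hT (G0 := G0) fun _ _ _ _ => rfl
  refine ⟨W G0, fun p => rfl, fun p => ⟨fun γ => rfl, fun l _ => rfl, fun l hl σ v ρ => ?_⟩,
    fun z => ?_⟩
  · rw [← mg_self l p]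
    cases σ
    · have := hT.fx _ (hT.mono _ _ _ (by
        have := Nat.mul_le_mul_right (E.D * 2 ^ E.e) hl
        nlinarith) (row hT h0 l hl (p.1, p.2.2))) v ρ (p.1, p.2.1)
      simp only [hB.row] at this
      exact this.symm
    · have := hT.fx _ (hT.mono _ _ _ (by omega) (hT.ctan l hl _ (hc l hl (p.1, p.2.1)))) v ρ
        (p.1, p.2.2)
      simp only [hB.col] at this
      exact this.symm
  · have := congrFun (hT.cenc _ (hc E.D le_rfl 0)) z
    simp only [mg_top] at this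
    refine this.trans (congrArg (fun Y => enc Y z) (funext fun h => (base G0 _ h).trans ?_))
    exact congrArg₂ pw (funext fun a => hT.enc0 _ _ 0) (funext fun a => hT.enc0 _ _ 0)

end Pool.Agent.PP.QL
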