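import Pool.Agent.MP_13199e_lc.QL.LocB
import Pool.Agent.MP_13199e_lc.QL.T.Spec
import Pool.Agent.MP_13199e_lc.PP.F.Cube

/-! PROJECT QL: the local line in polynomial time. -/

set_option autoImplicit false

namespace Pool.Agent.PP.QL

open Pool.Agent.MP_13199e_lc Pool.Agent.H82 Pool.Agent.PolyT

namespace Ln

/-- A local map: the cell itself and eight routed reads. -/
def lap (src : ℕ → List ℕ) (tb : ℕ → ℕ → List Bool → Bool) (o : ℕ) (X : ℕ → Bool) (c : ℕ) : Bool :=
  tb o c (X c :: (List.range 8).map fun j => X ((src j).getD c 0))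

/-- The reads. -/
def rds (I : Inst) (j c : ℕ) : ℕ := bif ltB (4 * mm I) c then 0 else
  [3, 0, 4 * (mm I - 1), 4 * (c / 4 - 1), 4 * (c / 4 + 1), pr' c,
    4 * (gt I (c / 4)).2.1 + ln I.1.2.length c, 4 * (gt I (c / 4)).2.2 + ln I.1.2.length c].getD j 0

def tbl (I : Inst) (o c : ℕ) (l : List Bool) : Bool :=
  tb I.1.2.length (mm I) (gt I (c / 4)).1 o c (l.getD 0 false) (l.getD 1 false) (l.getD 2 false)
    (l.getD 3 false) (l.getD 4 false) (l.getD 5 false) (l.getD 6 false) (l.getD 7 false)
    (l.getD 8 false)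

def dm (I : Inst) : List Bool := (4 * mm I + 4).bits

def cells (I : Inst) : List ℕ :=
  (idx ((List.range 32).flatMap fun _ => 0 :: (idx I.1.2 ++ idx I.1.1 ++ idx I.2.1))).take
    (2 ^ (dm I).length)

variable {I : Inst}

theorem dm_lt : 4 * mm I + 4 < 2 ^ (dm I).length := lt_two_pow_bits _

theorem dm_le : 2 ^ (dm I).length ≤ 32 * (sz I + 1) := by
  have h : 2 ^ ((4 * mm I + 4).size - 1) ≤ 4 * mm I + 4 :=
    Nat.lt_size.1 (Nat.sub_lt (Nat.size_pos.2 (by omega)) one_pos)
  have p : 1 ≤ (4 * mm I + 4).size := Nat.size_pos.2 (by omega)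
  rw [dm, Nat.size_eq_bits_len, ← Nat.sub_add_cancel p, pow_succ]
  unfold mm at *
  omega

theorem cells_eq : cells I = List.range (2 ^ (dm I).length) := by
  have := dm_le (I := I)
  rw [cells, idx, List.take_range, min_eq_left]
  simp only [List.length_flatMap, List.length_cons, List.length_append, length_idx,
    List.map_const', List.sum_replicate, List.length_range, smul_eq_mul]
  exact this

theorem tb_far {n M o c : ℕ} (hM : 0 < M) (hc : 4 * M < c) (t : T4)
    (me a1 a2 a3 a4 a5 a6 a7 a8 : Bool) :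
    tb n M t o c me a1 a2 a3 a4 a5 a6 a7 a8 = (ltB 1 o && me) := by
  simp [tb, eqB, ltB, hc, show ¬c < 4 * M by omega, show c ≠ 3 by omega]

theorem lap_eq : lap (fun j => (cells I).map (rds I j)) (tbl I) = ap I := by
  funext o X c
  by_cases a : 4 * mm I < c
  · rw [lap, tbl, ap, app, tb_far (by unfold mm; omega) a, tb_far (by unfold mm; omega) a]
    rfl
  · have b : c < 2 ^ (dm I).length := by have := dm_lt (I := I); omega
    have e : ∀ j, ((cells I).map (rds I j)).getD c 0 = rds I j c := fun j => by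
      simp [cells_eq, b]
    simp only [lap, e, rds, ltB_false_iff.2 (not_lt.1 a), cond_false]
    rfl

theorem rds_lt (hI : EolInst I) (j c : ℕ) : rds I j c < 2 ^ (dm I).length := by
  refine lt_of_le_of_lt ?_ dm_lt
  unfold rds
  cases a : ltB (4 * mm I) c
  · have a' := ltB_false_iff.1 a
    have b := (cir hI.1).bd (c / 4)
    have l : ln I.1.2.length c ≤ 2 := by
      unfold ln; cases eqB (c % 4) 1 || ltB (c / 4) I.1.2.length <;> simp
    have p : pr' c ≤ 4 * mm I + 4 := by unfold pr'; cases eqB (c % 4) 2 <;> simp <;> omega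
    rcases j with _ | _ | _ | _ | _ | _ | _ | _ | j <;> simp <;> omega
  · simp

section
variable {α : Type} [N487b59b3 α] {a : α → Inst} {k r : α → ℕ}

@[fun_prop] theorem p_sz (ha : Poly a) : Poly fun e => sz (a e) := by unfold sz; fun_prop

@[fun_prop] theorem p_mm (ha : Poly a) : Poly fun e => mm (a e) := by unfold mm; fun_prop

@[fun_prop] theorem p_wS (ha : Poly a) (hk : Poly k) (hr : Poly r) :
    Poly fun e => wS (a e) (k e) (r e) := by unfold wS; fun_prop

@[fun_prop] theorem p_wP (ha : Poly a) (hk : Poly k) (hr : Poly r) :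
    Poly fun e => wP (a e) (k e) (r e) := by unfold wP; fun_prop

@[fun_prop] theorem p_gt (ha : Poly a) (hk : Poly k) : Poly fun e => gt (a e) (k e) := by
  unfold gt; fun_prop

@[fun_prop] theorem p_dm (ha : Poly a) : Poly fun e => dm (a e) := by unfold dm; fun_prop

@[fun_prop] theorem p_cells (ha : Poly a) : Poly fun e => cells (a e) := by
  unfold cells; fun_prop

@[fun_prop] theorem p_rds (ha : Poly a) (hk : Poly k) (hr : Poly r) :
    Poly fun e => rds (a e) (k e) (r e) := by unfold rds pr' ln; fun_prop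

@[fun_prop] theorem p_tbl {l : α → List Bool} (ha : Poly a) (hk : Poly k) (hr : Poly r)
    (hl : Poly l) : Poly fun e => tbl (a e) (k e) (r e) (l e) := by
  unfold tbl tb col tt; fun_prop

theorem p_wire {C : α → BCirc} {u : α → List Bool} (hC : Poly C) (hu : Poly u) (hk : Poly k) :
    Poly fun e => (wires (C e) (u e)).getD (k e) false :=
  Poly.congr (f := fun e => (ev ((C e).1, [k e]) (u e)).headD false) (by fun_prop) fun _ => rfl

@[fun_prop] theorem p_evl {u : α → List Bool} (ha : Poly a) (hu : Poly u) (hk : Poly k) :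
    Poly fun e => evl' (a e) (u e) (k e) := by
  have h1 := p_wire ha.fst hu hk
  have h2 := p_wire (k := fun e => k e - (a e).1.1.length) ha.snd hu (by fun_prop)
  unfold evl' evl
  exact p_and (by fun_prop) (p_cond (by fun_prop) h1 h2)

@[fun_prop] theorem p_y0 (ha : Poly a) (hk : Poly k) : Poly fun e => y0 (a e) (k e) := by
  unfold y0 st; fun_prop

end

theorem dm_le' (hI : EolInst I) : 2 ^ (dm I).length ≤ 64 * sz I := by
  have : I.1.2.length ≠ 0 := fun e => hI.2.2 (by simp [ev, List.length_eq_zero_iff.1 e])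
  have := dm_le (I := I)
  unfold sz at *
  omega

theorem tbl_far {o c : ℕ} (hc : 2 ^ (dm I).length ≤ c) (b : Bool) (l : List Bool) :
    tbl I o c (b :: l) = (ltB 1 o && b) := by
  have := dm_lt (I := I)
  rw [tbl, tb_far (by unfold mm; omega) (by omega), List.getD_cons_zero]

/-- The decoder. -/
def decl (I : Inst) (l : List Bool) : List Bool := (idx I.1.2).map fun h => l.getD (4 * h + 1) false

@[fun_prop] theorem p_decl {α : Type} [N487b59b3 α] {a : α → Inst} {l : α → List Bool}
    (ha : Poly a) (hl : Poly l) : Poly fun e => decl (a e) (l e) := by unfold decl; fun_prop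

theorem decl_eq {N : ℕ} (hN : 2 ^ (dm I).length ≤ N) {X : ℕ → Bool} {l : List Bool}
    (e : ∀ c < N, l.getD c false = X c) : decl I l = dec I.1.2.length X :=
  List.map_congr_left fun j hj => e _ (by
    have := mem_idx.1 hj
    have := dm_lt (I := I)
    unfold mm sz at this
    omega)

/-- The line on any index set `ι` that is numbered by `nm` with the section `ix`. -/
theorem locP (hI : EolInst I) {ι : Type} {N : ℕ} (hN : 2 ^ (dm I).length ≤ N) (nm : ι → ℕ)
    (ix : ℕ → ι) (h1 : ∀ h, nm h < N) (h2 : ∀ h, ix (nm h) = h) (h3 : ∀ c < N, nm (ix c) = c) :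
    T.LocP (St := ι → Bool) (fun i X => ∀ h, ap I (2 + i) (fun c => X (ix c)) (nm h) = false)
      (fun X h => ap I 0 (fun c => X (ix c)) (nm h)) (fun X h => ap I 1 (fun c => X (ix c)) (nm h))
      (fun h => y0 I (nm h)) fun X => EolSol I (dec I.1.2.length fun c => X (ix c)) := by
  have h := dm_lt.trans_le hN
  have all : ∀ {p : ℕ → Prop}, (∀ h, p (nm h)) → ∀ c < N, p c := fun a c hc => h3 c hc ▸ a (ix c)
  have cg : ∀ (Y : ℕ → Bool) o x, ap I o (fun c => Y (nm (ix c))) (nm x) = ap I o Y (nm x) :=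
    fun Y o x => ap_congr hI h (fun c hc => by rw [h3 c hc]) o _ (h1 x)
  have cg2 : ∀ (Y : ℕ → Bool) o o' x, ap I o (fun c => ap I o' (fun c => Y (nm (ix c)))
      (nm (ix c))) (nm x) = ap I o (ap I o' Y) (nm x) := fun Y o o' x => by
    simp only [cg]
  have bk : ∀ i (X : ι → Bool) (d : Bool), (∀ h, ap I (2 + i) (fun c => X (ix c)) (nm h) = false) →
      (fun x => ap I (!d).toNat (fun c => ap I d.toNat (fun c => X (ix c)) (nm (ix c))) (nm x)) =
        X := fun i X d H => funext fun x => by
    rw [cg, back hI h (all (p := fun c => ap I _ _ c = false) H) d _ (h1 x), h2]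
  refine ⟨fun i _ X H => ?_, fun i _ X H => ?_, fun x => (cg _ _ x).trans (val_y0 hI _),
    ⟨fun x => (cg2 _ _ _ x).trans (one_y0 hI _), funext fun x => (cg2 _ _ _ x).trans
      (back (i := 0) hI h (fun c _ => val_y0 hI c) false _ (h1 x))⟩,
    fun H => not_val_y0 (i := 3) hI h (all (p := fun c => ap I _ _ c = false) fun x =>
      (cg2 _ _ _ x).symm.trans (H x))⟩
  · exact (fwd hI h (all (p := fun c => ap I _ _ c = false) H)).imp_left fun a =>
      ⟨fun x => (cg _ _ x).trans (a _ (h1 x)), bk i X false H⟩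
  · exact (bwd hI h (all (p := fun c => ap I _ _ c = false) H)).imp (fun a =>
      ⟨fun x => (cg _ _ x).trans (a _ (h1 x)), bk i X true H⟩)
      (Or.imp_right fun a => ⟨a.1, funext fun x => by rw [← a.2 _ (h1 x), h2]⟩)

end Ln

end Pool.Agent.PP.QL
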