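import Pool.Agent.MP_13199e_lc.QL.Spec
import Pool.Agent.MP_13199e_lc.QL.LocC

/-! PROJECT QL, row LOC: the local line. -/

set_option autoImplicit false

namespace Pool.Agent.PP.QL

open Pool.Agent.MP_13199e_lc Pool.Agent.H82 Pool.Agent.PolyT

namespace Ln

variable {I : Inst}

theorem lap_eq' {N : ℕ} (hN : 2 ^ (dm I).length ≤ N) :
    lap (fun j => (List.range N).map (rds I j)) (tbl I) = ap I := by
  funext o X c
  by_cases a : 4 * mm I < c
  · rw [lap, tbl, ap, app, tb_far (by unfold mm; omega) a, tb_far (by unfold mm; omega) a]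
    rfl
  · have b : c < N := by have := dm_lt (I := I); omega
    have e : ∀ j, ((List.range N).map (rds I j)).getD c 0 = rds I j c := fun j => by simp [b]
    simp only [lap, e, rds, ltB_false_iff.2 (not_lt.1 a), cond_false]
    rfl

theorem line (hI : EolInst I) : T.LocP (fun i X => ∀ h, ap I (2 + i) X h = false) (ap I 0) (ap I 1)
    (y0 I) fun X => EolSol I (dec I.1.2.length X) := by
  have bk : ∀ i X (d : Bool), (∀ h, ap I (2 + i) X h = false) →
      ap I (!d).toNat (ap I d.toNat X) = X := fun i X d H => funext fun c =>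
    back (N := 4 * mm I + 5 + c) hI (by omega) (fun c _ => H c) d c (by omega)
  refine ⟨fun i _ X H => or_iff_not_imp_right.2 fun s => ⟨fun c => ?_, bk i X false H⟩,
    fun i _ X H => ?_, val_y0 hI, ⟨one_y0 hI, bk 0 _ false (val_y0 hI)⟩,
    fun H => not_val_y0 (N := 4 * mm I + 5) (i := 3) hI (by omega) fun c _ => H c⟩
  · exact (fwd (N := 4 * mm I + 5 + c) hI (by omega) fun c _ => H c).resolve_right s c (by omega)
  · by_cases a : ∀ c, ap I (2 + (i + 3) % 4) (ap I 1 X) c = false
    · exact .inl ⟨a, bk i X true H⟩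
    obtain ⟨d, hd⟩ := not_forall.1 a
    refine .inr (or_iff_not_imp_left.2 fun s => ?_)
    have k := fun c => ((bwd (N := 4 * mm I + 5 + c + d) hI (by omega)
      fun c _ => H c).resolve_left fun b => hd (b d (by omega))).resolve_left s
    exact ⟨(k 0).1, funext fun c => (k c).2 c (by omega)⟩

end Ln

open Ln in
theorem locLine : LocS := fun m₀ => by
  have e : ∀ I, idx ((List.range (2 ^ m₀)).flatMap fun _ => cells I) =
      List.range (2 ^ (dm I ++ List.replicate m₀ false).length) := fun I => by
    simp [idx, List.length_flatMap, cells_eq, pow_add, mul_comm]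
  refine ⟨⟨fun I => dm I ++ List.replicate m₀ false,
    fun p => (idx ((List.range (2 ^ m₀)).flatMap fun _ => cells p.1)).map (rds p.1 p.2),
    fun p => tbl p.1 p.2.1 p.2.2.1 p.2.2.2, fun p => y0 p.1 p.2, fun p => decl p.1 p.2⟩,
    2 ^ m₀ * 64, ⟨by fun_prop, by fun_prop, by fun_prop, by fun_prop, by fun_prop⟩,
    fun I hI => ?_⟩
  have hN : 2 ^ (dm I).length ≤ 2 ^ (dm I ++ List.replicate m₀ false).length :=
    Nat.pow_le_pow_right two_pos (by simp)
  refine ⟨⟨fun j _ => ⟨by simp only [e, List.length_map, List.length_range], fun s hs => ?_⟩,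
    fun h hh => ⟨?_, fun o b l => tbl_far (hN.trans hh) b l⟩, ?_⟩, by simp, ?_⟩
  · obtain ⟨c, -, rfl⟩ := List.mem_map.1 hs
    exact (rds_lt hI _ _).trans_le hN
  · have := val_y0 hI h
    rwa [ap, app, tb_far (by unfold mm; omega)
      (by have := (dm_lt.trans_le hN).trans_le hh; omega)] at this
  · have a : ∀ o, lap (fun j => (idx ((List.range (2 ^ m₀)).flatMap fun _ => cells I)).map
        (rds I j)) (tbl I) o = ap I o := fun o => by rw [e, lap_eq' hN]
    have b : ∀ X : ℕ → Bool, decl I ((List.range
        (2 ^ (dm I ++ List.replicate m₀ false).length)).map X) = dec I.1.2.length X := fun X =>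
      decl_eq hN fun c hc => by
        rw [List.getD_eq_getElem _ _ (by simpa only [List.length_map, List.length_range]),
          List.getElem_map, List.getElem_range]
    have := line hI
    simp only [← a, ← b] at this
    exact this
  · have := Nat.mul_le_mul_left (2 ^ m₀) (dm_le' hI)
    simpa [pow_add, mul_comm, mul_assoc, mul_left_comm] using this

end Pool.Agent.PP.QL
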