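import Pool.Agent.MP_13199e_lc.QL.Kit

/-! PROJECT QL: the local line, abstract part. -/

set_option autoImplicit false

namespace Pool.Agent.PP.QL.Ln

open Pool.Agent.MP_13199e_lc Pool.Agent.H82

/-- The colour of the time. -/
def col (M : ℕ) (ph : Bool) (k : ℕ) : ℕ := (bif ph then 2 * M + 1 - k else k) % 4

/-- The local function: `o = 0, 1` are the steps, `o = 2 + i` is the violation of colour `i`. -/
def tb (n M : ℕ) (t : T4) (o c : ℕ) (me ph t0 tM tl tr pa x y : Bool) : Bool :=
  let lo := eqB (c / 4) 0 || tl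
  let ru := bif ltB (c / 4) n then (bif ph then y else x) else tt t x y
  let up := ph == eqB o 1
  bif ltB 1 o then
    bif eqB c 3 then false else
    bif ltB (4 * M) c || eqB (c % 4) 3 then me else
    bif eqB (c % 4) 0 then me && (!lo || eqB (c / 4) M) || (pa ^^ (me && ru)) ||
      lo && !me && !eqB (col M ph (c / 4) + 2) o else
    eqB (c % 4) 1 && !ltB (c / 4) n && (me ^^ ru)
  else
    bif eqB c 3 then ph ^^ (bif up then tM else !t0) else
    bif !ltB c (4 * M) || eqB (c % 4) 3 then false else
    bif up && tM then (bif eqB (c % 4) 0 then me else pa) else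
    bif eqB (c % 4) 1 then me else
    bif up then lo && (eqB (c % 4) 0 || ru) else tr && (eqB (c % 4) 0 || me)

/-- The lane that the rule reads. -/
def ln (n c : ℕ) : ℕ := bif eqB (c % 4) 1 || ltB (c / 4) n then 1 else 2

/-- The partner. -/
def pr' (c : ℕ) : ℕ := 4 * (c / 4) + bif eqB (c % 4) 2 then 1 else 2

variable (n M : ℕ) (g : ℕ → T4 × ℕ × ℕ)

/-- The local maps. -/
def app (o : ℕ) (X : ℕ → Bool) (c : ℕ) : Bool :=
  tb n M (g (c / 4)).1 o c (X c) (X 3) (X 0) (X (4 * (M - 1))) (X (4 * (c / 4 - 1)))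
    (X (4 * (c / 4 + 1))) (X (pr' c)) (X (4 * (g (c / 4)).2.1 + ln n c))
    (X (4 * (g (c / 4)).2.2 + ln n c))

/-- A circuit with two lists of outputs. -/
structure Cir (E : List Bool → ℕ → Bool) (nx : Bool → List Bool → List Bool) : Prop where
  le : n ≤ M
  md : M % 4 = 3
  bd : ∀ h, (g h).2.1 ≤ M ∧ (g h).2.2 ≤ M
  lt : ∀ h, n ≤ h → ((g h).2.1 < h ∨ (g h).2.1 = M) ∧ ((g h).2.2 < h ∨ (g h).2.2 = M)
  e0 : ∀ u h, M ≤ h → E u h = false
  e1 : ∀ u, u.length = n → ∀ h < n, E u h = u.getD h false
  e2 : ∀ u, u.length = n → ∀ h, n ≤ h → h < M →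
    E u h = tt (g h).1 (E u (g h).2.1) (E u (g h).2.2)
  n1 : ∀ b u, (nx b u).length = n
  n2 : ∀ b u, u.length = n → ∀ h < n,
    (nx b u).getD h false = bif b then E u (g h).2.2 else E u (g h).2.1

/-- The states. -/
def st (E : List Bool → ℕ → Bool) (ph : Bool) (k : ℕ) (u v : List Bool) (c : ℕ) : Bool :=
  bif eqB (c % 4) 0 then ltB (c / 4) k else bif eqB (c % 4) 1 then E u (c / 4) else
    bif eqB (c % 4) 2 then ltB (c / 4) k && E v (c / 4) else eqB c 3 && ph

variable {n M g} {E : List Bool → ℕ → Bool} {nx : Bool → List Bool → List Bool} {ph : Bool}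
  {k h : ℕ} {u v : List Bool}

theorem st0 : st E ph k u v (4 * h) = ltB h k := by simp [st, eqB]

theorem st1 : st E ph k u v (4 * h + 1) = E u h := by
  simp [st, eqB, Nat.mul_add_div]

theorem st2 : st E ph k u v (4 * h + 2) = (ltB h k && E v h) := by
  simp [st, eqB, Nat.mul_add_div]

theorem st3 : st E ph k u v (4 * h + 3) = (eqB h 0 && ph) := by
  simp [st, eqB]

theorem st3' : st E ph k u v 3 = ph := by simp [st, eqB]

theorem st0' : st E ph k u v 0 = ltB 0 k := by simp [st, eqB]

theorem four (c : ℕ) : ∃ h, c = 4 * h ∨ c = 4 * h + 1 ∨ c = 4 * h + 2 ∨ c = 4 * h + 3 :=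
  ⟨c / 4, by omega⟩

/-- The rule of the cell `h`. -/
def rul (n : ℕ) (g : ℕ → T4 × ℕ × ℕ) (X : ℕ → Bool) (h : ℕ) : Bool :=
  bif ltB h n then (bif X 3 then X (4 * (g h).2.2 + 1) else X (4 * (g h).2.1 + 1))
  else tt (g h).1 (X (4 * (g h).2.1 + 2)) (X (4 * (g h).2.2 + 2))

section
variable {o : ℕ} {X : ℕ → Bool}

theorem app0 : app n M g o X (4 * h) = bif ltB 1 o then
    bif ltB M h then X (4 * h) else X (4 * h) && (!(eqB h 0 || X (4 * (h - 1))) || eqB h M) ||
      (X (4 * h + 2) ^^ (X (4 * h) && rul n g X h)) ||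
      (eqB h 0 || X (4 * (h - 1))) && !X (4 * h) && !eqB (col M (X 3) h + 2) o
    else ltB h M && bif X 3 == eqB o 1 then (bif X (4 * (M - 1)) then X (4 * h) else
      eqB h 0 || X (4 * (h - 1))) else X (4 * (h + 1)) := by
  have e : (4 * h = 3) = False := eq_false (by omega)
  unfold app tb rul
  generalize (X 3 == eqB o 1) = c
  by_cases a : h < n <;> by_cases b : h < M <;> cases c <;>
    simp [ln, pr', eqB, ltB, a, b, e]

theorem app1 : app n M g o X (4 * h + 1) = bif ltB 1 o then
    bif ltB h M then !ltB h n && (X (4 * h + 1) ^^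
      tt (g h).1 (X (4 * (g h).2.1 + 1)) (X (4 * (g h).2.2 + 1))) else X (4 * h + 1)
    else ltB h M && bif (X 3 == eqB o 1) && X (4 * (M - 1)) then X (4 * h + 2)
      else X (4 * h + 1) := by
  have e : (4 * h + 1 = 3) = False := eq_false (by omega)
  have e1 : (4 * M < 4 * h + 1) = ¬h < M := propext (by omega)
  have e2 : (4 * h + 1 < 4 * M) = (h < M) := propext (by omega)
  by_cases a : h < n <;> by_cases b : h < M <;>
    simp [app, tb, ln, pr', eqB, ltB, a, b, e, e1, e2, Nat.mul_add_div]

theorem app2 : app n M g o X (4 * h + 2) = bif ltB 1 o then !ltB h M && X (4 * h + 2)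
    else ltB h M && bif X 3 == eqB o 1 then (bif X (4 * (M - 1)) then X (4 * h + 1) else
      (eqB h 0 || X (4 * (h - 1))) && rul n g X h) else X (4 * (h + 1)) && X (4 * h + 2) := by
  have e : (4 * h + 2 = 3) = False := eq_false (by omega)
  have e1 : (4 * M < 4 * h + 2) = ¬h < M := propext (by omega)
  have e2 : (4 * h + 2 < 4 * M) = (h < M) := propext (by omega)
  unfold app tb rul
  generalize (X 3 == eqB o 1) = c
  by_cases a : h < n <;> by_cases b : h < M <;> cases c <;>
    simp [ln, pr', eqB, ltB, a, b, e, e1, e2, Nat.mul_add_div]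

theorem app3 : app n M g o X (4 * h + 3) = bif ltB 1 o then !eqB h 0 && X (4 * h + 3)
    else eqB h 0 && (X 3 ^^ bif X 3 == eqB o 1 then X (4 * (M - 1)) else !X 0) := by
  by_cases a : h = 0 <;> simp [app, tb, eqB, ltB, a]

end

theorem rul_st (C : Cir n M g E nx) (hu : u.length = n) (h1 : h ≤ k) (h2 : h < M) :
    rul n g (st E ph k u (nx ph u)) h = E (nx ph u) h := by
  unfold rul
  cases a : ltB h n
  · have a' := ltB_false_iff.1 a
    have b : ∀ r, r < h ∨ r = M → (ltB r k && E (nx ph u) r) = E (nx ph u) r := fun r hr => by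
      rcases hr with hr | hr
      · rw [ltB_iff.2 (by omega), Bool.true_and]
      · rw [C.e0 _ r hr.ge, Bool.and_false]
    rw [cond_false, st2, st2, b _ (C.lt h a').1, b _ (C.lt h a').2, ← C.e2 _ (C.n1 _ _) h a' h2]
  · rw [cond_true, st3', st1, st1, C.e1 _ (C.n1 _ _) h (ltB_iff.1 a), C.n2 _ _ hu h (ltB_iff.1 a)]

theorem up_lt (C : Cir n M g E nx) (hu : u.length = n) (hk : k < M) :
    app n M g ph.toNat (st E ph k u (nx ph u)) = st E ph (k + 1) u (nx ph u) := by
  have o1 : ltB 1 ph.toNat = false := by cases ph <;> rfl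
  have o2 : (ph == eqB ph.toNat 1) = true := by cases ph <;> rfl
  have t : ltB (M - 1) k = false := ltB_false_iff.2 (by omega)
  funext c
  obtain ⟨h, rfl | rfl | rfl | rfl⟩ := four c
  · simp only [app0, o1, o2, st0, st3', t, cond_false, cond_true]
    rw [Bool.eq_iff_iff]; simp; omega
  · simp only [app1, o1, o2, st0, st1, st3', t, cond_false, Bool.and_false]
    cases a : ltB h M
    · rw [C.e0 _ h (ltB_false_iff.1 a)]; rfl
    · rfl
  · simp only [app2, o1, o2, st0, st2, st3', t, cond_false, cond_true]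
    by_cases a : h ≤ k
    · rw [rul_st C hu a (by omega), ltB_iff.2 (show h < M by omega),
        ltB_iff.2 (show h < k + 1 by omega),
        show (eqB h 0 || ltB (h - 1) k) = true from by simp; omega]
      rfl
    · rw [ltB_false_iff.2 (show k + 1 ≤ h by omega),
        show (eqB h 0 || ltB (h - 1) k) = false from by simp; omega]
      simp
  · simp only [app3, o1, o2, st0, st3, st3', t, cond_false, cond_true, Bool.xor_false]

theorem up_eq (C : Cir n M g E nx) :
    app n M g ph.toNat (st E ph M u v) = st E (!ph) M v u := by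
  have o1 : ltB 1 ph.toNat = false := by cases ph <;> rfl
  have o2 : (ph == eqB ph.toNat 1) = true := by cases ph <;> rfl
  have t : ltB (M - 1) M = true := ltB_iff.2 (by have := C.md; omega)
  funext c
  obtain ⟨h, rfl | rfl | rfl | rfl⟩ := four c
  · simp only [app0, o1, o2, st0, st3', t, cond_false, cond_true, Bool.and_self]
  · simp only [app1, o1, o2, st0, st1, st2, st3', t, cond_false, cond_true, Bool.and_self]
    cases a : ltB h M
    · rw [C.e0 _ h (ltB_false_iff.1 a)]; rfl
    · rfl
  · simp only [app2, o1, o2, st0, st1, st2, st3', t, cond_false, cond_true]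
  · simp only [app3, o1, o2, st0, st3, st3', t, cond_false, cond_true, Bool.xor_true]

theorem down (C : Cir n M g E nx) (hk : k ≤ M) :
    app n M g (!ph).toNat (st E ph k u v) = st E (ph ^^ eqB k 0) (k - 1) u v := by
  have o1 : ltB 1 (!ph).toNat = false := by cases ph <;> rfl
  have o2 : (ph == eqB (!ph).toNat 1) = false := by cases ph <;> rfl
  funext c
  obtain ⟨h, rfl | rfl | rfl | rfl⟩ := four c
  · simp only [app0, o1, o2, st0, st3', cond_false]
    rw [Bool.eq_iff_iff]; simp; omega
  · simp only [app1, o1, o2, st1, st3', cond_false, Bool.false_and]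
    cases a : ltB h M
    · rw [C.e0 _ h (ltB_false_iff.1 a)]; rfl
    · rfl
  · simp only [app2, o1, o2, st0, st2, st3', cond_false]
    rw [Bool.eq_iff_iff]; cases E v h <;> simp; omega
  · simp only [app3, o1, o2, st0', st3, st3', cond_false]
    congr 2
    rw [Bool.eq_iff_iff]; simp

theorem st_zero (v' : List Bool) : st E ph 0 u v = st E ph 0 u v' := by
  funext c; simp [st, ltB]

theorem val_st (C : Cir n M g E nx) (hu : u.length = n) (hk : k ≤ M) (c : ℕ) :
    app n M g (2 + col M ph k) (st E ph k u (nx ph u)) c = false := by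
  have o1 : ltB 1 (2 + col M ph k) = true := ltB_iff.2 (by omega)
  obtain ⟨h, rfl | rfl | rfl | rfl⟩ := four c
  · simp only [app0, o1, st0, st2, st3', cond_true]
    by_cases a : h < k
    · rw [rul_st C hu a.le (by omega)]
      simp [eqB, ltB, a, show ¬M < h by omega]; omega
    · by_cases b : h = k
      · simp [eqB, ltB, b, add_comm]
      · simp [eqB, ltB, a]; omega
  · simp only [app1, o1, st1, cond_true]
    cases a : ltB h M
    · exact C.e0 _ h (ltB_false_iff.1 a)
    · cases b : ltB h n
      · rw [← C.e2 u hu h (ltB_false_iff.1 b) (ltB_iff.1 a)]; simp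
      · rfl
  · simp only [app2, o1, st2, cond_true]
    cases a : ltB h M
    · rw [C.e0 _ h (ltB_false_iff.1 a)]; simp
    · rfl
  · simp only [app3, o1, st3, cond_true]
    cases eqB h 0 <;> rfl

theorem ext_getD (hu : u.length = n) (hv : v.length = n)
    (e : ∀ h < n, u.getD h false = v.getD h false) : u = v :=
  List.ext_getElem (hu.trans hv.symm) fun i a b => by
    have := e i (hu ▸ a)
    rwa [List.getD_eq_getElem _ _ a, List.getD_eq_getElem _ _ b] at this

/-- A valid state at the turn. -/
theorem val_turn (C : Cir n M g E nx) (hu : u.length = n) (hv : v.length = n) {i : ℕ}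
    (H : ∀ c ≤ 4 * M, app n M g (2 + i) (st E ph M u v) c = false) : v = nx ph u := by
  refine ext_getD hv (C.n1 _ _) fun h hh => ?_
  have l := C.le
  have := H (4 * h) (by omega)
  simp only [app0, ltB_iff.2 (show 1 < 2 + i by omega), st0, st2, st3', cond_true, rul, st1,
    ltB_iff.2 hh, ltB_iff.2 (show h < M by omega), ltB_false_iff.2 (show h ≤ M by omega),
    cond_false, Bool.true_and, Bool.or_eq_false_iff] at this
  rw [C.n2 _ _ hu h hh, ← C.e1 _ hv h hh]
  simpa using this.1.2

theorem app_congr (C : Cir n M g E nx) {N : ℕ} (hN : 4 * M + 4 < N) {X Y : ℕ → Bool}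
    (e : ∀ c < N, X c = Y c) (o : ℕ) : ∀ c < N, app n M g o X c = app n M g o Y c := fun c hc => by
  by_cases a : c ≤ 4 * M
  · have b := C.bd (c / 4)
    have l : ln n c ≤ 2 := by unfold ln; cases eqB (c % 4) 1 || ltB (c / 4) n <;> simp
    have p : pr' c < N := by unfold pr'; cases eqB (c % 4) 2 <;> simp <;> omega
    unfold app
    rw [e c hc, e 3 (by omega), e 0 (by omega), e _ p, e (4 * (M - 1)) (by omega),
      e (4 * (c / 4 - 1)) (by omega), e (4 * (c / 4 + 1)) (by omega),
      e (4 * (g (c / 4)).2.1 + _) (by omega), e (4 * (g (c / 4)).2.2 + _) (by omega)]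
  · have := C.md
    simp [app, tb, e c hc, eqB, ltB, show 4 * M < c by omega, show ¬c < 4 * M by omega,
      show c ≠ 3 by omega]

/-- The first bits. -/
def dec (n : ℕ) (X : ℕ → Bool) : List Bool := (List.range n).map fun h => X (4 * h + 1)

theorem dec_getD {X : ℕ → Bool} (hh : h < n) : (dec n X).getD h false = X (4 * h + 1) := by
  simp [dec, hh]

/-- Valid words are states. -/
theorem of_val (C : Cir n M g E nx) {N i : ℕ} (hN : 4 * M + 4 < N) {X : ℕ → Bool}
    (H : ∀ c < N, app n M g (2 + i) X c = false) : ∃ k ≤ M, col M (X 3) k = i ∧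
      ∀ c < N, X c = st E (X 3) k (dec n X) (nx (X 3) (dec n X)) c := by
  have o1 : ltB 1 (2 + i) = true := ltB_iff.2 (by omega)
  have hu : (dec n X).length = n := by simp [dec]
  have l := C.le
  have h0 : ∀ h ≤ M, (X (4 * h) = true → (h = 0 ∨ X (4 * (h - 1)) = true) ∧ h ≠ M) ∧
      X (4 * h + 2) = (X (4 * h) && rul n g X h) ∧
      ((h = 0 ∨ X (4 * (h - 1)) = true) → X (4 * h) = false → col M (X 3) h = i) := fun h hh => by
    have := H (4 * h) (by omega)
    simp only [app0, o1, cond_true, ltB_false_iff.2 hh, cond_false] at this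
    simp only [Bool.or_eq_false_iff] at this
    obtain ⟨⟨a, b⟩, c⟩ := this
    refine ⟨fun x => by simpa [x, or_iff_not_imp_left] using a, by simpa using b, fun x y => ?_⟩
    have : (eqB h 0 || X (4 * (h - 1))) = true := by simpa using x
    simp [this, y] at c
    omega
  have ex : ∃ h, X (4 * h) = false := ⟨M, by
    by_contra a
    exact ((h0 M le_rfl).1 (by simpa using a)).2 rfl⟩
  set k := Nat.find ex with hk
  have k0 : X (4 * k) = false := Nat.find_spec ex
  have k1 : ∀ h < k, X (4 * h) = true := fun h hh => by simpa using Nat.find_min ex hh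
  have kM : k ≤ M := Nat.find_min' ex (by
    by_contra a
    exact ((h0 M le_rfl).1 (by simpa using a)).2 rfl)
  have k2 : ∀ h, k ≤ h → h ≤ M → X (4 * h) = false := fun h hh => by
    induction h, hh using Nat.le_induction with
    | base => exact fun _ => k0
    | succ h hh ih =>
      intro hM
      by_contra a
      have := ((h0 _ hM).1 (by simpa using a)).1
      simp [ih (by omega)] at this
  have z1 : ∀ h, M ≤ h → 4 * h + 1 < N → X (4 * h + 1) = false := fun h a b => by
    simpa [app1, o1, ltB_false_iff.2 a] using H _ b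
  have z2 : ∀ h, M ≤ h → 4 * h + 2 < N → X (4 * h + 2) = false := fun h a b => by
    simpa [app2, o1, ltB_false_iff.2 a] using H _ b
  have f1 : ∀ h ≤ M, X (4 * h + 1) = E (dec n X) h := fun h => by
    induction h using Nat.strong_induction_on with
    | _ h ih =>
      intro hh
      rcases hh.eq_or_lt with rfl | hh
      · rw [z1 _ le_rfl (by omega), C.e0 _ _ le_rfl]
      by_cases a : h < n
      · rw [C.e1 _ hu h a, dec_getD a]
      have b : ∀ r, r < h ∨ r = M → X (4 * r + 1) = E (dec n X) r := fun r hr => by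
        rcases hr with hr | rfl
        · exact ih r hr (by omega)
        · rw [z1 _ le_rfl (by omega), C.e0 _ _ le_rfl]
      have := H (4 * h + 1) (by omega)
      simp only [app1, o1, cond_true, ltB_iff.2 hh, ltB_false_iff.2 (not_lt.1 a), Bool.not_false,
        Bool.true_and] at this
      rw [C.e2 _ hu h (not_lt.1 a) hh, ← b _ (C.lt h (not_lt.1 a)).1, ← b _ (C.lt h (not_lt.1 a)).2]
      simpa using this
  have f2 : ∀ h < k, X (4 * h + 2) = E (nx (X 3) (dec n X)) h := fun h => by
    induction h using Nat.strong_induction_on with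
    | _ h ih =>
      intro hh
      rw [(h0 h (by omega)).2.1, k1 h hh, Bool.true_and, rul]
      cases a : ltB h n
      · have a' := ltB_false_iff.1 a
        have b : ∀ r, r < h ∨ r = M → X (4 * r + 2) = E (nx (X 3) (dec n X)) r := fun r hr => by
          rcases hr with hr | rfl
          · exact ih r hr (by omega)
          · rw [z2 _ le_rfl (by omega), C.e0 _ _ le_rfl]
        rw [cond_false, b _ (C.lt h a').1, b _ (C.lt h a').2,
          ← C.e2 _ (C.n1 _ _) h a' (by omega)]
      · rw [cond_true, f1 _ (C.bd h).1, f1 _ (C.bd h).2, C.e1 _ (C.n1 _ _) h (ltB_iff.1 a),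
          C.n2 _ _ hu h (ltB_iff.1 a)]
  refine ⟨k, kM, (h0 k kM).2.2 ?_ k0, fun c hc => ?_⟩
  · rcases Nat.eq_zero_or_pos k with a | a
    · exact .inl a
    · exact .inr (k1 _ (by omega))
  obtain ⟨h, rfl | rfl | rfl | rfl⟩ := four c
  · rw [st0]
    by_cases a : h < k
    · rw [k1 h a, ltB_iff.2 a]
    · rw [ltB_false_iff.2 (not_lt.1 a)]
      by_cases b : h ≤ M
      · exact k2 h (not_lt.1 a) b
      · simpa [app0, o1, ltB_iff.2 (not_le.1 b)] using H _ hc
  · rw [st1]
    by_cases b : h ≤ M
    · exact f1 h b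
    · rw [z1 h (by omega) hc, C.e0 _ _ (by omega)]
  · rw [st2]
    by_cases a : h < k
    · rw [f2 h a, ltB_iff.2 a, Bool.true_and]
    · rw [ltB_false_iff.2 (not_lt.1 a), Bool.false_and]
      by_cases b : h ≤ M
      · rw [(h0 h b).2.1, k2 h (not_lt.1 a) b, Bool.false_and]
      · exact z2 h (by omega) hc
  · rw [st3]
    by_cases a : h = 0
    · subst a; simp [eqB]
    · simpa [app3, o1, eqB_false_iff.2 a] using H _ hc

/-- One step from a state: the other step returns, and the image is valid except at the turn. -/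
theorem step_st (C : Cir n M g E nx) (hu : u.length = n) (hk : k ≤ M) (d : Bool) :
    app n M g (!d).toNat (app n M g d.toNat (st E ph k u (nx ph u))) = st E ph k u (nx ph u) ∧
    ((∀ c, app n M g (2 + (col M ph k + bif d then 3 else 1) % 4)
      (app n M g d.toNat (st E ph k u (nx ph u))) c = false) ∨
      ph = d ∧ k = M ∧ nx (!d) (nx d u) ≠ u) := by
  have md := C.md
  by_cases a : ph = d
  · subst a
    rcases hk.eq_or_lt with rfl | hk'
    · rw [up_eq C, up_eq C, Bool.not_not]
      refine ⟨rfl, or_iff_not_imp_right.2 fun x c => ?_⟩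
      have e : nx (!ph) (nx ph u) = u := by simpa using x
      have := val_st (ph := !ph) C (C.n1 ph u) le_rfl c
      rwa [e, show col k (!ph) k = (col k ph k + bif ph then 3 else 1) % 4 from by
        cases ph <;> (simp [col]; try omega)] at this
    · rw [up_lt C hu hk', down (k := k + 1) C hk', eqB_false_iff.2 k.succ_ne_zero,
        Bool.xor_false, Nat.add_sub_cancel]
      refine ⟨rfl, .inl fun c => ?_⟩
      have := val_st (ph := ph) C hu hk' c
      rwa [show col M ph (k + 1) = (col M ph k + bif ph then 3 else 1) % 4 from by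
        cases ph <;> (simp [col]; try omega)] at this
  · obtain rfl : d = !ph := by revert a; cases d <;> cases ph <;> simp
    rw [down C hk, Bool.not_not]
    rcases k with _ | k
    · have e := down (ph := !ph) (u := u) (v := nx ph u) C hk
      rw [Bool.not_not] at e
      rw [eqB_iff.2 rfl, Bool.xor_true] at e ⊢
      refine ⟨by rw [e, Bool.not_not], .inl fun c => ?_⟩
      have := val_st (ph := !ph) C hu hk c
      rwa [st_zero (nx ph u), show col M (!ph) 0 = (col M ph 0 + bif !ph then 3 else 1) % 4 from by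
        cases ph <;> (simp [col]; try omega)] at this
    · rw [eqB_false_iff.2 k.succ_ne_zero, Bool.xor_false, Nat.add_sub_cancel, up_lt C hu hk]
      refine ⟨rfl, .inl fun c => ?_⟩
      have := val_st (ph := ph) C hu (Nat.le_of_succ_le hk) c
      rwa [show col M ph k = (col M ph (k + 1) + bif !ph then 3 else 1) % 4 from by
        cases ph <;> (simp [col]; try omega)] at this

end Pool.Agent.PP.QL.Ln
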