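import Pool.Agent.MP_13199e_lc.QL.LocA

/-! PROJECT QL: the local line of an instance. -/

set_option autoImplicit false

namespace Pool.Agent.PP.QL.Ln

open Pool.Agent.MP_13199e_lc Pool.Agent.H82 Pool.Agent.PolyT

theorem fold_spec (l : List (T4 × ℕ × ℕ)) (v w : List Bool) (hw : w = l.foldl (fun v g =>
    v ++ [tt g.1 (v.getD g.2.1 false) (v.getD g.2.2 false)]) v) :
    w.length = v.length + l.length ∧ (∀ r < v.length, w.getD r false = v.getD r false) ∧
      ∀ k < l.length, w.getD (v.length + k) false = tt (l.getD k default).1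
        (ltB (l.getD k default).2.1 (v.length + k) && w.getD (l.getD k default).2.1 false)
        (ltB (l.getD k default).2.2 (v.length + k) && w.getD (l.getD k default).2.2 false) := by
  induction l generalizing v with
  | nil => simp [hw]
  | cons g l ih =>
    obtain ⟨h1, h2, h3⟩ := ih _ (hw.trans List.foldl_cons)
    rw [List.length_append, List.length_singleton] at h1 h2 h3
    have a : ∀ r < v.length, w.getD r false = v.getD r false := fun r hr => by
      rw [h2 r (by omega), List.getD_append _ _ _ _ hr]
    refine ⟨by rw [h1, List.length_cons]; omega, a, fun k hk => ?_⟩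
    rcases k with _ | k
    · have b : ∀ r, (ltB r v.length && w.getD r false) = v.getD r false := fun r => by
        cases c : ltB r v.length
        · rw [List.getD_eq_default _ _ (ltB_false_iff.1 c)]; rfl
        · exact a r (ltB_iff.1 c)
      rw [Nat.add_zero, List.getD_cons_zero, b, b, h2 _ (by omega),
        List.getD_append_right _ _ _ _ le_rfl, Nat.sub_self, List.getD_cons_zero]
    · have := h3 k (by simpa using hk)
      rwa [Nat.add_right_comm] at this

/-- Instances. -/
abbrev Inst : Type := BCirc × BCirc

variable (I : Inst)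

/-- The number of cells. -/
def mm : ℕ := 4 * sz I + 3

def wS (k r : ℕ) : ℕ := bif ltB r (I.1.2.length + k) then r else mm I

def wP (k r : ℕ) : ℕ := bif ltB r I.1.2.length then r else
  bif ltB r (I.1.2.length + k) then r + I.1.1.length else mm I

/-- The joint circuit. -/
def gt (h : ℕ) : T4 × ℕ × ℕ :=
  bif ltB h I.1.2.length then
    (default, wS I I.1.1.length (I.1.2.getD h 0), wP I I.2.1.length (I.2.2.getD h 0))
  else bif ltB h (I.1.2.length + I.1.1.length) then
    ((I.1.1.getD (h - I.1.2.length) default).1,
      wS I (h - I.1.2.length) (I.1.1.getD (h - I.1.2.length) default).2.1,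
      wS I (h - I.1.2.length) (I.1.1.getD (h - I.1.2.length) default).2.2)
  else bif ltB h (sz I) then
    ((I.2.1.getD (h - I.1.1.length - I.1.2.length) default).1,
      wP I (h - I.1.1.length - I.1.2.length)
        (I.2.1.getD (h - I.1.1.length - I.1.2.length) default).2.1,
      wP I (h - I.1.1.length - I.1.2.length)
        (I.2.1.getD (h - I.1.1.length - I.1.2.length) default).2.2)
  else ((false, false, false, false), mm I, mm I)

/-- The values of the joint circuit. -/
def evl (u : List Bool) (h : ℕ) : Bool :=
  bif ltB h (I.1.2.length + I.1.1.length) then (wires I.1 u).getD h false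
  else (wires I.2 u).getD (h - I.1.1.length) false

def nxt (b : Bool) (u : List Bool) : List Bool := bif b then ev I.2 u else ev I.1 u

variable {I} {u : List Bool}

theorem evl_wS (hu : u.length = I.1.2.length) {k : ℕ} (hk : k ≤ I.1.1.length) (r : ℕ) :
    evl I u (wS I k r) = (ltB r (u.length + k) && (wires I.1 u).getD r false) := by
  rw [wS, ← hu]
  cases c : ltB r (u.length + k)
  · rw [cond_false, evl, ltB_false_iff.2 (by unfold mm sz; omega), cond_false,
      List.getD_eq_default _ _ (by rw [(fold_spec _ u (wires I.2 u) rfl).1]; unfold mm sz; omega)]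
    rfl
  · rw [cond_true, evl, ltB_iff.2 (by have := ltB_iff.1 c; omega)]; rfl

theorem evl_wP (hu : u.length = I.1.2.length) (k r : ℕ) :
    evl I u (wP I k r) = (ltB r (u.length + k) && (wires I.2 u).getD r false) := by
  rw [wP, ← hu]
  cases d : ltB r u.length
  · have d' := ltB_false_iff.1 d
    cases c : ltB r (u.length + k)
    · rw [cond_false, cond_false, evl, ltB_false_iff.2 (by unfold mm sz; omega), cond_false,
        List.getD_eq_default _ _ (by rw [(fold_spec _ u (wires I.2 u) rfl).1]; unfold mm sz; omega)]
      rfl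
    · rw [cond_false, cond_true, evl, ltB_false_iff.2 (by omega), Nat.add_sub_cancel]; rfl
  · have d' := ltB_iff.1 d
    rw [cond_true, evl, ltB_iff.2 (by omega), ltB_iff.2 (by omega), cond_true,
      (fold_spec _ u (wires I.1 u) rfl).2.1 r d', (fold_spec _ u (wires I.2 u) rfl).2.1 r d']
    rfl

theorem getD_ev (C : BCirc) (u : List Bool) {h : ℕ} (hh : h < C.2.length) :
    (ev C u).getD h false = (ltB (C.2.getD h 0) (u.length + C.1.length) &&
      (wires C u).getD (C.2.getD h 0) false) := by
  rw [List.getD_eq_getElem _ _ (by simpa [ev] using hh), List.getD_eq_getElem _ _ hh]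
  simp only [ev, List.getElem_map]
  cases c : ltB C.2[h] (u.length + C.1.length)
  · exact List.getD_eq_default _ _ ((fold_spec _ u (wires C u) rfl).1 ▸ ltB_false_iff.1 c)
  · rfl

/-- The values, cut at the input length. -/
def evl' (I : Inst) (u : List Bool) (h : ℕ) : Bool := ltB h (mm I) && evl I u h

theorem evl'_eq (hu : u.length = I.1.2.length) (h : ℕ) : evl' I u h = evl I u h := by
  unfold evl'
  cases c : ltB h (mm I)
  · have := ltB_false_iff.1 c
    unfold mm sz at this
    rw [evl, ltB_false_iff.2 (by omega), cond_false,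
      List.getD_eq_default _ _ (by rw [(fold_spec _ u (wires I.2 u) rfl).1]; omega)]
    rfl
  · rfl

theorem wS_lt (k r : ℕ) : wS I k r < I.1.2.length + k ∨ wS I k r = mm I := by
  unfold wS
  cases c : ltB r (I.1.2.length + k)
  · exact .inr rfl
  · exact .inl (ltB_iff.1 c)

theorem wP_lt (k r : ℕ) : wP I k r < I.1.2.length + k + I.1.1.length ∨ wP I k r = mm I := by
  unfold wP
  cases d : ltB r I.1.2.length
  · cases c : ltB r (I.1.2.length + k)
    · exact .inr rfl
    · exact .inl (Nat.add_lt_add_right (ltB_iff.1 c) _)
  · exact .inl (by have := ltB_iff.1 d; rw [cond_true]; omega)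

theorem cir (hI : I.2.2.length = I.1.2.length) :
    Cir I.1.2.length (mm I) (gt I) (evl' I) (nxt I) := by
  have hM : mm I = 4 * (I.1.2.length + I.1.1.length + I.2.1.length) + 3 := rfl
  have hz : sz I = I.1.2.length + I.1.1.length + I.2.1.length := rfl
  have lt : ∀ h, I.1.2.length ≤ h → ((gt I h).2.1 < h ∨ (gt I h).2.1 = mm I) ∧
      ((gt I h).2.2 < h ∨ (gt I h).2.2 = mm I) ∧ (gt I h).2.1 ≤ mm I ∧ (gt I h).2.2 ≤ mm I :=
    fun h hh => by
    rw [gt, ltB_false_iff.2 hh, cond_false]
    cases c : ltB h (I.1.2.length + I.1.1.length)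
    · have := ltB_false_iff.1 c
      cases d : ltB h (sz I)
      · simp
      · have := ltB_iff.1 d
        have a := wP_lt (I := I) (h - I.1.1.length - I.1.2.length)
        simp only [cond_false, cond_true]
        generalize I.2.1.getD _ default = q
        have := a q.2.1
        have := a q.2.2
        omega
    · have := ltB_iff.1 c
      have a := wS_lt (I := I) (h - I.1.2.length)
      simp only [cond_true]
      generalize I.1.1.getD _ default = q
      have := a q.2.1
      have := a q.2.2
      omega
  refine ⟨by omega, by omega, fun h => ?_, fun h hh => ⟨(lt h hh).1, (lt h hh).2.1⟩,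
    fun u h hh => by rw [evl', ltB_false_iff.2 hh]; rfl, fun u hu h hh => ?_,
    fun u hu h h1 h2 => ?_, fun b u => by cases b <;> simp [nxt, ev, hI], fun b u hu h hh => ?_⟩
  · by_cases a : h < I.1.2.length
    · have b := wS_lt (I := I) I.1.1.length (I.1.2.getD h 0)
      have c := wP_lt (I := I) I.2.1.length (I.2.2.getD h 0)
      simp only [gt, ltB_iff.2 a, cond_true]
      omega
    · exact (lt h (not_lt.1 a)).2.2
  · rw [evl'_eq hu, evl, ltB_iff.2 (by omega), cond_true,
      (fold_spec _ u (wires I.1 u) rfl).2.1 h (by omega)]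
  · simp only [evl'_eq hu]
    rw [gt, ltB_false_iff.2 h1, cond_false]
    cases c : ltB h (I.1.2.length + I.1.1.length)
    · have c' := ltB_false_iff.1 c
      cases d : ltB h (sz I)
      · have := ltB_false_iff.1 d
        rw [evl, c, cond_false,
          List.getD_eq_default _ _ (by rw [(fold_spec _ u (wires I.2 u) rfl).1]; omega)]
        simp [tt]
      · have := ltB_iff.1 d
        simp only [cond_false, cond_true, evl_wP hu]
        rw [← (fold_spec _ u (wires I.2 u) rfl).2.2 _ (by omega), evl, c, cond_false]
        congr 1; omega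
    · have := ltB_iff.1 c
      simp only [cond_true]
      rw [evl_wS hu (by omega), evl_wS hu (by omega),
        ← (fold_spec _ u (wires I.1 u) rfl).2.2 _ (by omega), evl, c, cond_true]
      congr 1; omega
  · simp only [evl'_eq hu, gt, ltB_iff.2 hh, cond_true, evl_wS hu le_rfl, evl_wP hu, nxt]
    cases b
    · exact getD_ev _ _ hh
    · exact getD_ev _ _ (hI ▸ hh)

/-- The local maps of an instance. -/
def ap (I : Inst) : ℕ → (ℕ → Bool) → ℕ → Bool := app I.1.2.length (mm I) (gt I)

/-- The source. -/
def y0 (I : Inst) : ℕ → Bool :=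
  st (evl' I) true (mm I) (I.1.2.map fun _ => false) (I.1.2.map fun _ => false)

section
variable {N i : ℕ} {X : ℕ → Bool}

theorem back (hI : EolInst I) (hN : 4 * mm I + 4 < N) (H : ∀ c < N, ap I (2 + i) X c = false)
    (d : Bool) : ∀ c < N, ap I (!d).toNat (ap I d.toNat X) c = X c := fun c hc => by
  have C := cir hI.1
  obtain ⟨k, hk, -, e⟩ := of_val C hN H
  rw [e c hc, ← (step_st C (by simp [dec]) hk d).1]
  exact app_congr C hN (app_congr C hN e _) _ c hc

theorem col_lt (hI : EolInst I) (hN : 4 * mm I + 4 < N) (H : ∀ c < N, ap I (2 + i) X c = false) :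
    i < 4 := by
  obtain ⟨k, -, e, -⟩ := of_val (cir hI.1) hN H
  exact e ▸ Nat.mod_lt _ (by omega)

theorem fwd (hI : EolInst I) (hN : 4 * mm I + 4 < N) (H : ∀ c < N, ap I (2 + i) X c = false) :
    (∀ c < N, ap I (2 + (i + 1) % 4) (ap I 0 X) c = false) ∨ EolSol I (dec I.1.2.length X) := by
  have C := cir hI.1
  obtain ⟨k, hk, rfl, e⟩ := of_val C hN H
  have hu : (dec I.1.2.length X).length = I.1.2.length := by simp [dec]
  refine (step_st (ph := X 3) C hu hk false).2.imp (fun a c hc => ?_) fun a => ⟨hu, .inl a.2.2⟩
  exact (app_congr C hN (app_congr C hN e _) _ c hc).trans (a c)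

theorem bwd (hI : EolInst I) (hN : 4 * mm I + 4 < N) (H : ∀ c < N, ap I (2 + i) X c = false) :
    (∀ c < N, ap I (2 + (i + 3) % 4) (ap I 1 X) c = false) ∨ EolSol I (dec I.1.2.length X) ∨
      i = 0 ∧ ∀ c < N, X c = y0 I c := by
  have C := cir hI.1
  obtain ⟨k, hk, rfl, e⟩ := of_val C hN H
  have hu : (dec I.1.2.length X).length = I.1.2.length := by simp [dec]
  refine (step_st (ph := X 3) C hu hk true).2.imp (fun a c hc => ?_) fun ⟨a, b, c⟩ => ?_
  · exact (app_congr C hN (app_congr C hN e _) _ c hc).trans (a c)
  by_cases z : dec I.1.2.length X = List.replicate I.1.2.length false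
  · refine .inr ⟨?_, fun j hj => ?_⟩
    · have := C.md
      rw [a, b, col, cond_true]; omega
    · rw [e j hj, a, b, z, y0, List.map_const', show nxt I true _ = _ from hI.2.1]
  · exact .inl ⟨hu, .inr ⟨c, z⟩⟩

theorem val_y0 (hI : EolInst I) (c : ℕ) : ap I 2 (y0 I) c = false := by
  have C := cir hI.1
  have := val_st (ph := true) C (List.length_replicate (a := false)) le_rfl c
  have md := C.md
  rw [show nxt I true _ = _ from hI.2.1, show col (mm I) true (mm I) = 0 from by
    rw [col, cond_true]; omega] at this
  rwa [y0, List.map_const']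

theorem one_y0 (hI : EolInst I) (c : ℕ) : ap I 3 (ap I 0 (y0 I)) c = false := by
  have C := cir hI.1
  have := (step_st (ph := true) C (List.length_replicate (a := false)) le_rfl false).2
  have md := C.md
  rw [show nxt I true _ = _ from hI.2.1, show col (mm I) true (mm I) = 0 from by
    rw [col, cond_true]; omega] at this
  rw [y0, List.map_const']
  exact this.resolve_right (fun a => Bool.noConfusion a.1) c

theorem ap_congr (hI : EolInst I) (hN : 4 * mm I + 4 < N) {Y : ℕ → Bool} (e : ∀ c < N, X c = Y c)
    (o : ℕ) : ∀ c < N, ap I o X c = ap I o Y c := app_congr (cir hI.1) hN e o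

theorem not_val_y0 (hI : EolInst I) (hN : 4 * mm I + 4 < N) :
    ¬∀ c < N, ap I (2 + i) (ap I 1 (y0 I)) c = false := fun H => by
  have C := cir hI.1
  rw [y0, List.map_const', show ap I 1 _ = _ from up_eq (ph := true) C] at H
  exact hI.2.2 (val_turn C List.length_replicate List.length_replicate
    fun c hc => H c (by omega)).symm

end

end Pool.Agent.PP.QL.Ln
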