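import Pool.Agent.MP_13199e_lc.QL.MacA
import Pool.Agent.MP_13199e_lc.PP.F.Samp
import Pool.Agent.MP_13199e_lc.PP.F.Uni

/-! PROJECT QL: systems of hazard free gates are plain circuits. -/

set_option autoImplicit false

namespace Pool.Agent.PP.QL

open Pool.Agent.MP_13199e_lc Pool.Agent.PolyT Pool.Agent.H82 F

namespace Mc

/-- A copy with a flag. -/
def cp {K : Type} (k : K) (fl : Bool) : List (Lt K × Lt K) := [((k, fl, true), (k, fl, true))]

theorem few {ι : Type} (il : List ι) (T : ℕ) (bad : ι → ℕ → Prop)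
    (h : ∀ q ∈ il, ∀ s t, s < t → t < T → bad q s → ¬bad q t) (u : ℕ → Bool)
    (hu : ∀ t < T, u t = true → ∃ q ∈ il, bad q t) : (List.range T).countP u ≤ il.length := by
  classical
  rcases il with _ | ⟨q0, l⟩
  · exact (List.countP_eq_zero.2 fun t ht e => by
      simpa using hu t (List.mem_range.1 ht) e).le
  have _ : Nonempty ι := ⟨q0⟩
  choose! c c1 c2 using hu
  rw [List.countP_eq_length_filter, ← List.length_map c]
  refine (List.subperm_of_subset (List.Nodup.map_on ?_ (List.nodup_range.filter _))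
    ?_).length_le
  · intro s hs t ht e
    simp only [List.mem_filter, List.mem_range] at hs ht
    have a1 := c2 s hs.1 hs.2
    have a2 := c2 t ht.1 ht.2
    rcases lt_trichotomy s t with k | k | k
    · exact absurd (e ▸ a2) (h _ (c1 s hs.1 hs.2) s t k ht.1 a1)
    · exact k
    · exact absurd (e ▸ a1) (h _ (c1 t ht.1 ht.2) t s k hs.1 a2)
  · intro q hq
    obtain ⟨t, ht, rfl⟩ := List.mem_map.1 hq
    simp only [List.mem_filter, List.mem_range] at ht
    exact c1 t ht.1 ht.2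

/-- The number with the bits `g (n, i)`, `i < w`. -/
def num (w : ℕ) (g : ℕ × ℕ → Bool) (n : ℕ) : ℕ := ofBits ((List.range w).map fun i => g (n, i))

theorem num_bit {w : ℕ} (g : ℕ × ℕ → Bool) (n : ℕ) {i : ℕ} (hi : i < w) :
    (num w g n).testBit i = g (n, i) := by
  rw [num, testBit_ofBits, List.getD_eq_getElem _ _ (by simpa using hi)]
  simp

theorem num_lt (w : ℕ) (g : ℕ × ℕ → Bool) (n : ℕ) : num w g n < 2 ^ w := by
  simpa [num] using ofBits_lt ((List.range w).map fun i => g (n, i))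

/-- The semantic core: chains, leaves, votes and the thermometer give a hazard free gate. -/
theorem core {K : Type} (w : ℕ) (cx : List ℕ) (rs : List (Bool × (ℕ → V4)))
    (Ψ : List ℕ → List ℕ → Bool) (hcx : ∀ c ∈ cx, c < 2 ^ w) (il : List (ℕ × ℕ))
    (hil : ∀ q, q ∈ il ↔ q.1 < cx.length + rs.length ∧ q.2 < w) (T : ℕ)
    (hT : T = 2 * il.length + 1) (x : K → V4) (ch lf : ℕ × ℕ → ℕ → K) (vote : ℕ → K)
    (th : ℕ → ℕ → K) (o : K)
    (h1 : ∀ n < cx.length, ∀ i < w, x (ch (n, i) 0) = ofB ((cx.getD n 0).testBit i))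
    (h2 : ∀ n (hn : n < rs.length), ∀ i < w, ∀ b, rd rs[n].1 (rs[n].2 i) = some b →
      x (ch (cx.length + n, i) 0) = ofB b)
    (h3 : ∀ q ∈ il, ∀ t, t + 1 < T → DOk x (ch q (t + 1)) (cp (ch q t) false))
    (h4 : ∀ q ∈ il, ∀ t < T, DOk x (lf q t) (cp (ch q t) true))
    (h5 : ∀ t < T, ∀ g : ℕ × ℕ → Bool, (∀ q ∈ il, x (lf q t) = ofB (g q)) → x (vote t) =
      ofB (Ψ ((List.range cx.length).map (num w g))
        ((List.range rs.length).map fun n => num w g (cx.length + n))))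
    (h6 : ∀ l < T, DOk x (th 0 l) [])
    (h7 : ∀ a < T, ∀ l < T, DOk x (th (a + 1) l) [((th a l, false, true), (th a l, false, true)),
      ((vote a, true, true), if l = 0 then (vote a, true, true) else (th a (l - 1), false, true))])
    (h8 : DOk x o (cp (th T il.length) false)) (b : Bool)
    (hb : ∀ vs, List.Forall₂ (fun r a => Fit w r.1 r.2 a) rs vs → Ψ cx vs = b) : x o = ofB b := by
  have ib : ∀ c, isT (ofB c) = c := by decide
  have pure : ∀ q ∈ il, ∀ c, x (ch q 0) = ofB c → ∀ t < T, isT (x (ch q t)) = c :=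
    fun q hq c e t ht => by
      have := chain_pure (ch q) T (h3 q hq) e t (by omega)
      rw [zero_add] at this
      rw [this, ib]
  have good : ∀ t < T, (¬∃ q ∈ il, x (ch q t) = 2) → x (vote t) = ofB b := fun t ht no => by
    rw [h5 t ht (fun q => isT (x (ch q t))) fun q hq => (h4 q hq t ht).copy (by
      have : x (ch q t) ≠ 2 := fun e => no ⟨q, hq, e⟩
      simp only [Lv]
      generalize x (ch q t) = v at this
      revert v
      decide)]
    congr 1
    have e : (List.range cx.length).map (num w fun q => isT (x (ch q t))) = cx :=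
      List.ext_getElem (by simp) fun n k1 k2 => by
        rw [List.getElem_map, List.getElem_range]
        refine Nat.eq_of_testBit_eq fun i => ?_
        by_cases k : i < w
        · rw [num_bit _ _ k, pure _ ((hil (n, i)).2 ⟨by omega, k⟩) _ (h1 n k2 i k) t ht,
            List.getD_eq_getElem _ _ k2]
        · have pw := Nat.pow_le_pow_right two_pos (not_lt.1 k)
          rw [Nat.testBit_lt_two_pow ((num_lt _ _ _).trans_le pw),
            Nat.testBit_lt_two_pow ((hcx _ (List.getElem_mem k2)).trans_le pw)]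
    rw [e]
    refine hb _ (List.forall₂_of_length_eq_of_get (by simp) fun n k1 k2 => ?_)
    simp only [List.get_eq_getElem, List.getElem_map, List.getElem_range]
    refine ⟨num_lt _ _ _, fun i k c hc => ?_⟩
    rw [num_bit _ _ k, pure _ ((hil (cx.length + n, i)).2 ⟨by omega, k⟩) _ (h2 n k1 i k c hc) t ht]
  have cnt : ∀ u : V4 → Bool, u (ofB b) = false →
      (List.range T).countP (fun t => u (x (vote t))) ≤ il.length := fun u hu =>
    few il T (fun q t => x (ch q t) = 2) (fun q hq s t st ht e e' => by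
      have a1 : x (ch q (s + 1)) = ofB true :=
        (h3 q hq s (by omega)).copy (by simp [Lv, e, rd])
      have := chain_pure (ch q) T (h3 q hq) a1 (t - (s + 1)) (by omega)
      rw [Nat.add_sub_cancel' st, e'] at this
      cases this) _ fun t ht e => by_contra fun no => by
        rw [good t ht no, hu] at e
        cases e
  have key := thermo th vote T T h6 h7 T le_rfl il.length (by omega)
  refine h8.copy (lv_pure false ?_)
  cases b
  · exact key.2 (cnt noF (by decide))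
  · have a1 := cnt (fun v => decide ¬isT v = true) (by decide)
    have a2 := List.length_eq_countP_add_countP (fun t => isT (x (vote t))) (l := List.range T)
    rw [List.length_range] at a2
    exact key.1 (by omega)

section
variable {ρ β : Type} (cl : List Bool) (rs : List ρ)

/-- A selection by the number of the input. -/
def pick (u : β) (g : ρ → β) (n : ℕ) : β := ((cl.map fun _ => u) ++ rs.map g).getD n u

theorem pick_left (u : β) (g : ρ → β) {n : ℕ} (h : n < cl.length) : pick cl rs u g n = u := by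
  rw [pick, List.getD_append _ _ _ _ (by simpa using h),
    List.getD_eq_getElem _ _ (by simpa using h), List.getElem_map]

theorem pick_right (u : β) (g : ρ → β) {n : ℕ} (h : n < rs.length) :
    pick cl rs u g (cl.length + n) = g rs[n] := by
  rw [pick, List.getD_append_right _ _ _ _ (by simp), List.length_map, Nat.add_sub_cancel_left,
    List.getD_eq_getElem _ _ (by simpa using h), List.getElem_map]

theorem pick_cases (n : ℕ) : (∀ (u : β) g, pick cl rs u g n = u) ∨
    ∃ r ∈ rs, ∀ (u : β) g, pick cl rs u g n = g r := by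
  by_cases h : n < cl.length
  · exact Or.inl fun u g => pick_left cl rs u g h
  obtain ⟨m, rfl⟩ := Nat.exists_eq_add_of_le (not_lt.1 h)
  by_cases k : m < rs.length
  · exact Or.inr ⟨_, List.getElem_mem k, fun u g => pick_right cl rs u g k⟩
  · exact Or.inl fun u g => List.getD_eq_default _ _ (by simpa using k)

end

end Mc

open Mc in
theorem macS : MacS := by
  intro α S κ W P _ _ _ _ _ _ _ M ⟨p1, p2, p3, p4, p5, p6, p7, p8, p9⟩
  obtain ⟨il, pi, hi⟩ : ∃ u : S × κ → List (ℕ × ℕ), Poly u ∧ ∀ s, u s =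
      (idx (M.cl s.1 ++ (M.rds s).map fun r => r.2.2)).flatMap fun n =>
        (idx (M.wi s.1)).map fun i => (n, i) := ⟨_, by fun_prop, fun _ => rfl⟩
  obtain ⟨tl, pt, ht⟩ : ∃ u : S × κ → List ℕ, Poly u ∧ ∀ s, u s =
      List.range (2 * (il s).length + 1) := ⟨fun s => idx ((0, 0) :: (il s ++ il s)), by fun_prop,
    fun s => by simp [idx, two_mul]⟩
  obtain ⟨nm, pn, hn⟩ : ∃ u : ((S × κ) × List Bool) × ℕ → ℕ, Poly u ∧ ∀ s, u s =
      num (M.wi s.1.1.1).length (fun q => s.1.2.getD ((il s.1.1).idxOf q) false) s.2 :=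
    ⟨fun s => ofBits ((idx (M.wi s.1.1.1)).map fun i =>
      s.1.2.getD ((il s.1.1).idxOf (s.2, i)) false), by fun_prop, fun _ => rfl⟩
  obtain ⟨ks, ut, o, q1, q2, q3, hU⟩ := uniS ((S × κ) × ℕ) (fun a => (M.fn (a.1.1,
    (idx (M.cl a.1.1.1)).map fun n => nm ((a.1.1, a.2), n),
    (idx (M.rds a.1.1)).map fun n => nm ((a.1.1, a.2), (M.cl a.1.1.1).length + n))).testBit a.1.2)
    (by fun_prop)
  obtain ⟨ren, pr, hr⟩ : ∃ u : ((S × κ) × ℕ × ℕ) × K3 → κ × ℕ × ℕ × ℕ × K3, Poly u ∧ ∀ a, u a =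
      cond (eqB a.2.1 0) (a.1.1.2, 2, ((il a.1.1).getD a.2.2.1 (0, 0)).1,
        ((il a.1.1).getD a.2.2.1 (0, 0)).2, a.1.2.2, 0, 0) (a.1.1.2, 3, a.1.2.1, a.1.2.2, a.2) :=
    ⟨_, by fun_prop, fun _ => rfl⟩
  obtain ⟨vt, pv, hv⟩ : ∃ u : (S × κ) × ℕ × ℕ → κ × ℕ × ℕ × ℕ × K3, Poly u ∧ ∀ a, u a =
      ren (a, o ((a.1, a.2.1), idx (il a.1))) := ⟨_, by fun_prop, fun _ => rfl⟩
  obtain ⟨sub, ps, hs⟩ : ∃ u : S × κ → List (ℕ × ℕ × ℕ × K3), Poly u ∧ ∀ s, u s =
      (il s).flatMap (fun q => (tl s).flatMap fun t =>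
        [(1, q.1, q.2, t, 0, 0), (2, q.1, q.2, t, 0, 0)]) ++
      (idx (M.wi s.1)).flatMap fun j => (0, j, 0, 0, 0, 0) ::
        ((tl s).flatMap (fun t => (ks ((s, j), idx (il s))).map fun z => (3, j, t, z)) ++
          (idx (0 :: tl s)).flatMap fun a => (tl s).map fun l => (4, j, 0, a, l, 0)) :=
    ⟨_, by fun_prop, fun _ => rfl⟩
  obtain ⟨t1, r1, e1⟩ : ∃ u : (S × κ) × ℕ × ℕ × ℕ →
      List (Lt (κ × ℕ × ℕ × ℕ × K3) × Lt (κ × ℕ × ℕ × ℕ × K3)), Poly u ∧ ∀ a, u a =
      cond (eqB a.2.2.2 0) (pick (M.cl a.1.1) (M.rds a.1) []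
        (fun r => cp (r.1, 0, a.2.2.1, 0, 0, 0, 0) r.2.2) a.2.1)
        (cp (a.1.2, 1, a.2.1, a.2.2.1, a.2.2.2 - 1, 0, 0) false) :=
    ⟨_, by unfold pick cp; fun_prop, fun _ => rfl⟩
  obtain ⟨t3, r3, e3⟩ : ∃ u : ((S × κ) × ℕ × ℕ) × K3 →
      List (Lt (κ × ℕ × ℕ × ℕ × K3) × Lt (κ × ℕ × ℕ × ℕ × K3)), Poly u ∧ ∀ a, u a =
      (ut (((a.1.1, a.1.2.1), idx (il a.1.1)), a.2)).map fun p =>
        ((ren (a.1, p.1.1), p.1.2), (ren (a.1, p.2.1), p.2.2)) := ⟨_, by fun_prop, fun _ => rfl⟩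
  obtain ⟨t4, r4, e4⟩ : ∃ u : (S × κ) × ℕ × ℕ × ℕ →
      List (Lt (κ × ℕ × ℕ × ℕ × K3) × Lt (κ × ℕ × ℕ × ℕ × K3)), Poly u ∧ ∀ a, u a =
      [(((a.1.2, 4, a.2.1, 0, a.2.2.1, a.2.2.2, 0), false, true),
        ((a.1.2, 4, a.2.1, 0, a.2.2.1, a.2.2.2, 0), false, true)),
        ((vt (a.1, a.2.1, a.2.2.1), true, true), cond (eqB a.2.2.2 0)
          (vt (a.1, a.2.1, a.2.2.1), true, true)
          ((a.1.2, 4, a.2.1, 0, a.2.2.1, a.2.2.2 - 1, 0), false, true))] :=
    ⟨_, by fun_prop, fun _ => rfl⟩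
  obtain ⟨mv, pm, hm⟩ : ∃ u : α × (κ × ℕ × ℕ × ℕ × K3) × P → P, Poly u ∧ ∀ a, u a =
      cond (eqB a.2.1.2.1 1 && eqB a.2.1.2.2.2.2.1 0) (pick (M.cl (M.sg a.1))
        (M.rds (M.sg a.1, a.2.1.1)) a.2.2 (fun r => M.wr (a.1, r.2.1, a.2.2)) a.2.1.2.2.1) a.2.2 :=
    ⟨_, by unfold pick; fun_prop, fun _ => rfl⟩
  have _ : DecidableEq (κ × ℕ × ℕ × ℕ × K3) := Classical.decEq _
  obtain ⟨f, L, r, pf, pL, pr', h⟩ := locS α S (κ × ℕ × ℕ × ℕ × K3) P M.sg
    (fun s => (M.lay s).flatMap fun k => (sub (s, k)).map fun z => (k, z))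
    (fun a => cond (eqB a.2.2.1 0) (cp (a.2.1, 4, a.2.2.2.1, 0, (tl (a.1, a.2.1)).length,
        (il (a.1, a.2.1)).length, 0) false)
      (cond (eqB a.2.2.1 1) (t1 ((a.1, a.2.1), a.2.2.2.1, a.2.2.2.2.1, a.2.2.2.2.2.1))
      (cond (eqB a.2.2.1 2) (cp (a.2.1, 1, a.2.2.2) true)
      (cond (eqB a.2.2.1 3) (t3 (((a.1, a.2.1), a.2.2.2.1, a.2.2.2.2.1), a.2.2.2.2.2))
      (cond (eqB a.2.2.2.2.2.1 0) []
        (t4 ((a.1, a.2.1), a.2.2.2.1, a.2.2.2.2.2.1 - 1, a.2.2.2.2.2.2.1)))))))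
    M.pts mv (fun a => eqB a.2.1.2.1 1 && eqB a.2.1.2.2.2.2.1 0 &&
      ((M.ctx (a.1, a.2.2)).getD a.2.1.2.2.1 0).testBit a.2.1.2.2.2.1)
    p1 (by fun_prop) (by unfold cp; fun_prop) p7 pm (by fun_prop)
  refine ⟨f, L, fun u => r (u.1, (u.2.1, 0, u.2.2.2, 0, 0, 0, 0), u.2.2.1), pf, pL, by fun_prop,
    fun a w => ?_⟩
  obtain ⟨k1, k2, k3, k4⟩ := h a w.ne w.nd fun k hk => by
    obtain ⟨k', hk', hk⟩ := List.mem_flatMap.1 hk
    obtain ⟨z, -, rfl⟩ := List.mem_map.1 hk
    simp only [hm]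
    cases (eqB z.1 1 && eqB z.2.2.2.1 0)
    · exact ⟨fun _ h => h, fun _ _ _ _ h => h⟩
    · rcases pick_cases (β := P) (M.cl (M.sg a)) (M.rds (M.sg a, k')) z.2.1 with e | ⟨u, hu, e⟩ <;>
        simp only [cond_true, e]
      exacts [⟨fun _ h => h, fun _ _ _ _ h => h⟩, ⟨w.mem k' hk' u hu, w.inj k' hk' u hu⟩]
  refine ⟨k1, k2, k3, fun y => ?_⟩
  obtain ⟨F, f1, f2, f3⟩ := k4 y
  refine ⟨F, f1, f2, fun p hp hF k hk j hj b hb => ?_⟩
  have ok := f3 p hp hF
  simp only [List.forall_mem_flatMap, List.forall_mem_map] at ok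
  replace ok := ok k hk
  obtain ⟨l1, l2⟩ := w.len p hp
  have mt : ∀ t, t ∈ tl (M.sg a, k) ↔ t < 2 * (il (M.sg a, k)).length + 1 := fun t => by
    rw [ht, List.mem_range]
  have lt : (tl (M.sg a, k)).length = 2 * (il (M.sg a, k)).length + 1 := by
    rw [ht, List.length_range]
  have mi : ∀ q, q ∈ il (M.sg a, k) ↔ q.1 < (M.cl (M.sg a)).length + (M.rds (M.sg a, k)).length ∧
      q.2 < (M.wi (M.sg a)).length := fun q => by
    simp only [hi, List.mem_flatMap, List.mem_map, mem_idx, List.length_append, List.length_map]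
    exact ⟨fun ⟨n, a, i, b, e⟩ => e ▸ ⟨a, b⟩, fun h => ⟨q.1, h.1, q.2, h.2, rfl⟩⟩
  simp only [hs, List.forall_mem_flatMap, List.forall_mem_append, List.forall_mem_map,
    List.forall_mem_cons, mt, mem_idx, List.length_cons, lt, hm] at ok
  obtain ⟨o1, o0, o3, o4⟩ := (ok.imp_right fun h => h j hj)
  refine core (M.wi (M.sg a)).length (M.ctx (a, p)) _
    (fun c vs => (M.fn ((M.sg a, k), c, vs)).testBit j) l2 (il (M.sg a, k))
    (by simpa only [l1, List.length_map] using mi) _ rfl (fun l => r ((a, y), l, p))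
    (fun q t => (k, 1, q.1, q.2, t, 0, 0)) (fun q t => (k, 2, q.1, q.2, t, 0, 0))
    (fun t => vt ((M.sg a, k), j, t)) (fun a l => (k, 4, j, 0, a, l, 0)) (k, 0, j, 0, 0, 0, 0)
    (fun n hn i hi => ?_) (fun n hn i hi c hc => ?_) (fun q hq t h => ?_) (fun q hq t h => ?_)
    (fun t h g hg => ?_) (fun l h => ?_) (fun c hc l h => ?_) ?_ b hb
  · have := (o1 (n, i) ((mi _).2 ⟨by omega, hi⟩) 0 (by omega)).1
    simp only [eqB, e1, pick_left _ _ _ _ (l1 ▸ hn)] at this
    simpa using this.cst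
  · rw [List.length_map] at hn
    have := (o1 (_, i) ((mi ((M.cl (M.sg a)).length + n, i)).2 ⟨by omega, hi⟩) 0 (by omega)).1
    simp only [eqB, e1, pick_right _ _ _ _ hn, Nat.zero_testBit, Bool.and_false,
      List.getD_eq_default _ _ (l1.trans_le (Nat.le_add_right _ n))] at this
    rw [l1]
    exact DV.copy (by simpa [cp] using this) (by simpa using hc)
  · exact DV.ok (by simpa [eqB, e1] using (o1 q hq (t + 1) h).1)
  · exact DV.ok (by simpa [eqB] using (o1 q hq t h).2.1)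
  · obtain ⟨u1, u2⟩ := hU ((M.sg a, k), j) (idx (il (M.sg a, k)))
    have e : ∀ n < (M.cl (M.sg a)).length + (M.rds (M.sg a, k)).length,
        nm (((M.sg a, k), (il (M.sg a, k)).map g), n) = num (M.wi (M.sg a)).length g n :=
      fun n h => by
        rw [hn]
        refine congrArg ofBits (List.map_congr_left fun i hi => ?_)
        have := List.idxOf_lt_length_of_mem ((mi (n, i)).2 ⟨h, List.mem_range.1 hi⟩)
        simp only
        rw [List.getD_eq_getElem _ _ (by simpa using this), List.getElem_map, List.getElem_idxOf]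
    rw [hv, u2 (fun z => r ((a, y), ren (((M.sg a, k), j, t), z), p)) ((il (M.sg a, k)).map g)
      (by simp) (fun i hi => ?_) fun z hz => ?_]
    · simp only [l1, List.length_map, idx]
      rw [List.map_congr_left fun n h => e n (by have := List.mem_range.1 h; omega),
        List.map_congr_left fun n h => e _ (by have := List.mem_range.1 h; omega)]
    · rw [List.length_map] at hi
      rw [List.getD_eq_getElem _ _ (by simpa using hi), List.getElem_map,
        ← hg _ (List.getElem_mem hi)]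
      simp [hr, eqB, hi]
    · have g0 : DOk (fun l => r ((a, y), l, p)) (k, 3, j, t, z) (t3 (((M.sg a, k), j, t), z)) :=
        DV.ok (by simpa [eqB] using o3 t h z hz)
      have g1 : ren (((M.sg a, k), j, t), z) = (k, 3, j, t, z) := by
        rw [hr, eqB_false_iff.2 (u1 z hz)]
        rfl
      rw [e3] at g0
      simpa only [DOk, Lv, g1, List.mem_map, forall_exists_index, and_imp,
        forall_apply_eq_imp_iff₂, exists_exists_and_eq_and] using g0
  · exact DV.ok (by simpa [eqB] using o4 0 (by omega) l h)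
  · refine DV.ok ?_
    have := o4 (c + 1) (by omega) l h
    by_cases e : l = 0 <;> simpa [eqB, e4, e] using this
  · exact DV.ok (by simpa [eqB] using o0)

end Pool.Agent.PP.QL
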