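import Pool.Agent.MP_13199e_lc.QL.Kit
import Pool.Agent.MP_13199e_lc.PP.F.Dnf

/-! PROJECT QL: local systems of keyed disjunctions with wires are plain circuits. -/

set_option autoImplicit false

namespace Pool.Agent.PP.QL

open Pool.Agent.MP_13199e_lc Pool.Agent.PolyT Pool.Agent.H82 F

namespace Mc

section
variable {P : Type} [DecidableEq P] {pts : List P} {n : ℕ} {G : P → ℕ → PGate}

/-- One block of `n` gates for each position. -/
def blk (pts : List P) (n : ℕ) (G : P → ℕ → PGate) : List PGate :=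
  pts.flatMap fun p => (List.range n).map (G p)

omit [DecidableEq P] in
theorem blk_len : (blk pts n G).length = pts.length * n := by
  simp [blk, List.length_flatMap]

theorem blk_get {p : P} (hp : p ∈ pts) {j : ℕ} (hj : j < n) :
    (blk pts n G)[pts.idxOf p * n + j]? = some (G p j) := by
  induction pts with
  | nil => cases hp
  | cons q l ih =>
    rw [blk, List.flatMap_cons]
    by_cases e : q = p
    · subst e
      rw [List.idxOf_cons_self, zero_mul, zero_add, List.getElem?_append_left (by simpa using hj)]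
      simp [hj]
    · rw [List.idxOf_cons_ne _ e, List.getElem?_append_right (by simp [Nat.succ_mul]; omega)]
      have := ih ((List.mem_cons.1 hp).resolve_left fun h => e h.symm)
      rw [blk] at this
      rw [← this]
      congr 1
      simp [Nat.succ_mul]
      omega

omit [DecidableEq P] in
theorem blk_fan (nd : pts.Nodup) (φ : PGate → ℕ)
    (h : ∀ j < n, ∀ p ∈ pts, ∀ q ∈ pts, φ (G p j) = φ (G q j) → p = q) (s : ℕ) :
    (blk pts n G).countP (fun g => φ g == s) ≤ n := by
  have e : blk pts n G = (pts ×ˢ List.range n).map fun x => G x.1 x.2 := by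
    change _ = (pts.flatMap fun p => (List.range n).map (Prod.mk p)).map _
    simp only [blk, List.map_flatMap, List.map_map]
    rfl
  rw [e, List.countP_map, List.countP_eq_length_filter, ← List.length_map Prod.snd]
  refine (List.subperm_of_subset (l₂ := List.range n) (List.Nodup.map_on ?_
    ((nd.product List.nodup_range).filter _)) ?_).length_le.trans (by simp)
  · rintro ⟨p, i⟩ h1 ⟨q, j⟩ h2 (rfl : i = j)
    simp only [List.mem_filter, List.mem_product, List.mem_range, Function.comp_apply,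
      beq_iff_eq] at h1 h2
    rw [h i h1.1.2 p h1.1.1 q h2.1.1 (h1.2.trans h2.2.symm)]
  · intro j hj
    obtain ⟨⟨p, i⟩, h1, rfl⟩ := List.mem_map.1 hj
    exact (List.mem_product.1 (List.mem_filter.1 h1).1).2

theorem blk_ok (ne : pts ≠ []) (nd : pts.Nodup) (hn : 0 < n)
    (h : ∀ j < n, ∃ (π : P → P) (c d : ℕ), c < n ∧ d < n ∧ (∀ p ∈ pts, π p ∈ pts) ∧
      (∀ p ∈ pts, ∀ q ∈ pts, π p = π q → p = q) ∧ ∀ p,
        (G p j).2.1.1 = pts.idxOf (π p) * n + c ∧ (G p j).2.2.1 = pts.idxOf (π p) * n + d) :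
    PWf (blk pts n G) ∧ FanLe (blk pts n G) n ∧ ∀ y, ∃ F : Set P,
      (F.ncard : ℝ) ≤ pviol (blk pts n G) y * (blk pts n G).length ∧ F.Finite ∧
      ∀ p ∈ pts, p ∉ F → ∀ j < n, Forc (tt (G p j).1) (rd (G p j).2.1.2 (val y (G p j).2.1.1))
        (rd (G p j).2.2.2 (val y (G p j).2.2.1)) (val y (pts.idxOf p * n + j)) := by
  have lt : ∀ p ∈ pts, ∀ c < n, pts.idxOf p * n + c < (blk pts n G).length := fun p hp c hc => by
    have := Nat.mul_le_mul_right n (List.idxOf_lt_length_of_mem hp)
    rw [Nat.succ_mul] at this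
    rw [blk_len]
    omega
  obtain ⟨p0, hp0⟩ := List.exists_mem_of_ne_nil _ ne
  have pos : 0 < (blk pts n G).length := (Nat.zero_le _).trans_lt (lt p0 hp0 0 hn)
  have inj : ∀ p ∈ pts, ∀ q c, pts.idxOf p * n + c = pts.idxOf q * n + c → p = q :=
    fun p hp q c e => (List.idxOf_inj hp).1 (Nat.eq_of_mul_eq_mul_right hn (Nat.add_right_cancel e))
  refine ⟨⟨List.length_pos_iff.1 pos, fun g hg => ?_⟩, fun s => ⟨?_, ?_⟩, fun y => ?_⟩
  · obtain ⟨p, hp, hg⟩ := List.mem_flatMap.1 hg
    obtain ⟨j, hj, rfl⟩ := List.mem_map.1 hg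
    obtain ⟨π, c, d, h1, h2, h3, -, h5⟩ := h j (List.mem_range.1 hj)
    rw [(h5 p).1, (h5 p).2]
    exact ⟨lt _ (h3 p hp) c h1, lt _ (h3 p hp) d h2⟩
  · refine blk_fan nd (fun g => g.2.1.1) (fun j hj p hp q hq e => ?_) s
    obtain ⟨π, c, d, -, -, h3, h4, h5⟩ := h j hj
    exact h4 p hp q hq (inj _ (h3 p hp) _ c (by rw [← (h5 p).1, ← (h5 q).1]; exact e))
  · refine blk_fan nd (fun g => g.2.2.1) (fun j hj p hp q hq e => ?_) s
    obtain ⟨π, c, d, -, -, h3, h4, h5⟩ := h j hj
    exact h4 p hp q hq (inj _ (h3 p hp) _ d (by rw [← (h5 p).2, ← (h5 q).2]; exact e))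
  · refine ⟨(fun i : Fin (blk pts n G).length => pts.getD (i / n) p0) ''
      {i | ¬POk (blk pts n G) (val y) i}, ?_, (Set.toFinite _).image _, fun p hp hF j hj => ?_⟩
    · rw [pviol, pr_eq_cn, Nat.card_fin, div_mul_cancel₀ _ (Nat.cast_ne_zero.2 pos.ne')]
      exact Nat.cast_le.2 (Set.ncard_image_le (Set.toFinite _))
    · have k : POk (blk pts n G) (val y) (pts.idxOf p * n + j) := by_contra fun k =>
        hF ⟨⟨_, lt p hp j hj⟩, k, by
          have := List.idxOf_lt_length_of_mem hp
          simp only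
          rw [mul_comm, Nat.mul_add_div hn, Nat.div_eq_of_lt hj, add_zero,
            List.getD_eq_getElem _ _ this, List.getElem_idxOf]⟩
      exact k _ (blk_get hp hj)

end

/-- The value `v` is the disjunction of `c` and of the terms of `L`. -/
def DV {K : Type} (x : K → V4) (v : V4) (L : List (Lt K × Lt K)) (c : Bool) : Prop :=
  ((c = true ∨ ∃ p ∈ L, Lv x p.1 true ∧ Lv x p.2 true) → v = ofB true) ∧
    (c = false → (∀ p ∈ L, Lv x p.1 false ∨ Lv x p.2 false) → v = ofB false)

theorem DV.ok {K : Type} {x : K → V4} {k : K} {L : List (Lt K × Lt K)} (h : DV x (x k) L false) :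
    DOk x k L := ⟨fun e => h.1 (Or.inr e), h.2 rfl⟩

theorem DV.cst {K : Type} {x : K → V4} {v : V4} {c : Bool} (h : DV x v [] c) : v = ofB c := by
  cases c
  exacts [h.2 rfl (by simp), h.1 (Or.inl rfl)]

theorem DV.copy {K : Type} {x : K → V4} {v : V4} {k : K} {fl b : Bool}
    (h : DV x v [((k, fl, true), (k, fl, true))] false) (e : rd fl (x k) = some b) : v = ofB b := by
  cases b
  · exact h.2 rfl (by simp [Lv, e])
  · exact h.1 (Or.inr (by simp [Lv, e]))

theorem dv_of {K : Type} (x : K → V4) (L : List (Lt K × Lt K)) (c : Bool) (A O : ℕ → V4)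
    (a : ∀ j (hj : j < L.length), Forc (fun u v => (u == L[j].1.2.2) && (v == L[j].2.2.2))
      (rd L[j].1.2.1 (x L[j].1.1)) (rd L[j].2.2.1 (x L[j].2.1)) (A j))
    (o : ∀ j < L.length, Forc or (rd false (A j)) (rd false (O (j + 1))) (O j))
    (z : O L.length = ofB c) : DV x (O 0) L c := by
  have up : ∀ j ≤ L.length, O j = ofB true → O 0 = ofB true := fun j => by
    induction j with
    | zero => exact fun _ e => e
    | succ j ih =>
      intro u e
      have := o j u
      rw [e, rd_ofB] at this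
      exact ih (by omega) (this.right fun _ => Bool.or_true _)
  constructor
  · rintro (rfl | ⟨p, hp, h1, h2⟩)
    · exact up _ le_rfl z
    obtain ⟨j, hj, rfl⟩ := List.getElem_of_mem hp
    have b := a j hj
    have c := o j hj
    rw [h1, h2] at b
    rw [b.pure, rd_ofB] at c
    exact up j hj.le (c.left fun _ => by simp)
  · rintro rfl hp
    have key : ∀ d j, j + d = L.length → O j = ofB false := fun d => by
      induction d with
      | zero => exact fun j e => (show j = L.length from e) ▸ z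
      | succ d ih =>
        intro j e
        have hj : j < L.length := by omega
        have b := a j hj
        have c := o j hj
        have f : A j = ofB false := by
          rcases hp _ (List.getElem_mem hj) with u | u <;> rw [u] at b
          · exact b.left fun _ => by simp
          · exact b.right fun _ => by simp
        rw [f, ih (j + 1) (by omega), rd_ofB] at c
        exact c.pure
    exact key _ 0 (Nat.zero_add _)

section
variable {K : Type} [DecidableEq K]

/-- The conjunction of two literals that are read in the block with the base `b`. -/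
def gand (Q : List (K × ℕ × Bool)) (b : ℕ) (t : Lt K × Lt K) : PGate :=
  ((!t.1.2.2 && !t.2.2.2, !t.1.2.2 && t.2.2.2, t.1.2.2 && !t.2.2.2, t.1.2.2 && t.2.2.2),
    (b + Q.idxOf (t.1.1, 0, true), t.1.2.1), (b + Q.idxOf (t.2.1, 0, true), t.2.2.1))

/-- The gate of a plain key; `b` is the base of the block, `b'` the base behind the wire. -/
def gate (Q : List (K × ℕ × Bool)) (b b' : ℕ) (c : Bool) (L : List (Lt K × Lt K))
    (q : K × ℕ × Bool) : PGate :=
  bif q.2.2 then bif ltB q.2.1 L.length then ((false, true, true, true),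
    (b + Q.idxOf (q.1, q.2.1, false), false), (b + Q.idxOf (q.1, q.2.1 + 1, true), false))
    else ((c, c, c, c), (b, false), (b, false))
  else gand Q b' (L.getD q.2.1 ((q.1, false, false), (q.1, false, false)))

end

end Mc

open Mc in
/-- Local systems: keys and terms depend on the small parameter only; the terms of a key are read
behind the wire of the key. -/
theorem locS (α S K P : Type) [N487b59b3 α] [N487b59b3 S] [N487b59b3 K] [N487b59b3 P]
    [DecidableEq K] [DecidableEq P] (sg : α → S) (dk : S → List K)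
    (tm : S × K → List (Lt K × Lt K)) (pts : α → List P) (mv : α × K × P → P)
    (cs : α × K × P → Bool) (p1 : Poly sg) (p2 : Poly dk) (p3 : Poly tm) (p4 : Poly pts)
    (p5 : Poly mv) (p6 : Poly cs) :
    ∃ (f : α → List PGate) (L : S → List Bool) (r : (α × List V4) × K × P → V4),
      Poly f ∧ Poly L ∧ Poly r ∧ ∀ a, pts a ≠ [] → (pts a).Nodup →
        (∀ k ∈ dk (sg a), (∀ p ∈ pts a, mv (a, k, p) ∈ pts a) ∧
          ∀ p ∈ pts a, ∀ q ∈ pts a, mv (a, k, p) = mv (a, k, q) → p = q) →
        PWf (f a) ∧ (f a).length = (pts a).length * (L (sg a)).length ∧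
        FanLe (f a) (L (sg a)).length ∧ ∀ y, ∃ F : Set P,
          (F.ncard : ℝ) ≤ pviol (f a) y * (f a).length ∧ F.Finite ∧
          ∀ p ∈ pts a, p ∉ F → ∀ k ∈ dk (sg a), DV (fun l => r ((a, y), l, mv (a, k, p)))
            (r ((a, y), k, p)) (tm (sg a, k)) (cs (a, k, p)) := by
  obtain ⟨Q, pQ, hQ⟩ : ∃ u : S → List (K × ℕ × Bool), Poly u ∧
      ∀ s, u s = Dnf.pk (dk s) fun k => tm (s, k) := ⟨_, by unfold Dnf.pk; fun_prop, fun _ => rfl⟩
  obtain ⟨L, pL, hL⟩ : ∃ u : S → List Bool, Poly u ∧ ∀ s, (u s).length = (Q s).length + 1 :=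
    ⟨fun s => true :: (Q s).map fun _ => true, by fun_prop, fun s => by simp⟩
  obtain ⟨bs, pb, hb⟩ : ∃ u : α × P → ℕ, Poly u ∧
      ∀ x, u x = (pts x.1).idxOf x.2 * (L (sg x.1)).length := ⟨_, by fun_prop, fun _ => rfl⟩
  obtain ⟨g, pg, hg⟩ : ∃ u : (α × P) × K × ℕ × Bool → PGate, Poly u ∧ ∀ x, u x =
      gate (Q (sg x.1.1)) (bs x.1) (bs (x.1.1, mv (x.1.1, x.2.1, x.1.2))) (cs (x.1.1, x.2.1, x.1.2))
        (tm (sg x.1.1, x.2.1)) x.2 := ⟨_, by unfold gate gand; fun_prop, fun _ => rfl⟩
  obtain ⟨G, pG, hG⟩ : ∃ u : (α × P) × ℕ → PGate, Poly u ∧ ∀ x, u x =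
      ((Q (sg x.1.1)).map fun q => g (x.1, q)).getD x.2
        ((false, false, false, false), (bs x.1, false), (bs x.1, false)) :=
    ⟨_, by fun_prop, fun _ => rfl⟩
  refine ⟨fun a => (pts a).flatMap fun p => (idx (L (sg a))).map fun j => G ((a, p), j), L,
    fun u => val u.1.2 (bs (u.1.1, u.2.2) + (Q (sg u.1.1)).idxOf (u.2.1, 0, true)), by fun_prop,
    pL, by unfold val; fun_prop, fun a ne nd hm => ?_⟩
  have il : ∀ q, (Q (sg a)).idxOf q < (L (sg a)).length := fun q => by
    rw [hL]
    exact Nat.lt_succ_of_le List.idxOf_le_length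
  have l0 : 0 < (L (sg a)).length := by rw [hL]; omega
  obtain ⟨k1, k2, k3⟩ := blk_ok (G := fun p j => G ((a, p), j)) ne nd l0 fun j _ => by
    by_cases e : j < (Q (sg a)).length
    · obtain ⟨q, hq, e1⟩ : ∃ q ∈ Q (sg a), ∀ p, G ((a, p), j) = g ((a, p), q) :=
        ⟨_, List.getElem_mem e, fun p => by
          rw [hG, List.getD_eq_getElem _ _ (by simpa using e), List.getElem_map]⟩
      have hk : q.1 ∈ dk (sg a) := by
        rw [hQ] at hq
        obtain ⟨k, hk, hq⟩ := List.mem_flatMap.1 hq
        obtain ⟨i, -, hq⟩ := List.mem_flatMap.1 hq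
        simp only [List.mem_cons, List.not_mem_nil, or_false] at hq
        rcases hq with rfl | rfl <;> exact hk
      simp only [e1, hg, gate, hb]
      cases q.2.2
      · exact ⟨fun p => mv (a, q.1, p), _, _, il _, il _, (hm _ hk).1, (hm _ hk).2,
          fun _ => ⟨rfl, rfl⟩⟩
      · cases ltB q.2.1 (tm (sg a, q.1)).length
        · exact ⟨id, 0, 0, l0, l0, fun _ h => h, fun _ _ _ _ h => h, fun _ => ⟨rfl, rfl⟩⟩
        · exact ⟨id, _, _, il _, il _, fun _ h => h, fun _ _ _ _ h => h, fun _ => ⟨rfl, rfl⟩⟩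
    · refine ⟨id, 0, 0, l0, l0, fun _ h => h, fun _ _ _ _ h => h, fun p => ?_⟩
      simp only [hG, hb]
      rw [List.getD_eq_default _ _ (by simpa using e)]
      exact ⟨rfl, rfl⟩
  refine ⟨k1, blk_len, k2, fun y => ?_⟩
  obtain ⟨F, f1, f2, f3⟩ := k3 y
  refine ⟨F, f1, f2, fun p hp hF k hk => ?_⟩
  have gt := fun j (hj : j ≤ (tm (sg a, k)).length) (b : Bool) => by
    have m : (k, j, b) ∈ Q (sg a) := hQ _ ▸ List.mem_flatMap.2 ⟨k, hk, List.mem_flatMap.2
      ⟨j, by simpa using hj.lt_or_eq, by cases b <;> simp⟩⟩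
    have := List.idxOf_lt_length_of_mem m
    have h := f3 p hp hF _ (il (k, j, b))
    simp only [hG] at h
    rw [List.getD_eq_getElem _ _ (by simpa using this), List.getElem_map, List.getElem_idxOf, hg,
      ← hb (a, p)] at h
    exact h
  refine dv_of _ _ _ (fun j => val y (bs (a, p) + (Q (sg a)).idxOf (k, j, false)))
    (fun j => val y (bs (a, p) + (Q (sg a)).idxOf (k, j, true))) (fun j hj => ?_)
    (fun j hj => ?_) ?_
  · have := gt j hj.le false
    simp only [gate, cond_false, List.getD_eq_getElem _ _ hj, gand] at this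
    convert this using 1
    generalize (tm (sg a, k))[j].1.2.2 = s
    generalize (tm (sg a, k))[j].2.2.2 = t
    revert s t
    decide
  · have := gt j hj.le true
    simp only [gate, cond_true, ltB_iff.2 hj] at this
    exact (tt_tab or) ▸ this
  · have := gt _ le_rfl true
    simp only [gate, cond_true, ltB_false_iff.2 le_rfl, cond_false] at this
    exact this _ fun a b _ _ => by cases a <;> cases b <;> rfl

end Pool.Agent.PP.QL
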