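import Pool.Agent.MP_13199e_lc.QL.Code

/-! PROJECT QL: the statements of the front end. -/

set_option autoImplicit false

namespace Pool.Agent.PP.QL

open Pool.Agent.MP_13199e_lc Pool.Agent.PolyT Function Finset Env

/-! ### The code -/

/-- BAS: the views are actions; rows and columns. -/
structure Bas (E : Env) : Prop where
  tr : ∀ (i : Fin E.D) (u : E.A × E.A), io (g u i) = lo i u + hi i u
  add : ∀ α β b : E.A, g (α + β, b) = g (α, b) + g (β, b)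
  zero : ∀ v (z : E.Z), vz v 0 z = z
  act : ∀ v (α β : E.A) z, vz v α (vz v β z) = vz v (α + β) z
  bij : ∀ v (α : E.A), Bijective (vz v α)
  bijw : ∀ σ l v (α : E.A), Bijective (vw σ l v α)
  bijf : ∀ l, Bijective (flp (E := E) l)
  row : ∀ l v (α : E.A) z y, mg l (vz v α z) y = vw false l v α (mg l z y)
  col : ∀ l v (α : E.A) z y, mg l z (vz v α y) = vw true l v α (mg l z y)
  lift : ∀ l (B : E.P → Prop), pr (fun x : E.Z × E.Z => B (mg l x.1 x.2)) = pr B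
  line : ∀ v (B : E.Z → Prop) z, ¬Dn v B z →
    pr (fun ρ : E.A => ∃ t : E.K, t ≠ 0 ∧ B (vz v (t • ρ) z)) < 1 / 2
  sl1 : ∀ B : E.P → Prop, pr (fun z : E.Z => B (z.1, z.2, 0)) ≤ E.q ^ 8 * pr B
  sl2 : ∀ B : E.P → Prop, pr (fun z : E.Z => B (z.1, 0, z.2)) ≤ E.q ^ 8 * pr B
  up : ∀ B : E.Z → Prop, pr (fun p : E.P => B (p.1, p.2.1)) = pr B
  near : ∀ B : ℕ → E.P → Prop, ∀ c : ℝ, (∀ l ≤ E.D, pr (B l) ≤ c) →
    pr (fun p => ∃ l ≤ E.D, ∃ r, Nr l p r ∧ B l r) ≤ E.q ^ 9 * c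
  qge : (1024 : ℝ) * E.D ^ 4 ≤ E.q ∧ (1000 : ℝ) ≤ E.D ∧ E.q ^ 100 ≤ 2 ^ E.D
  inj : ∀ x (c d : E.K), Is x c → Is x d → c = d

def BasS : Prop := ∀ E, Bas E

/-- MIX: the two views are almost independent. -/
def Mix (E : Env) : Prop :=
  ∀ B C : E.Z → Prop, (∀ α z, B (vz false α z) ↔ B z) → (∀ α z, C (vz true α z) ↔ C z) →
    pr (fun z => B z ∧ C z) ≤ pr B * pr C + (E.D / E.q) ^ 2 * √(pr B * pr C)

def MixS : Prop := ∀ E, Bas E → Mix E

/-- CON: self correction, distance, contraction. -/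
structure Con (E : Env) : Prop where
  self : ∀ B F : E.Z → Prop, (∀ z, B z → F z ∨ ∀ v, Dn v B z) → pr B ≤ E.sm 2 / 16 →
    pr B ≤ 2 * pr F
  dist : ∀ W W' : E.Z → E.K, Fx W → Fx W' → pr (fun z => W z ≠ W' z) ≤ E.sm 2 / 16 → W = W'
  con : ∀ (B B₁ B₂ F₁ F₂ : E.Z → Prop) (φ : ℝ), (∀ z, B₁ z → F₁ z ∨ Dn false B z) →
    (∀ z, B₂ z → F₂ z ∨ Dn true B₁ z) → pr B ≤ E.sm 2 / 16 → pr F₁ ≤ φ → pr F₂ ≤ φ →
    pr B₂ ≤ pr B / 4 + 5 * E.q * φ

def ConS : Prop := ∀ E, Bas E → Mix E → Con E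

/-- TAN: low degree words, code words and the code of the columns. -/
structure TanP (E : Env) : Prop where
  const : ∀ d (c : E.K), Tan d fun _ => c
  mono : ∀ d d' (W : E.Z → E.K), d ≤ d' → Tan d W → Tan d' W
  add : ∀ d (W W' : E.Z → E.K), Tan d W → Tan d W' → Tan d fun z => W z + W' z
  mul : ∀ d d' (W W' : E.Z → E.K), Tan d W → Tan d' W' → Tan (d + d') fun z => W z * W' z
  shift : ∀ d (W : E.Z → E.K) (x : Bv E.D), Tan d W → Tan d fun z => W (z.1 + x, z.2)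
  tf : ∀ l < E.D, Tan (E.D * 2 ^ E.e) (f (E := E) l)
  fx : ∀ W : E.Z → E.K, Tan (11 * (E.D ^ 2 * 2 ^ E.e)) W → Fx W
  enc : ∀ X : Bv E.D → E.K, Tan (E.D ^ 2 * 2 ^ E.e) (enc X)
  enc0 : ∀ (X : Bv E.D → E.K) x b, Env.enc X (x, 0, b) = X x
  encs : ∀ (X : Bv E.D → E.K) x δ u, Env.enc X (x + δ, u) = Env.enc (fun h => X (h + δ)) (x, u)
  c0 : ∀ l (k : E.K), Col l fun _ => k
  cadd : ∀ l (a b : E.Z → E.K), Col l a → Col l b → Col l fun y => a y + b y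
  cmul : ∀ l (k : E.K) (a : E.Z → E.K), Col l a → Col l fun y => k * a y
  ctan : ∀ l ≤ E.D, ∀ c : E.Z → E.K, Col l c → Tan (E.D ^ 2 * 2 ^ E.e) c
  cenc : ∀ c : E.Z → E.K, Col E.D c → c = Env.enc fun h => c (h, 0, 0)

def TanS : Prop := ∀ E, Bas E → TanP E

/-- IDEAL: the ideal words of a step. -/
def Ideal (E : Env) : Prop :=
  ∀ (T : ℕ → Bv E.D → Bool) (δ : ℕ → Bv E.D) (X : ℕ → Bv E.D → E.K), ∃ G : ℕ → E.P → E.K,
    (∀ p, G 0 p = pw (fun a => enP (fun h => bt (T a h)) p)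
      fun j => enc (X j) (p.1 + δ j, p.2.1)) ∧ (∀ p, Chk G p) ∧
    ∀ z : E.Z, G E.D (z.1, 0, z.2) = enc (sem T δ X) z

def IdealS : Prop := ∀ E, Bas E → TanP E → Ideal E

/-- STEP-C: a step computes and cleans, and its tests pass on clean inputs. -/
def StepC (E : Env) : Prop :=
  ∀ (T : ℕ → Bv E.D → Bool) (δ : ℕ → Bv E.D) (U : ℕ → E.Wd) (W : StepW E) (F : E.P → Prop)
    (X : ℕ → Bv E.D → E.K), pr F ≤ E.sm 200 → (∀ p, ¬F p → StepG T δ U W p) →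
    ((∀ j < 9, Cl (E.sm 11) (U j) (X j)) → Cl (E.sm 70) W.out (sem T δ X)) ∧
    ((∀ j < 9, Cl (E.sm 60) (U j) (X j)) → pr (fun p => W.tot p ≠ 3) ≤ E.sm 40)

def StepCS : Prop := ∀ E, Bas E → Con E → Ideal E → StepC E

/-- STEP-S: if the tests are rarely false then the output is close to a code word. -/
def StepS (E : Env) : Prop :=
  ∀ (T : ℕ → Bv E.D → Bool) (δ : ℕ → Bv E.D) (U : ℕ → E.Wd) (W : StepW E) (F : E.P → Prop),
    pr F ≤ E.sm 200 → (∀ p, ¬F p → StepG T δ U W p) → pr (fun p => W.tot p = 0) ≤ E.sm 30 →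
    ∃ X, Cl (E.sm 11) W.out X

def StepSS : Prop := ∀ E, Bas E → Con E → TanP E → StepS E

/-! ### The local line -/

/-- Arrays of `2 ^ m` cells, eight routes, tables with nine inputs. -/
structure Loc where
  dm : BCirc × BCirc → List Bool
  src : (BCirc × BCirc) × ℕ → List ℕ
  tb : (BCirc × BCirc) × ℕ × ℕ × List Bool → Bool
  y0 : (BCirc × BCirc) × ℕ → Bool
  dec : (BCirc × BCirc) × List Bool → List Bool

section
variable (L : Loc) (I : BCirc × BCirc)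

def Loc.Pol : Prop := Poly L.dm ∧ Poly L.src ∧ Poly L.tb ∧ Poly L.y0 ∧ Poly L.dec

/-- The map with the number `o`. -/
def Loc.ap (o : ℕ) (X : ℕ → Bool) (h : ℕ) : Bool :=
  L.tb (I, o, h, X h :: (List.range 8).map fun j => X ((L.src (I, j)).getD h 0))

structure Loc.Ok : Prop where
  len : ∀ j < 8, (L.src (I, j)).length = 2 ^ (L.dm I).length ∧
    ∀ s ∈ L.src (I, j), s < 2 ^ (L.dm I).length
  dead : ∀ h, 2 ^ (L.dm I).length ≤ h → L.y0 (I, h) = false ∧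
    ∀ o b l, L.tb (I, o, h, b :: l) = (decide (2 ≤ o) && b)
  line : T.LocP (fun i X => ∀ h, L.ap I (2 + i) X h = false) (L.ap I 0) (L.ap I 1)
    (fun h => L.y0 (I, h))
    fun X => EolSol I (L.dec (I, (List.range (2 ^ (L.dm I).length)).map X))

end

/-- LOC -/
def LocS : Prop :=
  ∀ m₀ : ℕ, ∃ (L : Loc) (c : ℕ), L.Pol ∧ ∀ I, EolInst I → L.Ok I ∧ m₀ ≤ (L.dm I).length ∧
    2 ^ (L.dm I).length ≤ c * sz I

/-! ### Registers and the whole system -/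

/-- The program follows the routes of the local line. -/
structure Prog.Of (N : Prog) (L : Loc) (I : BCirc × BCirc) : Prop where
  dr : ∀ τ, N.dr τ < (L.dm I).length + 2
  rt : ∀ j < 8, ∀ x < 2 ^ (L.dm I).length, walk N.dr (N.ctl j) x N.tm = (L.src (I, j)).getD x 0
  tb : ∀ o h l, N.tb o h l = L.tb (I, o, h, l)

/-- A state on all numbers. -/
def Env.ext {E : Env} (X : Bv E.D → Bool) (h : ℕ) : Bool :=
  decide (h < 2 ^ E.D) && X fun i => if h.testBit i then 1 else 0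

/-- The map with the number `o` on the states of the cube. -/
def Env.apB {E : Env} (L : Loc) (I : BCirc × BCirc) (o : ℕ) (X : Bv E.D → Bool) (h : Bv E.D) :
    Bool := L.ap I o (ext X) (nb h)

/-! ### Numbers -/

/-- The small parameter: the dimension and the size of the field in unary. -/
abbrev Sg : Type := List Bool × List Bool

/-- The code of a pair of vectors. -/
abbrev NA : Type := List ℕ × List ℕ

/-- The code of a position. -/
abbrev NP : Type := ℕ × NA × NA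

def Env.ca {E : Env} (a : E.A) : List ℕ := List.ofFn fun k => (E.cd (a k) : ℕ)

def Env.cu {E : Env} (u : E.A × E.A) : NA := (ca u.1, ca u.2)

def Env.cp {E : Env} (p : E.P) : NP := (nb p.1, cu p.2.1, cu p.2.2)

/-- The arithmetic of the code on numbers. -/
structure Num where
  mul : Sg × ℕ × ℕ → ℕ
  hi : Sg × ℕ × NA → ℕ
  g : Sg × NA → ℕ
  al : Sg → List (List ℕ)
  en : Sg × List Bool × ℕ × NA → ℕ

def Num.Pol (N : Num) : Prop := Poly N.mul ∧ Poly N.hi ∧ Poly N.g ∧ Poly N.al ∧ Poly N.en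

structure Num.Ok (N : Num) (σ : Sg) (E : Env) : Prop where
  dim : σ.1.length = E.D
  fld : σ.2.length = 2 ^ (2 * E.e)
  mul : ∀ a b, N.mul (σ, E.cd a, E.cd b) = E.cd (a * b)
  hi : ∀ l < E.D, ∀ u : E.A × E.A, N.hi (σ, l, cu u) = E.cd (Env.hi l u)
  g : ∀ u : E.A × E.A, N.g (σ, cu u) = nb (Env.g u)
  al : ∃ la : List E.A, N.al σ = la.map ca ∧ la.Nodup ∧ ∀ a, a ∈ la
  en : ∀ (t : List Bool) (z : E.Z), t.length = 2 ^ E.D →
    N.en (σ, t, nb z.1, cu z.2) = E.cd (enc (fun h => bt (t.getD (nb h) false)) z)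

/-- The laws of the codes. -/
structure Nb (E : Env) : Prop where
  lt : ∀ x : Bv E.D, nb x < 2 ^ E.D
  inj : Injective (nb (E := E))
  surj : ∀ n < 2 ^ E.D, ∃ x : Bv E.D, nb x = n
  bit : ∀ (x : Bv E.D) (i : Fin E.D), (nb x).testBit i = decide (x i ≠ 0)
  add : ∀ x y : Bv E.D, nb (x + y) = nb x ^^^ nb y
  zero : nb (0 : Bv E.D) = 0
  ue : ∀ l, nb (Env.ue l : Bv E.D) = uv E.D l
  lo : ∀ l (x : Bv E.D), nb (msk true l x) = nb x % 2 ^ l
  hi : ∀ l (x : Bv E.D), nb (msk false l x) = nb x / 2 ^ l * 2 ^ l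
  ext : ∀ (X : Bv E.D → Bool) h, Env.ext X (nb h) = X h
  cinj : Injective (ca (E := E))
  pinj : Injective (cp (E := E))
  cadd : ∀ a b : E.A, ca (a + b) = List.zipWith (· ^^^ ·) (ca a) (ca b)
  czero : ca (0 : E.A) = [0, 0, 0, 0]
  clen : ∀ a : E.A, (ca a).length = 4 ∧ ∀ n ∈ ca a, n < 2 ^ (2 * E.e)
  cmul : ∀ (N : Num) σ, N.Ok σ E → ∀ (t : E.K) (a : E.A),
    ca (t • a) = (ca a).map fun n => N.mul (σ, E.cd t, n)
  bt : ∀ b, (E.cd (Env.bt b) : ℕ) = b.toNat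

/-- NB -/
def NbS : Prop := ∀ E, Nb E

/-- REG: one register. -/
def RegS : Prop :=
  ∀ E, Bas E → Con E → TanP E → Nb E → StepC E → StepS E → ∀ (L : Loc) I (N : Prog), L.Ok I →
    E.D = (L.dm I).length + 2 → Prog.Of N L I → ∀ i < 4, ∀ (U : E.Wd) (W : RegW E)
    (F : E.P → Prop), pr F ≤ E.sm 200 → (∀ p, ¬F p → RegG N i U W p) →
    T.RegP Is enB (fun X => ∀ h, apB L I (2 + i) X h = false) (apB L I 0) (apB L I 1) (E.sm 32)
      (E.sm 70) (E.sm 60) U W.s2.out (W.ap 0).out (W.ap 1).out W.tv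

/-- The system holds a solution. -/
def Sys : Prop :=
  ∀ (E : Env) (L : Loc) I (N : Prog), L.Ok I → E.D = (L.dm I).length + 2 → Prog.Of N L I →
    ∀ (Γ : List E.P) (R : ℕ → RegW E) (Y : T.Lay E.P (ℕ → V4)) (F : E.P → Prop), Γ ≠ [] →
    Smp (fun σ : Fin Γ.length => Γ[σ]) (E.sm 72) → pr F ≤ E.sm 200 → Lnk R Y →
    (∀ p, ¬F p → SysG N (fun h => L.y0 (I, h)) Γ R Y p) →
    ∃ i < 4, ∃ X : Bv E.D → Bool, Cl (E.sm 70) (R i).s2.out (fun h => bt (X h)) ∧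
      EolSol I (L.dec (I, (List.range (2 ^ (L.dm I).length)).map (ext X)))

/-- SYS -/
def SysS : Prop :=
  (∀ E, Bas E ∧ Con E ∧ TanP E ∧ Nb E ∧ StepC E ∧ StepS E) → RegS → T.TopS → Sys

/-- NUM -/
def NumS : Prop :=
  FldS → ∃ N : Num, N.Pol ∧ ∀ (σ : Sg) (e : ℕ), σ.2.length = 2 ^ (2 * e) →
    32 * σ.1.length ^ 2 ≤ 2 ^ e → 200 * e ≤ σ.1.length → 1 ≤ e → ∃ E : Env, E.e = e ∧ N.Ok σ E

/-- SMP: the sampler. -/
def SamS : Prop :=
  ∀ N : Num, N.Pol → ∃ Γ : Sg → List NP, Poly Γ ∧ ∀ σ E, N.Ok σ E → Bas E → Nb E →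
    ∃ Γ' : List E.P, Γ σ = Γ'.map cp ∧ Γ' ≠ [] ∧ Smp (fun s : Fin Γ'.length => Γ'[s]) (E.sm 72)

/-- DEC: the decoder. -/
def DecS : Prop :=
  ∀ (α : Type) [N487b59b3 α] (N : Num) (sg : α → Sg) (big : α → List Bool) (w : α × ℕ × NA → ℕ),
    N.Pol → Poly sg → Poly big → Poly w → ∃ dc : α × ℕ → Bool, Poly dc ∧ ∀ a E,
      N.Ok (sg a) E → Bas E → Con E → TanP E → Nb E → (big a).length = 2 ^ E.D →
      ∀ X : Bv E.D → Bool, pr (fun z : E.Z => w (a, nb z.1, cu z.2) ≠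
        E.cd (enc (fun h => bt (X h)) z)) ≤ E.sm 2 / 16 → ∀ h, dc (a, nb h) = X h

/-- IMP: the system as a plain circuit. -/
def Imp : Prop :=
  ∀ (α : Type) [N487b59b3 α] (N : Num) (sg : α → Sg) (big : α → List Bool) (Γ : Sg → List NP)
    (tm : Sg → List Bool) (dr : Sg × ℕ → ℕ) (ctl : α × ℕ × ℕ × ℕ → Bool)
    (tb : α × ℕ × ℕ × List Bool → Bool) (y0 : α × ℕ → Bool), N.Pol → Poly sg → Poly big →
    Poly Γ → Poly tm → Poly dr → Poly ctl → Poly tb → Poly y0 →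
    ∃ (f : α → List PGate) (L : Sg → List Bool) (r : (α × List V4) × ℕ × NP × ℕ → V4),
      Poly f ∧ Poly L ∧ Poly r ∧ ∀ a E, N.Ok (sg a) E → Bas E → Nb E → (big a).length = 2 ^ E.D →
        ∀ Γ' : List E.P, Γ (sg a) = Γ'.map cp → Γ' ≠ [] → PWf (f a) ∧
          (f a).length = 2 ^ E.D * (2 ^ (2 * E.e)) ^ 16 * (L (sg a)).length ∧
          FanLe (f a) (L (sg a)).length ∧ ∀ y, ∃ (F : E.P → Prop) (R : ℕ → RegW E)
            (Y : T.Lay E.P (ℕ → V4)), pr F ≤ pviol (f a) y * (L (sg a)).length ∧ Lnk R Y ∧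
            (∀ p, ¬F p → SysG ⟨(tm (sg a)).length, fun τ => dr (sg a, τ),
              fun j τ h => ctl (a, j, τ, h), fun o h l => tb (a, o, h, l)⟩
              (fun h => y0 (a, h)) Γ' R Y p) ∧
            ∀ i < 4, ∀ p j, (R i).s2.out p j = r ((a, y), i, cp p, j)

def ImpS : Prop := MacS → Imp

/-- BASE: the parameters, the sizes and the decoder. -/
def BaseS : Prop :=
  (∀ E, Bas E ∧ Con E ∧ TanP E ∧ Nb E) → FldS → NumS → RouteS → LocS → SamS → DecS → Imp → Sys →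
    QBase

theorem qbase_of (h1 : BasS) (h2 : MixS) (h3 : ConS) (h4 : TanS) (h5 : IdealS) (h6 : StepCS)
    (h7 : StepSS) (h8 : RegS) (h9 : T.TopS) (h10 : SysS) (h11 : NbS) (h12 : NumS) (h13 : SamS)
    (h14 : DecS) (h15 : ImpS) (h16 : BaseS) (k1 : FldS) (k2 : RouteS) (k3 : LocS) (k4 : MacS) :
    QBase := by
  have c := fun E => h3 E (h1 E) (h2 E (h1 E))
  have t := fun E => h4 E (h1 E)
  exact h16 (fun E => ⟨h1 E, c E, t E, h11 E⟩) k1 h12 k2 k3 h13 h14 (h15 k4)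
    (h10 (fun E => ⟨h1 E, c E, t E, h11 E, h6 E (h1 E) (c E) (h5 E (h1 E) (t E)),
      h7 E (h1 E) (c E) (t E)⟩) h8 h9)

end Pool.Agent.PP.QL
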