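import Pool.Agent.MP_13199e_lc.PP.D.Four
import Pool.Agent.MP_13199e_lc.PP.C.Smp
import Pool.Agent.MP_13199e_lc.QL.Spec

/-! PROJECT QL: the two views are almost independent. -/

set_option autoImplicit false

namespace Pool.Agent.PP.QL

open D hiding sg add_self
open SmpE (sg sg_add sg_sq z2)

namespace Mx

/-- A kernel of characters with few collisions is a contraction. -/
theorem ker_le {A B : Type} [Finite A] [Finite B] [Nonempty A] [Nonempty B] (k : A → B → ℝ)
    (R : B → B → Prop) (c : ℝ) (hk : ∀ b b', av (fun a => k a b * k a b') = ind (R b b'))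
    (hs : ∀ b b', R b b' → R b' b) (hc : ∀ b, pr (R b) ≤ c) (u : B → ℝ) :
    av (fun a => av (fun b => u b * k a b) ^ 2) ≤ c * av fun b => u b ^ 2 := by
  have e : ∀ a, av (fun b => u b * k a b) ^ 2 =
      av fun b => av fun b' => u b * u b' * (k a b * k a b') := fun a => by
    rw [sq, ← av_mul']
    refine av_congr fun b => ?_
    rw [← av_mul]
    exact av_congr fun b' => by ring
  simp only [e]
  rw [av_comm]
  have e2 : ∀ b, av (fun a => av fun b' => u b * u b' * (k a b * k a b')) =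
      av fun b' => u b * u b' * ind (R b b') := fun b => by
    rw [av_comm]
    exact av_congr fun b' => by rw [av_mul, hk]
  simp only [e2]
  have h1 : av (fun b => av fun b' => u b ^ 2 * ind (R b b')) ≤ c * av fun b => u b ^ 2 := by
    rw [← av_mul]
    refine av_mono fun b => ?_
    rw [av_mul, mul_comm]
    exact mul_le_mul_of_nonneg_right (hc b) (sq_nonneg _)
  have h2 : av (fun b => av fun b' => u b' ^ 2 * ind (R b b')) ≤ c * av fun b => u b ^ 2 := by
    rw [av_comm]
    refine le_trans (av_mono fun b => av_mono fun b' => ?_) h1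
    exact mul_le_mul_of_nonneg_left (ind_mono (hs _ _)) (sq_nonneg _)
  have h3 : av (fun b => av fun b' => u b * u b' * ind (R b b')) ≤ av fun b => av fun b' =>
      (u b ^ 2 * ind (R b b') + u b' ^ 2 * ind (R b b')) / 2 :=
    av_mono fun b => av_mono fun b' => by
      nlinarith [mul_nonneg (ind_nonneg (R b b')) (sq_nonneg (u b - u b'))]
  simp only [av_div, av_add] at h3
  linarith

theorem core {F V A B : Type} [Field F] [Finite F] [AddCommGroup V] [Module F V] [Finite V]
    [Finite A] [Finite B] [Nonempty A] [Nonempty B] {ψ : F → ℝ} (h : Chi ψ) (g : A → B → V)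
    {lam : ℝ} (h0 : 0 ≤ lam) (hg : ∀ ξ : Module.Dual F V, ξ ≠ 0 → ∀ u : B → ℝ,
      av (fun a => av (fun b => u b * ψ (ξ (g a b))) ^ 2) ≤ lam ^ 2 * av fun b => u b ^ 2)
    (f : B → V → ℝ) (f' : A → V → ℝ) :
    av (fun a => av fun b => av fun x => f b (x + g a b) * f' a x) ≤
      av (fun b => av (f b)) * av (fun a => av (f' a)) +
        lam * (√(av fun b => av fun x => f b x ^ 2) * √(av fun a => av fun x => f' a x ^ 2)) := by
  classical
  have : Finite (Module.Dual F V) := Nat.finite_of_card_ne_zero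
    (by rw [Four.card_dual]; exact Nat.card_pos.ne')
  have := Fintype.ofFinite (Module.Dual F V)
  have par : ∀ u : V → ℝ, av (fun x => u x ^ 2) = ∑ ξ : Module.Dual F V, fh ψ u ξ ^ 2 :=
    fun u => by simp only [sq, fouS F V ψ h]
  simp only [fouS F V ψ h, Four.fh_shift h, par, av_sum]
  rw [← Finset.add_sum_erase _ _ (Finset.mem_univ (0 : Module.Dual F V))]
  refine add_le_add (le_of_eq ?_) ?_
  · simp only [fh, LinearMap.zero_apply, h.zero, mul_one, av_mul, av_mul']
  refine le_trans ?_ (mul_le_mul_of_nonneg_left (Real.sum_sqrt_mul_sqrt_le _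
    (fun ξ => av_nonneg fun _ => sq_nonneg _) fun ξ => av_nonneg fun _ => sq_nonneg _) h0)
  rw [Finset.mul_sum]
  refine (Finset.sum_le_sum fun ξ hξ => ?_).trans (Finset.sum_le_sum_of_subset_of_nonneg
    (Finset.erase_subset _ _) fun _ _ _ => by positivity)
  simp only [av_mul']
  refine (Real.le_sqrt_of_sq_le ((av_cs _ _).trans (mul_le_mul_of_nonneg_right
    (hg ξ (Finset.ne_of_mem_erase hξ) _) (av_nonneg fun _ => sq_nonneg _)))).trans_eq ?_
  rw [Real.sqrt_mul' _ (av_nonneg fun _ => sq_nonneg _), Real.sqrt_mul (sq_nonneg _),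
    Real.sqrt_sq h0, mul_assoc]

theorem av_pi {κ α : Type} [Fintype κ] [Finite α] (f : κ → α → ℝ) :
    av (fun a : κ → α => ∏ k, f k (a k)) = ∏ k, av (f k) := by
  classical
  have := Fintype.ofFinite α
  simp only [av_eq, Finset.prod_div_distrib, Finset.prod_univ_sum, Fintype.piFinset_univ]
  simp

theorem chi_sg {F : Type} [Field F] (β : F →+ ZMod 2) (h : ∃ z, β z ≠ 0) :
    Chi fun z => sg (β z) :=
  ⟨fun x y => by rw [map_add, sg_add], fun _ => sg_sq _, h.imp fun x hx => by
    rw [sg, if_neg hx]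
    norm_num⟩

section
variable {K : Type} [Field K] [Finite K]

theorem roots_le {ι : Type} (S : Finset ι) (hS : S.Nonempty) (n : ι → ℕ)
    (hn : Function.Injective n) (h0 : ∀ i, n i ≠ 0) {D : ℕ} (hD : ∀ i ∈ S, n i ≤ D) (c : K) :
    cn (fun y : K => ∑ i ∈ S, y ^ n i = c) ≤ D := by
  classical
  have := Fintype.ofFinite K
  obtain ⟨j, hj⟩ := hS
  let p : Polynomial K := ∑ i ∈ S, Polynomial.X ^ n i - Polynomial.C c
  have p0 : p ≠ 0 := fun e => by
    have := congrArg (Polynomial.coeff · (n j)) e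
    simp only [p, Polynomial.coeff_sub, Polynomial.finsetSum_coeff, Polynomial.coeff_X_pow,
      Polynomial.coeff_C, h0 j, if_false, sub_zero, Polynomial.coeff_zero, hn.eq_iff] at this
    simp [hj] at this
  have pd : p.natDegree ≤ D := (Polynomial.natDegree_sub_le _ _).trans (max_le
    (Polynomial.natDegree_sum_le_of_forall_le _ _ fun i hi =>
      (Polynomial.natDegree_X_pow_le _).trans (hD i hi)) (by simp))
  rw [cn_eq]
  refine (Polynomial.card_le_degree_of_subset_roots fun y hy => ?_).trans pd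
  rw [Polynomial.mem_roots p0]
  simpa [p, Polynomial.eval_finsetSum, sub_eq_zero] using hy

variable [CharP K 2]

theorem form {ι κ : Type} [Fintype ι] [Fintype κ] (β : K →+ ZMod 2) (e : ℕ)
    (n : ι → ℕ) (hn : Function.Injective n) (h0 : ∀ i, n i ≠ 0) {D : ℕ} (hD : ∀ i, n i ≤ D)
    (ξ : Module.Dual (ZMod 2) (ι → ZMod 2)) (hξ : ξ ≠ 0) : ∃ P : K → K,
    (∀ c, av (fun y => ind (c = P y)) ≤ (D : ℝ) / Nat.card K) ∧ ∀ a b : κ → K,
      (ξ fun i => β (∑ k, a k * b k ^ (2 ^ e * n i))) = β (∑ k, a k * P (b k)) := by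
  classical
  let S : Finset ι := Finset.univ.filter fun i => ξ (Pi.single i 1) = 1
  have hx : ∀ v, ξ v = ∑ i ∈ S, v i := fun v => by
    rw [LinearMap.pi_apply_eq_sum_univ, Finset.sum_filter]
    refine Finset.sum_congr rfl fun i _ => ?_
    have : (fun j => if i = j then (1 : ZMod 2) else 0) = Pi.single i 1 := by
      funext j
      simp [Pi.single_apply, eq_comm]
    rw [this]
    rcases z2 (ξ (Pi.single i 1)) with a | a <;> simp [a]
  have hS : S.Nonempty := Finset.nonempty_iff_ne_empty.2 fun k =>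
    hξ (LinearMap.ext fun v => by rw [hx, k]; rfl)
  refine ⟨fun y => ∑ i ∈ S, (y ^ 2 ^ e) ^ n i, fun c => ?_, fun a b => ?_⟩
  · have bj : Function.Bijective fun y : K => y ^ 2 ^ e :=
      Finite.injective_iff_bijective.1 (iterateFrobenius K 2 e).injective
    rw [← pr, pr_bij bj fun w => c = ∑ i ∈ S, w ^ n i, pr_eq_cn]
    simp only [eq_comm (a := c)]
    exact div_le_div_of_nonneg_right
      (Nat.cast_le.2 (roots_le S hS n hn h0 (fun i _ => hD i) _)) (Nat.cast_nonneg _)
  · simp only [hx, ← map_sum, Finset.mul_sum, pow_mul]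
    rw [Finset.sum_comm]

omit [CharP K 2] in
theorem orthv {κ : Type} [Fintype κ] (β : K →+ ZMod 2) (h : ∃ z, β z ≠ 0) (w : κ → K) :
    av (fun a : κ → K => sg (β (∑ k, a k * w k))) = ∏ k, ind (w k = 0) := by
  classical
  have c := chi_sg β h
  have : ∀ a : κ → K, sg (β (∑ k, a k * w k)) = ∏ k, sg (β (a k * w k)) := fun a =>
    Finset.induction_on Finset.univ c.zero fun k t hk ih => by
      rw [Finset.sum_insert hk, Finset.prod_insert hk, c.add, ih]
  simp only [this]
  rw [av_pi fun k y => sg (β (y * w k))]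
  simp only [c.av_mul]

omit [Field K] [CharP K 2] in
theorem fib {κ : Type} [Fintype κ] {P : K → K} {r : ℝ} (hP : ∀ c, av (fun y => ind (c = P y)) ≤ r)
    (c : κ → K) : av (fun b : κ → K => ∏ k, ind (c k = P (b k))) ≤ r ^ Fintype.card κ := by
  rw [av_pi fun k y => ind (c k = P y), ← Finset.card_univ, ← Finset.prod_const]
  exact Finset.prod_le_prod (fun _ _ => pr_nonneg _) fun k _ => hP _

theorem bias {κ : Type} [Fintype κ] (β : K →+ ZMod 2) (h : ∃ z, β z ≠ 0) {P : K → K} {r : ℝ}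
    (hP : ∀ c, av (fun y => ind (c = P y)) ≤ r) (u : (κ → K) → ℝ) :
    av (fun a : κ → K => av (fun b => u b * sg (β (∑ k, a k * P (b k)))) ^ 2) ≤
      r ^ Fintype.card κ * av fun b => u b ^ 2 := by
  classical
  have ip : ∀ r : κ → Prop, ind (∀ k, r k) = ∏ k, ind (r k) := fun r => by
    simp only [ind, Finset.prod_ite_zero, Finset.prod_const_one, Finset.mem_univ, true_imp_iff]
    congr
  refine ker_le (fun a b : κ → K => sg (β (∑ k, a k * P (b k))))
    (fun b b' => ∀ k, P (b k) = P (b' k)) _ (fun b b' => ?_)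
    (fun _ _ r k => (r k).symm) (fun b => ?_) u
  · simp only [← sg_add, ← map_add, ← Finset.sum_add_distrib, ← mul_add, orthv β h,
      CharTwo.add_eq_zero, ip]
  · simp only [pr, ip]
    exact fib hP _

theorem tr_bit {n : ℕ} (hq : Nat.card K = 2 ^ n) (z : K) :
    ∑ u ∈ Finset.range n, z ^ 2 ^ u = 0 ∨ ∑ u ∈ Finset.range n, z ^ 2 ^ u = 1 := by
  have := Fintype.ofFinite K
  have e : (∑ u ∈ Finset.range n, z ^ 2 ^ u) ^ 2 = ∑ u ∈ Finset.range n, z ^ 2 ^ u := by
    have a := Finset.sum_range_succ' (fun u => z ^ 2 ^ u) n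
    rw [Finset.sum_range_succ, ← hq, Nat.card_eq_fintype_card, FiniteField.pow_card, pow_zero,
      pow_one, add_left_inj] at a
    rw [sum_pow_char 2]
    simpa only [pow_succ, pow_mul] using a.symm
  exact IsIdempotentElem.iff_eq_zero_or_one.1 ((sq _).symm.trans e)

omit [CharP K 2] in
theorem tr_ne {n : ℕ} (hn : n ≠ 0) (hq : Nat.card K = 2 ^ n) :
    ∃ z : K, ∑ u ∈ Finset.range n, z ^ 2 ^ u ≠ 0 := by
  obtain ⟨n, rfl⟩ := Nat.exists_eq_succ_of_ne_zero hn
  by_contra k
  have := roots_le (K := K) (Finset.range (n + 1)) (by simp) (2 ^ ·)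
    (Nat.pow_right_injective le_rfl) (fun i => by positivity) (D := 2 ^ n)
    (fun i hi => Nat.pow_le_pow_right two_pos (Nat.lt_succ_iff.1 (Finset.mem_range.1 hi))) 0
  rw [cn, Nat.card_congr (Equiv.subtypeUnivEquiv fun z => by_contra fun u => k ⟨z, u⟩), hq]
    at this
  have := Nat.two_pow_pos n
  omega

end

theorem sets {F V A B : Type} [Field F] [Finite F] [AddCommGroup V] [Module F V] [Finite V]
    [Finite A] [Finite B] [Nonempty A] [Nonempty B] {ψ : F → ℝ} (h : Chi ψ) (g : A → B → V)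
    {lam : ℝ} (h0 : 0 ≤ lam) (hg : ∀ ξ : Module.Dual F V, ξ ≠ 0 → ∀ u : B → ℝ,
      av (fun a => av (fun b => u b * ψ (ξ (g a b))) ^ 2) ≤ lam ^ 2 * av fun b => u b ^ 2)
    (p q : V × A × B → Prop) (p' : B → V → Prop) (q' : A → V → Prop)
    (hp : ∀ x a b, p (x, a, b) ↔ p' b (x + g a b)) (hq : ∀ x a b, q (x, a, b) ↔ q' a x) :
    pr (fun z => p z ∧ q z) ≤ pr p * pr q + lam * √(pr p * pr q) := by
  have e : ∀ f : V × A × B → ℝ, av f = av fun a => av fun b => av fun x => f (x, a, b) :=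
    fun f => by rw [av_prod', av_prod]
  have i2 : ∀ r : Prop, ind r ^ 2 = ind r := fun r => by rw [sq, ← ind_and, and_self]
  have := core h g h0 hg (fun b x => ind (p' b x)) fun a x => ind (q' a x)
  have e1 : pr p = av fun b => av fun x => ind (p' b x) := by
    rw [pr, e]
    simp only [hp, fun b => av_shift fun x => ind (p' b x), av_const]
  have e2 : pr q = av fun a => av fun x => ind (q' a x) := by
    rw [pr, e]
    simp only [hq, av_const]
  simp only [i2, ← e1, ← e2] at this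
  rw [Real.sqrt_mul (pr_nonneg _), pr, e]
  simpa only [hp, hq, ind_and] using this

/-- The trace as a bit. -/
theorem exists_bit (E : Env) : ∃ β : E.K →+ ZMod 2, (∃ z, β z ≠ 0) ∧ ∀ a b : E.A,
    Env.g (a, b) = fun i : Fin E.D => β (∑ k, a k * b k ^ (2 ^ E.e * ((i : ℕ) + 1))) := by
  have hq : Nat.card E.K = 2 ^ (2 * E.e) := by rw [Nat.card_eq_fintype_card, E.card_K]
  have hn : 2 * E.e ≠ 0 := fun k => by
    have := Finite.one_lt_card (α := E.K)
    rw [hq, k] at this
    exact lt_irrefl _ this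
  refine ⟨AddMonoidHom.mk' (fun z => if ∑ u ∈ Finset.range (2 * E.e), z ^ 2 ^ u = 0 then 0 else 1)
    fun x y => ?_, (tr_ne hn hq).imp fun z hz => by simp [hz], fun a b => funext fun i => ?_⟩
  · simp only [add_pow_char_pow, Finset.sum_add_distrib]
    rcases tr_bit hq x with u | u <;> rcases tr_bit hq y with v | v <;>
      simp [u, v, E.add_self, show (1 + 1 : ZMod 2) = 0 from rfl]
  · simp only [AddMonoidHom.mk'_apply, Env.g, Env.hi, Env.lo, two_mul, Finset.sum_range_add]
    rw [sum_pow_char_pow]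
    simp only [← pow_mul, ← pow_add, add_comm E.e]

theorem g_form (E : Env) (ξ : Module.Dual (ZMod 2) (Bv E.D)) (hξ : ξ ≠ 0) :
    ∃ (β : E.K →+ ZMod 2) (P : E.K → E.K), (∃ z, β z ≠ 0) ∧
      (∀ c, av (fun y => ind (c = P y)) ≤ E.D / E.q) ∧
      ∀ a b : E.A, ξ (Env.g (a, b)) = β (∑ k, a k * P (b k)) := by
  obtain ⟨β, h, hg⟩ := exists_bit E
  obtain ⟨P, h1, h2⟩ := form (κ := Fin 4) β E.e (fun i : Fin E.D => (i : ℕ) + 1)
    (fun i j k => Fin.ext (by simpa using k)) (fun _ => Nat.succ_ne_zero _) (fun i => i.2) ξ hξ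
  refine ⟨β, P, h, fun c => (h1 c).trans_eq ?_, fun a b => by rw [hg, h2]⟩
  rw [Nat.card_eq_fintype_card, E.card_K, Env.q]
  norm_num

end Mx

/-- The bias of the shifts. -/
theorem g_bias (E : Env) (ξ : Module.Dual (ZMod 2) (Bv E.D)) (hξ : ξ ≠ 0) :
    |av fun u : E.A × E.A => sg (ξ (Env.g u))| ≤ (E.D / E.q) ^ 4 := by
  obtain ⟨β, P, h, h1, h2⟩ := Mx.g_form E ξ hξ
  rw [av_prod']
  simp only [h2, Mx.orthv β h]
  rw [abs_of_nonneg (av_nonneg fun _ => Finset.prod_nonneg fun _ _ => ind_nonneg _)]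
  simpa only [eq_comm (b := (0 : E.K)), Fintype.card_fin] using Mx.fib (κ := Fin 4) h1 fun _ => 0

theorem mixS : MixS := fun E _ B C hB hC => by
  have z : ∀ a : E.A, a + a = 0 := fun a => funext fun k => E.add_self _
  refine Mx.sets (Mx.chi_sg (AddMonoidHom.id _) ⟨1, one_ne_zero⟩) (fun a b => Env.g (a, b))
    (sq_nonneg _) (fun ξ hξ u => ?_) B C (fun b x => B (x, 0, b)) (fun a x => C (x, a, 0))
    (fun x a b => ?_) fun x a b => ?_
  · obtain ⟨β, P, h, h1, h2⟩ := Mx.g_form E ξ hξ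
    simp only [h2, ← pow_mul]
    exact Mx.bias β h h1 u
  · rw [← hB a, ← z a]
    rfl
  · rw [← hC b, ← z b]
    rfl

end Pool.Agent.PP.QL
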