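import Pool.Agent.MP_13199e_lc.QDefs
import Pool.Agent.MP_13199e_lc.PP.G.Base
import Pool.Agent.MP_13199e_lc.PP.G.Kit

/-! PROJECT QL (quasilinear PCP for PPAD): the models and the statements of the blocks. -/

set_option autoImplicit false

namespace Pool.Agent.PP.QL

open Pool.Agent.MP_13199e_lc Pool.Agent.PolyT Function

/-- The logarithm. -/
def lg (n : ℕ) : ℕ := n.size + 2

/-- The goal. -/
def QuasiPCP : Prop :=
  ∃ (ε δ : ℚ) (c : ℕ), 0 < ε ∧ 0 < δ ∧ QReduces c (fun _ => True) (GSol ε δ)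

/-- The optimal gap form. -/
def QuasiOpt : Prop := ∀ η : ℚ, 0 < η → ∃ (s : ℕ) (ε : ℚ) (c : ℕ), 0 < s ∧ 0 < ε ∧
  QReduces c (fun C => s ∣ C.length) (BSol ε η s)

/-! ### Plain circuits -/

/-- Each node is read at most `L` times through each port. -/
def FanLe (C : List PGate) (L : ℕ) : Prop :=
  ∀ s, C.countP (fun g => g.2.1.1 == s) ≤ L ∧ C.countP (fun g => g.2.2.1 == s) ≤ L

/-- FRONT END: quasilinear size, polylogarithmic fan-out and gap. -/
def QBase : Prop :=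
  ∃ (c : ℕ) (f : BCirc × BCirc → List PGate) (u : BCirc × BCirc → List Bool)
    (g : (BCirc × BCirc) × List V4 → List Bool), Poly f ∧ Poly u ∧ Poly g ∧ ∀ I, EolInst I →
      PWf (f I) ∧ (f I).length ≤ sz I * lg (sz I) ^ c ∧ (u I).length ≤ lg (sz I) ^ c ∧
      FanLe (f I) (u I).length ∧
      ∀ y, (u I).length * pviol (f I) y ≤ 1 → EolSol I (g (I, y))

/-- BACK END: from the gap `1 / u.length` to a constant gap. -/
def QGap : Prop :=
  ∃ (δ : ℝ) (c : ℕ) (f : List PGate × List Bool → List PGate)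
    (g : (List PGate × List Bool) × List V4 → List V4), 0 < δ ∧ Poly f ∧ Poly g ∧
    ∀ C u, PWf C → PWf (f (C, u)) ∧
      (f (C, u)).length ≤ C.length * (u.length + lg C.length) ^ c ∧
      (FanLe C u.length → ∀ y, pviol (f (C, u)) y ≤ δ → u.length * pviol C (g ((C, u), y)) ≤ 1)

/-- FIN: the assembly. -/
def FinS : Prop := QBase → QGap → QuasiPCP ∧ QuasiOpt

/-! ### Routing in the cube -/

/-- The walk that is steered by `ctl`. -/
def walk (dr : ℕ → ℕ) (ctl : ℕ → ℕ → Bool) (x : ℕ) : ℕ → ℕ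
  | 0 => x
  | τ + 1 => walk dr ctl x τ ^^^ bif ctl τ (walk dr ctl x τ) then 2 ^ dr τ else 0

/-- ROUTE: every map of the cube of dimension `m` is routed in the cube of dimension `m + 2`. -/
def RouteS : Prop :=
  ∃ (tm : List Bool → List Bool) (dr : List Bool × ℕ → ℕ)
    (ctl : (List Bool × List ℕ) × ℕ × ℕ → Bool), Poly tm ∧ Poly dr ∧ Poly ctl ∧ ∀ u,
      (∀ τ, dr (u, τ) < u.length + 2) ∧ ∀ src : List ℕ, src.length = 2 ^ u.length →
        (∀ s ∈ src, s < 2 ^ u.length) → ∀ x < 2 ^ u.length,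
          walk (fun τ => dr (u, τ)) (fun τ y => ctl ((u, src), τ, y)) x (tm u).length =
            src.getD x 0

/-! ### Circuits on the cube -/

/-- A read: layer, flag, direction (or letter). -/
abbrev Rd : Type := ℕ × Bool × ℕ

/-- The dimension in unary; for each layer two reads and a truth table for each point. -/
abbrev TC : Type := List Bool × List (Rd × Rd × List T4)

/-- The unit vector `j`, or zero. -/
def uv (m j : ℕ) : ℕ := if j < m then 2 ^ j else 0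

def TWf (X : TC) : Prop := X.2 ≠ [] ∧ ∀ g ∈ X.2,
  g.1.1 < X.2.length ∧ g.2.1.1 < X.2.length ∧ g.2.2.length = 2 ^ X.1.length

/-- The gate of the layer `l` at the point `y` is satisfied. -/
def TOk (X : TC) (x : ℕ → ℕ → V4) (y l : ℕ) : Prop :=
  ∀ g, X.2[l]? = some g → Forc (tt (g.2.2.getD y default))
    (rd g.1.2.1 (x g.1.1 (y ^^^ uv X.1.length g.1.2.2)))
    (rd g.2.1.2.1 (x g.2.1.1 (y ^^^ uv X.1.length g.2.1.2.2))) (x l y)

/-- A table as an assignment. -/
def val2 (z : List (List V4)) (l y : ℕ) : V4 := (z.getD l []).getD y 0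

/-- The fraction of the points with a violated gate. -/
noncomputable def tviol (X : TC) (z : List (List V4)) : ℝ :=
  pr fun y : Fin (2 ^ X.1.length) => ∃ l, ¬TOk X (val2 z) y l

/-- The gap theorem for circuits on the cube. -/
def TGap : Prop :=
  ∃ (δ : ℝ) (c : ℕ) (f : TC × List Bool → List PGate)
    (g : (TC × List Bool) × List V4 → List (List V4)), 0 < δ ∧ Poly f ∧ Poly g ∧
    ∀ X u, TWf X → PWf (f (X, u)) ∧
      (f (X, u)).length ≤ 2 ^ X.1.length * (u.length + X.1.length + X.2.length + 2) ^ c ∧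
      ∀ y, pviol (f (X, u)) y ≤ δ → u.length * tviol X (g ((X, u), y)) ≤ 1

/-- PTC: from plain circuits to circuits on the cube. -/
def PtcS : Prop := RouteS → TGap → QGap

/-! ### The net in a tower -/

section
variable {Mv Λ Z : Type}

/-- A word of letters. -/
def lrun (mv : Mv → Z → Z) (wd : ℕ → List Mv) (l : List ℕ) (z : Z) : Z :=
  run (fun a => run mv (wd a)) l z

/-- Two commuting trees and letters; the letter `1` commutes with the tree `false`, the other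
letters commute with the tree `true`. -/
structure Trs (mv : Mv → Z → Z) (a b : Bool → Bool → List Mv) (wd : ℕ → List Mv) : Prop where
  inv : ∀ i c z, run mv (b i c) (run mv (a i c) z) = z
  com : ∀ c d z, run mv (a false c) (run mv (a true d) z) = run mv (a true d) (run mv (a false c) z)
  one : ∀ c z, run mv (wd 1) (run mv (a false c) z) = run mv (a false c) (run mv (wd 1) z)
  oth : ∀ x, x ≠ 1 → ∀ c z,
    run mv (wd x) (run mv (a true c) z) = run mv (a true c) (run mv (wd x) z)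

/-- The cube of dimension `m` sits in a set `B` of roots of trees of depth `< g`. -/
structure Cub (mv : Mv → Z → Z) (a : Bool → Bool → List Mv) (wd : ℕ → List Mv)
    (tw : List Bool × List Bool → List ℕ) (g m : ℕ) (B : Set Z) (dat : ℕ → Z) : Prop where
  inj : ∀ y < 2 ^ m, ∀ y' < 2 ^ m, dat y = dat y' → y = y'
  sep : ∀ u < 2 ^ (g - 1), ∀ v < 2 ^ (g - 1), ∀ u' < 2 ^ (g - 1), ∀ v' < 2 ^ (g - 1), ∀ z ∈ B,
    ∀ z' ∈ B, pos mv a z u v = pos mv a z' u' v' → u = u' ∧ v = v'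
  mem : ∀ y < 2 ^ m, dat y ∈ B
  flip : ∀ y < 2 ^ m, ∀ G J : List Bool, G.length = g → J.length < m →
    lrun mv wd (tw (G, J)) (dat y) = dat (y ^^^ 2 ^ J.length) ∧
      ∀ i, lrun mv wd ((tw (G, J)).take i) (dat y) ∈ B

/-- A net with `n` letters. -/
def Net (T : Tow Mv Λ) (n : ℕ) : Prop :=
  ∃ (c₀ c₁ : ℕ) (a b : Bool → Bool → List Mv) (wd : ℕ → List Mv) (w : List Mv) (l : Λ)
    (tw : List Bool × List Bool → List ℕ), Nat.card Λ = 2 ^ c₀ ∧ 0 < c₀ ∧ 2 ≤ n ∧ Poly tw ∧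
    (∀ p, ∀ x ∈ tw p, x < n) ∧ (∀ i c, (a i c).length ≤ 999 ∧ (b i c).length ≤ 999) ∧
    (∀ x, (wd x).length ≤ 999) ∧ wd 0 = [] ∧ ∀ k, Trs (T.mv k) a b wd ∧
      ∀ γ m, m + c₁ * 2 ^ γ ≤ c₀ * k → ∃ B dat, dat 0 = run (T.mv k) w (T.org l k) ∧
        Cub (T.mv k) a wd tw (2 ^ γ) m B dat

end

/-- GEO: the geometry of block D together with a net. -/
def GeoN : Prop :=
  ∀ (r j : ℕ) (Λ : Type), 10 ≤ r → 1 ≤ j → Nat.card Λ = 2 ^ (6 * r * j) →
    ∃ (Mv : Type) (_ : Finite Mv) (T : Tow Mv Λ) (G : Geo r Mv), (∀ k, G.Ok (T.mv k)) ∧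
      T.Route (10 ^ 10 * r ^ 3 * j ^ 2) ∧ Net T (3 * r)

/-- A tower with a round and a net. -/
def AmpN : Prop :=
  ∃ (Mv Λ Sl : Type) (_ : Finite Mv) (_ : Finite Λ) (_ : Finite Sl) (T : Tow Mv Λ) (δ : ℝ) (n : ℕ),
    0 < δ ∧ 10 ^ 12 * n ^ 2 ≤ Nat.card Sl ∧ T.Amp Sl δ ∧ Net T n

/-- AMPN -/
def AmpNS : Prop := GeoN → AmpN

/-- Stations: two reads (station, flag, letter) and the letter bit of the output. -/
abbrev SC : Type := List (Rd × Rd × Bool)

def SWf (n : ℕ) (S : SC) : Prop := ∀ g ∈ S, g.1.1 < S.length ∧ g.2.1.1 < S.length ∧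
  g.1.2.2 < n ∧ g.2.1.2.2 < n ∧ g.1.2.2 ≠ 1 ∧ g.2.1.2.2 ≠ 1

section
variable {Mv Z : Type} (mv : Mv → Z → Z) (wd : ℕ → List Mv) (S : SC)

/-- The root that the read `r` sees. -/
def rt (r : Rd) (z : Z) : Z := run mv (wd (S.getD r.1 default).2.2.toNat) (run mv (wd r.2.2) z)

/-- If the roots that are used lie in `G` then the gate of the station `v` holds. -/
def SOk (tb : ℕ → Z → T4) (G : Set Z) (x : ℕ → Z → V4) (v : ℕ) (z : Z) : Prop :=
  ∀ g, S[v]? = some g → run mv (wd g.1.2.2) z ∈ G → rt mv wd S g.1 z ∈ G →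
    run mv (wd g.2.1.2.2) z ∈ G → rt mv wd S g.2.1 z ∈ G →
    Forc (tt (tb v z)) (rd g.1.2.1 (x g.1.1 (rt mv wd S g.1 z)))
      (rd g.2.1.2.1 (x g.2.1.1 (rt mv wd S g.2.1 z))) (x v z)

end

/-- GRID: stations in the grid of two trees. -/
def GridS : Prop :=
  ∀ (Mv Sl : Type) [Finite Sl] (n : ℕ) (m0 : Mv) (a b : Bool → Bool → List Mv) (wd : ℕ → List Mv),
    2 ≤ n → 10 ^ 12 * n ^ 2 ≤ Nat.card Sl → (∀ i c, (a i c).length ≤ 999 ∧ (b i c).length ≤ 999) →
    (∀ x, (wd x).length ≤ 999) →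
    ∃ (ω : Wir Mv Sl) (Ψ : BCtx × Fin n × Fin n × Bool → Sl → Gate) (o : Sl)
      (role : SC × ℕ × ℕ × T4 → BCtx × Fin n × Fin n × Bool), Poly role ∧
      ∀ (Z : Type) [Finite Z] (mv : Mv → Z → Z), (∀ z, mv m0 z = z) → (∀ m, Injective (mv m)) →
        Trs mv a b wd → wd 0 = [] →
        ∀ (ctx : Z → BCtx × Fin n × Fin n × Bool) (x : Z → Sl → V4), ∃ F : Set Z,
          pr (· ∈ F) ≤ (Nat.card Sl : ℝ) ^ 2 * viol ω mv (fun p => Ψ (ctx p)) x ∧
          ∀ (S : SC) (tb : ℕ → Z → T4) (G : Set Z), SWf n S →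
            (∀ z ∈ G, ∀ u < S.length, ∀ v < S.length,
              pos mv a z u v ∉ F ∧ ctx (pos mv a z u v) = role (S, u, v, tb v z)) →
            ∀ v, ∀ z ∈ G, SOk mv wd S tb G (fun u z => x (pos mv a z u u) o) v z

/-- STA: the stations of a circuit on the cube; the first stations are the layers, the others
copy; `ws` lists the words that lead from a point of the cube to the roots that are used. -/
def StaS : Prop :=
  ∀ tw : List Bool × List Bool → List ℕ, Poly tw →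
    ∃ (st : TC × List Bool → SC) (ws : TC × List Bool → List (List ℕ)) (c : ℕ), Poly st ∧ Poly ws ∧
      ∀ X G n, TWf X → 2 ≤ n → (∀ p, ∀ x ∈ tw p, x < n) → SWf n (st (X, G)) ∧
        X.2.length ≤ (st (X, G)).length ∧ [] ∈ ws (X, G) ∧
        (st (X, G)).length + (ws (X, G)).length ≤ (G.length + X.1.length + X.2.length + 2) ^ c ∧
        ∀ (Mv Z : Type) (mv : Mv → Z → Z) a wd B dat, wd 0 = [] →
          Cub mv a wd tw G.length X.1.length B dat → ∀ y < 2 ^ X.1.length,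
            (∀ w ∈ ws (X, G), lrun mv wd w (dat y) ∈ B) ∧
            ∀ (tb : ℕ → Z → T4) (H : Set Z) (x : ℕ → Z → V4),
              (∀ l g, X.2[l]? = some g → tb l (dat y) = g.2.2.getD y default) →
              (∀ v z, X.2.length ≤ v → tb v z = tab fun s _ => s) →
              (∀ v, ∀ z ∈ H, SOk mv wd (st (X, G)) tb H x v z) →
              (∀ w ∈ ws (X, G), lrun mv wd w (dat y) ∈ H) →
              ∀ l, TOk X (fun l y => x l (dat y)) y l

/-- TGAP -/
def TgS : Prop := AmpN → GridS → StaS → TGap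

/-! ### Macro gates -/

/-- The number `a` is a completion of the read of the symbol `x` of width `w`. -/
def Fit (w : ℕ) (fl : Bool) (x : ℕ → V4) (a : ℕ) : Prop :=
  a < 2 ^ w ∧ ∀ j < w, Fits (rd fl (x j)) (a.testBit j)

/-- A hazard free gate: a bit that is the same for all completions of the reads is pure. -/
def HF (w : ℕ) (rs : List (Bool × (ℕ → V4))) (Ψ : List ℕ → ℕ) (o : ℕ → V4) : Prop :=
  ∀ j < w, ∀ b, (∀ vs, List.Forall₂ (fun r a => Fit w r.1 r.2 a) rs vs →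
    (Ψ vs).testBit j = b) → o j = ofB b

/-- A macro system: `sg a` is the small parameter of the instance `a`; width, layers, reads (layer,
wire, flag) and functions depend on it only; positions, wires and contexts depend on `a`. -/
structure Mac (α S κ W P : Type) where
  sg : α → S
  wi : S → List Bool
  cl : S → List Bool
  lay : S → List κ
  rds : S × κ → List (κ × W × Bool)
  fn : (S × κ) × List ℕ × List ℕ → ℕ
  pts : α → List P
  wr : α × W × P → P
  ctx : α × P → List ℕ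

section
variable {α S κ W P : Type} (M : Mac α S κ W P)

def Mac.Pol [N487b59b3 α] [N487b59b3 S] [N487b59b3 κ] [N487b59b3 W] [N487b59b3 P] : Prop :=
  Poly M.sg ∧ Poly M.wi ∧ Poly M.cl ∧ Poly M.lay ∧ Poly M.rds ∧ Poly M.fn ∧ Poly M.pts ∧
    Poly M.wr ∧ Poly M.ctx

structure Mac.Wf (a : α) : Prop where
  ne : M.pts a ≠ []
  nd : (M.pts a).Nodup
  src : ∀ k ∈ M.lay (M.sg a), ∀ r ∈ M.rds (M.sg a, k), r.1 ∈ M.lay (M.sg a)
  mem : ∀ k ∈ M.lay (M.sg a), ∀ r ∈ M.rds (M.sg a, k), ∀ p ∈ M.pts a,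
    M.wr (a, r.2.1, p) ∈ M.pts a
  inj : ∀ k ∈ M.lay (M.sg a), ∀ r ∈ M.rds (M.sg a, k), ∀ p ∈ M.pts a, ∀ q ∈ M.pts a,
    M.wr (a, r.2.1, p) = M.wr (a, r.2.1, q) → p = q
  len : ∀ p ∈ M.pts a, (M.ctx (a, p)).length = (M.cl (M.sg a)).length ∧
    ∀ c ∈ M.ctx (a, p), c < 2 ^ (M.wi (M.sg a)).length

/-- All macro gates at the position `p` are satisfied. -/
def Mac.Sat (a : α) (x : κ → P → ℕ → V4) (p : P) : Prop :=
  ∀ k ∈ M.lay (M.sg a), HF (M.wi (M.sg a)).length
    ((M.rds (M.sg a, k)).map fun r => (r.2.2, x r.1 (M.wr (a, r.2.1, p))))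
    (fun vs => M.fn ((M.sg a, k), M.ctx (a, p), vs)) (x k p)

end

/-- MAC: macro systems are plain circuits. -/
def MacS : Prop :=
  ∀ (α S κ W P : Type) [N487b59b3 α] [N487b59b3 S] [N487b59b3 κ] [N487b59b3 W] [N487b59b3 P]
    [DecidableEq κ] [DecidableEq P] (M : Mac α S κ W P), M.Pol →
    ∃ (f : α → List PGate) (L : S → List Bool) (r : (α × List V4) × κ × P × ℕ → V4),
      Poly f ∧ Poly L ∧ Poly r ∧ ∀ a, M.Wf a → PWf (f a) ∧
        (f a).length = (M.pts a).length * (L (M.sg a)).length ∧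
        FanLe (f a) (L (M.sg a)).length ∧ ∀ y, ∃ F : Set P,
          (F.ncard : ℝ) ≤ pviol (f a) y * (f a).length ∧ F.Finite ∧
          ∀ p ∈ M.pts a, p ∉ F → M.Sat a (fun k p j => r ((a, y), k, p, j)) p

/-- FIELD: uniform fields of characteristic two. -/
def FldS : Prop :=
  ∃ mul : List Bool × ℕ × ℕ → ℕ, Poly mul ∧ ∀ n, 1 ≤ n →
    ∃ (Φ : Type) (_ : Field Φ) (cd : Φ ≃ Fin (2 ^ n)), (cd 1 : ℕ) = 1 ∧
      (∀ a b, (cd (a + b) : ℕ) = (cd a : ℕ) ^^^ (cd b : ℕ)) ∧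
      ∀ u : List Bool, u.length = 2 ^ n → ∀ a b, mul (u, cd a, cd b) = cd (a * b)

theorem qgap_of (h1 : RouteS) (h2 : PtcS) (h3 : GeoN) (h4 : AmpNS) (h5 : GridS) (h6 : StaS)
    (h7 : TgS) : QGap := h2 h1 (h7 (h4 h3) h5 h6)

end Pool.Agent.PP.QL
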