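import Pool.Agent.MP_13199e_lc.QL.Spec

/-! PROJECT QL: the laws of the codes of points, vectors and positions. -/

set_option autoImplicit false

namespace Pool.Agent.PP.QL

open Pool.Agent.MP_13199e_lc Function Env

namespace NbP

variable {E : Env}

theorem z2 (a b : ZMod 2) (h : decide (a ≠ 0) = decide (b ≠ 0)) : a = b := by
  revert a b
  decide

theorem z2add (a b : ZMod 2) : decide (a + b ≠ 0) = (decide (a ≠ 0) ^^ decide (b ≠ 0)) := by
  revert a b
  decide

theorem lt (x : Bv E.D) : nb x < 2 ^ E.D := Nat.ofBits_lt_two_pow _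

theorem bit' (x : Bv E.D) {i : ℕ} (h : i < E.D) : (nb x).testBit i = decide (x ⟨i, h⟩ ≠ 0) :=
  Nat.testBit_ofBits_lt _ i h

theorem bit_ge (x : Bv E.D) {i : ℕ} (h : ¬i < E.D) : (nb x).testBit i = false :=
  Nat.testBit_ofBits_ge _ i (not_lt.1 h)

theorem inj : Injective (nb (E := E)) := fun x y h => funext fun i =>
  z2 _ _ (by rw [← bit' x i.2, ← bit' y i.2, h])

theorem dec (x : Bv E.D) : (fun i : Fin E.D => if (nb x).testBit i then (1 : ZMod 2) else 0) = x :=
  funext fun i => by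
    rw [bit' x i.2]
    refine z2 _ _ ?_
    by_cases h : x i = 0 <;> simp [h]

theorem surj (n : ℕ) (hn : n < 2 ^ E.D) : ∃ x : Bv E.D, nb x = n := by
  refine ⟨fun i => if n.testBit i then 1 else 0, Nat.eq_of_testBit_eq fun i => ?_⟩
  by_cases h : i < E.D
  · rw [bit' _ h]
    cases n.testBit i <;> simp
  · rw [bit_ge _ h, Nat.testBit_lt_two_pow (hn.trans_le (Nat.pow_le_pow_right two_pos (not_lt.1 h)))]

theorem add (x y : Bv E.D) : nb (x + y) = nb x ^^^ nb y :=
  Nat.eq_of_testBit_eq fun i => by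
    rw [Nat.testBit_xor]
    by_cases h : i < E.D
    · rw [bit' _ h, bit' _ h, bit' _ h, Pi.add_apply, z2add]
    · rw [bit_ge _ h, bit_ge _ h, bit_ge _ h, Bool.xor_self]

theorem zero : nb (0 : Bv E.D) = 0 :=
  Nat.eq_of_testBit_eq fun i => by
    rw [Nat.zero_testBit]
    by_cases h : i < E.D
    · rw [bit' _ h]
      simp
    · rw [bit_ge _ h]

theorem nue (l : ℕ) : nb (Env.ue l : Bv E.D) = uv E.D l :=
  Nat.eq_of_testBit_eq fun i => by
    unfold uv
    by_cases h : i < E.D
    · rw [bit' _ h]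
      by_cases e : i = l
      · subst e
        simp [Env.ue, h]
      · have e' : ¬l = i := fun h => e h.symm
        split_ifs <;> simp [Env.ue, e, e']
    · rw [bit_ge _ h]
      split_ifs with e
      · rw [Nat.testBit_two_pow_of_ne (by omega)]
      · rw [Nat.zero_testBit]

theorem nlo (l : ℕ) (x : Bv E.D) : nb (msk true l x) = nb x % 2 ^ l :=
  Nat.eq_of_testBit_eq fun i => by
    rw [Nat.testBit_mod_two_pow]
    by_cases h : i < E.D
    · rw [bit' _ h, bit' _ h]
      by_cases e : i < l <;> simp [msk, e]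
    · rw [bit_ge _ h, bit_ge _ h, Bool.and_false]

theorem nhi (l : ℕ) (x : Bv E.D) : nb (msk false l x) = nb x / 2 ^ l * 2 ^ l :=
  Nat.eq_of_testBit_eq fun i => by
    rw [Nat.testBit_mul_two_pow, Nat.testBit_div_two_pow]
    by_cases e : i < l
    · have e' : ¬l ≤ i := not_le.2 e
      by_cases h : i < E.D
      · rw [bit' _ h]
        simp [msk, e, e']
      · rw [bit_ge _ h]
        simp [e']
    · have e' : l ≤ i := not_lt.1 e
      rw [Nat.sub_add_cancel e']
      by_cases h : i < E.D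
      · rw [bit' _ h, bit' _ h]
        simp [msk, e, e']
      · rw [bit_ge _ h, bit_ge _ h, Bool.and_false]

theorem next (X : Bv E.D → Bool) (h : Bv E.D) : Env.ext X (nb h) = X h := by
  rw [Env.ext, dec, decide_eq_true (lt h), Bool.true_and]

theorem cinj : Injective (ca (E := E)) := fun _ _ h => funext fun k =>
  E.cd.injective (Fin.ext (congrFun (List.ofFn_injective h) k))

theorem cuinj : Injective (cu (E := E)) := fun _ _ h =>
  Prod.ext (cinj (congrArg Prod.fst h)) (cinj (congrArg Prod.snd h))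

theorem pinj : Injective (cp (E := E)) := fun _ _ h =>
  Prod.ext (inj (congrArg Prod.fst h))
    (Prod.ext (cuinj (congrArg (fun p : NP => p.2.1) h)) (cuinj (congrArg (fun p : NP => p.2.2) h)))

theorem ca_eq (a : E.A) :
    ca a = [(E.cd (a 0) : ℕ), (E.cd (a 1) : ℕ), (E.cd (a 2) : ℕ), (E.cd (a 3) : ℕ)] := rfl

theorem cadd (a b : E.A) : ca (a + b) = List.zipWith (· ^^^ ·) (ca a) (ca b) := by
  simp only [ca_eq, Pi.add_apply, E.add, List.zipWith_cons_cons, List.zipWith_nil_left]

theorem czero : ca (0 : E.A) = [0, 0, 0, 0] := by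
  simp only [ca_eq, Pi.zero_apply, E.cd_zero]

theorem clen (a : E.A) : (ca a).length = 4 ∧ ∀ n ∈ ca a, n < 2 ^ (2 * E.e) := by
  refine ⟨rfl, fun n hn => ?_⟩
  obtain ⟨k, rfl⟩ := List.mem_ofFn.1 hn
  exact (E.cd (a k)).2

theorem cmul (N : Num) (σ : Sg) (h : N.Ok σ E) (t : E.K) (a : E.A) :
    ca (t • a) = (ca a).map fun n => N.mul (σ, E.cd t, n) := by
  simp only [ca_eq, Pi.smul_apply, smul_eq_mul, List.map_cons, List.map_nil, h.mul]

theorem nbt (b : Bool) : (E.cd (Env.bt b) : ℕ) = b.toNat := by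
  cases b
  · exact E.cd_zero
  · exact E.one

end NbP

theorem nbS : NbS := fun _ =>
  ⟨NbP.lt, NbP.inj, NbP.surj, fun x i => NbP.bit' x i.2, NbP.add, NbP.zero, NbP.nue, NbP.nlo,
    NbP.nhi, NbP.next, NbP.cinj, NbP.pinj, NbP.cadd, NbP.czero, NbP.clen, NbP.cmul, NbP.nbt⟩

end Pool.Agent.PP.QL
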