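import Pool.Agent.MP_13199e_lc.QL.Kit
import Pool.Agent.MP_13199e_lc.PP.D.Cyc
import Pool.Agent.MP_13199e_lc.PP.D.Tree

/-! PROJECT QL: the algebra of the net: nilpotent levels, the matrix on one pair, the letters. -/

set_option autoImplicit false
set_option linter.unusedSectionVars false

namespace Pool.Agent.PP.QL.Nt

open Pool.Agent.PP.D Pool.Agent.PP.D.Tree Polynomial Function

variable {F : Type} [Field F] {A : Type} [AddCommGroup A] [Module F A] (t : A →ₗ[F] A) (o : A)

theorem ind_of_nil {D : ℕ} (h0 : (t ^ (D + 1)) o = 0) (h1 : (t ^ D) o ≠ 0) : Ind t o (D + 1) := by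
  intro p hp h
  have key : ∀ i ≤ D + 1, X ^ i ∣ p := fun i => by
    induction i with
    | zero => simp
    | succ i ih =>
      intro hi
      obtain ⟨q, rfl⟩ := ih (by omega)
      obtain ⟨n, rfl⟩ : ∃ n, D = n + i := ⟨D - i, by omega⟩
      have e : aeval t (X ^ n * (X ^ i * q)) o = 0 := by
        rw [map_mul, Module.End.mul_apply, h, map_zero]
      rw [← mul_assoc, ← pow_add, ← divX_mul_X_add q, mul_add,
        show X ^ (n + i) * (q.divX * X) = q.divX * X ^ (n + i + 1) by ring, mul_comm _ (C _)] at e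
      simp only [map_add, map_mul, map_pow, aeval_X, aeval_C, LinearMap.add_apply,
        Module.End.mul_apply, h0, map_zero, zero_add, Module.algebraMap_end_apply] at e
      rw [pow_succ]
      exact mul_dvd_mul_left _ (X_dvd_iff.2 ((smul_eq_zero.1 e).resolve_right h1))
  exact eq_zero_of_dvd_of_natDegree_lt (key _ le_rfl) (by rwa [natDegree_X_pow])

theorem xt_ind (j K : ℕ) (hc : Cyc (xt t o j) (xo F A j)) (h : t ^ K = 0 ∧ Ind t o K) :
    xt t o j ^ (K + (j + 1)) = 0 ∧ Ind (xt t o j) (xo F A j) (K + (j + 1)) := by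
  refine ⟨LinearMap.ext_on_range hc fun n => ?_, fun p hp h0 => ?_⟩
  · rw [← Module.End.mul_apply, ← pow_add, add_comm _ n, pow_add, pow_add, Module.End.mul_apply,
      Module.End.mul_apply, Cy.top, Cy.high, h.1]
    exact map_zero _
  · obtain ⟨q, rfl⟩ := X_pow_dvd_iff.2 fun d (hd : d < j + 1) => by
      rw [← Cy.ev_low t o j p ⟨d, hd⟩, h0]
      rfl
    by_contra k0
    have q0 : q ≠ 0 := right_ne_zero_of_mul k0
    rw [natDegree_X_pow_mul _ q0] at hp
    rw [mul_comm, map_mul, map_pow, aeval_X, Module.End.mul_apply, Cy.top, Cy.ev_high] at h0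
    exact q0 (h.2 q (by omega) (congrArg Prod.fst h0))

theorem lev_ind [Finite F] (j k : ℕ) : (lev F j k).t ^ (k * (j + 1)) = 0 ∧
    Ind (lev F j k).t (lev F j k).o (k * (j + 1)) := by
  induction k with
  | zero => exact ⟨Subsingleton.elim (α := PUnit →ₗ[F] PUnit) _ _, fun p hp => by simp at hp⟩
  | succ k ih => exact Nat.succ_mul k _ ▸ xt_ind _ _ j _ (cycS F j (k + 1)).1 ih

/-! ### The quotient by the high part -/

theorem run_map {A' : Type} [AddCommGroup A'] [Module F A'] (t' : A' →ₗ[F] A') (π : A →ₗ[F] A')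
    (h : ∀ a, π (t a) = t' (π a)) (l : List (Mv F)) (x : Fin 6 → A) :
    π ∘ run (mv t o) l x = run (mv t' (π o)) l (π ∘ x) := by
  induction l generalizing x with
  | nil => rfl
  | cons m l ih =>
    rw [run_cons, run_cons, ih]
    congr 1
    funext a
    rcases m with ⟨_ | _, b⟩ | b | s <;> by_cases e : a = 0 <;> simp [mv, e, h]

theorem vtx_map {A' : Type} [AddCommGroup A'] [Module F A'] (t' : A' →ₗ[F] A') (π : A →ₗ[F] A')
    (h : ∀ a, π (t a) = t' (π a)) (a : Bool → List (Mv F)) (n : ℕ) (x : Fin 6 → A) :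
    π ∘ vtx (mv t o) a n x = vtx (mv t' (π o)) a n (π ∘ x) := by
  unfold vtx
  induction n.bits with
  | nil => rfl
  | cons c l ih => rw [List.foldr_cons, List.foldr_cons, run_map t o t' π h, ih]

/-- The high part. -/
abbrev hi (g : ℕ) : Submodule F A := LinearMap.range (t ^ g)

theorem hi_t {g : ℕ} {a : A} (h : a ∈ hi t g) : t a ∈ hi t g := by
  obtain ⟨b, rfl⟩ := h
  exact ⟨t b, by rw [← Module.End.mul_apply, ← pow_succ, pow_succ', Module.End.mul_apply]⟩

/-- The shift on the quotient. -/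
def tq (g : ℕ) : (A ⧸ hi t g) →ₗ[F] A ⧸ hi t g := (hi t g).mapQ _ t fun _ => hi_t t

theorem ind_q {g d : ℕ} (h0 : t ^ (g + d) = 0) (h1 : Ind t o (g + d)) :
    Ind (tq t g) ((hi t g).mkQ o) g := by
  intro p hp h
  have e : ∀ (q : F[X]) a, aeval (tq t g) q ((hi t g).mkQ a) = (hi t g).mkQ (aeval t q a) :=
    fun q => by
      induction q using Polynomial.induction_on with
      | C c => simp [Module.algebraMap_end_apply]
      | add p q hp hq => intro a; simp only [map_add, LinearMap.add_apply, hp, hq]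
      | monomial n c ih =>
        intro a
        rw [pow_succ, ← mul_assoc, map_mul, map_mul (aeval t), aeval_X, aeval_X,
          Module.End.mul_apply, Module.End.mul_apply, ← ih]
        rfl
  rw [e, Submodule.mkQ_apply, Submodule.Quotient.mk_eq_zero] at h
  obtain ⟨a, ha⟩ := h
  by_contra p0
  refine mul_ne_zero (pow_ne_zero d X_ne_zero) p0 (h1 _ ?_ ?_)
  · rw [natDegree_X_pow_mul _ p0]; omega
  · rw [map_mul, map_pow, aeval_X, Module.End.mul_apply, ← ha, ← Module.End.mul_apply, ← pow_add,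
      add_comm, h0]
    rfl

theorem sep_q {g d : ℕ} (h0 : t ^ (g + 1 + d) = 0) (h1 : Ind t o (g + 1 + d)) {b : F} (hb : b ≠ 0)
    (hb' : b ≠ 1) {u v u' v' : ℕ} (hu : u < 2 ^ g) (hv : v < 2 ^ g) (hu' : u' < 2 ^ g)
    (hv' : v' < 2 ^ g) {z z' : Fin 6 → A}
    (hz : z 0 - o ∈ hi t (g + 1) ∧ z 1 ∈ hi t (g + 1) ∧ z 2 - o ∈ hi t (g + 1) ∧ z 3 ∈ hi t (g + 1))
    (hz' : z' 0 - o ∈ hi t (g + 1) ∧ z' 1 ∈ hi t (g + 1) ∧ z' 2 - o ∈ hi t (g + 1) ∧
      z' 3 ∈ hi t (g + 1))
    (h : pos (mv t o) (aa b) z u v = pos (mv t o) (aa b) z' u' v') : u = u' ∧ v = v' := by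
  have key : ∀ (u v : ℕ) (z : Fin 6 → A), z 0 - o ∈ hi t (g + 1) ∧ z 1 ∈ hi t (g + 1) ∧
      z 2 - o ∈ hi t (g + 1) ∧ z 3 ∈ hi t (g + 1) → ∀ y,
      y = (hi t (g + 1)).mkQ ∘ pos (mv t o) (aa b) z u v →
      y 0 = aeval (tq t (g + 1)) (pol b u.bits).1 ((hi t (g + 1)).mkQ o) ∧
      y 1 = aeval (tq t (g + 1)) (pol b u.bits).2 ((hi t (g + 1)).mkQ o) ∧
      y 2 = aeval (tq t (g + 1)) (pol b v.bits).1 ((hi t (g + 1)).mkQ o) ∧
      y 3 = aeval (tq t (g + 1)) (pol b v.bits).2 ((hi t (g + 1)).mkQ o) := fun u v z hz y hy => by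
    rw [pos, vtx_map t o (tq t (g + 1)) _ fun _ => rfl, vtx_map t o (tq t (g + 1)) _ fun _ => rfl]
      at hy
    obtain ⟨a1, a2, a3⟩ := fold_aw (tq t (g + 1)) ((hi t (g + 1)).mkQ o)
      (show (2 : Fin 6) ≠ 3 by decide) b ((hi t (g + 1)).mkQ ∘ z)
      ((Submodule.Quotient.eq _).2 hz.2.2.1) ((Submodule.Quotient.mk_eq_zero _).2 hz.2.2.2) v.bits
    obtain ⟨b1, b2, b3⟩ := fold_aw (tq t (g + 1)) ((hi t (g + 1)).mkQ o)
      (show (0 : Fin 6) ≠ 1 by decide) b
      (vtx (mv (tq t (g + 1)) ((hi t (g + 1)).mkQ o)) (aa b true) v ((hi t (g + 1)).mkQ ∘ z))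
      ((a3 0 (by decide) (by decide)).trans ((Submodule.Quotient.eq _).2 hz.1))
      ((a3 1 (by decide) (by decide)).trans ((Submodule.Quotient.mk_eq_zero _).2 hz.2.1)) u.bits
    subst hy
    exact ⟨b1, b2, (b3 2 (by decide) (by decide)).trans a1, (b3 3 (by decide) (by decide)).trans a2⟩
  obtain ⟨a1, a2, a3, a4⟩ := key u v z hz _ rfl
  obtain ⟨b1, b2, b3, b4⟩ := key u' v' z' hz' _ (congrArg _ h)
  have hI := ind_q t o h0 h1
  exact ⟨bits_eq _ _ hI hb hb' hu hu' (a1.symm.trans b1) (a2.symm.trans b2),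
    bits_eq _ _ hI hb hb' hv hv' (a3.symm.trans b3) (a4.symm.trans b4)⟩

/-! ### The matrix on one pair -/

/-- The nilpotent part. -/
def nn : A × A →ₗ[F] A × A :=
  (t ∘ₗ (LinearMap.snd F A A + LinearMap.fst F A A)).prod (LinearMap.fst F A A)

theorem nn_apply (v : A × A) : nn t v = (t (v.2 + v.1), v.1) := rfl

theorem nn_pow (n : ℕ) (v : A × A) :
    (nn t ^ (2 * n)) v = ((t ^ n) (((nn t + 1) ^ n) v).1, (t ^ n) (((nn t + 1) ^ n) v).2) := by
  have c : Commute (t.prodMap t) (nn t + 1) :=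
    LinearMap.ext fun v => by simp [nn_apply, Module.End.mul_apply]
  have e : nn t ^ 2 = t.prodMap t * (nn t + 1) :=
    LinearMap.ext fun v => by simp [nn_apply, pow_two, add_comm]
  rw [pow_mul, e, c.mul_pow, Module.End.mul_apply]
  generalize ((nn t + 1) ^ n) v = w
  induction n with
  | zero => rfl
  | succ n ih => simp [pow_succ', ih]

theorem nn_ind {J : ℕ} (h0 : t ^ J = 0) (h1 : Ind t o J) : Ind (nn t) (o, 0) (2 * J) := by
  rcases J with _ | n
  · exact fun p hp => absurd hp (Nat.not_lt_zero _)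
  refine ind_of_nil _ _ (D := 2 * n + 1) ?_ fun h => ?_
  · rw [show 2 * n + 1 + 1 = 2 * (n + 1) from rfl, nn_pow, h0]
    rfl
  · have key : ∀ m : ℕ, ∃ a b, ((nn t + 1) ^ m) (nn t (o, 0)) = (t a, o + t b) := fun m => by
      induction m with
      | zero => exact ⟨o, 0, by simp [nn_apply]⟩
      | succ m ih =>
        obtain ⟨a, b, e⟩ := ih
        refine ⟨o + t b + t a + a, a + b, ?_⟩
        rw [pow_succ', Module.End.mul_apply, e]
        simp only [LinearMap.add_apply, nn_apply, Module.End.one_apply, Prod.mk_add_mk, map_add,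
          Prod.mk.injEq, true_and]
        abel
    obtain ⟨a, b, e⟩ := key n
    rw [pow_succ, Module.End.mul_apply, nn_pow, e] at h
    have := congrArg Prod.snd h
    simp only [map_add] at this
    rw [← Module.End.mul_apply, ← pow_succ, h0] at this
    exact pow_ne_zero n X_ne_zero (h1 (X ^ n) (by simp) (by simpa using this))

theorem mm_ind {g d : ℕ} (h0 : t ^ (g + d) = 0) (h1 : Ind t o (g + d)) :
    Ind (nn t + 1) ((nn t ^ (2 * g)) (o, 0)) (2 * d) := by
  intro p hp h
  have e : p.comp (X + C 1) * X ^ (2 * g) = 0 := nn_ind t o h0 h1 _ (by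
    refine natDegree_mul_le.trans_lt ?_
    rw [natDegree_comp, natDegree_X_add_C, natDegree_X_pow]
    omega) (by simpa [aeval_comp] using h)
  exact comp_X_add_C_eq_zero_iff.1 ((mul_eq_zero.1 e).resolve_right (pow_ne_zero _ X_ne_zero))

theorem mm_surj [CharP F 2] (n : ℕ) : Surjective ((nn t + 1) ^ n : Module.End F (A × A)) := by
  rw [Module.End.coe_pow]
  refine Surjective.iterate (fun v => ⟨(v.1 + t v.2, v.2 + (v.1 + t v.2)), ?_⟩) n
  have := add_self F (A := A)
  refine Prod.ext ?_ ?_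
  · simp only [LinearMap.add_apply, nn_apply, Module.End.one_apply, Prod.fst_add, add_assoc v.2,
      this, add_zero]
    rw [add_comm, add_assoc, this, add_zero]
  · simp only [LinearMap.add_apply, nn_apply, Module.End.one_apply, Prod.snd_add]
    rw [add_left_comm, this, add_zero]

theorem mm_frob [CharP F 2] (γ : ℕ) (v : A × A) :
    ((nn t + 1) ^ (2 * 2 ^ γ) : Module.End F _) v + v = (nn t ^ (2 * 2 ^ γ)) v := by
  have e : ∀ n : ℕ, (nn t + 1) ^ 2 ^ n = nn t ^ 2 ^ n + 1 := fun n => by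
    induction n with
    | zero => simp
    | succ n ih =>
      rw [pow_succ 2, pow_mul, pow_mul, ih, pow_two, pow_two, add_mul, mul_add, mul_one, one_mul,
        add_assoc, ← add_assoc (nn t ^ 2 ^ n), add_self F, zero_add]
  rw [← pow_succ', e, LinearMap.add_apply, Module.End.one_apply, add_assoc, add_self F, add_zero]

/-! ### The letters -/

/-- The exchange of two coordinates. -/
def ex (p q : Fin 6) : List (Mv F) := ew p q false 1 ++ (ew q p false 1 ++ ew p q false 1)

/-- The exchange of the pair `p, q` with the pair `4, 5`. -/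
def sig (p q : Fin 6) : List (Mv F) := tl p 1 ++ (ex p 4 ++ (ex q 5 ++ tl p 1))

/-- The letters. -/
def wd (β : ℕ → F) : ℕ → List (Mv F)
  | 0 => []
  | 1 => sig 2 3
  | 2 => sig 0 1
  | 3 => aw 4 5 1
  | 4 => (aw 4 5 1).reverse
  | x + 5 => tl 4 (β x)

theorem wd_len (β : ℕ → F) (x : ℕ) : (wd β x).length ≤ 999 := by
  have h : ∀ p q, (ex p q : List (Mv F)).length ≤ 45 := fun p q => by
    have := ew_len p q false (1 : F)
    have := ew_len q p false (1 : F)
    simp only [ex, List.length_append]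
    omega
  have h' : ∀ p q, (sig p q : List (Mv F)).length ≤ 999 := fun p q => by
    have := h p 4
    have := h q 5
    have := tl_len p (1 : F)
    simp only [sig, List.length_append]
    omega
  have := aw_len 4 5 (1 : F)
  match x with
  | 0 => exact Nat.zero_le _
  | 1 => exact h' _ _
  | 2 => exact h' _ _
  | 3 => exact this.trans (by norm_num)
  | 4 => exact (List.length_reverse.trans_le this).trans (by norm_num)
  | x + 5 => exact (tl_len _ _).trans (by norm_num)

/-- New values for the last pair. -/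
def up (z : Fin 6 → A) (v : A × A) : Fin 6 → A := ![z 0, z 1, z 2, z 3, v.1, v.2]

theorem up_self (z : Fin 6 → A) : up z (z 4, z 5) = z := by
  funext s
  fin_cases s <;> rfl

variable [CharP F 2] (β : ℕ → F)

theorem run_ex {p q : Fin 6} (h : p ≠ q) (z : Fin 6 → A) :
    run (mv t o) (ex p q) z = z + Pi.single p (z p + z q) + Pi.single q (z p + z q) := by
  rw [ex, run_append, run_append, run_ew t o h, run_ew t o h.symm, run_ew t o h]
  have := add_self F (A := A)
  funext s
  by_cases a : s = p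
  · simp [a, h, h.symm, add_assoc, add_comm (z q), this]
  · by_cases b : s = q <;> simp [a, b, h.symm]

theorem run1 (z : Fin 6 → A) :
    run (mv t o) (wd β 1) z = ![z 0, z 1, z 4 + o, z 5, z 2 + o, z 3] := by
  have := add_self F (A := A)
  have e : ∀ a b : A, a + (a + b) = b := fun a b => by rw [← add_assoc, this, zero_add]
  have e' : ∀ a b : A, b + (a + b) = a := fun a b => by rw [add_comm a, e]
  simp only [wd, sig, run_append, run_tl, run_ex t o (show (2 : Fin 6) ≠ 4 by decide),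
    run_ex t o (show (3 : Fin 6) ≠ 5 by decide)]
  funext s
  fin_cases s <;> simp [e, e']

theorem run2 (z : Fin 6 → A) :
    run (mv t o) (wd β 2) z = ![z 4 + o, z 5, z 2, z 3, z 0 + o, z 1] := by
  have := add_self F (A := A)
  have e : ∀ a b : A, a + (a + b) = b := fun a b => by rw [← add_assoc, this, zero_add]
  have e' : ∀ a b : A, b + (a + b) = a := fun a b => by rw [add_comm a, e]
  simp only [wd, sig, run_append, run_tl, run_ex t o (show (0 : Fin 6) ≠ 4 by decide),
    run_ex t o (show (1 : Fin 6) ≠ 5 by decide)]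
  funext s
  fin_cases s <;> simp [e, e']

theorem run3 (z : Fin 6 → A) (v : A × A) :
    run (mv t o) (wd β 3) (up z v) = up z ((nn t + 1) v) := by
  simp only [wd, run_aw t o (show (4 : Fin 6) ≠ 5 by decide)]
  funext s
  fin_cases s <;> simp [-Matrix.cons_add, -Matrix.add_cons, up, nn_apply, add_comm]

theorem run4 (z : Fin 6 → A) (v : A × A) :
    run (mv t o) (wd β 4) (up z ((nn t + 1) v)) = up z v := by
  rw [← run3 t o β]
  exact rev_run t o _ _

theorem run5 (x : ℕ) (z : Fin 6 → A) (v : A × A) :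
    run (mv t o) (wd β (x + 5)) (up z v) = up z (v + β x • (o, 0)) := by
  simp only [wd, run_tl]
  funext s
  fin_cases s <;> simp [up]

theorem run_up {x : ℕ} (hx : 3 ≤ x) : ∃ φ : A × A → A × A, ∀ z v,
    run (mv t o) (wd β x) (up z v) = up z (φ v) := by
  match x, hx with
  | 3, _ => exact ⟨_, run3 t o β⟩
  | 4, _ =>
    obtain ⟨φ, hφ⟩ := (mm_surj t 1).hasRightInverse
    rw [pow_one] at hφ
    exact ⟨φ, fun z v => by rw [← run4 t o β z (φ v), hφ]⟩
  | x + 5, _ => exact ⟨_, run5 t o β x⟩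

theorem trs (b : F) : Trs (mv t o) (aa b) (fun i c => (aa b i c).reverse) (wd β) := by
  refine ⟨fun i c z => rev_run _ _ _ z, comm t o b, fun c z => ?_, fun x hx c z => ?_⟩
  · simp only [run1, aa, cond_false, run_aw t o (show (0 : Fin 6) ≠ 1 by decide)]
    funext s
    fin_cases s <;> simp [-Matrix.cons_add]
  · simp only [aa, cond_true, run_aw t o (show (2 : Fin 6) ≠ 3 by decide)]
    match x, hx with
    | 0, _ => rfl
    | 2, _ =>
      simp only [run2]
      funext s
      fin_cases s <;> simp [-Matrix.cons_add]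
    | x + 3, _ =>
      obtain ⟨φ, h⟩ := run_up t o β (x := x + 3) (by omega)
      rw [← up_self (_ + _), h, ← up_self z, h]
      funext s
      fin_cases s <;> simp [-Matrix.cons_add, up]

end Pool.Agent.PP.QL.Nt
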