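import Pool.Agent.MP_13199e_lc.QL.Nb
import Pool.Agent.MP_13199e_lc.QL.Kit

/-! PROJECT QL: the arithmetic of the code on numbers. -/

set_option autoImplicit false

namespace Pool.Agent.PP.QL

open Pool.Agent.MP_13199e_lc Pool.Agent.PolyT Pool.Agent.H82 N487b59b3 Function Env

namespace NumP

/-- The sum in characteristic two. -/
def xs (l : List ℕ) : ℕ := l.foldr (fun x n => x ^^^ n) 0

/-- A power of two with a guarded exponent. -/
def p2 (u : List Bool) (j : ℕ) : ℕ := 2 ^ (u.take j).length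

/-- Half of the binary length of the field. -/
def ex (u : List Bool) : ℕ := half u.length.size

variable (m : List Bool × ℕ × ℕ → ℕ)

/-- The guarded product. -/
def mu (u : List Bool) (a b : ℕ) : ℕ := min (m (u, a, b)) u.length

/-- The product of a list. -/
def ps (u : List Bool) (l : List ℕ) : ℕ := l.foldr (mu m u) 1

/-- The power with a guarded exponent. -/
def pk (u : List Bool) (b k : ℕ) : ℕ := ps m u ((u.take k).map fun _ => b)

def nlo (u : List Bool) (l : ℕ) (w : NA) : ℕ :=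
  xs ((idx (u.take (ex u))).map fun j => pk m u (xs ([0, 1, 2, 3].map fun k =>
    mu m u (w.1.getD k 0) (pk m u (w.2.getD k 0) (p2 u (ex u) * (l + 1))))) (p2 u j))

def nhi (u : List Bool) (l : ℕ) (w : NA) : ℕ := pk m u (nlo m u l w) (p2 u (ex u))

def ng (σ : Sg) (w : NA) : ℕ :=
  ofBits ((idx σ.1).map fun i => !eqB (nlo m σ.2 i w ^^^ nhi m σ.2 i w) 0)

def nal (u : List Bool) : List (List ℕ) :=
  (idx u).flatMap fun a => (idx u).flatMap fun b => (idx u).flatMap fun c =>
    (idx u).map fun d => [a, b, c, d]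

def nen (σ : Sg) (t : List Bool) (x : ℕ) (w : NA) : ℕ :=
  xs ((idx t).map fun h => mu m σ.2 (t.getD h false).toNat (ps m σ.2 ((idx σ.1).map fun i =>
    (x.testBit i).toNat ^^^ nhi m σ.2 i w ^^^ (h.testBit i).toNat ^^^ 1)))

/-! ### Polynomial time -/

section
variable {α : Type} [N487b59b3 α] {m}

theorem xs_lt (r : List ℕ) : xs r < 2 ^ (bitEncode r).length := by
  induction r with
  | nil => simp [xs]
  | cons x r ih =>
    rw [length_enc_cons]
    exact Nat.xor_lt_two_pow ((lt_two_pow_enc x).trans_le (Nat.pow_le_pow_right two_pos (by omega)))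
      (ih.trans_le (Nat.pow_le_pow_right two_pos (by omega)))

@[fun_prop] theorem p_xs {l : α → List ℕ} (hl : Poly l) : Poly fun a => xs (l a) :=
  Poly.foldr (f := fun _ (x n : ℕ) => x ^^^ n) (by fun_prop) hl (p_const 0) hl.bd
    fun _ _ => (length_enc_nat_le (xs_lt _)).trans (enc_sublist_le (List.drop_sublist _ _))

@[fun_prop] theorem p_p2 {u : α → List Bool} {j : α → ℕ} (hu : Poly u) (hj : Poly j) :
    Poly fun a => p2 (u a) (j a) := by
  unfold p2
  fun_prop

@[fun_prop] theorem p_ex {u : α → List Bool} (hu : Poly u) : Poly fun a => ex (u a) := by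
  unfold ex
  fun_prop

@[fun_prop] theorem p_mu (hm : Poly m) {u : α → List Bool} {a b : α → ℕ} (hu : Poly u)
    (ha : Poly a) (hb : Poly b) : Poly fun x => mu m (u x) (a x) (b x) := by
  unfold mu
  fun_prop

theorem ps_le (u : List Bool) (l : List ℕ) : ps m u l ≤ u.length + 1 := by
  cases l with
  | nil => exact Nat.le_add_left _ _
  | cons x l => exact (min_le_right _ _).trans (Nat.le_succ _)

@[fun_prop] theorem p_ps (hm : Poly m) {u : α → List Bool} {l : α → List ℕ} (hu : Poly u)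
    (hl : Poly l) : Poly fun x => ps m (u x) (l x) :=
  Poly.foldr (f := fun x => mu m (u x)) (by fun_prop) hl (p_const 1) (hu.bd.add (Bd.const 1))
    fun _ _ => (length_enc_nat_le_self _).trans
      ((ps_le _ _).trans (Nat.succ_le_succ (length_le_enc _)))

@[fun_prop] theorem p_pk (hm : Poly m) {u : α → List Bool} {b k : α → ℕ} (hu : Poly u)
    (hb : Poly b) (hk : Poly k) : Poly fun x => pk m (u x) (b x) (k x) := by
  unfold pk
  fun_prop

@[fun_prop] theorem p_nlo (hm : Poly m) {u : α → List Bool} {l : α → ℕ} {w : α → NA} (hu : Poly u)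
    (hl : Poly l) (hw : Poly w) : Poly fun x => nlo m (u x) (l x) (w x) := by
  unfold nlo
  fun_prop

@[fun_prop] theorem p_nhi (hm : Poly m) {u : α → List Bool} {l : α → ℕ} {w : α → NA} (hu : Poly u)
    (hl : Poly l) (hw : Poly w) : Poly fun x => nhi m (u x) (l x) (w x) := by
  unfold nhi
  fun_prop

theorem p_ng (hm : Poly m) : Poly fun x : Sg × NA => ng m x.1 x.2 := by
  unfold ng
  fun_prop

theorem p_nal : Poly fun σ : Sg => nal σ.2 := by
  unfold nal
  fun_prop

theorem p_nen (hm : Poly m) :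
    Poly fun x : Sg × List Bool × ℕ × NA => nen m x.1 x.2.1 x.2.2.1 x.2.2.2 := by
  unfold nen
  fun_prop

end

/-! ### Correctness -/

section
variable {m} {E : Env} {u : List Bool}

theorem xs_cd {ι : Type} (l : List ι) (F : ι → E.K) :
    xs (l.map fun i => (E.cd (F i) : ℕ)) = E.cd (l.map F).sum := by
  induction l with
  | nil => exact E.cd_zero.symm
  | cons i l ih => rw [List.map_cons, List.map_cons, List.sum_cons, E.add, ← ih]; rfl

theorem mu_cd (hu : u.length = 2 ^ (2 * E.e))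
    (hm : ∀ a b, m (u, E.cd a, E.cd b) = E.cd (a * b)) (a b : E.K) :
    mu m u (E.cd a) (E.cd b) = E.cd (a * b) := by
  rw [mu, hm, hu, min_eq_left (E.cd _).2.le]

theorem ps_cd (hu : u.length = 2 ^ (2 * E.e))
    (hm : ∀ a b, m (u, E.cd a, E.cd b) = E.cd (a * b)) {ι : Type} (l : List ι) (F : ι → E.K) :
    ps m u (l.map fun i => (E.cd (F i) : ℕ)) = E.cd (l.map F).prod := by
  induction l with
  | nil => exact E.one.symm
  | cons i l ih => rw [List.map_cons, List.map_cons, List.prod_cons, ← mu_cd hu hm, ← ih]; rfl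

theorem pk_cd (hu : u.length = 2 ^ (2 * E.e))
    (hm : ∀ a b, m (u, E.cd a, E.cd b) = E.cd (a * b)) (b : E.K) {k : ℕ} (hk : k ≤ 2 ^ (2 * E.e)) :
    pk m u (E.cd b) k = E.cd (b ^ k) := by
  rw [pk, ps_cd hu hm _ fun _ => b, List.map_const', List.prod_replicate, List.length_take, hu,
    min_eq_left hk]

theorem ex_eq (hu : u.length = 2 ^ (2 * E.e)) : ex u = E.e := by
  rw [ex, hu, Nat.size_pow, half]
  omega

theorem len_take (hu : u.length = 2 ^ (2 * E.e)) {j : ℕ} (hj : j ≤ E.e) :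
    (u.take j).length = j := by
  rw [List.length_take, hu, min_eq_left]
  exact (hj.trans (by omega)).trans (Nat.lt_two_pow_self (n := 2 * E.e)).le

theorem p2_eq (hu : u.length = 2 ^ (2 * E.e)) {j : ℕ} (hj : j ≤ E.e) : p2 u j = 2 ^ j := by
  rw [p2, len_take hu hj]

theorem sum_range {M : Type} [AddCommMonoid M] (n : ℕ) (F : ℕ → M) :
    ((List.range n).map F).sum = ∑ i ∈ Finset.range n, F i := rfl

theorem prod_range {M : Type} [CommMonoid M] (n : ℕ) (F : ℕ → M) :
    ((List.range n).map F).prod = ∏ i ∈ Finset.range n, F i := rfl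

theorem nlo_cd (hu : u.length = 2 ^ (2 * E.e))
    (hm : ∀ a b, m (u, E.cd a, E.cd b) = E.cd (a * b)) {l : ℕ} (hl : l < E.D) (w : E.A × E.A) :
    nlo m u l (cu w) = E.cd (lo l w) := by
  have k : 2 ^ E.e * (l + 1) ≤ 2 ^ (2 * E.e) := by
    rw [two_mul, pow_add]
    refine Nat.mul_le_mul_left _ (le_trans ?_ E.big)
    nlinarith
  have h1 : xs ([0, 1, 2, 3].map fun k => mu m u ((cu w).1.getD k 0)
      (pk m u ((cu w).2.getD k 0) (2 ^ E.e * (l + 1))))
      = E.cd (∑ k, w.1 k * w.2 k ^ (2 ^ E.e * (l + 1))) := by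
    simp only [cu, NbP.ca_eq, List.map_cons, List.map_nil, List.getD_cons_zero, List.getD_cons_succ,
      pk_cd hu hm _ k, mu_cd hu hm, xs, List.foldr_cons, List.foldr_nil, Nat.xor_zero,
      Fin.sum_univ_four, E.add, Nat.xor_assoc]
  rw [nlo, ex_eq hu, p2_eq hu le_rfl, h1, idx, len_take hu le_rfl, lo, ← sum_range, ← xs_cd]
  congr 1
  refine List.map_congr_left fun j hj => ?_
  have hj' := (List.mem_range.1 hj).le
  rw [p2_eq hu hj', pk_cd hu hm _ (Nat.pow_le_pow_right two_pos (by omega))]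

theorem nhi_cd (hu : u.length = 2 ^ (2 * E.e))
    (hm : ∀ a b, m (u, E.cd a, E.cd b) = E.cd (a * b)) {l : ℕ} (hl : l < E.D) (w : E.A × E.A) :
    nhi m u l (cu w) = E.cd (hi l w) := by
  rw [nhi, nlo_cd hu hm hl, ex_eq hu, p2_eq hu le_rfl,
    pk_cd hu hm _ (Nat.pow_le_pow_right two_pos (by omega)), hi]

theorem ng_cd {σ : Sg} (hd : σ.1.length = E.D) (hu : σ.2.length = 2 ^ (2 * E.e))
    (hm : ∀ a b, m (σ.2, E.cd a, E.cd b) = E.cd (a * b)) (w : E.A × E.A) :
    ng m σ (cu w) = nb (g w) := by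
  rw [← ofBits_map_idx σ.1 (n := nb (g w)) (by rw [hd]; exact NbP.lt _), ng]
  congr 1
  refine List.map_congr_left fun i hi => ?_
  have hi' : i < E.D := hd ▸ mem_idx.1 hi
  rw [nlo_cd hu hm hi', nhi_cd hu hm hi', ← E.add, NbP.bit' _ hi', g]
  by_cases h : lo i w + Env.hi i w = 0
  · simp [h, E.cd_zero, eqB]
  · have : (E.cd (lo i w + Env.hi i w) : ℕ) ≠ 0 := fun e =>
      h (E.cd.injective (Fin.ext (e.trans E.cd_zero.symm)))
    simp [h, this, eqB]

theorem nal_ok (hu : u.length = 2 ^ (2 * E.e)) :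
    ∃ la : List E.A, nal u = la.map ca ∧ la.Nodup ∧ ∀ a, a ∈ la := by
  obtain ⟨lk, h1, h2, h3⟩ : ∃ lk : List E.K, idx u = lk.map (fun a => (E.cd a : ℕ)) ∧ lk.Nodup ∧
      ∀ a, a ∈ lk := by
    refine ⟨(List.finRange _).map E.cd.symm, ?_, (List.nodup_finRange _).map E.cd.symm.injective,
      fun a => List.mem_map.2 ⟨E.cd a, List.mem_finRange _, E.cd.symm_apply_apply a⟩⟩
    rw [idx, hu, List.map_map, ← List.map_coe_finRange_eq_range]
    exact List.map_congr_left fun i _ => by simp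
  refine ⟨(lk ×ˢ lk ×ˢ lk ×ˢ lk).map fun p => ![p.1, p.2.1, p.2.2.1, p.2.2.2], ?_,
    (h2.product (h2.product (h2.product h2))).map fun p q e => ?_, fun a => List.mem_map.2
      ⟨(a 0, a 1, a 2, a 3), by simp only [List.mem_product, h3, and_self], ?_⟩⟩
  · simp only [nal, h1, SProd.sprod, List.product, List.map_flatMap, List.flatMap_map, List.map_map]
    rfl
  · exact Prod.ext (congrFun e 0) (Prod.ext (congrFun e 1) (Prod.ext (congrFun e 2) (congrFun e 3)))
  · funext k
    fin_cases k <;> rfl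

theorem io_eq (x : Bv E.D) (i : Fin E.D) : (io (x i) : E.K) = bt ((nb x).testBit i) := by
  rw [NbP.bit' x i.2, io]
  by_cases h : x i = 0 <;> simp [h, bt]

theorem enc_eq (X : ℕ → E.K) (z : E.Z) : enc (fun h => X (nb h)) z
    = ∑ n ∈ Finset.range (2 ^ E.D), X n * ∏ i ∈ Finset.range E.D,
      (bt ((nb z.1).testBit i) + hi i z.2 + bt (n.testBit i) + 1) := by
  refine Finset.sum_nbij nb (fun h _ => Finset.mem_range.2 (NbP.lt h)) NbP.inj.injOn
    (fun n hn => ?_) fun h _ => ?_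
  · obtain ⟨x, hx⟩ := NbP.surj (E := E) n (by simpa using hn)
    exact ⟨x, by simp, hx⟩
  · rw [Finset.prod_range]
    congr 1
    refine Finset.prod_congr rfl fun i _ => ?_
    rw [f, bx, dif_pos i.2, io_eq, io_eq]

theorem nen_cd {σ : Sg} (hd : σ.1.length = E.D) (hu : σ.2.length = 2 ^ (2 * E.e))
    (hm : ∀ a b, m (σ.2, E.cd a, E.cd b) = E.cd (a * b)) (t : List Bool) (z : E.Z)
    (ht : t.length = 2 ^ E.D) :
    nen m σ t (nb z.1) (cu z.2) = E.cd (enc (fun h => bt (t.getD (nb h) false)) z) := by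
  rw [enc_eq (fun n => bt (t.getD n false)), ← sum_range, ← xs_cd, nen, idx, idx, ht, hd]
  congr 1
  refine List.map_congr_left fun n _ => ?_
  rw [← mu_cd hu hm, NbP.nbt, ← prod_range, ← ps_cd hu hm]
  congr 2
  refine List.map_congr_left fun i hi => ?_
  rw [nhi_cd hu hm (List.mem_range.1 hi), E.add, E.add, E.add, NbP.nbt, NbP.nbt, E.one]

end

end NumP

open NumP in
theorem numS : NumS := by
  rintro ⟨m, hm, h⟩
  refine ⟨⟨fun x => mu m x.1.2 x.2.1 x.2.2, fun x => nhi m x.1.2 x.2.1 x.2.2, fun x => ng m x.1 x.2,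
    fun σ => nal σ.2, fun x => nen m x.1 x.2.1 x.2.2.1 x.2.2.2⟩,
    ⟨by fun_prop, by fun_prop, p_ng hm, p_nal, p_nen hm⟩, fun σ e hu h1 h2 h3 => ?_⟩
  obtain ⟨Φ, _, cd, c1, c2, c3⟩ := h (2 * e) (by omega)
  let E : Env := ⟨σ.1.length, e, Φ, cd, c1, c2, h1, h2⟩
  have hu' : σ.2.length = 2 ^ (2 * E.e) := hu
  have hm' : ∀ a b, m (σ.2, E.cd a, E.cd b) = E.cd (a * b) := c3 σ.2 hu
  exact ⟨E, rfl, rfl, hu', mu_cd hu' hm', fun l hl w => nhi_cd hu' hm' hl w,
    ng_cd (E := E) rfl hu' hm', nal_ok hu', nen_cd (E := E) rfl hu' hm'⟩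

end Pool.Agent.PP.QL
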