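import Pool.Agent.MP_13199e_lc.QL.Spec

/-! PROJECT QL, row REG: one register. -/

set_option autoImplicit false

namespace Pool.Agent.PP.QL

open Pool.Agent.MP_13199e_lc Pool.Agent.PolyT Function Finset Env

namespace Reg

/-- A sum over all numbers of `n` bits of a product over the bits. -/
theorem sum_bits {K : Type} [CommRing K] (c : ℕ → Bool → K) (n : ℕ) :
    ∑ a ∈ range (2 ^ n), ∏ j ∈ range n, c j (a.testBit j) =
      ∏ j ∈ range n, (c j false + c j true) := by
  induction n with
  | zero => simp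
  | succ n ih =>
    rw [pow_succ, mul_two, sum_range_add, prod_range_succ, mul_add, ← ih, sum_mul, sum_mul]
    congr 1
    · refine sum_congr rfl fun a ha => ?_
      rw [prod_range_succ, Nat.testBit_lt_two_pow (mem_range.1 ha)]
    · refine sum_congr rfl fun a ha => ?_
      rw [prod_range_succ, Nat.testBit_two_pow_add_eq, Nat.testBit_lt_two_pow (mem_range.1 ha)]
      congr 1
      exact prod_congr rfl fun j hj => by rw [Nat.testBit_two_pow_add_gt (mem_range.1 hj)]

variable {E : Env}

theorem bt_false : (bt false : E.K) = 0 := rfl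

theorem bt_true : (bt true : E.K) = 1 := rfl

theorem pw_congr {t v v' : ℕ → E.K} (h : ∀ j < 9, v j = v' j) : pw t v = pw t v' :=
  sum_congr rfl fun a _ => congrArg _ (prod_congr rfl fun j hj => by rw [h j (mem_range.1 hj)])

theorem pw_prod (s : ℕ → Bool → E.K) (v : ℕ → E.K) :
    pw (fun a => ∏ j ∈ range 9, s j (a.testBit j)) v =
      ∏ j ∈ range 9, (s j false * (v j + 1) + s j true * v j) := by
  have h := sum_bits (fun j b => s j b * (v j + bt b + 1)) 9
  simp only [bt_false, bt_true, add_zero, add_assoc, E.add_self] at h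
  simp only [pw, ← prod_mul_distrib, add_assoc]
  exact h

theorem one_of (x : E.K) : x + 1 + x = 1 := by rw [add_right_comm, E.add_self, zero_add]

theorem pw_bit {k : ℕ} (hk : k < 9) (v : ℕ → E.K) : pw (fun a => bt (a.testBit k)) v = v k := by
  have h := pw_prod (fun j b => if j = k then bt b else 1) v
  simp only [prod_ite_eq', mem_range, hk, if_true] at h
  rw [h, prod_eq_single_of_mem k (mem_range.2 hk)]
  · simp [bt_false, bt_true]
  · intro j _ hj
    simp only [if_neg hj, one_mul, one_of]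

theorem pw_bo (v : ℕ → E.K) :
    pw (fun a => bt (a.testBit 0 && !a.testBit 1)) v = v 0 * (v 1 + 1) := by
  have h := pw_prod (fun j b => if j = 0 then bt b else if j = 1 then bt (!b) else 1) v
  simp only [prod_range_succ, prod_range_zero, OfNat.ofNat_ne_zero, OfNat.ofNat_ne_one, if_true,
    if_false, one_ne_zero, one_mul, mul_one, one_of, Bool.not_false, Bool.not_true, bt_false,
    bt_true, zero_mul, zero_add, add_zero] at h
  refine (congrArg (pw · v) (funext fun a => ?_)).trans h
  cases a.testBit 0 <;> cases a.testBit 1 <;> simp [bt]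

theorem pw_bool (Φ : List Bool → E.K) (β : ℕ → Bool) :
    pw (fun a => Φ ((List.range 9).map a.testBit)) (fun j => bt (β j)) =
      Φ ((List.range 9).map β) := by
  have h := pw_prod (E := E) (fun _ _ => 1) fun j => bt (β j)
  simp only [prod_const_one, one_mul, one_of] at h
  rw [← mul_one (Φ ((List.range 9).map β)), ← h, pw, pw, mul_sum]
  refine sum_congr rfl fun a _ => ?_
  by_cases u : ∀ j < 9, a.testBit j = β j
  · rw [one_mul, List.map_congr_left fun j hj => u j (List.mem_range.1 hj)]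
  · push Not at u
    obtain ⟨j, hj, u⟩ := u
    rw [prod_eq_zero (mem_range.2 hj), mul_zero, mul_zero, mul_zero]
    revert u
    cases a.testBit j <;> cases β j <;> simp [bt, E.add_self]

theorem sm_pos (E : Env) (n : ℕ) : 0 < E.sm n := by
  unfold sm q
  positivity

theorem sm_lt (B : Bas E) {n m : ℕ} (h : n < m) : E.sm m ≤ E.sm n / 1000 := by
  obtain ⟨h1, h2, -⟩ := B.qge
  have h3 : (1000 : ℝ) ≤ E.q := by
    have : (1 : ℝ) ≤ (E.D : ℝ) ^ 4 := one_le_pow₀ (by linarith)
    linarith
  unfold sm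
  rw [div_div]
  refine one_div_le_one_div_of_le (by positivity) ?_
  calc E.q ^ n * 1000 ≤ E.q ^ n * E.q := by gcongr
    _ = E.q ^ (n + 1) := (pow_succ _ _).symm
    _ ≤ E.q ^ m := pow_le_pow_right₀ (by linarith) h

theorem cl_mono (B : Bas E) {n m : ℕ} (h : n < m) {U : E.Wd} {X : Bv E.D → E.K}
    (hU : Cl (E.sm m) U X) : Cl (E.sm n) U X := by
  have := sm_lt B h
  have := sm_pos E n
  exact hU.trans (by linarith)

theorem enP_zero (p : E.P) : enP (fun _ => (0 : E.K)) p = 0 := by simp [enP, enc]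

/-- A code word that vanishes almost everywhere is zero. -/
theorem eq_zero (B : Bas E) (C : Con E) (TP : TanP E) (X : Bv E.D → E.K)
    (h : pr (fun p => enP X p ≠ 0) ≤ E.sm 2 / 16) (x : Bv E.D) : X x = 0 := by
  have h1 : enc X = fun _ => 0 :=
    C.dist _ _ (TP.fx _ (TP.mono _ _ _ (by omega) (TP.enc X))) (TP.fx _ (TP.const _ 0))
      ((B.up fun z => enc X z ≠ 0).symm.trans_le h)
  rw [← TP.enc0 X x 0, h1]

/-- The walk in the cube. -/
def wk (N : Prog) (j : ℕ) (h : Bv E.D) : ℕ → Bv E.D
  | 0 => h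
  | τ + 1 => wk N j h τ + if (N.ctl j τ (nb (wk N j h τ))).toNat = 1 then ue (N.dr τ) else 0

theorem nb_wk (NB : Nb E) (N : Prog) (hd : ∀ τ, N.dr τ < E.D) (j : ℕ) (h : Bv E.D) (τ : ℕ) :
    nb (wk N j h τ) = walk N.dr (N.ctl j) (nb h) τ := by
  induction τ with
  | zero => rfl
  | succ τ ih =>
    rw [wk, walk, NB.add, ih]
    cases N.ctl j τ (walk N.dr (N.ctl j) (nb h) τ)
    · simp [NB.zero]
    · simp [NB.ue, uv, hd τ]

section
variable (B : Bas E) (SC : StepC E) {N : Prog} {i : ℕ} {U : E.Wd} {W : RegW E} {F : E.P → Prop}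
  (hF : pr F ≤ E.sm 200) (hG : ∀ p, ¬F p → RegG N i U W p)
include B SC hF hG

theorem route {X : Bv E.D → E.K} (hX : Cl (E.sm 70) W.s2.out X) {j : ℕ} (hj : j < 8) :
    Cl (E.sm 70) (W.R N.tm j 0) fun h => X (wk N j h N.tm) := by
  have key : ∀ τ ≤ N.tm, ∃ Y, Cl (E.sm 70) (W.R N.tm j τ) Y ∧
      ∀ h, Y (wk N j h τ) = X (wk N j h N.tm) := by
    intro τ hτ
    induction hτ using Nat.decreasingInduction with
    | self => exact ⟨X, by simpa [RegW.R] using hX, fun _ => rfl⟩
    | of_succ τ hτ ih =>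
      obtain ⟨Y, h1, h2⟩ := ih
      refine ⟨_, by
        rw [RegW.R, if_pos hτ]
        exact (SC _ _ _ _ F (fun _ => Y) hF fun p hp => (hG p hp).rt j hj τ hτ).1
          fun _ _ => cl_mono B (by norm_num) h1, fun h => ?_⟩
      rw [sem, pw_bit (lt_of_le_of_lt (Bool.toNat_le _) (by norm_num)), ← h2 h, wk]
  obtain ⟨Y, h1, h2⟩ := key 0 (Nat.zero_le _)
  rwa [show Y = fun h => X (wk N j h N.tm) from funext h2] at h1

theorem app (NB : Nb E) {L : Loc} {I : BCirc × BCirc} (hL : L.Ok I)
    (hD : E.D = (L.dm I).length + 2) (hN : Prog.Of N L I) {X : Bv E.D → Bool}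
    (hX : Cl (E.sm 70) W.s2.out fun h => bt (X h)) {o : ℕ} (ho : o < 3) :
    Cl (E.sm 70) (W.ap o).out fun h => bt (apB L I (if o = 2 then 2 + i else o) X h) := by
  have h1 := (SC _ _ _ _ F (fun k h => bt (if k = 0 then X h else X (wk N (k - 1) h N.tm))) hF
    fun p hp => (hG p hp).ap o ho).1 fun k hk => by
      by_cases u : k = 0
      · simpa only [if_pos u] using cl_mono B (by norm_num) hX
      · simpa only [if_neg u] using cl_mono B (by norm_num) (route B SC hF hG hX (by omega))
  generalize (if o = 2 then 2 + i else o) = o' at h1 ⊢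
  refine (congrArg (Cl _ _) (funext fun h => ?_)).mp h1
  rw [sem, pw_bool fun l => bt (N.tb o' (nb h) l), List.range_succ_eq_map, List.map_cons,
    List.map_map, hN.tb, apB, Loc.ap, NB.ext, add_zero, if_pos rfl]
  congr 1
  by_cases u : nb h < 2 ^ (L.dm I).length
  · congr 5
    refine List.map_congr_left fun j hj => ?_
    rw [comp_apply, if_neg (Nat.succ_ne_zero j), ← hN.rt j (List.mem_range.1 hj) _ u,
      ← nb_wk NB N (fun τ => hD ▸ hN.dr τ), NB.ext]
    rfl
  · rw [(hL.dead _ (not_lt.1 u)).2, (hL.dead _ (not_lt.1 u)).2]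

theorem bo {X : Bv E.D → E.K} (hX : Cl (E.sm 70) W.s2.out X) :
    Cl (E.sm 70) W.bo.out fun h => X h * (X h + 1) := by
  have h1 := (SC _ _ _ _ F (fun _ => X) hF fun p hp => (hG p hp).bo).1
    fun _ _ => cl_mono B (by norm_num) hX
  refine (congrArg (Cl _ _) (funext fun h => ?_)).mp h1
  rw [sem, pw_bo, add_zero]

theorem s2 {X : Bv E.D → E.K} (hX : Cl (E.sm 11) W.s1.out X) : Cl (E.sm 70) W.s2.out X := by
  have h1 := (SC _ _ _ _ F (fun _ => X) hF fun p hp => (hG p hp).s2).1 fun _ _ => hX
  refine (congrArg (Cl _ _) (funext fun h => ?_)).mp h1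
  rw [sem, pw_bit (by norm_num), add_zero]

end

end Reg

open Reg in
theorem regS : RegS := by
  intro E B C TP NB SC SS L I N hL hD hN i hi U W F hF hG
  have p32 := sm_pos E 32
  have a1 := sm_lt B (show 32 < 200 by norm_num)
  have a2 := sm_lt B (show 32 < 70 by norm_num)
  have a3 := sm_lt B (show 32 < 40 by norm_num)
  have a4 := sm_lt B (show 30 < 32 by norm_num)
  have a5 := sm_lt B (show 2 < 32 by norm_num)
  have ap := fun X hX o ho => app (X := X) (o := o) B SC hF hG NB hL hD hN hX ho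
  constructor
  · intro h0
    obtain ⟨X, hX⟩ := SS _ _ _ _ F hF (fun p hp => (hG p hp).s1) ((pr_le_add
      (p := F) (q := fun p => W.tv p = 0) fun p hp => by
        by_cases u : F p
        · exact .inl u
        · exact .inr ((hG p u).tv.fa (.inl hp))).trans (by linarith))
    have h2 := s2 B SC hF hG hX
    have van : ∀ (V : E.Wd) (Z : Bv E.D → E.K), Cl (E.sm 70) V Z →
        (∀ p, ¬F p → (∃ c : E.K, c ≠ 0 ∧ Is (V p) c) → W.tv p = 0) → ∀ x, Z x = 0 := by
      intro V Z h1 h3
      refine eq_zero B C TP Z ((pr_le_add (p := fun p => ¬Is (V p) (enP Z p))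
        (q := fun p => F p ∨ W.tv p = 0) fun p hp => ?_).trans ?_)
      · by_cases u : Is (V p) (enP Z p)
        · by_cases v : F p
          · exact .inr (.inl v)
          · exact .inr (.inr (h3 p v ⟨_, hp, u⟩))
        · exact .inl u
      · have := pr_or F fun p => W.tv p = 0
        have : pr (fun p => ¬Is (V p) (enP Z p)) ≤ E.sm 70 := h1
        linarith
    have h3 := van _ _ (bo B SC hF hG h2) fun p hp u => (hG p hp).tv.fa (.inr (.inl u))
    obtain ⟨Y, rfl⟩ : ∃ Y : Bv E.D → Bool, X = fun h => bt (Y h) := by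
      refine ⟨fun h => decide (X h ≠ 0), funext fun h => ?_⟩
      by_cases u : X h = 0
      · simp [u, bt]
      · have := (mul_eq_zero.1 (h3 h)).resolve_left u
        rw [← E.add_self 1, add_left_inj] at this
        simp [this, bt]
    have h4 := van _ _ (ap Y h2 2 (by norm_num)) fun p hp u => (hG p hp).tv.fa (.inr (.inr u))
    refine ⟨Y, fun h => ?_, h2, ap Y h2 0 (by norm_num), ap Y h2 1 (by norm_num)⟩
    have := h4 h
    rw [if_pos rfl] at this
    revert this
    cases apB L I (2 + i) Y h <;> simp [bt]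
  · intro X hv hX
    obtain ⟨h1, h2⟩ := SC _ _ _ _ F (fun _ h => bt (X h)) hF fun p hp => (hG p hp).s1
    have h3 : Cl (E.sm 70) W.s1.out fun h => bt (X h) := by
      refine (congrArg (Cl _ _) (funext fun h => ?_)).mp
        (h1 fun _ _ => cl_mono B (by norm_num) (show Cl (E.sm 60) U _ from hX))
      rw [sem, pw_bit (by norm_num), add_zero]
    have h4 := s2 B SC hF hG (cl_mono B (by norm_num) h3)
    refine ⟨h4, ?_⟩
    have h5 : Cl (E.sm 70) W.bo.out fun _ => 0 := by
      refine (congrArg (Cl _ _) (funext fun h => ?_)).mp (bo B SC hF hG h4)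
      cases X h <;> simp [bt, E.add_self]
    have h6 : Cl (E.sm 70) (W.ap 2).out fun _ => 0 := by
      refine (congrArg (Cl _ _) (funext fun h => ?_)).mp (ap X h4 2 (by norm_num))
      rw [if_pos rfl, hv h, bt_false]
    have h7 := h2 fun _ _ => hX
    simp only [Cl, enP_zero] at h5 h6
    have h8 := pr_or F fun p => W.s1.tot p ≠ 3
    have h9 := pr_or (fun p => ¬Is (W.bo.out p) (0 : E.K)) fun p => ¬Is ((W.ap 2).out p) (0 : E.K)
    refine (pr_le_add (p := fun p => F p ∨ W.s1.tot p ≠ 3) (q := fun p =>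
      ¬Is (W.bo.out p) (0 : E.K) ∨ ¬Is ((W.ap 2).out p) (0 : E.K)) fun p hp => ?_).trans
      (by linarith)
    by_contra u
    simp only [not_or, not_not] at u
    exact hp ((hG p u.1.1).tv.tr u.1.2 u.2.1 u.2.2)

end Pool.Agent.PP.QL
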