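import Pool.Agent.MP_13199e_lc.QL.Model
import Pool.Agent.MP_13199e_lc.Amp.Dec

/-! Radix routing through the hypercube: readers meet only if they have the same source. -/

set_option autoImplicit false

namespace Pool.Agent.PP.QL.Route

open Finset

variable (m : ℕ) (s : ℕ → ℕ)

/-- The sorting key after `k` passes. -/
def key (k x : ℕ) : ℕ := s x % 2 ^ k * 2 ^ (m + 1) + x

/-- The place of the token `x` after `k` passes. -/
def rk (k x : ℕ) : ℕ :=
  if k ≤ m then ((range (2 ^ (m + 1))).filter fun z => key m s k z < key m s k x).card else s x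

/-- The low `j` bits of `b` and the other bits of `a`. -/
def mix (j a b : ℕ) : ℕ := 2 ^ j * (a / 2 ^ j) + b % 2 ^ j

/-- The node of the token `x` at step `i` of pass `k`. -/
def nd (k i x : ℕ) : ℕ :=
  if i = 0 then rk m s k x
  else 2 ^ (m + 1) * (s x / 2 ^ k % 2) + mix (i - 1) (rk m s k x) (rk m s (k + 1) x)

/-- The node at time `t`. -/
def path (t x : ℕ) : ℕ := nd m s (t / (m + 3)) (t % (m + 3)) x

/-- The direction at time `t`. -/
def dir (t : ℕ) : ℕ := if t % (m + 3) = 0 then m + 1 else t % (m + 3) - 1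

/-- Sources with dummies. -/
structure Src : Prop where
  lt : ∀ x < 2 ^ (m + 1), s x < 2 ^ m
  dum : ∀ t < 2 ^ m, s (2 ^ m + t) = t

variable {m s}

theorem key_inj {k x z : ℕ} (hx : x < 2 ^ (m + 1)) (hz : z < 2 ^ (m + 1))
    (h : key m s k x = key m s k z) : x = z := by
  have := congrArg (· % 2 ^ (m + 1)) h
  simpa [key, Nat.mod_eq_of_lt hx, Nat.mod_eq_of_lt hz] using this

theorem key_succ (k x : ℕ) :
    key m s (k + 1) x = s x / 2 ^ k % 2 * (2 ^ k * 2 ^ (m + 1)) + key m s k x := by
  simp only [key, Nat.mod_pow_succ]; ring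

theorem key_lt {k x : ℕ} (hx : x < 2 ^ (m + 1)) : key m s k x < 2 ^ k * 2 ^ (m + 1) := by
  have h : s x % 2 ^ k + 1 ≤ 2 ^ k := Nat.mod_lt _ (by positivity)
  have := Nat.mul_le_mul_right (2 ^ (m + 1)) h
  simp only [key]; nlinarith

/-- The number of tokens with a key in `[a, b)`. -/
theorem rk_sub {k x y : ℕ} (hk : k ≤ m) (h : key m s k x ≤ key m s k y) :
    rk m s k y = rk m s k x + ((range (2 ^ (m + 1))).filter fun z =>
      key m s k x ≤ key m s k z ∧ key m s k z < key m s k y).card := by
  simp only [rk, if_pos hk]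
  rw [← card_union_of_disjoint (disjoint_filter.2 fun z _ a b => by omega), ← filter_or]
  exact congrArg card (filter_congr fun z _ => by omega)

theorem rk_lt (h : Src m s) (k : ℕ) {x : ℕ} (hx : x < 2 ^ (m + 1)) : rk m s k x < 2 ^ (m + 1) := by
  unfold rk
  split_ifs
  · exact (card_lt_card (filter_ssubset.2 ⟨x, mem_range.2 hx, lt_irrefl (key m s k x)⟩)).trans_eq
      (card_range _)
  · exact (h.lt x hx).trans (Nat.pow_lt_pow_right one_lt_two m.lt_succ_self)

theorem rk_zero {x : ℕ} (hx : x < 2 ^ (m + 1)) : rk m s 0 x = x := by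
  simp only [rk, Nat.zero_le, if_true, key, pow_zero, Nat.mod_one, zero_mul, zero_add]
  rw [show (range (2 ^ (m + 1))).filter (fun z => z < x) = range x from by
    ext z; simp only [mem_filter, mem_range]; omega, card_range]

theorem rk_lt_rk {k x y : ℕ} (hk : k ≤ m) (hx : x < 2 ^ (m + 1))
    (h : key m s k x < key m s k y) : rk m s k x < rk m s k y := by
  rw [rk_sub hk h.le]
  exact Nat.lt_add_of_pos_right (card_pos.2 ⟨x, mem_filter.2 ⟨mem_range.2 hx, le_rfl, h⟩⟩)

theorem rk_inj {k x y : ℕ} (hk : k ≤ m) (hx : x < 2 ^ (m + 1)) (hy : y < 2 ^ (m + 1))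
    (h : rk m s k x = rk m s k y) : x = y := by
  rcases lt_trichotomy (key m s k x) (key m s k y) with a | a | a
  · exact absurd h (rk_lt_rk hk hx a).ne
  · exact key_inj hx hy a
  · exact absurd h (rk_lt_rk hk hy a).ne'

/-- A pass does not stretch inside a class. -/
theorem lip (h : Src m s) {k x y : ℕ} (hk : k ≤ m) (hx : x < 2 ^ (m + 1)) (hy : y < 2 ^ (m + 1))
    (hc : s x / 2 ^ k % 2 = s y / 2 ^ k % 2) (hl : key m s k x ≤ key m s k y) :
    rk m s (k + 1) x ≤ rk m s (k + 1) y ∧
      rk m s (k + 1) y + rk m s k x ≤ rk m s k y + rk m s (k + 1) x := by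
  rw [rk_sub hk hl]
  rcases hk.eq_or_lt with rfl | hk'
  · have e : ∀ z < 2 ^ (k + 1), key k s k z = s z * 2 ^ (k + 1) + z := fun z hz => by
      rw [key, Nat.mod_eq_of_lt (h.lt z hz)]
    have P : 2 ^ (k + 1) = 2 ^ k + 2 ^ k := by ring
    have a : s x ≤ s y := by
      rw [e x hx, e y hy] at hl
      by_contra c
      have := Nat.mul_le_mul_right (2 ^ (k + 1)) (show s y + 1 ≤ s x by omega)
      nlinarith
    simp only [rk, if_neg (Nat.not_succ_le_self k)]
    refine ⟨a, ?_⟩
    have := card_le_card_of_injOn (s := Ico (s x) (s y)) (t := (range (2 ^ (k + 1))).filter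
      fun z => key k s k x ≤ key k s k z ∧ key k s k z < key k s k y) (fun t => 2 ^ k + t)
      (fun t ht => by
        obtain ⟨t1, t2⟩ := mem_Ico.1 (mem_coe.1 ht)
        have t3 : t < 2 ^ k := t2.trans (h.lt y hy)
        have t4 : 2 ^ k + t < 2 ^ (k + 1) := by omega
        refine mem_coe.2 (mem_filter.2 ⟨mem_range.2 t4, ?_, ?_⟩)
        · rw [e x hx, e _ t4, h.dum t t3]
          rcases t1.eq_or_lt with u | u
          · have : x ≤ 2 ^ k + t := by
              by_contra c
              have := h.dum (x - 2 ^ k) (by omega)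
              rw [Nat.add_sub_cancel' (by omega)] at this
              omega
            rw [u]; omega
          · have := Nat.mul_le_mul_right (2 ^ (k + 1)) (show s x + 1 ≤ t by omega)
            nlinarith
        · rw [e y hy, e _ t4, h.dum t t3]
          have := Nat.mul_le_mul_right (2 ^ (k + 1)) (show t + 1 ≤ s y by omega)
          nlinarith) (fun _ _ _ _ u => Nat.add_left_cancel u)
    rw [Nat.card_Ico] at this
    omega
  · have a : key m s (k + 1) x ≤ key m s (k + 1) y := by rw [key_succ, key_succ, hc]; omega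
    rw [rk_sub (k := k + 1) hk' a]
    refine ⟨Nat.le_add_right _ _, ?_⟩
    have := card_le_card (s := (range (2 ^ (m + 1))).filter fun z =>
      key m s (k + 1) x ≤ key m s (k + 1) z ∧ key m s (k + 1) z < key m s (k + 1) y)
      (t := (range (2 ^ (m + 1))).filter fun z =>
        key m s k x ≤ key m s k z ∧ key m s k z < key m s k y) fun z hz => by
      obtain ⟨z1, z2, z3⟩ := mem_filter.1 hz
      refine mem_filter.2 ⟨z1, ?_⟩
      rw [key_succ, key_succ] at z2 z3
      have b1 := key_lt (s := s) (k := k) hx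
      have b2 := key_lt (s := s) (k := k) hy
      have b3 := key_lt (s := s) (k := k) (mem_range.1 z1)
      rw [← hc] at z3
      rcases Nat.mod_two_eq_zero_or_one (s x / 2 ^ k) with u | u <;>
        rcases Nat.mod_two_eq_zero_or_one (s z / 2 ^ k) with v | v <;>
          rw [u, v] at z2 z3 <;> omega
    omega

theorem mix_eq {j a b a' b' : ℕ} (h : mix j a b = mix j a' b') :
    a / 2 ^ j = a' / 2 ^ j ∧ b % 2 ^ j = b' % 2 ^ j := by
  have p : 0 < 2 ^ j := by positivity
  have h1 := congrArg (· / 2 ^ j) h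
  have h2 := congrArg (· % 2 ^ j) h
  simp only [mix, Nat.mul_add_div p, Nat.mod_div_self, Nat.mul_add_mod, Nat.mod_mod] at h1 h2
  exact ⟨h1, h2⟩

theorem tb_mix (j a b i : ℕ) :
    (mix j a b).testBit i = if i < j then b.testBit i else a.testBit i := by
  rw [mix, Nat.testBit_two_pow_mul_add _ (Nat.mod_lt _ (by positivity))]
  split_ifs with c
  · simp [c]
  · rw [Nat.testBit_div_two_pow, Nat.sub_add_cancel (by omega)]

theorem mix_lt {n j a b : ℕ} (ha : a < 2 ^ n) (hb : b < 2 ^ n) : mix j a b < 2 ^ n :=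
  Nat.lt_pow_two_of_testBit _ fun i hi => by
    have p := Nat.pow_le_pow_right two_pos hi
    rw [tb_mix, Nat.testBit_lt_two_pow (ha.trans_le p), Nat.testBit_lt_two_pow (hb.trans_le p),
      ite_self]

/-- Two tokens at the same node have the same target. -/
theorem meet (h : Src m s) {k j x y : ℕ} (hk : k ≤ m) (hx : x < 2 ^ (m + 1))
    (hy : y < 2 ^ (m + 1)) (hc : s x / 2 ^ k % 2 = s y / 2 ^ k % 2)
    (e : mix j (rk m s k x) (rk m s (k + 1) x) = mix j (rk m s k y) (rk m s (k + 1) y)) :
    rk m s (k + 1) x = rk m s (k + 1) y := by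
  wlog hl : key m s k x ≤ key m s k y generalizing x y
  · exact (this hy hx hc.symm e.symm (le_of_not_ge hl)).symm
  obtain ⟨a, b⟩ := lip h hk hx hy hc hl
  obtain ⟨c, d⟩ := mix_eq e
  have p : 0 < 2 ^ j := by positivity
  have c1 := Nat.div_add_mod (rk m s k x) (2 ^ j)
  have c2 := Nat.div_add_mod (rk m s k y) (2 ^ j)
  have c3 := Nat.mod_lt (rk m s k y) p
  rw [c] at c1
  have := Nat.eq_zero_of_dvd_of_lt ((Nat.modEq_iff_dvd' a).1 d) (by omega)
  omega

theorem tb_nd (h : Src m s) (k i : ℕ) {x : ℕ} (hx : x < 2 ^ (m + 1)) (b : ℕ) :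
    (nd m s k (i + 1) x).testBit b = if b < m + 1 then
      (if b < i then (rk m s (k + 1) x).testBit b else (rk m s k x).testBit b)
      else (s x / 2 ^ k % 2).testBit (b - (m + 1)) := by
  rw [nd, if_neg i.succ_ne_zero, Nat.add_sub_cancel,
    Nat.testBit_two_pow_mul_add _ (mix_lt (rk_lt h _ hx) (rk_lt h _ hx)), tb_mix]

theorem step_of {a b j : ℕ} (h : ∀ i, i ≠ j → a.testBit i = b.testBit i) :
    b = a ∨ b = a ^^^ 2 ^ j := by
  by_cases c : a.testBit j = b.testBit j
  · exact .inl (Nat.eq_of_testBit_eq fun i => by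
      by_cases e : i = j
      · rw [e, c]
      · rw [h i e])
  · exact .inr (Nat.eq_of_testBit_eq fun i => by
      rw [Nat.testBit_xor, Nat.testBit_two_pow]
      by_cases e : i = j
      · subst e
        revert c
        cases a.testBit i <;> cases b.testBit i <;> simp
      · simp [h i e, Ne.symm e])

theorem nd_lt (h : Src m s) (k i : ℕ) {x : ℕ} (hx : x < 2 ^ (m + 1)) :
    nd m s k i x < 2 ^ (m + 2) := by
  have a := rk_lt h k hx
  have b := mix_lt (j := i - 1) a (rk_lt h (k + 1) hx)
  have p : 2 ^ (m + 2) = 2 ^ (m + 1) + 2 ^ (m + 1) := by ring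
  unfold nd
  split_ifs
  · omega
  · rcases Nat.mod_two_eq_zero_or_one (s x / 2 ^ k) with u | u <;> rw [u] <;> omega

theorem tb_hi {n a b : ℕ} (ha : a < 2 ^ n) (hb : n ≤ b) : a.testBit b = false :=
  Nat.testBit_lt_two_pow (ha.trans_le (Nat.pow_le_pow_right two_pos hb))

theorem tb_cl (c : ℕ) {b : ℕ} (hb : b ≠ 0) : (c % 2).testBit b = false :=
  tb_hi (n := 1) (Nat.mod_lt _ two_pos) (by omega)

/-- The next node. -/
theorem path_succ (t x : ℕ) : path m s (t + 1) x = if t % (m + 3) = m + 2 then
    rk m s (t / (m + 3) + 1) x else nd m s (t / (m + 3)) (t % (m + 3) + 1) x := by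
  have a := Nat.div_add_mod t (m + 3)
  have b := Nat.mod_lt t (show 0 < m + 3 by omega)
  unfold path
  split_ifs with c
  · have e : t + 1 = (m + 3) * (t / (m + 3) + 1) := by rw [Nat.mul_succ]; omega
    rw [e, Nat.mul_mod_right, Nat.mul_div_cancel_left _ (by omega), nd, if_pos rfl]
  · have e : t + 1 = (m + 3) * (t / (m + 3)) + (t % (m + 3) + 1) := by omega
    have l : t % (m + 3) + 1 < m + 3 := by omega
    conv_lhs => rw [e]
    rw [Nat.mul_add_mod, Nat.mod_eq_of_lt l, Nat.mul_add_div (by omega), Nat.div_eq_of_lt l,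
      Nat.add_zero]

theorem path_zero {x : ℕ} (hx : x < 2 ^ (m + 1)) : path m s 0 x = x := by
  simp [path, nd, rk_zero hx]

theorem path_last (x : ℕ) : path m s ((m + 1) * (m + 3)) x = s x := by
  simp [path, nd, rk]

theorem path_lt (h : Src m s) (t : ℕ) {x : ℕ} (hx : x < 2 ^ (m + 1)) :
    path m s t x < 2 ^ (m + 2) := nd_lt h _ _ hx

theorem dir_lt (t : ℕ) : dir m t < m + 2 := by
  have b := Nat.mod_lt t (show 0 < m + 3 by omega)
  unfold dir
  split_ifs <;> omega

/-- A step stays or flips the bit `dir m t`. -/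
theorem path_step (h : Src m s) (t : ℕ) {x : ℕ} (hx : x < 2 ^ (m + 1)) :
    path m s (t + 1) x = path m s t x ∨ path m s (t + 1) x = path m s t x ^^^ 2 ^ dir m t := by
  refine step_of fun b hb => ?_
  have l := Nat.mod_lt t (show 0 < m + 3 by omega)
  rw [path_succ, path]
  unfold dir at hb
  generalize t / (m + 3) = k at *
  generalize t % (m + 3) = i at *
  rcases i with _ | i
  · rw [if_neg (by omega), tb_nd h _ _ hx, nd, if_pos rfl]
    rw [if_pos rfl] at hb
    split_ifs with c d
    · omega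
    · rfl
    · rw [tb_hi (rk_lt h _ hx) (by omega), tb_cl _ (by omega)]
  · rw [if_neg i.succ_ne_zero, Nat.add_sub_cancel] at hb
    rw [tb_nd h _ _ hx]
    by_cases c : i + 1 = m + 2
    · rw [if_pos c]
      split_ifs with d e
      · rfl
      · omega
      · rw [tb_hi (rk_lt h _ hx) (by omega), tb_cl _ (by omega)]
    · rw [if_neg c, tb_nd h _ _ hx]
      split_ifs <;> first | rfl | omega

/-- Tokens that meet have the same source and stay together. -/
theorem path_meet (h : Src m s) {t x y : ℕ} (ht : t < (m + 1) * (m + 3)) (hx : x < 2 ^ (m + 1))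
    (hy : y < 2 ^ (m + 1)) (e : path m s t x = path m s t y) :
    s x = s y ∧ path m s (t + 1) x = path m s (t + 1) y := by
  have hk : t / (m + 3) ≤ m := Nat.lt_succ_iff.1 ((Nat.div_lt_iff_lt_mul (by omega)).2 ht)
  rw [path_succ, path_succ]
  unfold path at e
  generalize t / (m + 3) = k at *
  generalize t % (m + 3) = i at *
  rcases i with _ | i
  · obtain rfl := rk_inj hk hx hy (by simpa [nd] using e)
    exact ⟨rfl, rfl⟩
  have a := mix_lt (j := i) (rk_lt h k hx) (rk_lt h (k + 1) hx)
  have b := mix_lt (j := i) (rk_lt h k hy) (rk_lt h (k + 1) hy)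
  have e' := e
  simp only [nd, if_neg i.succ_ne_zero, Nat.add_sub_cancel] at e'
  have c : s x / 2 ^ k % 2 = s y / 2 ^ k % 2 ∧ mix i (rk m s k x) (rk m s (k + 1) x) =
      mix i (rk m s k y) (rk m s (k + 1) y) := by
    rcases Nat.mod_two_eq_zero_or_one (s x / 2 ^ k) with u | u <;>
      rcases Nat.mod_two_eq_zero_or_one (s y / 2 ^ k) with v | v <;> rw [u, v] at e' ⊢ <;> omega
  have d := meet h hk hx hy c.1 c.2
  refine ⟨?_, ?_⟩
  · rcases hk.eq_or_lt with rfl | hk'
    · simpa [rk] using d
    · rw [rk_inj hk' hx hy d]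
  · split_ifs
    · exact d
    · refine Nat.eq_of_testBit_eq fun j => ?_
      have := congrArg (·.testBit j) e
      simp only [tb_nd h _ _ hx, tb_nd h _ _ hy, d] at this ⊢
      split_ifs at this ⊢ <;> first | rfl | exact this | omega

variable (m s) in
/-- The switch at the node `y` at time `t`. -/
def ctl (t y : ℕ) : Bool :=
  (List.range (2 ^ (m + 1))).any fun x => decide (path m s t x = y ∧ path m s (t + 1) x ≠ y)

variable (m s) in
/-- The node that `y` reads at time `t`. -/
def nxt (t y : ℕ) : ℕ := bif ctl m s t y then y ^^^ 2 ^ dir m t else y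

theorem nxt_path (h : Src m s) {t x : ℕ} (ht : t < (m + 1) * (m + 3)) (hx : x < 2 ^ (m + 1)) :
    nxt m s t (path m s t x) = path m s (t + 1) x := by
  unfold nxt
  cases c : ctl m s t (path m s t x)
  · by_contra e
    have : ctl m s t (path m s t x) = true :=
      List.any_eq_true.2 ⟨x, List.mem_range.2 hx, decide_eq_true ⟨rfl, fun u => e u.symm⟩⟩
    simp [c] at this
  · obtain ⟨y, hy, e⟩ := List.any_eq_true.1 c
    obtain ⟨e1, e2⟩ := of_decide_eq_true e
    rw [(path_meet h ht (List.mem_range.1 hy) hx e1).2] at e2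
    exact ((path_step h t hx).resolve_left e2).symm

theorem walk_eq (h : Src m s) {dr : ℕ → ℕ} {c : ℕ → ℕ → Bool} (hd : ∀ t, dr t = dir m t)
    (hc : ∀ t < (m + 1) * (m + 3), ∀ y, c t y = ctl m s t y) {x : ℕ} (hx : x < 2 ^ (m + 1)) :
    ∀ t ≤ (m + 1) * (m + 3), walk dr c x t = path m s t x := fun t ht => by
  induction t with
  | zero => exact (path_zero hx).symm
  | succ t ih =>
    rw [walk, ih (by omega), hc t ht, hd, ← nxt_path h ht hx, nxt]
    cases ctl m s t (path m s t x) <;> simp

/-! ### Polynomial time -/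

open Pool.Agent.PolyT Pool.Agent.H82 Pool.Agent.PP.Amp

/-- A bounded power of two. -/
def pw (u : List Bool) (k : ℕ) : ℕ := ofBits ((u.take k).map (fun _ => false) ++ [true])

theorem pw_eq {u : List Bool} {k : ℕ} (h : k ≤ u.length) : pw u k = 2 ^ k := by
  have z : ∀ l : List Bool, ofBits (l.map fun _ => false) = 0 := fun l => by
    induction l with
    | nil => rfl
    | cons b l ih => rw [List.map_cons, ofBits_cons, ih]; rfl
  simp [pw, ofBits_append, z, h, -List.map_const', -List.map_take]

section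
variable {α : Type} [N487b59b3 α]

@[fun_prop] theorem p_pw {u : α → List Bool} {k : α → ℕ} (hu : Poly u) (hk : Poly k) :
    Poly fun a => pw (u a) (k a) := Poly.ofBits (by fun_prop)

@[fun_prop] theorem p_mod {f g : α → ℕ} (hf : Poly f) (hg : Poly g) : Poly fun a => f a % g a :=
  Poly.congr (f := fun a => f a - g a * (f a / g a)) (by fun_prop) fun a => (Nat.mod_def _ _).symm

end

/-- The dimension in unary and the sources. -/
abbrev A : Type := List Bool × List ℕ

def sr (a : A) (x : ℕ) : ℕ := bif ltB x a.2.length then a.2.getD x 0 else x - a.2.length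

def p2 (a : A) (k : ℕ) : ℕ := pw (true :: true :: a.1) k

def keyP (a : A) (k x : ℕ) : ℕ := sr a x % p2 a k * p2 a (a.1.length + 1) + x

def rkP (a : A) (k x : ℕ) : ℕ := bif ltB a.1.length k then sr a x else
  ((idx (a.2 ++ a.2)).filter fun z => ltB (keyP a k z) (keyP a k x)).length

def ndP (a : A) (k i x : ℕ) : ℕ := bif eqB i 0 then rkP a k x else
  p2 a (a.1.length + 1) * (sr a x / p2 a k % 2) +
    (p2 a (i - 1) * (rkP a k x / p2 a (i - 1)) + rkP a (k + 1) x % p2 a (i - 1))

def pathP (a : A) (t x : ℕ) : ℕ := ndP a (t / (a.1.length + 3)) (t % (a.1.length + 3)) x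

def ctlP (a : A) (t y : ℕ) : Bool :=
  (idx (a.2 ++ a.2)).any fun x => eqB (pathP a t x) y && !eqB (pathP a (t + 1) x) y

section
variable {α : Type} [N487b59b3 α] {a : α → A} {k i x : α → ℕ}

@[fun_prop] theorem p_sr (ha : Poly a) (hx : Poly x) : Poly fun e => sr (a e) (x e) := by
  unfold sr; fun_prop

@[fun_prop] theorem p_p2 (ha : Poly a) (hx : Poly x) : Poly fun e => p2 (a e) (x e) := by
  unfold p2; fun_prop

@[fun_prop] theorem p_keyP (ha : Poly a) (hk : Poly k) (hx : Poly x) :
    Poly fun e => keyP (a e) (k e) (x e) := by unfold keyP; fun_prop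

@[fun_prop] theorem p_rkP (ha : Poly a) (hk : Poly k) (hx : Poly x) :
    Poly fun e => rkP (a e) (k e) (x e) := by unfold rkP; fun_prop

@[fun_prop] theorem p_ndP (ha : Poly a) (hk : Poly k) (hi : Poly i) (hx : Poly x) :
    Poly fun e => ndP (a e) (k e) (i e) (x e) := by unfold ndP; fun_prop

@[fun_prop] theorem p_pathP (ha : Poly a) (hk : Poly k) (hx : Poly x) :
    Poly fun e => pathP (a e) (k e) (x e) := by unfold pathP; fun_prop

@[fun_prop] theorem p_ctlP (ha : Poly a) (hk : Poly k) (hx : Poly x) :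
    Poly fun e => ctlP (a e) (k e) (x e) := by unfold ctlP; fun_prop

end

variable {a : A}

theorem p2_eq {k : ℕ} (h : k ≤ a.1.length + 2) : p2 a k = 2 ^ k := pw_eq (by simpa using h)

theorem idx_eq (h : a.2.length = 2 ^ a.1.length) :
    idx (a.2 ++ a.2) = List.range (2 ^ (a.1.length + 1)) := by
  rw [idx, List.length_append, h, pow_succ, mul_two]

theorem rkP_eq (h : a.2.length = 2 ^ a.1.length) (k x : ℕ) :
    rkP a k x = rk a.1.length (sr a) k x := by
  unfold rkP rk
  cases c : ltB a.1.length k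
  · have c' := ltB_false_iff.1 c
    have e : ∀ z, keyP a k z = key a.1.length (sr a) k z := fun z => by
      rw [keyP, key, p2_eq (by omega), p2_eq (by omega)]
    simp only [cond_false, if_pos c', idx_eq h, e]
    rfl
  · rw [cond_true, if_neg (by have := ltB_iff.1 c; omega)]

theorem pathP_eq (h : a.2.length = 2 ^ a.1.length) {t : ℕ}
    (ht : t ≤ (a.1.length + 1) * (a.1.length + 3)) (x : ℕ) :
    pathP a t x = path a.1.length (sr a) t x := by
  have hk : t / (a.1.length + 3) ≤ a.1.length + 1 := Nat.div_le_of_le_mul (by rwa [mul_comm])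
  have hi := Nat.mod_lt t (show 0 < a.1.length + 3 by omega)
  unfold pathP path ndP nd mix
  rw [rkP_eq h, rkP_eq h, p2_eq (by omega), p2_eq (by omega), p2_eq (by omega)]
  cases c : eqB (t % (a.1.length + 3)) 0
  · rw [cond_false, if_neg (eqB_false_iff.1 c)]
  · rw [cond_true, if_pos (eqB_iff.1 c)]

theorem src_sr (h : a.2.length = 2 ^ a.1.length) (h' : ∀ s ∈ a.2, s < 2 ^ a.1.length) :
    Src a.1.length (sr a) := by
  refine ⟨fun x hx => ?_, fun t _ => ?_⟩ <;> unfold sr
  · cases c : ltB x a.2.length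
    · rw [cond_false, h]
      rw [pow_succ] at hx
      omega
    · rw [cond_true, List.getD_eq_getElem _ _ (ltB_iff.1 c)]
      exact h' _ (List.getElem_mem _)
  · rw [ltB_false_iff.2 (by omega), cond_false, h, Nat.add_sub_cancel_left]

end Route

open Pool.Agent.PolyT Pool.Agent.H82 Route in
theorem routeS : RouteS := by
  refine ⟨fun u => (true :: u).flatMap fun _ => true :: true :: true :: u,
    fun p => bif eqB (p.2 % (p.1.length + 3)) 0 then p.1.length + 1 else p.2 % (p.1.length + 3) - 1,
    fun p => ctlP p.1 p.2.1 p.2.2, by fun_prop, by fun_prop, by fun_prop, fun u => ?_⟩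
  have hd : ∀ t, (bif eqB (t % (u.length + 3)) 0 then u.length + 1 else t % (u.length + 3) - 1) =
      Route.dir u.length t := fun t => by simp [Route.dir, eqB]
  refine ⟨fun t => (hd t).trans_lt (Route.dir_lt t), fun src h h' x hx => ?_⟩
  have T : ((true :: u).flatMap fun _ => true :: true :: true :: u).length =
      (u.length + 1) * (u.length + 3) := by
    rw [List.length_flatMap]
    simp only [List.length_cons, List.map_const', List.sum_replicate, smul_eq_mul]
  have hs := src_sr (a := (u, src)) h h'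
  refine (walk_eq hs hd (fun t ht y => ?_) (hx.trans (Nat.pow_lt_pow_right one_lt_two
    (Nat.lt_succ_self _))) _ T.le).trans ?_
  · simp only [ctlP, ctl, idx_eq (a := (u, src)) h, pathP_eq (a := (u, src)) h ht.le,
      pathP_eq (a := (u, src)) h ht]
    exact congrArg _ (funext fun x => by simp [eqB])
  · rw [T, path_last, sr, ltB_iff.2 (h ▸ hx), cond_true]

end Pool.Agent.PP.QL
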