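import Pool.Agent.MP_13199e_lc.QL.Mix
import Pool.Agent.MP_13199e_lc.QL.Kit
import Pool.Agent.MP_13199e_lc.QL.Bas

/-! PROJECT QL: the sampler. -/

set_option autoImplicit false

namespace Pool.Agent.PP.QL

open Pool.Agent.MP_13199e_lc Pool.Agent.PolyT Function Finset Env
open SmpE (sg sg_add sg_zero abs_sg av_sg smp_of_bias)

namespace Sm

section
variable {X Y W X' Y' W' : Type}

/-- All values of a function of two arguments. -/
def two (l : List X) (m : List Y) (h : X → Y → W) : List W := l.flatMap fun a => m.map (h a)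

/-- The average over a list. -/
noncomputable def lav (l : List X) (f : X → ℝ) : ℝ := (l.map f).sum / l.length

theorem two_map (l : List X) (m : List Y) (h : X → Y → W) {c : X → X'} {d : Y → Y'} {e : W → W'}
    {h' : X' → Y' → W'} (k : ∀ a b, h' (c a) (d b) = e (h a b)) :
    two (l.map c) (m.map d) h' = (two l m h).map e := by
  simp only [two, List.flatMap_map, List.map_flatMap, List.map_map, comp_def, k]

theorem two_ne {l : List X} {m : List Y} (h : X → Y → W) (hl : l ≠ []) (hm : m ≠ []) :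
    two l m h ≠ [] := by
  obtain ⟨a, l, rfl⟩ := List.exists_cons_of_ne_nil hl
  simp [two, hm]

theorem lav_fin (l : List X) (f : X → ℝ) : av (fun s : Fin l.length => f l[s]) = lav l f := by
  rw [av_eq, lav, Fintype.card_fin]
  congr 1
  exact Fin.sum_univ_fun_getElem l f

theorem lav_all {l : List X} (h : l.Nodup ∧ ∀ a, a ∈ l) (f : X → ℝ) : lav l f = av f := by
  classical
  rw [← lav_fin]
  exact av_equiv (List.Nodup.getEquivOfForallMemList l h.1 h.2) f

theorem lav_two (l : List X) (m : List Y) (h : X → Y → W) {f : W → ℝ} {u : X → ℝ} {v : Y → ℝ}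
    (k : ∀ a b, f (h a b) = u a * v b) : lav (two l m h) f = lav l u * lav m v := by
  have e : ((two l m h).map f).sum = (l.map u).sum * (m.map v).sum ∧
      (two l m h).length = l.length * m.length := by
    induction l with
    | nil => simp [two]
    | cons a l ih =>
      have c : two (a :: l) m h = m.map (h a) ++ two l m h := List.flatMap_cons
      simp only [c, List.map_append, List.sum_append, List.length_append, ih.1, ih.2, List.map_map,
        comp_def, k, List.sum_map_mul_left, List.map_cons, List.sum_cons, List.length_map,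
        List.length_cons]
      exact ⟨by ring, by ring⟩
  rw [lav, lav, lav, e.1, e.2, Nat.cast_mul, div_mul_div_comm]

theorem all_two {l : List X} (h : l.Nodup ∧ ∀ a, a ∈ l) :
    (two l l Prod.mk).Nodup ∧ ∀ a, a ∈ two l l Prod.mk :=
  ⟨h.1.product h.1, fun a => List.mem_product.2 ⟨h.2 a.1, h.2 a.2⟩⟩

/-- All sums of `k` terms. -/
def sums (z : X) (m : List Y) (h : X → Y → X) : ℕ → List X
  | 0 => [z]
  | k + 1 => two (sums z m h k) m h

theorem rd_map (z : X) (m : List Y) (h : X → Y → X) {c : X → X'} {d : Y → Y'}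
    {h' : X' → Y' → X'} (k : ∀ a b, h' (c a) (d b) = c (h a b)) (n : ℕ) :
    sums (c z) (m.map d) h' n = (sums z m h n).map c := by
  induction n with
  | zero => rfl
  | succ n ih => rw [sums, ih, sums, two_map _ _ _ k]

theorem rd_ne (z : X) {m : List Y} (h : X → Y → X) (hm : m ≠ []) (n : ℕ) : sums z m h n ≠ [] := by
  induction n with
  | zero => simp [sums]
  | succ n ih => exact two_ne h ih hm

theorem lav_rd (z : X) (m : List Y) (h : X → Y → X) {f : X → ℝ} {v : Y → ℝ} (h0 : f z = 1)
    (k : ∀ a b, f (h a b) = f a * v b) (n : ℕ) : lav (sums z m h n) f = lav m v ^ n := by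
  induction n with
  | zero => simp [sums, lav, h0]
  | succ n ih => rw [sums, lav_two _ _ _ k, ih, pow_succ]

variable {α : Type} [N487b59b3 α] [N487b59b3 X] [N487b59b3 Y] [N487b59b3 W]

theorem p_two {l : α → List X} {m : α → List Y} {h : α → X → Y → W} (hl : Poly l) (hm : Poly m)
    (hh : Poly fun p : (α × X) × Y => h p.1.1 p.1.2 p.2) : Poly fun a => two (l a) (m a) (h a) :=
  H82.p_flatMap (H82.p_map hh (H82.p_comp hm (H82.p_fst Poly.id))) hl

theorem p_rd (z : X) {m : α → List Y} {h : α → X → Y → X} (hm : Poly m)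
    (hh : Poly fun p : (α × X) × Y => h p.1.1 p.1.2 p.2) (n : ℕ) :
    Poly fun a => sums z (m a) (h a) n := by
  induction n with
  | zero => exact H82.p_const [z]
  | succ n ih => exact p_two ih hm hh

end

theorem num (E : Env) : (((E.D : ℝ) / E.q) ^ 4) ^ 24 ≤ E.sm 72 := by
  have q0 := Bs.qpos (E := E)
  have h : (E.D : ℝ) ^ 4 ≤ E.q := by
    have := (Bs.qge (E := E)).1
    have : (0 : ℝ) ≤ E.D ^ 4 := by positivity
    linarith
  have k : ((E.D : ℝ) / E.q) ^ 4 ≤ 1 / E.q ^ 3 := by
    rw [div_pow, div_le_div_iff₀ (by positivity) (by positivity), one_mul, pow_succ' E.q 3]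
    gcongr
  refine (pow_le_pow_left₀ (by positivity) k 24).trans_eq ?_
  rw [sm, div_pow, one_pow, ← pow_mul]

end Sm

open Sm in
theorem samS : SamS := by
  rintro N ⟨-, -, hg, ha, -⟩
  have hp : Poly fun σ => two (N.al σ) (N.al σ) fun a b => (a, b) := p_two ha ha (by fun_prop)
  refine ⟨fun σ => two (sums 0 (two (N.al σ) (N.al σ) Prod.mk) (fun x u => x ^^^ N.g (σ, u)) 24)
    (two (two (N.al σ) (N.al σ) Prod.mk) (two (N.al σ) (N.al σ) Prod.mk) Prod.mk) Prod.mk,
    p_two (h := fun _ a b => (a, b)) (p_rd 0 hp (by fun_prop) 24)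
      (p_two (h := fun _ a b => (a, b)) hp hp (by fun_prop)) (by fun_prop), fun σ E ok _ nb' => ?_⟩
  obtain ⟨la, e, h1⟩ := ok.al
  have h2 := all_two h1
  have h4 := all_two h2
  have n2 := List.ne_nil_of_mem (h2.2 0)
  have e2 : two (N.al σ) (N.al σ) Prod.mk = (two la la Prod.mk).map cu := by
    rw [e]
    exact two_map _ _ _ fun _ _ => rfl
  generalize two la la Prod.mk = lp at h2 h4 n2 e2
  have ne := two_ne Prod.mk (rd_ne (0 : Bv E.D) (fun x u => x + g u) n2 24)
    (List.ne_nil_of_mem (h4.2 0))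
  refine ⟨_, ?_, ne, ?_⟩
  · beta_reduce
    rw [e2, ← nb'.zero, rd_map (0 : Bv E.D) lp (fun x u => x + g u) fun x u => by
      rw [ok.g, nb'.add], two_map lp lp Prod.mk (e := fun w => (cu w.1, cu w.2)) fun _ _ => rfl]
    exact two_map _ _ _ fun _ _ => rfl
  · let _ : Module (ZMod 2) E.A := AddCommGroup.zmodModule fun x => by rw [two_nsmul, Bs.aa]
    have : Nonempty (Fin (two (sums (0 : Bv E.D) lp (fun x u => x + g u) 24) (two lp lp Prod.mk)
      Prod.mk).length) := ⟨⟨0, List.length_pos_iff.2 ne⟩⟩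
    refine smp_of_bias _ fun ξ hξ => ?_
    have sp : ∀ x w, ξ (x, w) = ξ (x, 0) + ξ (0, w) := fun x w => by
      rw [← map_add, Prod.mk_add_mk, add_zero, zero_add]
    rw [lav_fin _ fun p => sg (ξ p), lav_two _ _ _ (u := fun x => sg (ξ (x, 0)))
      (v := fun w => sg (ξ (0, w))) fun x w => by rw [sp, sg_add],
      lav_rd _ _ _ (v := fun u => sg (ξ (g u, 0))) (by rw [Prod.mk_zero_zero, map_zero, sg_zero])
        fun x u => by rw [← sg_add, ← map_add, Prod.mk_add_mk, add_zero], lav_all h2, lav_all h4]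
    by_cases c : ∀ w, ξ (0, w) = 0
    · simp only [c, sg_zero, av_const, mul_one, abs_pow]
      refine (pow_le_pow_left₀ (abs_nonneg _) (g_bias E (ξ ∘ₗ LinearMap.inl _ _ _) fun k => hξ
        (LinearMap.ext fun p => ?_)) 24).trans (num E)
      rw [sp p.1 p.2, c, add_zero]
      exact LinearMap.congr_fun k p.1
    · obtain ⟨w, c⟩ := not_forall.1 c
      rw [av_sg (fun w => ξ (0, w)) (fun x y => by
        rw [← map_add, Prod.mk_add_mk (0 : Bv E.D), add_zero]) c,
        mul_zero, abs_zero, sm]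
      exact div_nonneg zero_le_one (pow_nonneg Bs.qpos.le _)

end Pool.Agent.PP.QL
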