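import Pool.Agent.MP_13199e_lc.QL.Spec

/-! PROJECT QL, row STEPC: a step computes and cleans. -/

set_option autoImplicit false

namespace Pool.Agent.PP.QL

open Pool.Agent.MP_13199e_lc Function Finset Env

namespace StC

variable {E : Env}

theorem flp_flp (l : ℕ) (p : E.P) : flp l (flp l p) = p := by
  refine Prod.ext (funext fun i => ?_) rfl
  simp only [flp, Pi.add_apply, add_assoc, CharTwo.add_self_eq_zero, add_zero]

theorem flp_mg (l : ℕ) (z y : E.Z) : flp l (mg l z y) = mg l (z + (ue l, 0)) y := by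
  refine Prod.ext (funext fun i => ?_) (by simp [flp, mg])
  rcases lt_trichotomy (i : ℕ) l with h | h | h
  · simp [flp, mg, msk, ue, h, h.ne]
  · simp [flp, mg, msk, ue, h]
  · simp [flp, mg, msk, ue, h.ne', h.not_gt]

theorem mg_succ (l : ℕ) (z y : E.Z) :
    mg (l + 1) z y = mg l z y ∨ mg (l + 1) z y = flp l (mg l z y) := by
  have two : ∀ a b : ZMod 2, a ≠ b → b = a + 1 := by decide
  by_cases e : ∀ i : Fin E.D, (i : ℕ) = l → z.1 i = y.1 i
  · refine Or.inl (Prod.ext (funext fun i => ?_) rfl)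
    rcases lt_trichotomy (i : ℕ) l with h | h | h
    · simp [mg, msk, h, Nat.lt_succ_of_lt h]
    · simp [mg, msk, h, e i h]
    · simp [mg, msk, h.not_gt, show ¬(i : ℕ) < l + 1 by omega]
  · push Not at e
    obtain ⟨j, hj, e⟩ := e
    refine Or.inr (Prod.ext (funext fun i => ?_) rfl)
    rcases lt_trichotomy (i : ℕ) l with h | h | h
    · simp [flp, mg, msk, ue, h, Nat.lt_succ_of_lt h, h.ne]
    · obtain rfl : i = j := Fin.ext (h.trans hj.symm)
      simp [flp, mg, msk, ue, h, two _ _ e]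
    · simp [flp, mg, msk, ue, h.not_gt, h.ne', show ¬(i : ℕ) < l + 1 by omega]

theorem mg_zero (z y : E.Z) : mg 0 z y = (z.1, z.2, y.2) :=
  Prod.ext (funext fun i => by simp [mg, msk]) rfl

theorem q_ge (hB : Bas E) : 1024 ≤ E.q ∧ (E.D : ℝ) + 1 ≤ E.q := by
  obtain ⟨h1, h2, -⟩ := hB.qge
  have : (E.D : ℝ) ≤ E.D ^ 4 := le_self_pow₀ (by linarith) (by norm_num)
  constructor <;> linarith

theorem sm_pos (hB : Bas E) (n : ℕ) : 0 < E.sm n := by
  have := (q_ge hB).1
  unfold sm
  positivity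

theorem sm_mul (hB : Bas E) (a b : ℕ) : E.q ^ a * E.sm (a + b) = E.sm b := by
  have := (q_ge hB).1
  unfold sm
  rw [pow_add]
  field_simp

theorem sm_le (hB : Bas E) {a b : ℕ} (h : a < b) : 1024 * E.sm b ≤ E.sm a := by
  obtain ⟨c, rfl⟩ := Nat.exists_eq_add_of_lt h
  have hq := (q_ge hB).1
  rw [← sm_mul hB (c + 1) a, show c + 1 + a = a + c + 1 by ring]
  exact mul_le_mul_of_nonneg_right (hq.trans (le_self_pow₀ (by linarith) (by simp)))
    (sm_pos hB _).le

section

variable {T : ℕ → Bv E.D → Bool} {δ : ℕ → Bv E.D} {U : ℕ → E.Wd} {W : StepW E} {F : E.P → Prop}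
  {X : ℕ → Bv E.D → E.K} {G : ℕ → E.P → E.K}

/-- The bad positions of the level `l`. -/
def Bd (W : StepW E) (F : E.P → Prop) (G : ℕ → E.P → E.K) (l : ℕ) (p : E.P) : Prop :=
  F p ∨ ¬Is (W.V l p) (G l p)

theorem good (hg : ∀ p, ¬F p → StepG T δ U W p) {l : ℕ} (hl : l ≤ E.D) {p : E.P}
    (h : ¬Bd W F G l p) : Is (W.M l p) (G l p) ∧ W.ok l p = 3 :=
  ((hg p fun f => h (Or.inl f)).pur l hl).1 _ (by_contra fun f => h (Or.inr f))

theorem ec (hB : Bas E) (hc : ∀ p, Chk G p) {l : ℕ} (hl : l ≤ E.D) {v : Bool} {S : E.Wd}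
    {z y : E.Z} {o : ℕ → V4} (h : Ec l v S (mg l z y) o) {B : E.Z → Prop}
    (hb : ∀ z, ¬B z → Is (S (mg l z y)) (G l (mg l z y))) (hd : ¬Dn v B z) :
    Is o (G l (mg l z y)) :=
  h (G l) _ (fun ρ => (hc _).itp l hl _ _ ρ) ((pr_mono fun _ ⟨t, h0, ht⟩ =>
    ⟨t, h0, by_contra fun k => ht (hB.row l v _ z y ▸ hb _ k)⟩).trans_lt (hB.line v B z hd))

theorem step (hB : Bas E) (hC : Con E) (hg : ∀ p, ¬F p → StepG T δ U W p) (hc : ∀ p, Chk G p)
    {l : ℕ} (hl : l < E.D) (y : E.Z) {φ b : ℝ} (hφ : pr (fun z => F (mg (l + 1) z y)) ≤ φ)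
    (hb : pr (fun z => Bd W F G l (mg l z y)) ≤ b) (hs : φ + 2 * b ≤ E.sm 2 / 16) :
    pr (fun z => Bd W F G (l + 1) (mg (l + 1) z y)) ≤ (φ + 2 * b) / 4 + 5 * E.q * φ := by
  have h1 : pr (fun z => ¬Is (W.S l (mg (l + 1) z y)) (G (l + 1) (mg (l + 1) z y))) ≤
      φ + 2 * b := by
    refine (pr_le_add (p := fun z => F (mg (l + 1) z y)) (q := fun z =>
      Bd W F G l (mg l z y) ∨ Bd W F G l (mg l (z + (ue l, 0)) y)) fun z h => ?_).trans
      (add_le_add hφ ((pr_or _ _).trans ?_))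
    · by_contra k
      simp only [not_or] at k
      obtain ⟨k1, k2, k3⟩ := k
      rw [← flp_mg] at k3
      refine h ((hc _).sub l hl ▸ (hg _ k1).sub l hl _ _ ?_ ?_) <;>
        rcases mg_succ l z y with e | e <;> simp only [e, flp_flp]
      exacts [(good hg hl.le k2).1, (good hg hl.le k3).1, (good hg hl.le k3).1,
        (good hg hl.le k2).1]
    · rw [pr_shift fun z => Bd W F G l (mg l z y)]
      linarith
  refine (hC.con _ (fun z => ¬Is (W.C l (mg (l + 1) z y)) (G (l + 1) (mg (l + 1) z y))) _ _ _ φ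
    (fun z h => ?_) (fun z h => ?_) (h1.trans hs) hφ hφ).trans (by linarith) <;> by_contra k <;>
    simp only [not_or] at k
  · exact h (ec hB hc hl ((hg _ k.1).ec1 l hl) (fun _ => not_not.1) k.2)
  · exact h.elim k.1 fun h => h (ec hB hc hl ((hg _ k.1).ec2 l hl) (fun _ => not_not.1) k.2)

theorem row (hB : Bas E) (hC : Con E) (hg : ∀ p, ¬F p → StepG T δ U W p) (hc : ∀ p, Chk G p)
    (h0 : ∀ p, G 0 p = pw (fun a => enP (fun h => bt (T a h)) p)
      fun j => enc (X j) (p.1 + δ j, p.2.1)) {n : ℕ} (hn : 3 ≤ n)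
    (hU : ∀ j < 9, Cl (E.sm (8 + n)) (U j) (X j)) (y : E.Z)
    (hy : ∀ l ≤ E.D, pr (fun z => F (mg l z y)) ≤ E.sm 90) (l : ℕ) (hl : l ≤ E.D) :
    pr (fun z => Bd W F G l (mg l z y)) ≤ 9 * E.sm n / 2 ^ l + 12 * E.sm 89 := by
  have p90 := sm_pos hB 90
  have l90 := sm_le hB (show 89 < 90 by norm_num)
  induction l with
  | zero =>
    refine (pr_le_add (p := fun z => F (mg 0 z y)) (q := fun z => ∃ j : Fin 9,
      ¬Is (U j (z.1 + δ j, z.2, 0)) (enc (X j) (z.1 + δ j, z.2))) fun z h => ?_).trans ?_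
    · by_contra k
      simp only [not_or, not_exists, not_not] at k
      refine h.elim k.1 fun h => h (h0 _ ▸ (hg _ k.1).v0 _ fun j hj => ?_)
      simpa only [mg_zero] using k.2 ⟨j, hj⟩
    · have := pr_exists_le' (c := E.sm n) (p := fun (j : Fin 9) (z : E.Z) =>
        ¬Is (U j (z.1 + δ j, z.2, 0)) (enc (X j) (z.1 + δ j, z.2))) fun j => by
          have e := pr_shift (fun z : E.Z => ¬Is (U j (z.1, z.2, 0)) (enc (X j) (z.1, z.2)))
            (δ j, 0)
          simp only [Prod.fst_add, Prod.snd_add, add_zero] at e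
          rw [e, ← sm_mul hB 8 n]
          exact (hB.sl1 fun p => ¬Is (U j p) (enP (X j) p)).trans
            (mul_le_mul_of_nonneg_left (hU j j.2) (pow_nonneg (by linarith [(q_ge hB).1]) _))
      simp only [Nat.card_eq_fintype_card, Fintype.card_fin, Nat.cast_ofNat] at this
      have := hy 0 hl
      simp only [pow_zero, div_one]
      linarith
  | succ l ih =>
    have e := sm_mul hB 1 89
    have l3 : E.sm n ≤ E.sm 3 := hn.eq_or_lt.elim (fun h => h ▸ le_rfl) fun h => by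
      linarith [sm_le hB h, sm_pos hB n]
    have : 9 * E.sm n / 2 ^ l ≤ 9 * E.sm n :=
      div_le_self (by linarith [sm_pos hB n]) (one_le_pow₀ one_le_two)
    refine (step hB hC hg hc hl y (hy _ hl) (ih (by omega)) ?_).trans ?_
    · linarith [sm_le hB (show 3 < 89 by norm_num), sm_le hB (show 2 < 3 by norm_num)]
    · rw [pow_one] at e
      rw [mul_assoc 5, e, pow_succ, ← div_div]
      linarith

theorem all (hB : Bas E) (hC : Con E) (hF : pr F ≤ E.sm 200) (hg : ∀ p, ¬F p → StepG T δ U W p)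
    (hc : ∀ p, Chk G p) (h0 : ∀ p, G 0 p = pw (fun a => enP (fun h => bt (T a h)) p)
      fun j => enc (X j) (p.1 + δ j, p.2.1)) {n : ℕ} (hn : 3 ≤ n)
    (hU : ∀ j < 9, Cl (E.sm (8 + n)) (U j) (X j)) (l : ℕ) (hl : l ≤ E.D) :
    pr (Bd W F G l) ≤ 9 * E.sm n / 2 ^ l + E.sm 88 := by
  have p90 := sm_pos hB 90
  have hd := pr_exists_le' (c := E.sm 110) (p := fun (l : Fin (E.D + 1)) (y : E.Z) =>
    E.sm 90 ≤ pr fun z => F (mg l z y)) fun l => (markov (fun _ => pr_nonneg _) p90).trans (by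
      rw [← pr_prod' fun x : E.Z × E.Z => F (mg l x.1 x.2), hB.lift, div_le_iff₀ p90]
      refine hF.trans (le_of_eq ?_)
      unfold sm
      rw [one_div_mul_one_div, ← pow_add])
  rw [← hB.lift l, pr_prod']
  refine (av_mono (g := fun y => ind (∃ l : Fin (E.D + 1), E.sm 90 ≤ pr fun z => F (mg l z y)) +
    (9 * E.sm n / 2 ^ l + 12 * E.sm 89)) fun y => ?_).trans ?_
  · by_cases h : ∃ l : Fin (E.D + 1), E.sm 90 ≤ pr fun z => F (mg l z y)
    · have := sm_pos hB n
      have := sm_pos hB 89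
      rw [ind_pos h]
      exact (pr_le_one _).trans (le_add_of_nonneg_right
        (add_nonneg (div_nonneg (by linarith) (pow_nonneg zero_le_two _)) (by linarith)))
    · rw [ind_neg h, zero_add]
      exact row hB hC hg hc h0 hn hU y
        (fun l hl => (not_le.1 fun k => h ⟨⟨l, Nat.lt_succ_of_le hl⟩, k⟩).le) l hl
  · rw [av_add, av_const]
    have e : E.q ^ 1 * E.sm 110 = _ := sm_mul hB 1 109
    have := mul_le_mul_of_nonneg_right (q_ge hB).2 (sm_pos hB 110).le
    simp only [Nat.card_eq_fintype_card, Fintype.card_fin, Nat.cast_add, Nat.cast_one,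
      pow_one] at hd e
    refine (add_le_add_left hd _).trans ?_
    linarith [sm_le hB (show 88 < 89 by norm_num), sm_le hB (show 89 < 109 by norm_num),
      sm_pos hB 109]

end

end StC

open StC in
theorem stepCS : StepCS := by
  intro E hB hC hI T δ U W F X hF hg
  obtain ⟨G, h0, hc, hD⟩ := hI T δ X
  have hq := (q_ge hB).1
  refine ⟨fun hU => ?_, fun hU => ?_⟩
  · refine (pr_le_add (p := F) (q := fun p => Bd W F G E.D (p.1, 0, p.2.1)) fun p h => ?_).trans ?_
    · by_contra k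
      simp only [not_or] at k
      exact h ((hg p k.1).out _ ((congrArg _ (hD (p.1, p.2.1))).mp (good hg le_rfl k.2).1))
    · rw [hB.up fun z => Bd W F G E.D (z.1, 0, z.2)]
      have h1 := (hB.sl2 _).trans (mul_le_mul_of_nonneg_left
        (all hB hC hF hg hc h0 (n := 3) le_rfl hU _ le_rfl) (by positivity))
      have h2 : 9 * E.sm 3 / 2 ^ E.D ≤ 9 * E.sm 103 := by
        rw [← sm_mul hB 100 3, div_le_iff₀ (by positivity)]
        have := mul_le_mul_of_nonneg_right hB.qge.2.2 (sm_pos hB 103).le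
        linarith
      have h3 := mul_le_mul_of_nonneg_left h2 (by positivity : 0 ≤ E.q ^ 8)
      have e1 := sm_mul hB 8 95
      have e2 := sm_mul hB 8 80
      linarith [sm_le hB (show 70 < 80 by norm_num), sm_le hB (show 70 < 95 by norm_num),
        sm_le hB (show 70 < 200 by norm_num), sm_pos hB 70]
  · refine (pr_mono fun p h => ?_).trans ((hB.near (Bd W F G) (9 * E.sm 52 + E.sm 88)
      fun l hl => (all hB hC hF hg hc h0 (n := 52) (by norm_num) hU l hl).trans (add_le_add_left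
        (div_le_self (by linarith [sm_pos hB 52]) (one_le_pow₀ one_le_two)) _)).trans ?_)
    · by_contra k
      simp only [not_exists, not_and] at k
      exact h ((hg p fun f => k 0 (Nat.zero_le _) p (Or.inl rfl) (Or.inl f)).tot.tr G
        (fun l hl => (good hg hl (k l hl p (Or.inl rfl))).2)
        (fun l hl r hr => (good hg hl (k l hl r hr)).1) (hc p))
    · have e1 := sm_mul hB 9 43
      have e2 := sm_mul hB 9 79
      linarith [sm_le hB (show 40 < 43 by norm_num), sm_le hB (show 40 < 79 by norm_num),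
        sm_pos hB 40]

end Pool.Agent.PP.QL
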