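import Pool.Agent.MP_13199e_lc.QL.Spec

/-! PROJECT QL: the soundness of a step. -/

set_option autoImplicit false

namespace Pool.Agent.PP.QL

open Finset Env

namespace SS

variable {E : Env}

theorem line (hB : Bas E) {v : Bool} {B : E.Z → Prop} {z : E.Z} (h : ¬Dn v B z) :
    ∃ ρ : E.A, ∀ t : E.K, t ≠ 0 → ¬B (vz v (t • ρ) z) := by
  obtain ⟨ρ, k⟩ := exists_not_of_pr_lt ((hB.line v B z h).trans (by norm_num))
  exact ⟨ρ, fun t ht u => k ⟨t, ht, u⟩⟩

theorem col_sum (hT : TanP E) (l : ℕ) (s : Finset E.K) (c : E.K → E.Z → E.K)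
    (h : ∀ t, Col l (c t)) : Col l fun y => ∑ t ∈ s, c t y := by
  induction s using Finset.induction_on with
  | empty => exact hT.c0 l 0
  | insert t s ht ih => simpa only [sum_insert ht] using hT.cadd l _ _ (h t) ih

theorem col_sub (hT : TanP E) (l : ℕ) (k : E.K) {c c' : E.Z → E.K} (h : Col l c) (h' : Col l c') :
    Col (l + 1) fun y => c y + (k + f l y) * (c y + c' y) :=
  ⟨_, _, hT.cadd l _ _ h (hT.cmul l k _ (hT.cadd l _ _ h h')), hT.cadd l _ _ h h',
    funext fun y => by ring⟩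

/-- The flip of a bit. -/
def fl (l : ℕ) : E.Z ≃ E.Z := Equiv.addRight (ue l, 0)

/-- Few columns are far from the code. -/
theorem core (hB : Bas E) (hC : Con E) (hT : TanP E) {δ ε : ℝ} (hδ : 0 < δ) (hδ' : δ ≤ 1)
    (h1 : (E.q + 3) * δ ≤ E.sm 2 / 16) (h2 : 10 * ε ≤ E.sm 2 / 16 * δ)
    (W : ℕ → E.Z → E.Z → E.K) (F : ℕ → E.Z → E.Z → Prop)
    (hF : ∀ l, pr (fun p : E.Z × E.Z => F l p.1 p.2) ≤ ε)
    (t0 : ∀ z y y', ¬F 0 z y → W 0 z y' = W 0 z y)
    (t1 : ∀ l < E.D, ∀ z y, ¬F (l + 1) z y →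
      W (l + 1) z y = W l z y + (f l z + f l y) * (W l z y + W l (fl l z) y))
    (t2 : ∀ l ≤ E.D, ∀ z y, ¬F l z y → ∀ b ρ,
      W l z y = ∑ t ∈ univ.erase (0 : E.K), W l (vz b (t • ρ) z) y)
    (t3 : ∀ l ≤ E.D, ∀ z y, ¬F l z y → ∀ b ρ,
      W l z y = ∑ t ∈ univ.erase (0 : E.K), W l z (vz b (t • ρ) y)) :
    ∀ l ≤ E.D, pr (fun z => ¬∃ c, Col l c ∧ pr (fun y => W l z y ≠ c y) ≤ δ) ≤ 4 * ε / δ := by
  have hq : 0 ≤ E.q * δ := mul_nonneg (by unfold Env.q; positivity) hδ.le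
  have loud : ∀ l, pr (fun z => δ / 2 ≤ pr (F l z)) ≤ 2 * ε / δ := fun l => by
    refine (markov (fun z => pr_nonneg _) (half_pos hδ)).trans ?_
    rw [← pr_prod fun p : E.Z × E.Z => F l p.1 p.2, div_div_eq_mul_div, mul_comm]
    exact div_le_div_of_nonneg_right (by linarith [hF l]) hδ.le
  have i1 : ∀ l ≤ E.D, ∀ z c, pr (F l z) < δ / 2 → Col l c →
      pr (fun y => W l z y ≠ c y) ≤ E.sm 2 / 16 → pr (fun y => W l z y ≠ c y) ≤ δ := by
    intro l hl z c hz hc h
    refine (hC.self _ (F l z) (fun y hy => ?_) h).trans (by linarith)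
    by_contra k
    obtain ⟨k, u⟩ := not_or.1 k
    obtain ⟨b, u⟩ := not_forall.1 u
    obtain ⟨ρ, u⟩ := line hB u
    refine hy ((t3 l hl z y k b ρ).trans (.trans ?_
      (hT.fx c (hT.mono _ _ c (by omega) (hT.ctan l hl c hc)) b ρ y).symm))
    exact sum_congr rfl fun t ht => not_not.1 (u t (ne_of_mem_erase ht))
  have i2 : ∀ l ≤ E.D,
      pr (fun z => ¬∃ c, Col l c ∧ pr (fun y => W l z y ≠ c y) ≤ δ) ≤ E.sm 2 / 16 →
      pr (fun z => ¬∃ c, Col l c ∧ pr (fun y => W l z y ≠ c y) ≤ δ) ≤ 4 * ε / δ := by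
    intro l hl h
    refine (hC.self _ (fun z => δ / 2 ≤ pr (F l z)) (fun z hz => ?_) h).trans
      (by linarith [loud l, show 4 * ε / δ = 2 * (2 * ε / δ) by ring])
    by_contra k
    obtain ⟨k, u⟩ := not_or.1 k
    obtain ⟨b, u⟩ := not_forall.1 u
    obtain ⟨ρ, u⟩ := line hB u
    replace k := not_le.1 k
    have : ∀ t : E.K, ∃ c, Col l c ∧
        pr (fun y => t ≠ 0 ∧ W l (vz b (t • ρ) z) y ≠ c y) ≤ δ := fun t => by
      by_cases ht : t = 0
      · exact ⟨_, hT.c0 l 0, (pr_of_not fun y w => w.1 ht).trans_le hδ.le⟩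
      · obtain ⟨c, hc, w⟩ := not_not.1 (u t ht)
        exact ⟨c, hc, (pr_mono fun y w => w.2).trans w⟩
    choose c hc hc' using this
    refine hz ⟨_, col_sum hT l _ c hc, i1 l hl z _ k (col_sum hT l (univ.erase 0) c hc) ?_⟩
    have := pr_exists_le' hc'
    rw [Nat.card_eq_fintype_card, E.card_K, Nat.cast_pow, Nat.cast_ofNat] at this
    refine (pr_le_add (p := F l z) (q := fun y => ∃ t, t ≠ 0 ∧ W l (vz b (t • ρ) z) y ≠ c t y)
      fun y hy => ?_).trans (by unfold Env.q at h1; linarith)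
    by_contra w
    push Not at w
    exact hy ((t2 l hl z y w.1 b ρ).trans (sum_congr rfl fun t ht => w.2 t (ne_of_mem_erase ht)))
  have e1 : 10 * ε / δ ≤ E.sm 2 / 16 := by rwa [div_le_iff₀ hδ]
  have e0 : 0 ≤ ε / δ := div_nonneg ((pr_nonneg _).trans (hF 0)) hδ.le
  have e2 : 2 * ε / δ = 2 * (ε / δ) ∧ 4 * ε / δ = 4 * (ε / δ) ∧ 10 * ε / δ = 10 * (ε / δ) :=
    ⟨by ring, by ring, by ring⟩
  intro l
  induction l with
  | zero =>
    refine fun hl => (pr_mono fun z hz => ?_).trans ((loud 0).trans (by linarith))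
    by_contra k
    obtain ⟨y, hy⟩ := exists_not_of_pr_lt (p := F 0 z) (by linarith)
    exact hz ⟨_, hT.c0 0 (W 0 z y), (pr_of_not fun y' u => u (t0 z y y' hy)).trans_le hδ.le⟩
  | succ l ih =>
    intro hl
    have := ih (Nat.le_of_succ_le hl)
    have h' := (pr_equiv (fl l) _).trans_le this
    refine i2 _ hl ((pr_le_add (p := fun z => δ / 2 ≤ pr (F (l + 1) z)) fun z hz => ?_).trans
      ((add_le_add (loud _) ((pr_or _ _).trans (add_le_add this h'))).trans (by linarith)))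
    by_contra k
    push Not at k
    obtain ⟨k, ⟨c, hc, u⟩, c', hc', u'⟩ := k
    refine hz ⟨_, col_sub hT l (f l z) hc hc', i1 _ hl z _ k (col_sub hT l (f l z) hc hc') ?_⟩
    refine (pr_le_add (p := F (l + 1) z)
      (q := fun y => W l z y ≠ c y ∨ W l (fl l z) y ≠ c' y) fun y hy => ?_).trans
      (by linarith [pr_or (fun y => W l z y ≠ c y) fun y => W l (fl l z) y ≠ c' y])
    by_contra w
    push Not at w
    exact hy (by rw [t1 l hl z y w.1, w.2.1, w.2.2])

theorem mg_flip (l : ℕ) (z y : E.Z) : mg l (fl l z) y = flp l (mg l z y) := by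
  refine Prod.ext (funext fun i => ?_) (by simp [mg, fl, flp])
  by_cases h : (i : ℕ) < l
  · simp [mg, fl, flp, msk, ue, h, h.ne]
  · simp [mg, fl, flp, msk, ue, h]

theorem mg_succ {l : ℕ} (hl : l < E.D) (z y : E.Z) :
    (mg (l + 1) z y = mg l z y ∧ bx z.1 l + bx y.1 l = 0) ∨
      (mg (l + 1) z y = flp l (mg l z y) ∧ bx z.1 l + bx y.1 l = 1) := by
  have e : ∀ a b : ZMod 2, a = b ∨ (b = a + 1 ∧ (a = 0 ↔ ¬b = 0)) := by decide
  refine (e (z.1 ⟨l, hl⟩) (y.1 ⟨l, hl⟩)).imp (fun h => ⟨Prod.ext (funext fun i => ?_) rfl, ?_⟩)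
    fun h => ⟨Prod.ext (funext fun i => ?_) rfl, ?_⟩
  · rcases lt_trichotomy (i : ℕ) l with k | k | k
    · simp [mg, msk, k, k.le]
    · obtain rfl : i = ⟨l, hl⟩ := Fin.ext k
      simp [mg, msk, h]
    · simp [mg, msk, k.not_gt, k.not_ge]
  · simp only [bx, dif_pos hl, h, E.add_self]
  · rcases lt_trichotomy (i : ℕ) l with k | k | k
    · simp [mg, flp, ue, msk, k, k.le, k.ne]
    · obtain rfl : i = ⟨l, hl⟩ := Fin.ext k
      simp [mg, flp, ue, msk, h.1]
    · simp [mg, flp, ue, msk, k.not_gt, k.not_ge, k.ne']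
  · by_cases k : y.1 ⟨l, hl⟩ = 0 <;> simp [bx, io, hl, h.2, k]

theorem flp_flp (l : ℕ) (p : E.P) : flp l (flp l p) = p :=
  Prod.ext (funext fun i => by simp [flp, add_assoc, CharTwo.add_self_eq_zero]) rfl

theorem mg_top (x : Bv E.D) (u : E.A × E.A) (y : E.Z) : mg E.D (x, u) y = (y.1, u, y.2) :=
  Prod.ext (funext fun i => by simp [mg, msk]) rfl

theorem sm_add (m n : ℕ) : E.sm (m + n) = E.sm m * E.sm n := by
  simp [Env.sm, pow_add, mul_comm]

theorem q_sm (k n : ℕ) : E.q ^ k * E.sm (k + n) = E.sm n := by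
  have : E.q ≠ 0 := by unfold Env.q; positivity
  simp only [Env.sm, pow_add]
  field_simp

theorem sm_pos (n : ℕ) : 0 < E.sm n := by unfold Env.sm Env.q; positivity

theorem sm_le (hB : Bas E) {m n : ℕ} (h : m < n) : 1000 * E.sm n ≤ E.sm m := by
  have q1 : 1000 ≤ E.q := by
    obtain ⟨a, b, -⟩ := hB.qge
    have : (1 : ℝ) ≤ E.D ^ 4 := one_le_pow₀ (by linarith)
    linarith
  obtain ⟨k, rfl⟩ := Nat.exists_eq_add_of_lt h
  rw [← q_sm (k + 1) m, show k + 1 + m = m + k + 1 by ring]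
  exact mul_le_mul_of_nonneg_right (q1.trans (le_self_pow₀ (by linarith) k.succ_ne_zero))
    (sm_pos _).le

end SS

open SS in
theorem stepSS : StepSS := by
  intro E hB hC hT T δ U W F hF hG ht
  have pu : ∀ l r, ∃ c : E.K, l ≤ E.D → ¬(F r ∨ W.tot r = 0) → Is (W.M l r) c := fun l r => by
    by_cases h : ∃ c : E.K, Is (W.M l r) c
    · exact h.imp fun _ h _ _ => h
    · refine ⟨0, fun hl k => (k (or_iff_not_imp_left.2 fun u => ?_)).elim⟩
      exact (hG r u).tot.f1 l hl (((hG r u).pur l hl).2.resolve_left h)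
  choose G hM using pu
  have s := fun m n (h : m < n) => sm_le hB h
  have i0 : pr (fun r => F r ∨ W.tot r = 0) ≤ 2 * E.sm 30 :=
    (pr_or _ _).trans (by linarith [s 30 200 (by omega), sm_pos (E := E) 200])
  have i1 := hB.near (fun _ r => F r ∨ W.tot r = 0) _ fun _ _ => i0
  rw [mul_left_comm, q_sm 9 21] at i1
  have ck : ∀ p, ¬(∃ l ≤ E.D, ∃ r, Nr l p r ∧ (F r ∨ W.tot r = 0)) → Chk G p := fun p h => by
    have k := fun u => h ⟨0, E.D.zero_le, p, .inl rfl, u⟩
    by_contra u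
    exact k (.inr ((hG p fun w => k (.inl w)).tot.f2 G
      (fun l hl r hr => hM l r hl fun w => h ⟨l, hl, r, hr, w⟩) u))
  have key := core hB hC hT (δ := E.sm 12) (ε := 2 * E.sm 21) (sm_pos _)
    (by have := s 0 12 (by omega); simp only [Env.sm, pow_zero] at this ⊢; linarith)
    (by
      have := q_sm (E := E) 1 11
      rw [pow_one] at this
      linarith [s 2 11 (by omega), s 2 12 (by omega), sm_pos (E := E) 2])
    (by linarith [s 14 21 (by omega), sm_add (E := E) 2 12, sm_pos (E := E) 14])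
    (fun l z y => G l (mg l z y))
    (fun n z y => ∃ l ≤ E.D, ∃ r, Nr l (mg n z y) r ∧ (F r ∨ W.tot r = 0))
    (fun l => (hB.lift l _).trans_le i1)
    (fun z y y' h => by
      rw [← (ck _ h).fst (y'.2 - y.2)]
      refine congrArg _ (Prod.ext (funext fun i => ?_) ?_) <;> simp [mg, msk])
    (fun l hl z y h => by
      have a := E.add_self
      rw [(ck _ h).sub l hl, mg_flip]
      rcases mg_succ hl z y with ⟨k, u⟩ | ⟨k, u⟩
      · rw [k]
        simp only [Env.sub, f, mg]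
        linear_combination (-(G l (msk false l z.1 + msk true l y.1, z.2, y.2) +
          G l (flp l (msk false l z.1 + msk true l y.1, z.2, y.2)))) * u
      · rw [k, flp_flp]
        simp only [Env.sub, f, mg, show ∀ p : E.P, (flp l p).2 = p.2 from fun _ => rfl]
        linear_combination (-(G l (msk false l z.1 + msk true l y.1, z.2, y.2) +
          G l (flp l (msk false l z.1 + msk true l y.1, z.2, y.2)))) * u -
          a (G l (msk false l z.1 + msk true l y.1, z.2, y.2)))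
    (fun l hl z y h b ρ => by simp only [hB.row]; exact ((ck _ h).itp l hl false b ρ).symm)
    (fun l hl z y h b ρ => by simp only [hB.col]; exact ((ck _ h).itp l hl true b ρ).symm)
    E.D le_rfl
  have : ∃ c, Col E.D c ∧ pr (fun y : E.Z => G E.D (y.1, 0, y.2) ≠ c y) ≤ E.sm 12 := by
    by_contra k
    have a := (hB.sl2 _).trans (mul_le_mul_of_nonneg_left ((hB.up _).trans_le key)
      (by unfold Env.q; positivity))
    rw [pr_of_all fun z => by simpa only [mg_top] using k, ← mul_div_assoc,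
      one_le_div (sm_pos _)] at a
    linarith [q_sm (E := E) 8 13, s 12 13 (by omega), sm_pos (E := E) 12]
  obtain ⟨c, hc, h⟩ := this
  refine ⟨fun h => c (h, 0, 0), ?_⟩
  have a := (hB.sl2 _).trans (mul_le_mul_of_nonneg_left i0 (by unfold Env.q; positivity))
  rw [mul_left_comm, q_sm 8 22] at a
  refine (pr_le_add (p := F) fun p hp => ?_).trans ((add_le_add hF ((hB.up fun y : E.Z =>
    (F (y.1, 0, y.2) ∨ W.tot (y.1, 0, y.2) = 0) ∨ G E.D (y.1, 0, y.2) ≠ c y).trans_le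
      ((pr_or _ _).trans (add_le_add a h)))).trans
      (by linarith [s 11 200 (by omega), s 11 22 (by omega), s 11 12 (by omega),
        sm_pos (E := E) 11]))
  by_contra k
  obtain ⟨k, u⟩ := not_or.1 k
  obtain ⟨u, w⟩ := not_or.1 u
  refine hp ((hG p k).out _ ?_)
  rw [enP, ← hT.cenc c hc, ← not_not.1 w]
  exact hM _ _ le_rfl u

end Pool.Agent.PP.QL
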