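import Pool.Agent.MP_13199e_lc.QL.Spec

/-! PROJECT QL, row SYS: the system of four registers holds a solution. -/

set_option autoImplicit false

namespace Pool.Agent.PP.QL

open Pool.Agent.MP_13199e_lc Env

namespace SysA

variable {E : Env}

theorem q_ge (B : Bas E) : (1024 : ℝ) ≤ E.q := by
  obtain ⟨h1, h2, -⟩ := B.qge
  have : (1 : ℝ) ≤ (E.D : ℝ) ^ 4 := one_le_pow₀ (by linarith)
  linarith

theorem sm_pos (B : Bas E) (n : ℕ) : 0 < E.sm n := by
  have := q_ge B
  unfold Env.sm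
  positivity

theorem sm_add (n m : ℕ) : E.sm (n + m) = E.sm n * E.sm m := by
  simp only [Env.sm, pow_add, one_div, mul_inv]

theorem sm_step (B : Bas E) {n m : ℕ} (h : n < m) : 1024 * E.sm m ≤ E.sm n := by
  have hq := q_ge B
  have : E.q ^ (n + 1) ≤ E.q ^ m := pow_le_pow_right₀ (by linarith) h
  have h0 : 0 < E.q ^ n := by positivity
  unfold Env.sm
  rw [mul_one_div, div_le_div_iff₀ (by positivity) h0]
  rw [pow_succ] at this
  nlinarith

theorem ext_ap (B : Nb E) {L : Loc} {I : BCirc × BCirc} (hL : L.Ok I)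
    (hD : E.D = (L.dm I).length + 2) (o : ℕ) (X : Bv E.D → Bool) :
    Env.ext (apB L I o X) = L.ap I o (Env.ext X) := by
  funext h
  by_cases k : h < 2 ^ E.D
  · obtain ⟨x, rfl⟩ := B.surj h k
    rw [B.ext]; rfl
  · have : 2 ^ (L.dm I).length ≤ h :=
      (Nat.pow_le_pow_right (by norm_num) (by omega)).trans (not_lt.1 k)
    simp [Loc.ap, (hL.dead h this).2, Env.ext, k]

theorem ext_y0 (B : Nb E) {L : Loc} {I : BCirc × BCirc} (hL : L.Ok I)
    (hD : E.D = (L.dm I).length + 2) :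
    Env.ext (E := E) (fun h => L.y0 (I, nb h)) = fun h => L.y0 (I, h) := by
  funext h
  by_cases k : h < 2 ^ E.D
  · obtain ⟨x, rfl⟩ := B.surj h k
    rw [B.ext]
  · have : 2 ^ (L.dm I).length ≤ h :=
      (Nat.pow_le_pow_right (by norm_num) (by omega)).trans (not_lt.1 k)
    simp [(hL.dead h this).1, Env.ext, k]

theorem ext_inj (B : Nb E) {X Y : Bv E.D → Bool} (h : Env.ext X = Env.ext Y) : X = Y :=
  funext fun x => by rw [← B.ext X x, h, B.ext]

theorem locP (B : Nb E) {L : Loc} {I : BCirc × BCirc} (hL : L.Ok I)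
    (hD : E.D = (L.dm I).length + 2) :
    T.LocP (fun i (X : Bv E.D → Bool) => ∀ h, apB L I (2 + i) X h = false) (apB L I 0) (apB L I 1)
      (fun h => L.y0 (I, nb h))
      fun X => EolSol I (L.dec (I, (List.range (2 ^ (L.dm I).length)).map (Env.ext X))) := by
  have v : ∀ i (X : Bv E.D → Bool), (∀ h, apB L I (2 + i) X h = false) ↔
      ∀ h, L.ap I (2 + i) (Env.ext X) h = false := fun i X => ⟨fun k h => by
        rw [← ext_ap B hL hD, show apB L I (2 + i) X = fun _ => false from funext k]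
        simp [Env.ext], fun k h => k _⟩
  have a := ext_ap B hL hD
  have y := ext_y0 B hL hD
  refine ⟨fun i hi X h => ?_, fun i hi X h => ?_, ?_, ⟨?_, ext_inj B ?_⟩, ?_⟩
  · refine (hL.line.fwd i hi _ ((v i X).1 h)).imp_left fun k => ⟨(v _ _).2 ?_, ext_inj B ?_⟩
    · rw [a]; exact k.1
    · rw [a, a]; exact k.2
  · refine (hL.line.bwd i hi _ ((v i X).1 h)).imp (fun k => ⟨(v _ _).2 ?_, ext_inj B ?_⟩)
      fun k => k.imp_right fun k => ⟨k.1, ext_inj B (k.2.trans y.symm)⟩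
    · rw [a]; exact k.1
    · rw [a, a]; exact k.2
  · rw [v, y]; exact hL.line.zero
  · rw [v, a, y]; exact hL.line.one.1
  · rw [a, a, y]; exact hL.line.one.2
  · rw [v, a, y]; exact hL.line.src

theorem dist (B : Bas E) (C : Con E) (Tn : TanP E) (X X' : Bv E.D → Bool)
    (h : pr (fun p => enB X p ≠ enB X' p) ≤ 4 * E.sm 32) : X = X' := by
  have fx : ∀ X : Bv E.D → E.K, Fx (enc X) := fun X =>
    Tn.fx _ (Tn.mono _ _ _ (Nat.le_mul_of_pos_left _ (by norm_num)) (Tn.enc X))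
  have k := C.dist _ _ (fx fun h => bt (X h)) (fx fun h => bt (X' h)) (by
    rw [← B.up]
    have := sm_step B (show 2 < 32 by norm_num)
    have := sm_pos B 32
    exact h.trans (by linarith))
  funext x
  have := congrFun k (x, 0, 0)
  rw [Tn.enc0, Tn.enc0] at this
  revert this
  cases X x <;> cases X' x <;> simp [bt]

theorem sam (B : Bas E) {S : Type} [Finite S] {γ : S → E.P} (h : Smp γ (E.sm 72)) :
    T.Sam (fun σ p => p + γ σ) (E.sm 32 / 8) (E.sm 70 / 256) := by
  intro A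
  have p32 := sm_pos B 32
  refine (h.tail A (by positivity)).trans ?_
  have e : E.sm 72 ^ 2 = E.sm 80 * E.sm 32 ^ 2 := by
    rw [sq, sq, ← sm_add, ← sm_add, ← sm_add]
  have a : pr A * (1 - pr A) ≤ 1 := by nlinarith [pr_nonneg A, pr_le_one A]
  have s1 := sm_step B (show 70 < 75 by norm_num)
  have s2 := sm_step B (show 75 < 80 by norm_num)
  have p80 := sm_pos B 80
  rw [div_le_iff₀ (by positivity), e]
  have : E.sm 80 * E.sm 32 ^ 2 * (pr A * (1 - pr A)) ≤ E.sm 80 * E.sm 32 ^ 2 :=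
    mul_le_of_le_one_right (mul_nonneg p80.le (sq_nonneg _)) a
  have : E.sm 80 * E.sm 32 ^ 2 ≤ E.sm 70 / 16384 * E.sm 32 ^ 2 :=
    mul_le_mul_of_nonneg_right (by linarith) (sq_nonneg _)
  nlinarith

end SysA

open SysA

theorem sysS : SysS := by
  intro hE hR hT E L I N hL hD hN Γ R Y F hΓ hS hF hK hG
  obtain ⟨B, C, Tn, Bn, sc, ss⟩ := hE E
  have : Nonempty (Fin Γ.length) := ⟨⟨0, List.length_pos_of_ne_nil hΓ⟩⟩
  have p70 := sm_pos B 70
  have p200 := sm_pos B 200
  have s0 := sm_step B (show 0 < 32 by norm_num)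
  have s1 := sm_step B (show 32 < 70 by norm_num)
  have s2 := sm_step B (show 60 < 70 by norm_num)
  have s3 := sm_step B (show 70 < 200 by norm_num)
  have e0 : E.sm 0 = 1 := by simp [Env.sm]
  obtain ⟨i, hi, X, -, h1, h2⟩ := hT E.P (Fin Γ.length) (ℕ → V4) E.K (Bv E.D → Bool) Is enB _ _ _ _
    _ Y (fun σ p => p + Γ[σ]) F (E.sm 32) (E.sm 70) (E.sm 60) (sm_pos B 32) (by linarith)
    (by linarith) (by linarith) B.inj (dist B C Tn) (locP Bn hL hD) (fun i hi => by
      obtain ⟨k1, k2, k3, k4⟩ := hK i hi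
      rw [k1, k2, k3, k4]
      exact hR E B C Tn Bn sc ss L I N hL hD hN i hi _ _ F hF fun p hp => (hG p hp).reg i hi)
    (sam B hS) (by linarith) fun p hp => (hG p hp).top
  rw [(hK i hi).1] at h1
  exact ⟨i, hi, X, h1, h2⟩

end Pool.Agent.PP.QL
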