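import Pool.Agent.MP_13199e_lc.QL.Spec

/-! PROJECT QL, row TAN: low degree words, code words and the code of the columns. -/

set_option autoImplicit false

namespace Pool.Agent.PP.QL

open Pool.Agent.MP_13199e_lc Pool.Agent.PolyT Function Finset Env

namespace TanK

/-- A polynomial function of degree at most `d`. -/
def PD {K : Type} [Field K] (d : ℕ) (φ : K → K) : Prop :=
  ∃ p : Polynomial K, p.natDegree ≤ d ∧ ∀ t, φ t = p.eval t

section
variable {K : Type} [Field K]

theorem pd_const (d : ℕ) (c : K) : PD d fun _ => c :=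
  ⟨Polynomial.C c, by simp, fun t => by simp⟩

theorem pd_id : PD 1 fun t : K => t :=
  ⟨Polynomial.X, by simp, fun t => by simp⟩

theorem pd_mono {d d' : ℕ} {φ : K → K} (h : d ≤ d') (H : PD d φ) : PD d' φ := by
  obtain ⟨p, hp, e⟩ := H
  exact ⟨p, hp.trans h, e⟩

theorem pd_add {d : ℕ} {φ ψ : K → K} (H : PD d φ) (H' : PD d ψ) : PD d fun t => φ t + ψ t := by
  obtain ⟨p, hp, e⟩ := H
  obtain ⟨p', hp', e'⟩ := H'
  exact ⟨p + p', (Polynomial.natDegree_add_le _ _).trans (max_le hp hp'),
    fun t => by rw [Polynomial.eval_add, ← e, ← e']⟩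

theorem pd_mul {d d' : ℕ} {φ ψ : K → K} (H : PD d φ) (H' : PD d' ψ) :
    PD (d + d') fun t => φ t * ψ t := by
  obtain ⟨p, hp, e⟩ := H
  obtain ⟨p', hp', e'⟩ := H'
  exact ⟨p * p', Polynomial.natDegree_mul_le.trans (add_le_add hp hp'),
    fun t => by rw [Polynomial.eval_mul, ← e, ← e']⟩

theorem pd_pow {d : ℕ} {φ : K → K} (H : PD d φ) (n : ℕ) : PD (n * d) fun t => φ t ^ n := by
  obtain ⟨p, hp, e⟩ := H
  exact ⟨p ^ n, Polynomial.natDegree_pow_le.trans (Nat.mul_le_mul_left _ hp),
    fun t => by rw [Polynomial.eval_pow, ← e]⟩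

theorem pd_sum {ι : Type} {d : ℕ} (s : Finset ι) {φ : ι → K → K} (H : ∀ i ∈ s, PD d (φ i)) :
    PD d fun t => ∑ i ∈ s, φ i t := by
  classical
  induction s using Finset.induction_on with
  | empty => simpa using pd_const d (0 : K)
  | insert a s ha ih =>
    simp only [Finset.sum_insert ha]
    exact pd_add (H a (mem_insert_self _ _)) (ih fun i hi => H i (mem_insert_of_mem hi))

theorem pd_prod {ι : Type} {d : ℕ} (s : Finset ι) {φ : ι → K → K} (H : ∀ i ∈ s, PD d (φ i)) :
    PD (s.card * d) fun t => ∏ i ∈ s, φ i t := by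
  classical
  induction s using Finset.induction_on with
  | empty => simpa using pd_const 0 (1 : K)
  | insert a s ha ih =>
    simp only [Finset.prod_insert ha, Finset.card_insert_of_notMem ha]
    refine pd_mono (le_of_eq ?_)
      (pd_mul (H a (mem_insert_self _ _)) (ih fun i hi => H i (mem_insert_of_mem hi)))
    ring

theorem pd_congr {d : ℕ} {φ ψ : K → K} (h : ∀ t, φ t = ψ t) (H : PD d ψ) : PD d φ := by
  have : φ = ψ := funext h
  rwa [this]

theorem pd_sum_zero [Fintype K] {d : ℕ} {φ : K → K} (H : PD d φ) (hd : d < Fintype.card K - 1) :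
    ∑ t, φ t = 0 := by
  obtain ⟨p, hp, e⟩ := H
  simp only [e, Polynomial.eval_eq_sum_range]
  rw [Finset.sum_comm]
  refine Finset.sum_eq_zero fun i hi => ?_
  rw [← Finset.mul_sum, FiniteField.sum_pow_lt_card_sub_one K i (by
    have := Finset.mem_range.1 hi; omega), mul_zero]

end

variable {E : Env}

theorem z2 (x : ZMod 2) : x = 0 ∨ x = 1 := by
  revert x; decide

theorem io_zero : (io 0 : E.K) = 0 := by simp [io]

theorem io_one : (io 1 : E.K) = 1 := by simp [io]

theorem io_add (x y : ZMod 2) : (io (x + y) : E.K) = io x + io y := by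
  have h11 : (1 + 1 : ZMod 2) = 0 := by decide
  rcases z2 x with rfl | rfl <;> rcases z2 y with rfl | rfl <;>
    simp [h11, io_zero, io_one, E.add_self]

theorem io_eq (x y : ZMod 2) : (io x + io y + 1 : E.K) = if y = x then 1 else 0 := by
  rcases z2 x with rfl | rfl <;> rcases z2 y with rfl | rfl <;>
    simp [io_zero, io_one, E.add_self]

theorem bx_lt (x : Bv E.D) {l : ℕ} (h : l < E.D) : bx x l = io (x ⟨l, h⟩) := by
  simp [bx, h]

theorem bx_fin (x : Bv E.D) (i : Fin E.D) : bx x i = io (x i) := bx_lt x i.2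

theorem bx_add (x y : Bv E.D) (l : ℕ) : bx (x + y) l = bx x l + bx y l := by
  unfold bx
  split_ifs with h
  · exact io_add _ _
  · simp

theorem lo_add (l : ℕ) (a α b : E.A) : lo l (a + α, b) = lo l (a, b) + lo l (α, b) := by
  simp only [lo, Pi.add_apply, add_mul, Finset.sum_add_distrib, add_pow_char_pow]

theorem hi_add (l : ℕ) (a α b : E.A) : hi l (a + α, b) = hi l (a, b) + hi l (α, b) := by
  simp only [hi, lo_add, add_pow_char_pow]

theorem hi_zero (l : ℕ) (b : E.A) : hi l ((0 : E.A), b) = 0 := by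
  simp [hi, lo]

theorem pow_ss (y : E.K) (n : ℕ) : (y ^ (2 ^ E.e * n)) ^ 2 ^ E.e = y ^ n := by
  have h : 2 ^ E.e * n * 2 ^ E.e = n * Fintype.card E.K := by
    rw [E.card_K, two_mul, pow_add]; ring
  rw [← pow_mul, h, pow_mul, FiniteField.pow_card]

theorem hi_eq (l : ℕ) (a b : E.A) :
    hi l (a, b) = ∑ j ∈ range E.e, (∑ k, a k ^ 2 ^ E.e * b k ^ (l + 1)) ^ 2 ^ j := by
  simp only [hi, lo]
  rw [sum_pow_char_pow]
  refine Finset.sum_congr rfl fun j _ => ?_
  rw [← pow_mul, mul_comm (2 ^ j) (2 ^ E.e), pow_mul, sum_pow_char_pow]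
  simp only [mul_pow, pow_ss]

theorem f_false (B : Bas E) {l : ℕ} (h : l < E.D) (α : E.A) (z : E.Z) :
    f l (vz false α z) = f l z + lo l (α, z.2.2) := by
  obtain ⟨x, a, b⟩ := z
  have t := B.tr ⟨l, h⟩ (α, b)
  simp only [f, vz, cond_false, bx_add, hi_add]
  rw [bx_lt (g (α, b)) h, t]
  have := E.add_self (hi l (α, b))
  linear_combination this

theorem tf (B : Bas E) {l : ℕ} (h : l < E.D) : Tan (E.D * 2 ^ E.e) (f (E := E) l) := by
  intro v ρ z
  have hj : ∀ j ∈ range E.e, 2 ^ j ≤ 2 ^ E.e := fun j hj =>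
    Nat.pow_le_pow_right (by norm_num) (mem_range.1 hj).le
  cases v
  · refine pd_congr (fun t => f_false B h (t • ρ) z) (pd_add (pd_const _ _) ?_)
    refine pd_sum (φ := fun j t => (∑ k, (t • ρ) k * z.2.2 k ^ (2 ^ E.e * (l + 1))) ^ 2 ^ j) _
      fun j hj' => ?_
    refine pd_mono ?_ (pd_pow (d := 1) (pd_sum _ fun k _ => ?_) _)
    · rw [mul_comm]
      exact Nat.mul_le_mul (by omega) (hj j hj')
    · exact pd_mul (d := 1) (d' := 0) (pd_mul (d := 1) (d' := 0) pd_id (pd_const 0 (ρ k)))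
        (pd_const 0 _)
  · obtain ⟨x, a, b⟩ := z
    refine pd_congr (ψ := fun t => bx x l +
      ∑ j ∈ range E.e, (∑ k, a k ^ 2 ^ E.e * (b k + t * ρ k) ^ (l + 1)) ^ 2 ^ j)
      (fun t => by simp only [f, vz, cond_true, hi_eq, Pi.add_apply, Pi.smul_apply, smul_eq_mul])
      (pd_add (pd_const _ _) (pd_sum _ fun j hj' => ?_))
    refine pd_mono ?_ (pd_pow (d := l + 1) (pd_sum _ fun k _ => ?_) _)
    · have := hj j hj'
      rw [mul_comm]
      exact Nat.mul_le_mul h this
    · refine pd_mono (le_of_eq ?_) (pd_mul (pd_const 0 _) (pd_pow (d := 1) (pd_add (pd_const 1 (b k))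
        (pd_mul (d := 1) (d' := 0) pd_id (pd_const 0 (ρ k)))) (l + 1)))
      ring

theorem deg_lt (B : Bas E) : 11 * (E.D ^ 2 * 2 ^ E.e) < Fintype.card E.K - 1 := by
  have h1 := E.big
  have h2 : 1000 ≤ E.D := by exact_mod_cast B.qge.2.1
  rw [E.card_K, two_mul, pow_add]
  generalize 2 ^ E.e = s at h1 ⊢
  have h3 : 1 ≤ E.D ^ 2 := Nat.one_le_pow _ _ (by omega)
  generalize E.D ^ 2 = n at h1 h3 ⊢
  have h4 : 32 * n * s ≤ s * s := Nat.mul_le_mul_right _ h1
  have h5 : 32 ≤ n * s := by nlinarith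
  have h6 : 11 * (n * s) + 2 ≤ s * s := by nlinarith
  omega

theorem fx (B : Bas E) (W : E.Z → E.K) (H : Tan (11 * (E.D ^ 2 * 2 ^ E.e)) W) : Fx W := by
  intro v ρ z
  have h := pd_sum_zero (φ := fun t => W (vz v (t • ρ) z)) (H v ρ z) (deg_lt B)
  rw [← Finset.add_sum_erase _ _ (mem_univ (0 : E.K)), zero_smul, B.zero] at h
  have := E.add_self (W z)
  linear_combination this - h

theorem tenc (B : Bas E) (X : Bv E.D → E.K) : Tan (E.D ^ 2 * 2 ^ E.e) (enc X) := by
  intro v ρ z
  refine pd_sum (φ := fun h t => X h * ∏ i : Fin E.D, (f i (vz v (t • ρ) z) + io (h i) + 1)) _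
    fun h _ => ?_
  refine pd_mono (le_of_eq ?_) (pd_mul (pd_const 0 _) (pd_prod (d := E.D * 2 ^ E.e) _ fun i _ =>
    pd_add (pd_add (tf B i.2 v ρ z) (pd_const _ _)) (pd_const _ _)))
  rw [Finset.card_univ, Fintype.card_fin]; ring

theorem f_zero (l : ℕ) (x : Bv E.D) (b : E.A) : f l (x, (0 : E.A), b) = bx x l := by
  simp only [f, hi_zero, add_zero]

theorem enc0 (X : Bv E.D → E.K) (x : Bv E.D) (b : E.A) : enc X (x, 0, b) = X x := by
  simp only [enc, f_zero, bx_fin, io_eq, Finset.prod_ite_zero, mem_univ, forall_const,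
    Finset.prod_const_one]
  rw [Finset.sum_eq_single x]
  · simp
  · intro h _ hx
    rw [if_neg fun hh => hx (funext hh), mul_zero]
  · simp

theorem encs (X : Bv E.D → E.K) (x δ : Bv E.D) (u : E.A × E.A) :
    enc X (x + δ, u) = enc (fun h => X (h + δ)) (x, u) := by
  simp only [enc]
  rw [← Equiv.sum_comp (Equiv.addRight δ)]
  refine Finset.sum_congr rfl fun h _ => ?_
  simp only [Equiv.coe_addRight]
  congr 1
  refine Finset.prod_congr rfl fun i _ => ?_
  simp only [f, bx_fin, Pi.add_apply, io_add]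
  have := E.add_self (io (δ i))
  linear_combination this

theorem c0 (l : ℕ) (k : E.K) : Col l fun _ => k := by
  induction l generalizing k with
  | zero => exact ⟨k, rfl⟩
  | succ l ih => exact ⟨_, _, ih k, ih 0, funext fun y => by simp⟩

theorem cadd (l : ℕ) (a b : E.Z → E.K) (ha : Col l a) (hb : Col l b) :
    Col l fun y => a y + b y := by
  induction l generalizing a b with
  | zero =>
    obtain ⟨k, rfl⟩ := ha
    obtain ⟨k', rfl⟩ := hb
    exact ⟨k + k', rfl⟩
  | succ l ih =>
    obtain ⟨a1, a2, h1, h2, rfl⟩ := ha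
    obtain ⟨b1, b2, h3, h4, rfl⟩ := hb
    exact ⟨_, _, ih _ _ h1 h3, ih _ _ h2 h4, funext fun y => by ring⟩

theorem cmul (l : ℕ) (k : E.K) (a : E.Z → E.K) (ha : Col l a) : Col l fun y => k * a y := by
  induction l generalizing a with
  | zero =>
    obtain ⟨k', rfl⟩ := ha
    exact ⟨k * k', rfl⟩
  | succ l ih =>
    obtain ⟨a1, a2, h1, h2, rfl⟩ := ha
    exact ⟨_, _, ih _ h1, ih _ h2, funext fun y => by ring⟩

theorem ctan (B : Bas E) (l : ℕ) (hl : l ≤ E.D) (c : E.Z → E.K) (hc : Col l c) :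
    Tan (l * (E.D * 2 ^ E.e)) c := by
  induction l generalizing c with
  | zero =>
    obtain ⟨k, rfl⟩ := hc
    exact fun v ρ z => pd_const _ k
  | succ l ih =>
    obtain ⟨a, b, h1, h2, rfl⟩ := hc
    intro v ρ z
    refine pd_add (pd_mono (Nat.mul_le_mul_right _ (Nat.le_succ l)) (ih (by omega) _ h1 v ρ z))
      (pd_mono (le_of_eq ?_) (pd_mul (ih (by omega) _ h2 v ρ z) (tf B (by omega) v ρ z)))
    ring

theorem cdep (l : ℕ) (c : E.Z → E.K) (hc : Col l c) (y y' : E.Z) (h : ∀ i < l, f i y = f i y') :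
    c y = c y' := by
  induction l generalizing c with
  | zero =>
    obtain ⟨k, rfl⟩ := hc
    rfl
  | succ l ih =>
    obtain ⟨a, b, h1, h2, rfl⟩ := hc
    have h' : ∀ i < l, f i y = f i y' := fun i hi => h i (by omega)
    show a y + b y * f l y = a y' + b y' * f l y'
    rw [ih a h1 h', ih b h2 h', h l (by omega)]

theorem bx_ue {l i : ℕ} (h : i ≠ l) : bx (ue l : Bv E.D) i = 0 := by
  unfold bx
  split_ifs with hi
  · simp [ue, h, io_zero]
  · rfl

theorem enc_const (k : E.K) (y : E.Z) : enc (fun _ => k) y = k := by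
  simp only [enc]
  rw [← Finset.mul_sum, ← Fintype.piFinset_univ,
    ← Finset.prod_univ_sum (fun _ => univ) fun (i : Fin E.D) (x : ZMod 2) => f i y + io x + 1,
    Finset.prod_eq_one, mul_one]
  intro i _
  have hu : (univ : Finset (ZMod 2)) = {0, 1} := by decide
  rw [hu, Finset.sum_pair (by decide), io_zero, io_one]
  have h1 := E.add_self (f i y)
  have h2 := E.add_self 1
  linear_combination h1 + h2

theorem enc_mul (X : Bv E.D → E.K) (i : Fin E.D) (hX : ∀ h, X (h + ue i) = X h) (y : E.Z) :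
    enc (fun h => X h * io (h i)) y = enc X y * f i y := by
  have hs : ∑ h : Bv E.D, X h * ∏ j ∈ univ.erase i, (f j y + io (h j) + 1) = 0 := by
    refine Finset.sum_involution (fun h _ => h + ue i) (fun h _ => ?_) (fun h _ _ hh => ?_)
      (fun _ _ => mem_univ _) fun h _ => ?_
    · have : ∏ j ∈ univ.erase i, (f j y + io ((h + ue i : Bv E.D) j) + 1) =
          ∏ j ∈ univ.erase i, (f j y + io (h j) + 1) := by
        refine Finset.prod_congr rfl fun j hj => ?_
        have : (j : ℕ) ≠ i := fun e => (Finset.mem_erase.1 hj).1 (Fin.ext e)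
        simp [ue, this]
      rw [hX, this, E.add_self]
    · have := congrFun hh i
      simp [ue] at this
    · funext j
      simp only [Pi.add_apply, add_assoc, CharTwo.add_self_eq_zero, add_zero]
  have key : enc (fun h => X h * io (h i)) y + enc X y * f i y =
      (f i y * (f i y + 1)) * ∑ h : Bv E.D, X h * ∏ j ∈ univ.erase i, (f j y + io (h j) + 1) := by
    simp only [enc]
    rw [Finset.sum_mul, ← Finset.sum_add_distrib, Finset.mul_sum]
    refine Finset.sum_congr rfl fun h _ => ?_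
    rw [← Finset.mul_prod_erase _ _ (mem_univ i)]
    generalize ∏ j ∈ univ.erase i, (f j y + io (h j) + 1) = R
    have h2 := E.add_self 1
    rcases z2 (h i) with e | e
    · rw [e, io_zero]; ring
    · rw [e, io_one]
      linear_combination (X h * R * (f i y + 1)) * h2
  rw [hs, mul_zero] at key
  have := E.add_self (enc X y * f i y)
  linear_combination key - this

theorem cenc (l : ℕ) (hl : l ≤ E.D) (c : E.Z → E.K) (hc : Col l c) (y : E.Z) :
    c y = enc (fun h => c (h, 0, 0)) y := by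
  induction l generalizing c with
  | zero =>
    obtain ⟨k, rfl⟩ := hc
    exact (enc_const k y).symm
  | succ l ih =>
    obtain ⟨a, b, h1, h2, rfl⟩ := hc
    have hl' : l < E.D := hl
    have hb : ∀ h : Bv E.D, b (h + ue l, 0, 0) = b (h, 0, 0) := fun h =>
      cdep l b h2 _ _ fun i hi => by rw [f_zero, f_zero, bx_add, bx_ue hi.ne, add_zero]
    have hm := enc_mul (fun h => b (h, 0, 0)) ⟨l, hl'⟩ hb y
    show a y + b y * f l y = _
    rw [ih hl'.le a h1, ih hl'.le b h2, ← hm]
    simp only [enc, f_zero, bx_lt _ hl', add_mul, Finset.sum_add_distrib]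

end TanK

open TanK in
/-- TAN -/
theorem tanS : TanS := fun E B =>
  { const := fun d c _ _ _ => pd_const d c
    mono := fun _ _ _ h H v ρ z => pd_mono h (H v ρ z)
    add := fun _ _ _ H H' v ρ z => pd_add (H v ρ z) (H' v ρ z)
    mul := fun _ _ _ _ H H' v ρ z => pd_mul (H v ρ z) (H' v ρ z)
    shift := fun _ W x H v ρ z => pd_congr (fun t => by
      cases v
      · simp only [vz, cond_false, add_right_comm z.1 _ x]
      · simp only [vz, cond_true]) (H v ρ (z.1 + x, z.2))
    tf := fun _ h => tf B h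
    fx := fx B
    enc := tenc B
    enc0 := enc0
    encs := encs
    c0 := c0
    cadd := cadd
    cmul := cmul
    ctan := fun l hl c hc v ρ z => pd_mono (by
      rw [sq, mul_assoc]; exact Nat.mul_le_mul_right _ hl) (ctan B l hl c hc v ρ z)
    cenc := fun c hc => funext (cenc _ le_rfl c hc) }

end Pool.Agent.PP.QL
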