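import Pool.Agent.MP_13199e_lc.QL.Back
import Pool.Agent.MP_13199e_lc.QL.Both
import Pool.Agent.MP_13199e_lc.QL.Bas
import Pool.Agent.MP_13199e_lc.QL.Mix
import Pool.Agent.MP_13199e_lc.QL.Cont
import Pool.Agent.MP_13199e_lc.QL.Tan
import Pool.Agent.MP_13199e_lc.QL.Ideal
import Pool.Agent.MP_13199e_lc.QL.StepC
import Pool.Agent.MP_13199e_lc.QL.StepS
import Pool.Agent.MP_13199e_lc.QL.Reg
import Pool.Agent.MP_13199e_lc.QL.T.Top
import Pool.Agent.MP_13199e_lc.QL.Sys
import Pool.Agent.MP_13199e_lc.QL.Nb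
import Pool.Agent.MP_13199e_lc.QL.Num
import Pool.Agent.MP_13199e_lc.QL.Sam
import Pool.Agent.MP_13199e_lc.QL.Dec
import Pool.Agent.MP_13199e_lc.QL.I.Imp
import Pool.Agent.MP_13199e_lc.QL.Base
import Pool.Agent.MP_13199e_lc.QL.Fld
import Pool.Agent.MP_13199e_lc.QL.Loc
import Pool.Agent.MP_13199e_lc.QL.Mac

/-! PROJECT QL: the assembly. -/

set_option autoImplicit false

namespace Pool.Agent.PP.QL

open Pool.Agent.MP_13199e_lc

theorem qBase : QBase :=
  qbase_of basS mixS conS tanS idealS stepCS stepSS regS T.topS sysS nbS numS samS decS impS baseS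
    fldS routeS locLine macS

theorem quasiOpt : QuasiOpt := (quasi_of qBase).2

end Pool.Agent.PP.QL
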